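import Pool.Agent.MUP.Defs

/-!
MUP / CNA.  Formal properties of `Cop`.

* `cop_trans` : given `r` with `‖r_i^* q r_j - δ_ij p‖ ≤ ε/2` choose `s` (the single element of
  the family for `Cop 1 q q'`) with `‖s^* q' s - q‖ ≤ θ` where `θ (1 + ∑_i ‖r_i‖)^2 ≤ ε/2`, and
  take `s r_i`.
* `cop_trans'` : first `s` with `‖s^* p' s - p‖ ≤ ε/2`, then `r` with
  `‖r_i^* q r_j - δ_ij p'‖ ≤ θ`, `θ ‖s‖^2 ≤ ε/2`; take `r_i s`.
* `cop_mono` : restrict the family along `Fin.castLE`.
* `cop_mul` : first `r` for `Cop m p q` with error `ε/2`, then `t` for `Cop n q q'` with a very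
  small error; take the family `t_b r_a`, `(a, b) ∈ Fin m × Fin n`, reindexed by
  `finProdFinEquiv`:
  `(t_b r_a)^* q' (t_d r_c) = r_a^* (t_b^* q' t_d) r_c ≈ δ_bd r_a^* q r_c ≈ δ_bd δ_ac p`.
* `cop_all` : by induction `Cop (2^k) q q` from `cop_mul`, then `cop_mono` with `n ≤ 2^n`.
* `cop_approx` : triangle inequality (the difference on the diagonal is `‖p' - p‖ ≤ ε/2`).
* `cop_approx_right`: perturbation on the right is not needed.
-/

open Filter Topology

namespace MUP

variable {B : Type*} [CStarAlgebra B]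

private theorem CNA_sand (a x b : B) : ‖star a * x * b‖ ≤ ‖a‖ * ‖x‖ * ‖b‖ := by
  refine (norm_mul_le _ _).trans (mul_le_mul_of_nonneg_right ?_ (norm_nonneg _))
  refine (norm_mul_le _ _).trans ?_
  rw [norm_star]

private theorem CNA_bound {n : ℕ} (r : Fin n → B) : ∃ K : ℝ, 0 < K ∧ ∀ i, ‖r i‖ ≤ K := by
  refine ⟨1 + ∑ i, ‖r i‖, by positivity, fun i => ?_⟩
  have h1 : ‖r i‖ ≤ ∑ j, ‖r j‖ :=
    Finset.single_le_sum (f := fun j => ‖r j‖) (fun j _ => norm_nonneg _) (Finset.mem_univ i)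
  linarith

private theorem CNA_sand' {a x b : B} {K θ : ℝ} (hK : 0 < K) (ha : ‖a‖ ≤ K) (hb : ‖b‖ ≤ K)
    (hx : ‖x‖ ≤ θ / K ^ 2) : ‖star a * x * b‖ ≤ θ := by
  have h0 : 0 ≤ θ / K ^ 2 := (norm_nonneg x).trans hx
  calc ‖star a * x * b‖ ≤ ‖a‖ * ‖x‖ * ‖b‖ := CNA_sand a x b
    _ ≤ K * (θ / K ^ 2) * K := by
        refine mul_le_mul ?_ hb (norm_nonneg _) (by positivity)
        exact mul_le_mul ha hx (norm_nonneg _) hK.le
    _ = θ := by field_simp

theorem cop_trans {n : ℕ} {p q q' : B} (h : Cop n p q) (h' : Cop 1 q q') : Cop n p q' := by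
  intro ε hε
  obtain ⟨r, hr⟩ := h (ε / 2) (by linarith)
  obtain ⟨K, hK, hrK⟩ := CNA_bound r
  obtain ⟨s, hs⟩ := h' (ε / 2 / K ^ 2) (by positivity)
  have hs0 := hs 0 0
  rw [if_pos rfl] at hs0
  refine ⟨fun i => s 0 * r i, fun i j => ?_⟩
  have h1 : star (s 0 * r i) * q' * (s 0 * r j) - (if i = j then p else 0) =
      star (r i) * (star (s 0) * q' * s 0 - q) * r j +
        (star (r i) * q * r j - (if i = j then p else 0)) := by
    rw [star_mul]
    noncomm_ring
  rw [h1]
  calc _ ≤ ‖star (r i) * (star (s 0) * q' * s 0 - q) * r j‖ +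
        ‖star (r i) * q * r j - (if i = j then p else 0)‖ := norm_add_le _ _
    _ ≤ ε / 2 + ε / 2 := add_le_add (CNA_sand' hK (hrK i) (hrK j) hs0) (hr i j)
    _ = ε := by ring

theorem cop_trans' {n : ℕ} {p p' q : B} (h : Cop 1 p p') (h' : Cop n p' q) : Cop n p q := by
  intro ε hε
  obtain ⟨s, hs⟩ := h (ε / 2) (by linarith)
  have hs0 := hs 0 0
  rw [if_pos rfl] at hs0
  obtain ⟨K, hK, hsK⟩ := CNA_bound s
  obtain ⟨r, hr⟩ := h' (ε / 2 / K ^ 2) (by positivity)
  refine ⟨fun i => r i * s 0, fun i j => ?_⟩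
  have h1 : star (r i * s 0) * q * (r j * s 0) - (if i = j then p else 0) =
      star (s 0) * (star (r i) * q * r j - (if i = j then p' else 0)) * s 0 +
        (if i = j then star (s 0) * p' * s 0 - p else 0) := by
    rw [star_mul]
    split_ifs <;> noncomm_ring
  rw [h1]
  have h2 : ‖(if i = j then star (s 0) * p' * s 0 - p else 0 : B)‖ ≤ ε / 2 := by
    split_ifs
    · exact hs0
    · rw [norm_zero]
      linarith
  calc _ ≤ ‖star (s 0) * (star (r i) * q * r j - (if i = j then p' else 0)) * s 0‖ +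
        ‖(if i = j then star (s 0) * p' * s 0 - p else 0 : B)‖ := norm_add_le _ _
    _ ≤ ε / 2 + ε / 2 := add_le_add (CNA_sand' hK (hsK 0) (hsK 0) (hr i j)) h2
    _ = ε := by ring

theorem cop_mono {m n : ℕ} {p q : B} (hmn : m ≤ n) (h : Cop n p q) : Cop m p q := by
  intro ε hε
  obtain ⟨r, hr⟩ := h ε hε
  refine ⟨fun i => r (Fin.castLE hmn i), fun i j => ?_⟩
  have h1 := hr (Fin.castLE hmn i) (Fin.castLE hmn j)
  have h2 : (Fin.castLE hmn i = Fin.castLE hmn j) ↔ i = j :=
    (Fin.castLE_injective hmn).eq_iff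
  simp only [h2] at h1
  exact h1

theorem cop_mul {m n : ℕ} {p q q' : B} (h : Cop m p q) (h' : Cop n q q') :
    Cop (m * n) p q' := by
  intro ε hε
  obtain ⟨r, hr⟩ := h (ε / 2) (by linarith)
  obtain ⟨K, hK, hrK⟩ := CNA_bound r
  obtain ⟨t, ht⟩ := h' (ε / 2 / K ^ 2) (by positivity)
  refine ⟨fun x => t (finProdFinEquiv.symm x).2 * r (finProdFinEquiv.symm x).1, fun x y => ?_⟩
  have hxy : x = y ↔ (finProdFinEquiv.symm x).1 = (finProdFinEquiv.symm y).1 ∧
      (finProdFinEquiv.symm x).2 = (finProdFinEquiv.symm y).2 := by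
    rw [← Prod.ext_iff]
    exact (finProdFinEquiv.symm.injective.eq_iff).symm
  change ‖star (t (finProdFinEquiv.symm x).2 * r (finProdFinEquiv.symm x).1) * q' *
    (t (finProdFinEquiv.symm y).2 * r (finProdFinEquiv.symm y).1) -
    (if x = y then p else 0)‖ ≤ ε
  generalize (finProdFinEquiv.symm x) = a at hxy ⊢
  generalize (finProdFinEquiv.symm y) = c at hxy ⊢
  obtain ⟨a, b⟩ := a
  obtain ⟨c, d⟩ := c
  simp only [hxy]
  have h1 : star (t b * r a) * q' * (t d * r c) - (if a = c ∧ b = d then p else 0) =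
      star (r a) * (star (t b) * q' * t d - (if b = d then q else 0)) * r c +
        (if b = d then star (r a) * q * r c - (if a = c then p else 0) else 0) := by
    rw [star_mul]
    by_cases hb : b = d
    · by_cases ha : a = c
      · simp only [hb, ha, and_self, if_true]
        noncomm_ring
      · simp only [hb, ha, false_and, if_true, if_false]
        noncomm_ring
    · simp only [hb, and_false, if_false]
      noncomm_ring
  rw [h1]
  have h2 : ‖(if b = d then star (r a) * q * r c - (if a = c then p else 0) else 0 : B)‖ ≤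
      ε / 2 := by
    by_cases hb : b = d
    · rw [if_pos hb]
      exact hr a c
    · rw [if_neg hb, norm_zero]
      linarith
  calc _ ≤ ‖star (r a) * (star (t b) * q' * t d - (if b = d then q else 0)) * r c‖ +
        ‖(if b = d then star (r a) * q * r c - (if a = c then p else 0) else 0 : B)‖ :=
        norm_add_le _ _
    _ ≤ ε / 2 + ε / 2 := add_le_add (CNA_sand' hK (hrK a) (hrK c) (ht b d)) h2
    _ = ε := by ring

theorem cop_all {q : B} (h : Cop 2 q q) (n : ℕ) : Cop n q q := by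
  have h1 : ∀ k : ℕ, Cop (2 ^ k) q q := by
    intro k
    induction k with
    | zero => exact cop_mono (by norm_num) h
    | succ k ih =>
      rw [pow_succ]
      exact cop_mul ih h
  exact cop_mono (Nat.lt_two_pow_self).le (h1 n)

theorem cop_approx {n : ℕ} {p q : B}
    (h : ∀ ε : ℝ, 0 < ε → ∃ p' : B, ‖p' - p‖ ≤ ε ∧ Cop n p' q) : Cop n p q := by
  intro ε hε
  obtain ⟨p', hp', hc⟩ := h (ε / 2) (by linarith)
  obtain ⟨r, hr⟩ := hc (ε / 2) (by linarith)
  refine ⟨r, fun i j => ?_⟩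
  have h1 : star (r i) * q * r j - (if i = j then p else 0) =
      (star (r i) * q * r j - (if i = j then p' else 0)) + (if i = j then p' - p else 0) := by
    split_ifs <;> noncomm_ring
  rw [h1]
  have h2 : ‖(if i = j then p' - p else 0 : B)‖ ≤ ε / 2 := by
    split_ifs
    · exact hp'
    · rw [norm_zero]
      linarith
  calc _ ≤ ‖star (r i) * q * r j - (if i = j then p' else 0)‖ +
        ‖(if i = j then p' - p else 0 : B)‖ := norm_add_le _ _
    _ ≤ ε / 2 + ε / 2 := add_le_add (hr i j) h2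
    _ = ε := by ring

end MUP
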