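import Pool.Agent.MUP.Defs

/-!
MUP / LFM.  If `0 ≤ p ≤ q` then `p` is Cuntz subequivalent to `q` (in `B` itself, with a
bounded formula): `Cop 1 p q`.

Proof.  Let `δ > 0`, let `h = (q + δ)^{-1/2}` (continuous functional calculus, or
`(q + δ)` is invertible and strictly positive; one can also use `CFC.rpow`/`CFC.sqrt` of the
inverse) and `s = p^{1/2}` (`CFC.sqrt p`), `r = h s`.  Then
`r^* q r = s h q h s = s (1 - δ (q + δ)^{-1}) s = p - δ s (q + δ)^{-1} s`.
The error is `δ ‖s (q + δ)^{-1} s‖ = δ ‖(h s)^* (h s)‖ = δ ‖(h s)(h s)^*‖ = δ ‖h p h‖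
≤ δ ‖h q h‖ ≤ δ`, because `0 ≤ h p h ≤ h q h` (conjugation is monotone:
`IsSelfAdjoint.conjugate_le_conjugate` / `star_left_conjugate_le_conjugate`), norms are monotone
on positive elements (`CStarAlgebra.norm_le_norm_of_nonneg_of_le`) and `h q h` is the function
`s / (s + δ) ≤ 1` of `q`.  Take `δ = ε`.
-/

open Filter Topology

namespace MUP

variable {B : Type*} [CStarAlgebra B] [PartialOrder B] [StarOrderedRing B]

private noncomputable def lfmF (δ : ℝ) : ℝ → ℝ := fun s => 1 / √(max s 0 + δ)

private theorem lfmF_cont {δ : ℝ} (hδ : 0 < δ) : Continuous (lfmF δ) := by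
  unfold lfmF
  refine continuous_const.div (by fun_prop) ?_
  intro s
  have : 0 < max s 0 + δ := by positivity
  exact (Real.sqrt_pos.mpr this).ne'

private theorem lfmF_sq {δ : ℝ} (hδ : 0 < δ) (s : ℝ) : lfmF δ s * lfmF δ s = 1 / (max s 0 + δ) := by
  have : 0 < max s 0 + δ := by positivity
  unfold lfmF
  rw [div_mul_div_comm, Real.mul_self_sqrt this.le, one_mul]

theorem cop_of_le {p q : B} (hp : 0 ≤ p) (hpq : p ≤ q) : Cop 1 p q := by
  have hq : 0 ≤ q := hp.trans hpq
  have hqsa : IsSelfAdjoint q := IsSelfAdjoint.of_nonneg hq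
  intro ε hε
  have hc := lfmF_cont hε
  set h : B := cfc (lfmF ε) q with hh
  set s : B := CFC.sqrt p with hs
  have hsnn : 0 ≤ s := CFC.sqrt_nonneg p
  have hssa : IsSelfAdjoint s := IsSelfAdjoint.of_nonneg hsnn
  have hss : s * s = p := CFC.sqrt_mul_sqrt_self p hp
  have hhsa : IsSelfAdjoint h := cfc_predicate _ _
  -- `h * h`
  have hhh : h * h = cfc (fun t : ℝ => 1 / (max t 0 + ε)) q := by
    rw [hh, ← cfc_mul (lfmF ε) (lfmF ε) q hc.continuousOn hc.continuousOn]
    refine cfc_congr fun t _ => ?_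
    exact lfmF_sq hε t
  have hc2 : Continuous (fun t : ℝ => 1 / (max t 0 + ε)) := by
    refine continuous_const.div (by fun_prop) ?_
    intro t
    have : 0 < max t 0 + ε := by positivity
    exact this.ne'
  have hcid : Continuous (fun t : ℝ => t) := continuous_id
  have hhqh : h * q * h = cfc (fun t : ℝ => t * (1 / (max t 0 + ε))) q := by
    have hqid : cfc (fun t : ℝ => t) q = q := cfc_id' ℝ q hqsa
    have hcomm : h * q = q * h := by
      have h0 := (cfc_commute_cfc (lfmF ε) (fun t : ℝ => t) q).eq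
      rw [hqid] at h0
      exact h0
    rw [hcomm, mul_assoc, hhh]
    conv_lhs => enter [1]; rw [← hqid]
    rw [← cfc_mul (fun t : ℝ => t) (fun t : ℝ => 1 / (max t 0 + ε)) q hcid.continuousOn
      hc2.continuousOn]
  have hone : 1 - h * q * h = ε • (h * h) := by
    rw [hhqh, hhh]
    have h1 : cfc (fun _ : ℝ => (1 : ℝ)) q = 1 := cfc_const_one ℝ q hqsa
    conv_lhs => enter [1]; rw [← h1]
    rw [← cfc_sub (fun _ : ℝ => (1 : ℝ)) (fun t : ℝ => t * (1 / (max t 0 + ε))) q
      continuous_const.continuousOn (hcid.mul hc2).continuousOn,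
      ← cfc_smul ε (fun t : ℝ => 1 / (max t 0 + ε)) q hc2.continuousOn]
    refine cfc_congr fun t ht => ?_
    have ht0 : 0 ≤ t := spectrum_nonneg_of_nonneg hq ht
    have hm : max t 0 = t := max_eq_left ht0
    simp only [hm, smul_eq_mul]
    have : t + ε ≠ 0 := by positivity
    field_simp
    ring
  refine ⟨fun _ => h * s, ?_⟩
  intro i j
  have hij : i = j := Subsingleton.elim i j
  subst hij
  simp only [if_true]
  have hstar : star (h * s) = s * h := by
    rw [star_mul, hssa.star_eq, hhsa.star_eq]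
  have e1 : star (h * s) * q * (h * s) - p = -(ε • (star (h * s) * (h * s))) := by
    rw [hstar]
    have : s * h * q * (h * s) - p = -(s * (1 - h * q * h) * s) := by
      rw [mul_sub, sub_mul, mul_one, hss]
      noncomm_ring
    rw [this, hone]
    congr 1
    simp only [mul_smul_comm, smul_mul_assoc]
    congr 1
    noncomm_ring
  rw [e1, norm_neg, norm_smul, Real.norm_of_nonneg hε.le]
  have e2 : ‖star (h * s) * (h * s)‖ ≤ 1 := by
    rw [CStarRing.norm_star_mul_self, ← CStarRing.norm_self_mul_star, hstar]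
    have e3 : h * s * (s * h) = h * p * h := by
      rw [← hss]; noncomm_ring
    rw [e3]
    have hle : h * p * h ≤ h * q * h := by
      exact hhsa.conjugate_le_conjugate hpq
    have hnn : 0 ≤ h * p * h := by
      exact hhsa.conjugate_nonneg hp
    refine (CStarAlgebra.norm_le_norm_of_nonneg_of_le hnn hle).trans ?_
    rw [hhqh]
    refine norm_cfc_le zero_le_one fun t ht => ?_
    have ht0 : 0 ≤ t := spectrum_nonneg_of_nonneg hq ht
    have hm : max t 0 = t := max_eq_left ht0
    simp only [hm]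
    rw [Real.norm_of_nonneg (by positivity), mul_one_div, div_le_one (by positivity)]
    linarith
  calc ε * ‖star (h * s) * (h * s)‖ ≤ ε * 1 := by gcongr
    _ = ε := mul_one ε

end MUP
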