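import Pool.Agent.MUP.FUN
import Pool.Agent.MUP.LFM
import Pool.Agent.MUP.CNA

/-!
MUP / CNB.  Sums and ideals.

`cop_sum`.  Suppose `Cop N y y` for every `N`.  Let `s : Fin m → B` and let `k` be given; put
`T = ∑_i s_i^* y s_i`.  Choose a family `r` indexed by `Fin (m * k)`, i.e. by pairs
`(i, l) ∈ Fin m × Fin k` (`finProdFinEquiv`), with error `θ` where `θ (1 + ∑ ‖s_i‖)^2 ≤ ε`.  Put
`R_l = ∑_i r_{(i,l)} s_i`.  Then
`R_l^* y R_{l'} = ∑_{i,i'} s_i^* (r_{(i,l)}^* y r_{(i',l')}) s_{i'} ≈ δ_{l l'} ∑_i s_i^* y s_i`,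
with error at most `∑_{i,i'} ‖s_i‖ θ ‖s_i'‖ ≤ ε`.

`cop_ideal`.  Let `ε > 0` and choose `c_i, d_i` (`i < n`) with `‖p - ∑ c_i y d_i‖ ≤ ε`.  Taking
the real part, `‖p - S‖ ≤ ε` with `S = ½ ∑ (c_i y d_i + d_i^* y c_i^*)`, hence `p - ε ≤ S`.
Since `(c_i^* - d_i)^* y (c_i^* - d_i) ≥ 0` we get
`c_i y d_i + d_i^* y c_i^* ≤ c_i y c_i^* + d_i^* y d_i`, so `p - ε ≤ T := ∑_{l < 2n} s_l^* y s_l`
with `s = c_i^*/√2` or `d_i/√2`.  Let `e` be the function `e(t) = min (max (t - ε) 0 / ε, 1)` of
`p` and `p' = e (p - ε) e`, i.e. the function `(t - ε) e(t)^2 ≥ 0` of `p`; then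
`‖p' - p‖ ≤ 2ε` (for `t ≤ ε` the difference is `t`, for `ε ≤ t ≤ 2ε` it is at most `t`, for
`t ≥ 2ε` it is `ε`), and `0 ≤ p' ≤ e T e = ∑ (s_l e)^* y (s_l e)`.  By `cop_of_le`,
`Cop 1 p' (e T e)`, by `cop_sum` `Cop k (e T e) y`, so `Cop k p' y` by `cop_trans'`.  Conclude
with `cop_approx`.
-/

open Filter Topology

namespace MUP

variable {B : Type*} [CStarAlgebra B]

theorem cop_sum {y : B} (h : ∀ N, Cop N y y) {m : ℕ} (s : Fin m → B) (k : ℕ) :
    Cop k (∑ i, star (s i) * y * s i) y := by
  intro ε hε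
  obtain ⟨K, hK, hsK⟩ : ∃ K : ℝ, 0 < K ∧ ∀ i, ‖s i‖ ≤ K := by
    refine ⟨1 + ∑ i, ‖s i‖, by positivity, fun i => ?_⟩
    have h1 : ‖s i‖ ≤ ∑ j, ‖s j‖ :=
      Finset.single_le_sum (f := fun j => ‖s j‖) (fun j _ => norm_nonneg _) (Finset.mem_univ i)
    linarith
  obtain ⟨r, hr⟩ := h (m * k) (ε / ((m : ℝ) ^ 2 + 1) / K ^ 2) (by positivity)
  refine ⟨fun l => ∑ i, r (finProdFinEquiv (i, l)) * s i, fun l l' => ?_⟩
  have hidx : ∀ i i' : Fin m, (finProdFinEquiv (i, l) = finProdFinEquiv (i', l')) ↔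
      (i = i' ∧ l = l') := by
    intro i i'
    rw [finProdFinEquiv.injective.eq_iff, Prod.mk.injEq]
  have h1 : star (∑ i, r (finProdFinEquiv (i, l)) * s i) * y *
      (∑ i, r (finProdFinEquiv (i, l')) * s i) = ∑ i, ∑ i', star (s i) *
      (star (r (finProdFinEquiv (i, l))) * y * r (finProdFinEquiv (i', l'))) * s i' := by
    rw [star_sum, Finset.sum_mul, Finset.sum_mul]
    refine Finset.sum_congr rfl fun i _ => ?_
    rw [Finset.mul_sum]
    refine Finset.sum_congr rfl fun i' _ => ?_
    rw [star_mul]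
    noncomm_ring
  have h2 : (if l = l' then ∑ i, star (s i) * y * s i else 0 : B) = ∑ i, ∑ i', star (s i) *
      (if i = i' ∧ l = l' then y else 0) * s i' := by
    by_cases hl : l = l'
    · simp only [hl, and_true, if_true]
      refine Finset.sum_congr rfl fun i _ => ?_
      rw [Finset.sum_eq_single i]
      · rw [if_pos rfl]
      · intro j _ hj
        rw [if_neg (Ne.symm hj), mul_zero, zero_mul]
      · exact fun hj => absurd (Finset.mem_univ i) hj
    · simp only [hl, and_false, if_false, mul_zero, zero_mul, Finset.sum_const_zero]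
  have h3 : star (∑ i, r (finProdFinEquiv (i, l)) * s i) * y *
      (∑ i, r (finProdFinEquiv (i, l')) * s i) - (if l = l' then ∑ i, star (s i) * y * s i else 0) =
      ∑ i, ∑ i', star (s i) * (star (r (finProdFinEquiv (i, l))) * y *
        r (finProdFinEquiv (i', l')) - (if i = i' ∧ l = l' then y else 0)) * s i' := by
    rw [h1, h2, ← Finset.sum_sub_distrib]
    refine Finset.sum_congr rfl fun i _ => ?_
    rw [← Finset.sum_sub_distrib]
    refine Finset.sum_congr rfl fun i' _ => ?_
    rw [mul_sub, sub_mul]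
  change ‖star (∑ i, r (finProdFinEquiv (i, l)) * s i) * y *
      (∑ i, r (finProdFinEquiv (i, l')) * s i) -
      (if l = l' then ∑ i, star (s i) * y * s i else 0)‖ ≤ ε
  rw [h3]
  have hterm : ∀ i i' : Fin m, ‖star (s i) * (star (r (finProdFinEquiv (i, l))) * y *
      r (finProdFinEquiv (i', l')) - (if i = i' ∧ l = l' then y else 0)) * s i'‖ ≤
      ε / ((m : ℝ) ^ 2 + 1) := by
    intro i i'
    have h4 := hr (finProdFinEquiv (i, l)) (finProdFinEquiv (i', l'))
    simp only [hidx] at h4
    generalize star (r (finProdFinEquiv (i, l))) * y *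
      r (finProdFinEquiv (i', l')) - (if i = i' ∧ l = l' then y else 0) = z at h4 ⊢
    have h0 : 0 ≤ ε / ((m : ℝ) ^ 2 + 1) / K ^ 2 := by positivity
    calc ‖star (s i) * z * s i'‖ ≤ ‖star (s i)‖ * ‖z‖ * ‖s i'‖ :=
          (norm_mul_le _ _).trans (mul_le_mul_of_nonneg_right (norm_mul_le _ _) (norm_nonneg _))
      _ ≤ K * (ε / ((m : ℝ) ^ 2 + 1) / K ^ 2) * K := by
          rw [norm_star]
          refine mul_le_mul ?_ (hsK i') (norm_nonneg _) (by positivity)
          exact mul_le_mul (hsK i) h4 (norm_nonneg _) hK.le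
      _ = ε / ((m : ℝ) ^ 2 + 1) := by field_simp
  calc _ ≤ ∑ i : Fin m, ∑ i' : Fin m, ε / ((m : ℝ) ^ 2 + 1) :=
        (norm_sum_le _ _).trans (Finset.sum_le_sum fun i _ =>
          (norm_sum_le _ _).trans (Finset.sum_le_sum fun i' _ => hterm i i'))
    _ = (m : ℝ) ^ 2 * (ε / ((m : ℝ) ^ 2 + 1)) := by
        rw [Finset.sum_const, Finset.sum_const, Finset.card_univ, Fintype.card_fin, nsmul_eq_mul,
          nsmul_eq_mul]
        ring
    _ ≤ ε := by
        rw [← mul_div_assoc, div_le_iff₀ (by positivity)]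
        nlinarith [sq_nonneg (m : ℝ)]

variable [PartialOrder B] [StarOrderedRing B]

theorem cop_ideal {p y : B} (hp : 0 ≤ p) (hy : 0 ≤ y) (hi : InIdeal y p)
    (h : ∀ N, Cop N y y) (k : ℕ) : Cop k p y := by
  refine cop_approx fun ε hε => ?_
  set δ : ℝ := ε / 2 with hδ
  have hδ0 : 0 < δ := by positivity
  obtain ⟨n, c, d, hcd⟩ := hi δ hδ0
  have hps : IsSelfAdjoint p := IsSelfAdjoint.of_nonneg hp
  have hys : IsSelfAdjoint y := IsSelfAdjoint.of_nonneg hy
  set X : B := ∑ i, c i * y * d i with hX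
  have hXs : star X = ∑ i, star (d i) * y * star (c i) := by
    rw [hX, star_sum]
    refine Finset.sum_congr rfl fun i _ => ?_
    rw [star_mul, star_mul, hys.star_eq, mul_assoc]
  -- p - δ ≤ (X + star X) / 2
  have h1 : p - algebraMap ℝ B δ ≤ (1 / 2 : ℝ) • (X + star X) := by
    set R : B := p - (1 / 2 : ℝ) • (X + star X) with hR
    have hR1 : R = (1 / 2 : ℝ) • ((p - X) + star (p - X)) := by
      rw [hR, star_sub, hps.star_eq]
      have : p = (1 / 2 : ℝ) • (p + p) := by
        rw [← two_smul ℝ p, smul_smul]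
        norm_num
      nth_rewrite 1 [this]
      rw [← smul_sub]
      congr 1
      abel
    have hRs : IsSelfAdjoint R := by
      rw [hR1]
      exact IsSelfAdjoint.smul (IsSelfAdjoint.all (1 / 2 : ℝ)) (IsSelfAdjoint.add_star_self (p - X))
    have hRn : ‖R‖ ≤ δ := by
      rw [hR1, norm_smul]
      have h2 : ‖(p - X) + star (p - X)‖ ≤ δ + δ := by
        refine (norm_add_le _ _).trans ?_
        rw [norm_star]
        linarith
      rw [Real.norm_eq_abs, abs_of_pos (by norm_num : (0 : ℝ) < 1 / 2)]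
      linarith
    have h3 : R ≤ algebraMap ℝ B δ :=
      (hRs.le_algebraMap_norm_self).trans (algebraMap_mono B hRn)
    rw [sub_le_iff_le_add]
    rw [hR, sub_le_iff_le_add] at h3
    rwa [add_comm] at h3
  -- (X + star X) / 2 ≤ T
  set s : Fin (n + n) → B := Fin.append (fun i => star (c i)) d with hs
  have hT : ∑ l, star (s l) * y * s l =
      ∑ i, (c i * y * star (c i) + star (d i) * y * d i) := by
    rw [Fin.sum_univ_add, Finset.sum_add_distrib]
    congr 1
    · refine Finset.sum_congr rfl fun i _ => ?_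
      rw [hs, Fin.append_left, star_star]
    · refine Finset.sum_congr rfl fun i _ => ?_
      rw [hs, Fin.append_right]
  have hTnn : 0 ≤ ∑ l, star (s l) * y * s l :=
    Finset.sum_nonneg fun l _ => star_left_conjugate_nonneg hy (s l)
  have h2 : X + star X ≤ ∑ l, star (s l) * y * s l := by
    rw [hT, hXs, hX, ← Finset.sum_add_distrib]
    refine Finset.sum_le_sum fun i _ => ?_
    have h3 := star_left_conjugate_nonneg hy (star (c i) - d i)
    rw [← sub_nonneg]
    have h4 : c i * y * star (c i) + star (d i) * y * d i -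
        (c i * y * d i + star (d i) * y * star (c i)) =
        star (star (c i) - d i) * y * (star (c i) - d i) := by
      rw [star_sub, star_star]
      noncomm_ring
    rw [h4]
    exact h3
  have h3 : (1 / 2 : ℝ) • (X + star X) ≤ ∑ l, star (s l) * y * s l := by
    have h4 : (1 / 2 : ℝ) • (X + star X) ≤ (1 / 2 : ℝ) • ∑ l, star (s l) * y * s l :=
      smul_le_smul_of_nonneg_left h2 (by norm_num)
    refine h4.trans ?_
    have h5 : (1 / 2 : ℝ) • (∑ l, star (s l) * y * s l) ≤
        (1 : ℝ) • (∑ l, star (s l) * y * s l) :=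
      smul_le_smul_of_nonneg_right (by norm_num) hTnn
    rwa [one_smul] at h5
  -- the cut-off
  set g : ℝ → ℝ := fun t => min (max (t - δ) 0 / δ) 1 with hg
  have hgc : Continuous g := by
    rw [hg]
    fun_prop
  set e : B := cfc g p with he
  have hes : IsSelfAdjoint e := IsSelfAdjoint.cfc
  have hpd : p - algebraMap ℝ B δ = cfc (fun t : ℝ => t - δ) p := by
    rw [cfc_sub (fun t : ℝ => t) (fun _ => δ) p (by fun_prop) (by fun_prop), cfc_id' ℝ p hps,
      cfc_const δ p hps]
  have hp' : star e * (p - algebraMap ℝ B δ) * e = cfc (fun t => g t * (t - δ) * g t) p := by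
    rw [hes.star_eq, cfc_mul (fun t => g t * (t - δ)) g p (by fun_prop) hgc.continuousOn,
      cfc_mul g (fun t => t - δ) p hgc.continuousOn (by fun_prop), ← hpd]
  have hpos : 0 ≤ star e * (p - algebraMap ℝ B δ) * e := by
    rw [hp']
    refine cfc_nonneg fun t _ => ?_
    by_cases ht : t ≤ δ
    · have h4 : g t = 0 := by
        simp only [hg]
        rw [max_eq_right (by linarith), zero_div, min_eq_left zero_le_one]
      rw [h4, zero_mul, zero_mul]
    · push Not at ht
      have h4 : g t * (t - δ) * g t = (g t) ^ 2 * (t - δ) := by ring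
      rw [h4]
      exact mul_nonneg (sq_nonneg _) (by linarith)
  have hle : star e * (p - algebraMap ℝ B δ) * e ≤ ∑ l, star (s l * e) * y * (s l * e) := by
    have h4 := star_left_conjugate_le_conjugate (h1.trans h3) e
    refine h4.trans (le_of_eq ?_)
    rw [Finset.mul_sum, Finset.sum_mul]
    refine Finset.sum_congr rfl fun l _ => ?_
    rw [star_mul]
    noncomm_ring
  refine ⟨star e * (p - algebraMap ℝ B δ) * e, ?_, ?_⟩
  · have h4 : star e * (p - algebraMap ℝ B δ) * e - p =
        cfc (fun t => g t * (t - δ) * g t - t) p := by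
      rw [cfc_sub (fun t => g t * (t - δ) * g t) (fun t : ℝ => t) p (by fun_prop) (by fun_prop),
        cfc_id' ℝ p hps, hp']
    rw [h4]
    refine norm_cfc_le hε.le fun t ht => ?_
    have ht0 : 0 ≤ t := spectrum_nonneg_of_nonneg hp ht
    have hg0 : 0 ≤ g t := by
      simp only [hg]
      exact le_min (div_nonneg (le_max_right _ _) hδ0.le) zero_le_one
    have hg1 : g t ≤ 1 := min_le_right _ _
    rw [Real.norm_eq_abs, abs_le]
    by_cases h5 : t ≤ δ
    · have h6 : g t = 0 := by
        simp only [hg]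
        rw [max_eq_right (by linarith), zero_div, min_eq_left zero_le_one]
      rw [h6]
      constructor <;> linarith
    · push Not at h5
      have h7 : g t * (t - δ) * g t ≤ t - δ := by
        have h8 : g t * (t - δ) * g t = (g t * g t) * (t - δ) := by ring
        rw [h8]
        have h9 : g t * g t ≤ 1 := by nlinarith
        nlinarith
      have h7' : 0 ≤ g t * (t - δ) * g t := mul_nonneg (mul_nonneg hg0 (by linarith)) hg0
      by_cases h8 : t ≤ 2 * δ
      · constructor <;> linarith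
      · push Not at h8
        have h9 : g t = 1 := by
          simp only [hg]
          rw [max_eq_left (by linarith)]
          refine min_eq_right ?_
          rw [le_div_iff₀ hδ0]
          linarith
        rw [h9]
        constructor <;> linarith
  · exact cop_trans' (cop_of_le hpos hle) (cop_sum h (fun l => s l * e) k)

end MUP
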