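import Pool.Agent.MUP.FUN
import Pool.Agent.MUP.CNA

/-!
MUP / CNC.  Two more facts on `Cop`.

`cop_of_mem`.  Let `0 ≤ p, y` with `p ∈ closure (y B)`.  Let `δ > 0` and let `k` be the function
`k(t) = (max t δ)^{-1/2}` of `p`; `‖k‖ ≤ δ^{-1/2}` and `k p^2 k` is the function
`t^2 / max t δ`, so `‖k p^2 k - p‖ ≤ δ`.  Choose `d` with `‖p - y d‖ ≤ θ`; then
`‖p^2 - d^* y^2 d‖ = ‖p^* p - (y d)^* (y d)‖ ≤ θ ‖p‖ + ‖y d‖ θ ≤ θ (2 ‖p‖ + θ)`, hence
`‖k p^2 k - k d^* y^2 d k‖ ≤ θ (2 ‖p‖ + θ) / δ ≤ δ` for small `θ`.  And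
`k d^* y^2 d k = r^* y r` with `r = y^{1/2} d k` (`CFC.sqrt y`).

`cop_add`.  Let `a, b ≥ 0`, `a b = 0`.  Let `r` be a family for `Cop n a a` and `s` one for
`Cop n b b` with errors `ε/4`.  For `c > 0` put `e = rmp c a`, `e' = rmp c b`.  Then
`‖e a e - a‖ ≤ c`, `‖e' b e' - b‖ ≤ c` (one-variable functions), `e b = 0 = b e`,
`e' a = 0 = a e'` (`rmp_mul_eq_zero`; note `b a = (a b)^* = 0`) and hence, for
`R_i = e r_i + e' s_i`,
`R_i^* (a + b) R_j = r_i^* e a e r_j + s_i^* e' b e' s_j`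
(the cross terms `e (a + b) e' = e a e' + e b e' = 0` vanish).  With `c` small compared to the
norms of the `r_i, s_i` this is within `ε` of `δ_ij (a + b)`.
-/

open Filter Topology

namespace MUP

variable {B : Type*} [CStarAlgebra B] [PartialOrder B] [StarOrderedRing B]

private theorem CNC_sqrt {δ : ℝ} (hδ : 0 < δ) (t : ℝ) : √(max t δ) ≠ 0 :=
  (Real.sqrt_pos.2 (lt_max_of_lt_right hδ)).ne'

private theorem CNC_cont {δ : ℝ} (hδ : 0 < δ) :
    Continuous fun t : ℝ => (√(max t δ))⁻¹ := by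
  refine Continuous.inv₀ ?_ (CNC_sqrt hδ)
  exact Real.continuous_sqrt.comp (continuous_id.max continuous_const)

/-- the element `k` -/
private theorem CNC_k {p : B} (hp : 0 ≤ p) {δ : ℝ} (hδ : 0 < δ) :
    ∃ k : B, IsSelfAdjoint k ∧ ‖k * (p * p) * k - p‖ ≤ δ := by
  have hsa : IsSelfAdjoint p := hp.isSelfAdjoint
  have hc := CNC_cont hδ
  refine ⟨cfc (fun t : ℝ => (√(max t δ))⁻¹) p, cfc_predicate _ _, ?_⟩
  have h1 : cfc (fun t : ℝ => (√(max t δ))⁻¹) p * (p * p) * cfc (fun t : ℝ => (√(max t δ))⁻¹) p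
      - p = cfc (fun t : ℝ => (√(max t δ))⁻¹ * (t * t) * (√(max t δ))⁻¹ - t) p := by
    have e1 : cfc (fun t : ℝ => (√(max t δ))⁻¹ * (t * t) * (√(max t δ))⁻¹ - t) p =
        cfc (fun t : ℝ => (√(max t δ))⁻¹ * (t * t) * (√(max t δ))⁻¹) p -
          cfc (fun t : ℝ => t) p :=
      cfc_sub (fun t : ℝ => (√(max t δ))⁻¹ * (t * t) * (√(max t δ))⁻¹) (fun t : ℝ => t) p
        (by fun_prop) (by fun_prop)
    have e2 : cfc (fun t : ℝ => (√(max t δ))⁻¹ * (t * t) * (√(max t δ))⁻¹) p =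
        cfc (fun t : ℝ => (√(max t δ))⁻¹ * (t * t)) p * cfc (fun t : ℝ => (√(max t δ))⁻¹) p :=
      cfc_mul (fun t : ℝ => (√(max t δ))⁻¹ * (t * t)) (fun t : ℝ => (√(max t δ))⁻¹) p
        (by fun_prop) hc.continuousOn
    have e3 : cfc (fun t : ℝ => (√(max t δ))⁻¹ * (t * t)) p =
        cfc (fun t : ℝ => (√(max t δ))⁻¹) p * cfc (fun t : ℝ => t * t) p :=
      cfc_mul (fun t : ℝ => (√(max t δ))⁻¹) (fun t : ℝ => t * t) p hc.continuousOn
        (by fun_prop)
    have e4 : cfc (fun t : ℝ => t * t) p = cfc (fun t : ℝ => t) p * cfc (fun t : ℝ => t) p :=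
      cfc_mul (fun t : ℝ => t) (fun t : ℝ => t) p (by fun_prop) (by fun_prop)
    have e5 : cfc (fun t : ℝ => t) p = p := cfc_id' ℝ p
    rw [e1, e2, e3, e4, e5]
  rw [h1]
  refine norm_cfc_le hδ.le fun t ht => ?_
  have ht0 : 0 ≤ t := spectrum_nonneg_of_nonneg hp ht
  have hs : √(max t δ) * √(max t δ) = max t δ :=
    Real.mul_self_sqrt (ht0.trans (le_max_left _ _))
  have hm : 0 < max t δ := lt_max_of_lt_right hδ
  have h2 : (√(max t δ))⁻¹ * (t * t) * (√(max t δ))⁻¹ = t * t / max t δ := by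
    rw [mul_comm (√(max t δ))⁻¹ (t * t), mul_assoc, ← mul_inv, hs]
    rfl
  rw [h2, Real.norm_eq_abs]
  rcases le_total δ t with h3 | h3
  · rw [max_eq_left h3]
    have ht' : t ≠ 0 := (hδ.trans_le h3).ne'
    rw [mul_div_assoc, div_self ht', mul_one, sub_self, abs_zero]
    exact hδ.le
  · rw [max_eq_right h3, abs_le]
    have h4 : t * t / δ ≤ t := by
      rw [div_le_iff₀ hδ]
      exact mul_le_mul_of_nonneg_left h3 ht0
    have h5 : 0 ≤ t * t / δ := by positivity
    constructor <;> linarith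

omit [PartialOrder B] [StarOrderedRing B] in
private theorem CNC_sand (a x b : B) : ‖star a * x * b‖ ≤ ‖a‖ * ‖x‖ * ‖b‖ := by
  refine (norm_mul_le _ _).trans (mul_le_mul_of_nonneg_right ?_ (norm_nonneg _))
  refine (norm_mul_le _ _).trans ?_
  rw [norm_star]

theorem cop_of_mem {p y : B} (hp : 0 ≤ p) (hy : 0 ≤ y)
    (h : ∀ ε : ℝ, 0 < ε → ∃ d : B, ‖p - y * d‖ ≤ ε) : Cop 1 p y := by
  intro ε hε
  obtain ⟨k, hk, hkp⟩ := CNC_k hp (half_pos hε)
  have hpsa : star p = p := hp.isSelfAdjoint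
  have hysa : star y = y := hy.isSelfAdjoint
  obtain ⟨C, hC⟩ : ∃ C : ℝ, C = (2 * ‖p‖ + 1) * (‖k‖ * ‖k‖ + 1) := ⟨_, rfl⟩
  have hC0 : 0 < C := by
    rw [hC]
    positivity
  obtain ⟨d, hd⟩ := h (min 1 (ε / 2 / C)) (by positivity)
  have hd1 : ‖p - y * d‖ ≤ 1 := hd.trans (min_le_left _ _)
  have hd2 : ‖p - y * d‖ * C ≤ ε / 2 := by
    have := hd.trans (min_le_right _ _)
    rwa [le_div_iff₀ hC0] at this
  have hyd : ‖y * d‖ ≤ ‖p‖ + 1 := by
    have h1 : y * d = p - (p - y * d) := by abel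
    calc ‖y * d‖ = ‖p - (p - y * d)‖ := by rw [← h1]
      _ ≤ ‖p‖ + ‖p - y * d‖ := norm_sub_le _ _
      _ ≤ ‖p‖ + 1 := by linarith
  have h2 : ‖p * p - star (y * d) * (y * d)‖ ≤ (2 * ‖p‖ + 1) * ‖p - y * d‖ := by
    have e : p * p - star (y * d) * (y * d) =
        p * (p - y * d) + star (p - y * d) * (y * d) := by
      rw [star_sub, hpsa]
      noncomm_ring
    rw [e]
    calc _ ≤ ‖p * (p - y * d)‖ + ‖star (p - y * d) * (y * d)‖ := norm_add_le _ _
      _ ≤ ‖p‖ * ‖p - y * d‖ + ‖p - y * d‖ * (‖p‖ + 1) := by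
          refine add_le_add (norm_mul_le _ _) ((norm_mul_le _ _).trans ?_)
          rw [norm_star]
          exact mul_le_mul_of_nonneg_left hyd (norm_nonneg _)
      _ = (2 * ‖p‖ + 1) * ‖p - y * d‖ := by ring
  refine ⟨fun _ => CFC.sqrt y * d * k, fun i j => ?_⟩
  rw [if_pos (Subsingleton.elim i j)]
  have hss : CFC.sqrt y * CFC.sqrt y = y := CFC.sqrt_mul_sqrt_self y hy
  have hssa : star (CFC.sqrt y) = CFC.sqrt y := (CFC.sqrt_nonneg y).isSelfAdjoint
  have hksa : star k = k := hk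
  have e1 : star (CFC.sqrt y * d * k) * y * (CFC.sqrt y * d * k) =
      k * (star (y * d) * (y * d)) * k := by
    rw [star_mul, star_mul, star_mul, hksa, hssa, hysa]
    have e2 : CFC.sqrt y * y * CFC.sqrt y = y * y := by
      calc CFC.sqrt y * y * CFC.sqrt y
          = CFC.sqrt y * (CFC.sqrt y * CFC.sqrt y) * CFC.sqrt y := by rw [hss]
        _ = (CFC.sqrt y * CFC.sqrt y) * (CFC.sqrt y * CFC.sqrt y) := by noncomm_ring
        _ = y * y := by rw [hss]
    calc k * (star d * CFC.sqrt y) * y * (CFC.sqrt y * d * k)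
        = k * star d * (CFC.sqrt y * y * CFC.sqrt y) * d * k := by noncomm_ring
      _ = k * (star d * y * (y * d)) * k := by
          rw [e2]
          noncomm_ring
  have e3 : k * (star (y * d) * (y * d)) * k - p =
      (k * (p * p) * k - p) - star k * (p * p - star (y * d) * (y * d)) * k := by
    rw [hksa]
    noncomm_ring
  rw [e1, e3]
  calc _ ≤ ‖k * (p * p) * k - p‖ + ‖star k * (p * p - star (y * d) * (y * d)) * k‖ :=
        norm_sub_le _ _
    _ ≤ ε / 2 + ‖k‖ * ((2 * ‖p‖ + 1) * ‖p - y * d‖) * ‖k‖ := by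
        refine add_le_add hkp ((CNC_sand _ _ _).trans ?_)
        exact mul_le_mul_of_nonneg_right (mul_le_mul_of_nonneg_left h2 (norm_nonneg _))
          (norm_nonneg _)
    _ ≤ ε / 2 + ‖p - y * d‖ * C := by
        refine add_le_add le_rfl ?_
        rw [hC]
        have h3 : 0 ≤ (2 * ‖p‖ + 1) * ‖p - y * d‖ := by positivity
        nlinarith
    _ ≤ ε := by linarith

private theorem CNC_e {a : B} (ha : 0 ≤ a) {c : ℝ} (hc : 0 < c) :
    ‖rmp c a * a * rmp c a - a‖ ≤ c := by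
  have hsa : IsSelfAdjoint a := ha.isSelfAdjoint
  have hcont : Continuous fun s : ℝ => min (s / c) 1 :=
    (continuous_id.div_const c).min continuous_const
  have h1 : rmp c a * a * rmp c a - a = cfc (fun t : ℝ => min (t / c) 1 * t * min (t / c) 1 - t) a
      := by
    have e1 : cfc (fun t : ℝ => min (t / c) 1 * t * min (t / c) 1 - t) a =
        cfc (fun t : ℝ => min (t / c) 1 * t * min (t / c) 1) a - cfc (fun t : ℝ => t) a :=
      cfc_sub (fun t : ℝ => min (t / c) 1 * t * min (t / c) 1) (fun t : ℝ => t) a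
        (by fun_prop) (by fun_prop)
    have e2 : cfc (fun t : ℝ => min (t / c) 1 * t * min (t / c) 1) a =
        cfc (fun t : ℝ => min (t / c) 1 * t) a * cfc (fun t : ℝ => min (t / c) 1) a :=
      cfc_mul (fun t : ℝ => min (t / c) 1 * t) (fun t : ℝ => min (t / c) 1) a
        (by fun_prop) (by fun_prop)
    have e3 : cfc (fun t : ℝ => min (t / c) 1 * t) a =
        cfc (fun t : ℝ => min (t / c) 1) a * cfc (fun t : ℝ => t) a :=
      cfc_mul (fun t : ℝ => min (t / c) 1) (fun t : ℝ => t) a (by fun_prop) (by fun_prop)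
    have e5 : cfc (fun t : ℝ => t) a = a := cfc_id' ℝ a
    unfold rmp
    rw [e1, e2, e3, e5]
  rw [h1]
  refine norm_cfc_le hc.le fun t ht => ?_
  have ht0 : 0 ≤ t := spectrum_nonneg_of_nonneg ha ht
  rw [Real.norm_eq_abs]
  rcases le_total c t with h3 | h3
  · have h4 : 1 ≤ t / c := by rwa [one_le_div hc]
    rw [min_eq_right h4, one_mul, mul_one, sub_self, abs_zero]
    exact hc.le
  · have h4 : t / c ≤ 1 := by rwa [div_le_one hc]
    have h5 : 0 ≤ t / c := div_nonneg ht0 hc.le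
    rw [min_eq_left h4, abs_le]
    have h6 : t / c * t * (t / c) ≤ t := by
      calc t / c * t * (t / c) ≤ 1 * t * 1 := by gcongr
        _ = t := by ring
    have h7 : 0 ≤ t / c * t * (t / c) := by positivity
    constructor <;> linarith

theorem cop_add {a b : B} (ha : 0 ≤ a) (hb : 0 ≤ b) (hab : a * b = 0) {n : ℕ}
    (hca : Cop n a a) (hcb : Cop n b b) : Cop n (a + b) (a + b) := by
  intro ε hε
  obtain ⟨r, hr⟩ := hca (ε / 4) (by positivity)
  obtain ⟨s, hs⟩ := hcb (ε / 4) (by positivity)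
  obtain ⟨K, hK⟩ : ∃ K : ℝ, K = 1 + (∑ i, ‖r i‖) + ∑ i, ‖s i‖ := ⟨_, rfl⟩
  have hrn : 0 ≤ ∑ i, ‖r i‖ := Finset.sum_nonneg fun i _ => norm_nonneg _
  have hsn : 0 ≤ ∑ i, ‖s i‖ := Finset.sum_nonneg fun i _ => norm_nonneg _
  have hK0 : 0 < K := by
    rw [hK]
    linarith
  have hrK : ∀ i, ‖r i‖ ≤ K := fun i => by
    have := Finset.single_le_sum (f := fun j => ‖r j‖) (fun j _ => norm_nonneg _)
      (Finset.mem_univ i)
    rw [hK]
    linarith
  have hsK : ∀ i, ‖s i‖ ≤ K := fun i => by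
    have := Finset.single_le_sum (f := fun j => ‖s j‖) (fun j _ => norm_nonneg _)
      (Finset.mem_univ i)
    rw [hK]
    linarith
  obtain ⟨c, hc⟩ : ∃ c : ℝ, c = ε / 4 / K ^ 2 := ⟨_, rfl⟩
  have hc0 : 0 < c := by
    rw [hc]
    positivity
  have hasa : star a = a := ha.isSelfAdjoint
  have hbsa : star b = b := hb.isSelfAdjoint
  have hba : b * a = 0 := by
    rw [← hasa, ← hbsa, ← star_mul, hab, star_zero]
  have hesa : star (rmp c a) = rmp c a := rmp_sa c a
  have hfsa : star (rmp c b) = rmp c b := rmp_sa c b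
  have heb : rmp c a * b = 0 := rmp_mul_eq_zero ha hc0 hab
  have hfa : rmp c b * a = 0 := rmp_mul_eq_zero hb hc0 hba
  have hbe : b * rmp c a = 0 := by
    rw [← hbsa, ← hesa, ← star_mul, heb, star_zero]
  have haf : a * rmp c b = 0 := by
    rw [← hasa, ← hfsa, ← star_mul, hfa, star_zero]
  have hea := CNC_e ha hc0
  have hfb := CNC_e hb hc0
  obtain ⟨e, he⟩ : ∃ e, e = rmp c a := ⟨_, rfl⟩
  obtain ⟨f, hf⟩ : ∃ f, f = rmp c b := ⟨_, rfl⟩
  rw [← he] at hesa heb hbe hea
  rw [← hf] at hfsa hfa haf hfb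
  refine ⟨fun i => e * r i + f * s i, fun i j => ?_⟩
  have h1 : star (e * r i + f * s i) * (a + b) * (e * r j + f * s j) =
      star (r i) * (e * a * e) * r j + star (s i) * (f * b * f) * s j := by
    rw [star_add, star_mul, star_mul, hesa, hfsa]
    have h2 : (star (r i) * e + star (s i) * f) * (a + b) * (e * r j + f * s j) =
        star (r i) * (e * a * e) * r j + star (s i) * (f * b * f) * s j +
        star (r i) * (e * b) * (e * r j) + star (r i) * e * (a * f) * s j +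
        star (r i) * (e * b) * (f * s j) + star (s i) * (f * a) * (e * r j) +
        star (s i) * f * (b * e) * r j + star (s i) * (f * a) * (f * s j) := by noncomm_ring
    rw [h2, heb, haf, hfa, hbe]
    simp only [mul_zero, zero_mul, add_zero]
  have hsand : ∀ {u v x : B}, ‖u‖ ≤ K → ‖v‖ ≤ K → ‖x‖ ≤ c → ‖star u * x * v‖ ≤ ε / 4 := by
    intro u v x hu hv hx
    calc ‖star u * x * v‖ ≤ ‖u‖ * ‖x‖ * ‖v‖ := CNC_sand u x v
      _ ≤ K * c * K := by
          refine mul_le_mul ?_ hv (norm_nonneg _) (by positivity)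
          exact mul_le_mul hu hx (norm_nonneg _) hK0.le
      _ = ε / 4 := by
          rw [hc]
          field_simp
  have h3 : star (e * r i + f * s i) * (a + b) * (e * r j + f * s j) -
      (if i = j then a + b else 0) =
      star (r i) * (e * a * e - a) * r j + (star (r i) * a * r j - (if i = j then a else 0)) +
      (star (s i) * (f * b * f - b) * s j +
        (star (s i) * b * s j - (if i = j then b else 0))) := by
    rw [h1]
    split_ifs <;> noncomm_ring
  rw [h3]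
  calc _ ≤ ‖star (r i) * (e * a * e - a) * r j +
        (star (r i) * a * r j - (if i = j then a else 0))‖ +
        ‖star (s i) * (f * b * f - b) * s j +
        (star (s i) * b * s j - (if i = j then b else 0))‖ := norm_add_le _ _
    _ ≤ (ε / 4 + ε / 4) + (ε / 4 + ε / 4) := by
        refine add_le_add ((norm_add_le _ _).trans ?_) ((norm_add_le _ _).trans ?_)
        · exact add_le_add (hsand (hrK i) (hrK j) hea) (hr i j)
        · exact add_le_add (hsand (hsK i) (hsK j) hfb) (hs i j)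
    _ = ε := by ring

end MUP
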