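import Pool.Agent.MUP.CFM

/-!
MUP / IDL.  The set `{x | InIdeal z x}` is a closed two-sided ideal, and formal properties.

* `isIdl_inIdeal`: zero (`n = 0`), sums (concatenate the two families, `Fin.append` or
  `Fin.addCases`), left and right multiplication (`‖m x - ∑ (m c_i) z d_i‖ ≤ ‖m‖ ε`), closed
  (`ε/2`).
* `inIdeal_self`: `z = 1 * z * 1`.
* `inIdeal_trans`: if `InIdeal w z` and `InIdeal z y` then `InIdeal w y`: `{x | InIdeal w x}` is
  a closed ideal containing `z`, so it contains `∑ c_i z d_i` and the limit `y`.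
* `inIdeal_of_mul`: `InIdeal z (a * z * b)`.
* `inIdeal_pp`: for `0 ≤ x`, `0 ≤ s ≤ t`: `(x - t)_+` is in the ideal of `(x - s)_+`; indeed
  `max (r - t) 0 = max (r - s) 0 * k r` with `k r = max (r - t) 0 / max (r - s) (t - s)` if
  `s < t`.
* `inIdeal_map`: star homomorphisms map ideals into ideals.
* `inIdeal_of_forall_pp`: if `0 ≤ x` and `InIdeal z (pp x t)` for all `t > 0` then
  `InIdeal z x` (closedness, `‖pp x t - x‖ ≤ t`).
-/

open Filter Topology

namespace MUP

variable {B : Type*} [CStarAlgebra B]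

theorem isIdl_inIdeal (z : B) : IsIdl {x : B | InIdeal z x} where
  zero_mem := by
    intro ε hε
    refine ⟨0, fun _ => 0, fun _ => 0, ?_⟩
    simp [hε.le]
  add_mem := by
    intro x hx y hy ε hε
    obtain ⟨n, c, d, h⟩ := hx (ε / 2) (half_pos hε)
    obtain ⟨m, c', d', h'⟩ := hy (ε / 2) (half_pos hε)
    refine ⟨n + m, Fin.append c c', Fin.append d d', ?_⟩
    rw [Fin.sum_univ_add]
    simp only [Fin.append_left, Fin.append_right]
    have e : x + y - (∑ i, c i * z * d i + ∑ i, c' i * z * d' i) =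
        (x - ∑ i, c i * z * d i) + (y - ∑ i, c' i * z * d' i) := by abel
    rw [e]
    exact (norm_add_le _ _).trans (by linarith)
  mul_left := by
    intro m x hx ε hε
    have hm : (0 : ℝ) < ‖m‖ + 1 := by positivity
    obtain ⟨n, c, d, h⟩ := hx (ε / (‖m‖ + 1)) (div_pos hε hm)
    refine ⟨n, fun i => m * c i, d, ?_⟩
    have e : m * x - ∑ i, m * c i * z * d i = m * (x - ∑ i, c i * z * d i) := by
      rw [mul_sub, Finset.mul_sum]
      simp only [mul_assoc]
    rw [e]
    refine (norm_mul_le _ _).trans ((mul_le_mul_of_nonneg_left h (norm_nonneg m)).trans ?_)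
    rw [mul_div_assoc', div_le_iff₀ hm]
    nlinarith [norm_nonneg m]
  mul_right := by
    intro m x hx ε hε
    have hm : (0 : ℝ) < ‖m‖ + 1 := by positivity
    obtain ⟨n, c, d, h⟩ := hx (ε / (‖m‖ + 1)) (div_pos hε hm)
    refine ⟨n, c, fun i => d i * m, ?_⟩
    have e : x * m - ∑ i, c i * z * (d i * m) = (x - ∑ i, c i * z * d i) * m := by
      rw [sub_mul, Finset.sum_mul]
      simp only [mul_assoc]
    rw [e]
    refine (norm_mul_le _ _).trans ((mul_le_mul_of_nonneg_right h (norm_nonneg m)).trans ?_)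
    rw [div_mul_eq_mul_div, div_le_iff₀ hm]
    nlinarith [norm_nonneg m]
  closed := by
    refine isClosed_of_closure_subset ?_
    intro y hy ε hε
    obtain ⟨x, hx, hxy⟩ := Metric.mem_closure_iff.mp hy (ε / 2) (half_pos hε)
    obtain ⟨n, c, d, h⟩ := hx (ε / 2) (half_pos hε)
    refine ⟨n, c, d, ?_⟩
    rw [dist_eq_norm] at hxy
    have e : y - ∑ i, c i * z * d i = (y - x) + (x - ∑ i, c i * z * d i) := by abel
    rw [e]
    exact (norm_add_le _ _).trans (by linarith)

theorem inIdeal_of_mul (z a b : B) : InIdeal z (a * z * b) := by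
  intro ε hε
  refine ⟨1, fun _ => a, fun _ => b, ?_⟩
  simp [hε.le]

theorem inIdeal_self (z : B) : InIdeal z z := by
  have := inIdeal_of_mul z 1 1
  rwa [one_mul, mul_one] at this

private theorem IDL_sum_mem {J : Set B} (hJ : IsIdl J) {n : ℕ} (f : Fin n → B)
    (hf : ∀ i, f i ∈ J) (s : Finset (Fin n)) : ∑ i ∈ s, f i ∈ J := by
  classical
  induction s using Finset.induction_on with
  | empty => simpa using hJ.zero_mem
  | insert a s ha ih =>
    rw [Finset.sum_insert ha]
    exact hJ.add_mem _ (hf a) _ ih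

theorem inIdeal_of_idl {J : Set B} (hJ : IsIdl J) {z y : B} (hz : z ∈ J) (h : InIdeal z y) :
    y ∈ J := by
  rw [← hJ.closed.closure_eq]
  refine Metric.mem_closure_iff.mpr fun ε hε => ?_
  obtain ⟨n, c, d, h⟩ := h (ε / 2) (half_pos hε)
  refine ⟨∑ i, c i * z * d i,
    IDL_sum_mem hJ _ (fun i => hJ.mul_right _ _ (hJ.mul_left _ _ hz)) _, ?_⟩
  rw [dist_eq_norm]
  linarith

theorem inIdeal_trans {w z y : B} (h : InIdeal w z) (h' : InIdeal z y) : InIdeal w y :=
  inIdeal_of_idl (isIdl_inIdeal w) h h'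

theorem inIdeal_map {C : Type*} [CStarAlgebra C] (φ : B →⋆ₐ[ℂ] C) {z y : B} (h : InIdeal z y) :
    InIdeal (φ z) (φ y) := by
  intro ε hε
  obtain ⟨n, c, d, h⟩ := h ε hε
  refine ⟨n, fun i => φ (c i), fun i => φ (d i), ?_⟩
  have e : φ y - ∑ i, φ (c i) * φ z * φ (d i) = φ (y - ∑ i, c i * z * d i) := by
    rw [map_sub, map_sum]
    simp only [map_mul]
  rw [e]
  exact (NonUnitalStarAlgHom.norm_apply_le φ _).trans h

variable [PartialOrder B] [StarOrderedRing B]

theorem inIdeal_pp {x : B} (hx : 0 ≤ x) {s t : ℝ} (hs : 0 ≤ s) (hst : s ≤ t) :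
    InIdeal (pp x s) (pp x t) := by
  rcases hst.eq_or_lt with rfl | hlt
  · exact inIdeal_self _
  have hd : ∀ r : ℝ, 0 < max (r - s) (t - s) := fun r => lt_max_of_lt_right (sub_pos.mpr hlt)
  set k : ℝ → ℝ := fun r => max (r - t) 0 / max (r - s) (t - s) with hk
  have hkc : Continuous k := by
    refine Continuous.div (by fun_prop) (by fun_prop) fun r => (hd r).ne'
  have e : pp x t = 1 * pp x s * cfc k x := by
    rw [one_mul, pp, pp, ← cfc_mul (fun r : ℝ => max (r - s) 0) k x
      (by fun_prop) hkc.continuousOn]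
    congr 1
    ext r
    simp only [hk]
    rcases le_or_gt r t with h | h
    · rw [max_eq_right (by linarith), zero_div, mul_zero]
    · rw [max_eq_left (by linarith), max_eq_left (by linarith), max_eq_left (by linarith)]
      have : r - s ≠ 0 := by linarith
      field_simp
  rw [e]
  exact inIdeal_of_mul _ _ _

theorem inIdeal_of_forall_pp {x z : B} (hx : 0 ≤ x) (h : ∀ t : ℝ, 0 < t → InIdeal z (pp x t)) :
    InIdeal z x := by
  have hcl := (isIdl_inIdeal z).closed
  have : x ∈ {x : B | InIdeal z x} := by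
    rw [← hcl.closure_eq]
    refine Metric.mem_closure_iff.mpr fun ε hε => ⟨pp x (ε / 2), h _ (half_pos hε), ?_⟩
    rw [dist_eq_norm]
    have hsa : IsSelfAdjoint x := IsSelfAdjoint.of_nonneg hx
    have e : x - pp x (ε / 2) = cfc (fun r : ℝ => r - max (r - ε / 2) 0) x := by
      rw [cfc_sub (fun r : ℝ => r) (fun r : ℝ => max (r - ε / 2) 0) x
        (by fun_prop) (by fun_prop), cfc_id' ℝ x, pp]
    rw [e]
    refine lt_of_le_of_lt (norm_cfc_le (half_pos hε).le fun r hr => ?_) (half_lt_self hε)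
    have hr0 : 0 ≤ r := spectrum_nonneg_of_nonneg hx hr
    rw [Real.norm_eq_abs, abs_le]
    rcases le_total r (ε / 2) with h1 | h1
    · rw [max_eq_right (by linarith)]
      constructor <;> linarith
    · rw [max_eq_left (by linarith)]
      constructor <;> linarith
  exact this

end MUP
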