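import Pool.Agent.MUP.FUN

/-!
MUP / KEY.  The key lemma.  Everything happens in one unital C*-algebra `Q` (possibly zero).

Write `w = pp (Z1 Z1^*) (1/4)`, `g = gel α Z1 = α + w`, `f = rmp (1/4) g`.  All position elements
commute with `y` and `z0`.  Note `α = n^2 y = n y n ≥ 0`, `β = v y v ≥ 0`, `γ = G y G ≥ 0`, and
`α, β, γ` are also `y n^2` etc.  Taking adjoints: `v n = 0`, `P n = 0`, `P v = P`, `n FA = FA`,
`G F1 = F1`, `FA Fe = Fe`; `y z0 = z0` gives `z0 y = z0`.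

Step 1 (`FA y = 0`).  `0 ≤ g`, and `pp g (1/4) = 0` gives `g ≤ 1/4` (`pp_eq_zero_iff`, or
`sub_le_pp`).  As `0 ≤ w`, `α ≤ g ≤ 1/4`.  Conjugate with `z0 FA`:
`z0 FA α FA z0 = z0 FA n y n FA z0 = z0 FA y FA z0 = FA^2 z0^2` (everything commutes,
`y z0 = z0`), and it is `≤ ¼ z0 FA^2 z0 = ¼ FA^2 z0^2`.  So `FA^2 z0^2 = (FA z0)(FA z0)^*`-type
element `T = z0 FA FA z0 = (FA z0)^* (FA z0) ≥ 0` satisfies `T ≤ ¼ T`, hence `T ≤ 0`, `T = 0`,
`FA z0 = 0`.  By the plateau hypothesis, for every `κ`,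
`‖FA y‖ ≤ ‖FA (y - ∑ c_i z0 d_i - a)‖ + ‖∑ c_i (FA z0) d_i‖ + ‖FA a‖ ≤ κ`; so `FA y = 0`.

Step 2 (`F1 y = 0`).  Let `ρ = Z1^* Z1`.  From `w ≥ Z1 Z1^* - 1/4` (`sub_le_pp`):
`Z1^* w Z1 ≥ ρ^2 - ρ/4`; and `w ≤ g ≤ 1/4` gives `Z1^* w Z1 ≤ ρ/4`.  So `ρ^2 ≤ ρ/2`, hence
`‖ρ‖^2 = ‖ρ^2‖ ≤ ‖ρ‖/2`, `‖ρ‖ ≤ 1/2`, and `‖γ‖ ≤ 1/2 + 1/20 = 11/20`, `γ ≤ 11/20`.  As in
step 1 (with `F1 G = F1`): `z0 F1 γ F1 z0 = z0 F1 F1 z0 =: T ≤ (11/20) T`, so `F1 z0 = 0` and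
`F1 y = 0` (`F1 a = 0`).

Step 3 (`P y = y`).  `Fe y = Fe FA y = 0`, `F1 y = 0` and `P + F1 + Fe = 1`, so `y = P y = y P`.

Step 4.  `γ = P γ = γ P`: `γ = y G^2 = P y G^2`.  Put `q = rmp (1/40) γ = γ k = k γ`
(`rmp_factor`).  Then `P q = q`, so `P Z_i = P q Z_i = Z_i`.  Also `y = y P = y v^2 P = β P`,
`γ = y G^2 = β P G^2`, and so `Z_i = q Z_i = γ k Z_i = β T_i` with `T_i = P G^2 k Z_i`.

Step 5.  Let `e = rmp (1/4) (Z1 Z1^*) = Z1 Z1^* k'` and `V = Z2 - e Z2`.  Then `V = β T` for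
`T = T_2 - T_1 Z1^* k' Z2`, and `P V = V`.  From `(1-f) β (1-f) = 0`, `β = v y v ≥ 0`:
`‖β^{1/2} (1-f)‖^2 = 0`, so `β (1-f) = 0`, `(1-f) β = 0`, `(1-f) V = 0`.
On the other hand `α V = n^2 y P V = y n^2 P V = 0` and `w V = w (1 - e) Z2 = 0`
(`pp_mul_rmp` for `Z1 Z1^*`), so `g V = 0` and `f V = 0` (`rmp_mul_eq_zero`).  Hence
`V = (1-f) V + f V = 0`, that is `Z2 = e Z2`.

Step 6 (`w = 0`).  `e = Z1 m` with `m = Z1^* k'`, `k'` the function `1/ max s (1/4)` of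
`Z1 Z1^*`, and `‖m‖^2 = ‖m m^*‖`, equivalently `‖k' Z1 Z1^* k'‖ = ‖m^* m‖ ≤ 4` (the function
`s / (max s (1/4))^2 ≤ 4`), so `‖m‖ ≤ 2`.  Therefore
`‖Z2‖^2 = ‖Z2^* Z2‖ = ‖Z2^* e Z2‖ = ‖(Z2^* Z1) m Z2‖ ≤ (1/20) * 2 * ‖Z2‖`, so `‖Z2‖ ≤ 1/10`,
`‖γ‖ ≤ 1/100 + 1/20`, `‖Z1 Z1^*‖ = ‖Z1^* Z1‖ ≤ 1/100 + 1/20 + 1/20 < 1/4` and
`w = pp (Z1 Z1^*) (1/4) = 0` (`pp_eq_zero_iff`).

Step 7.  Now `g = α` and `g β = n^2 y v^2 y = y n (n v) v y = 0`, so `f β = 0`; with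
`(1-f) β = 0` (step 5) `β = 0`.  `β = v y v = (y^{1/2} v)^* (y^{1/2} v)`, so `y^{1/2} v = 0`,
`y v = 0 = v y`.  Finally `y = P y = P v y = 0`.
-/

open Filter Topology

namespace MUP

variable {Q : Type*} [CStarAlgebra Q] [PartialOrder Q] [StarOrderedRing Q]

/-- If `α` is a positive element of norm less than one with `x^* α x = x^* x` then `x = 0`. -/
private lemma KEY_zero {α x : Q} (hα : 0 ≤ α) {r : ℝ} (hr0 : 0 ≤ r) (hr : r < 1)
    (hn : ‖α‖ ≤ r) (h : star x * α * x = star x * x) : x = 0 := by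
  have h1 : α ≤ algebraMap ℝ Q r := (CStarAlgebra.norm_le_iff_le_algebraMap α hr0 hα).mp hn
  have h2 : star x * α * x ≤ star x * algebraMap ℝ Q r * x := star_left_conjugate_le_conjugate h1 x
  have h3 : star x * algebraMap ℝ Q r * x = r • (star x * x) := by
    rw [Algebra.algebraMap_eq_smul_one, mul_smul_comm, mul_one, smul_mul_assoc]
  rw [h, h3] at h2
  have h4 : ‖star x * x‖ ≤ ‖r • (star x * x)‖ :=
    CStarAlgebra.norm_le_norm_of_nonneg_of_le (star_mul_self_nonneg x) h2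
  rw [norm_smul, Real.norm_of_nonneg hr0] at h4
  have h5 : ‖star x * x‖ = 0 := by
    by_contra hne
    have hpos : 0 < ‖star x * x‖ := lt_of_le_of_ne (norm_nonneg _) (Ne.symm hne)
    nlinarith
  exact (CStarRing.star_mul_self_eq_zero_iff x).mp (norm_eq_zero.mp h5)

private lemma KEY_norm_add_left {a b : Q} (ha : 0 ≤ a) (hb : 0 ≤ b) : ‖a‖ ≤ ‖a + b‖ :=
  CStarAlgebra.norm_le_norm_of_nonneg_of_le ha (le_add_of_nonneg_right hb)

private lemma KEY_norm_add_right {a b : Q} (ha : 0 ≤ a) (hb : 0 ≤ b) : ‖b‖ ≤ ‖a + b‖ :=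
  CStarAlgebra.norm_le_norm_of_nonneg_of_le hb (le_add_of_nonneg_left ha)

omit [PartialOrder Q] [StarOrderedRing Q] in
/-- plateau argument: if `D` kills `z0` and the correction terms then it kills `y` -/
private lemma KEY_plateau {y z0 D : Q} (hD : ‖D‖ ≤ 1) (hz : D * z0 = 0)
    (hpl : ∀ κ : ℝ, 0 < κ → ∃ (m : ℕ) (c d : Fin m → Q) (a : Q),
      (∀ i, D * c i = c i * D) ∧ D * a = 0 ∧ ‖y - ∑ i, c i * z0 * d i - a‖ ≤ κ) :
    D * y = 0 := by
  have key : ∀ κ : ℝ, 0 < κ → ‖D * y‖ ≤ κ := by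
    intro κ hκ
    obtain ⟨m, c, d, a, hc, ha, hn⟩ := hpl κ hκ
    have h1 : D * y = D * (y - ∑ i, c i * z0 * d i - a) := by
      rw [mul_sub, mul_sub, ha, sub_zero, Finset.mul_sum]
      have : ∑ i, D * (c i * z0 * d i) = 0 := by
        apply Finset.sum_eq_zero
        intro i _
        rw [← mul_assoc, ← mul_assoc, hc i, mul_assoc (c i), hz, mul_zero, zero_mul]
      rw [this, sub_zero]
    rw [h1]
    calc ‖D * (y - ∑ i, c i * z0 * d i - a)‖ ≤ ‖D‖ * ‖y - ∑ i, c i * z0 * d i - a‖ :=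
          norm_mul_le _ _
      _ ≤ 1 * κ := mul_le_mul hD hn (norm_nonneg _) zero_le_one
      _ = κ := one_mul κ
  have : ‖D * y‖ ≤ 0 := le_of_forall_pos_le_add fun ε hε => by simpa using key ε hε
  exact norm_le_zero_iff.mp this

/-- `Z^* k` for `k = 1 / max s c`: a factorisation of `rmp c (Z Z^*)` with a norm bound -/
private lemma KEY_factor (Z : Q) {c : ℝ} (hc : 0 < c) :
    ∃ k : Q, IsSelfAdjoint k ∧ rmp c (Z * star Z) = Z * star Z * k ∧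
      k * (Z * star Z) = Z * star Z * k ∧ ‖star Z * k‖ ^ 2 ≤ 1 / c := by
  have hx : 0 ≤ Z * star Z := mul_star_self_nonneg Z
  obtain ⟨k, hk1, hk2, hk3, hk4⟩ := rmp_factor hx hc
  refine ⟨k, hk1, hk3, hk2, ?_⟩
  have h1 : ‖star Z * k‖ ^ 2 = ‖star (star Z * k) * (star Z * k)‖ := by
    rw [CStarRing.norm_star_mul_self, sq]
  have h2 : star (star Z * k) * (star Z * k) = k * rmp c (Z * star Z) := by
    rw [star_mul, star_star, hk1.star_eq, hk3]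
    simp only [mul_assoc]
  rw [h1, h2]
  calc ‖k * rmp c (Z * star Z)‖ ≤ ‖k‖ * ‖rmp c (Z * star Z)‖ := norm_mul_le _ _
    _ ≤ 1 / c * 1 := mul_le_mul hk4 (rmp_nm hx hc) (norm_nonneg _) (by positivity)
    _ = 1 / c := mul_one _

theorem key {y z0 n FA Fe v P G F1 α β γ Z1 Z2 : Q}
    (hy : 0 ≤ y) (hz : 0 ≤ z0) (hyz : y * z0 = z0)
    (hrel : PosRel n FA Fe v P G F1)
    (hcomm : ∀ D ∈ ({n, FA, Fe, v, P, G, F1} : Set Q), D * y = y * D ∧ D * z0 = z0 * D)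
    (hpl : ∀ κ : ℝ, 0 < κ → ∃ (m : ℕ) (c d : Fin m → Q) (a : Q),
      (∀ D ∈ ({n, FA, Fe, v, P, G, F1} : Set Q), ∀ i, D * c i = c i * D ∧ D * d i = d i * D) ∧
      FA * a = 0 ∧ F1 * a = 0 ∧ ‖y - ∑ i, c i * z0 * d i - a‖ ≤ κ)
    (hα : α = n * n * y) (hβ : β = v * v * y) (hγ : γ = G * G * y)
    (hZ11 : ‖star Z1 * Z1 - γ‖ ≤ 1 / 20) (hZ22 : ‖star Z2 * Z2 - γ‖ ≤ 1 / 20)
    (hZ12 : ‖star Z1 * Z2‖ ≤ 1 / 20)
    (hq1 : rmp (1 / 40) γ * Z1 = Z1) (hq2 : rmp (1 / 40) γ * Z2 = Z2)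
    (ha : pp (gel α Z1) (1 / 4) = 0)
    (hb : (1 - rmp (1 / 4) (gel α Z1)) * β * (1 - rmp (1 / 4) (gel α Z1)) = 0) :
    y = 0 := by
  have cn : n * y = y * n := (hcomm n (by simp)).1
  have cFA : FA * y = y * FA := (hcomm FA (by simp)).1
  have cF1 : F1 * y = y * F1 := (hcomm F1 (by simp)).1
  have cP : P * y = y * P := (hcomm P (by simp)).1
  have cv : v * y = y * v := (hcomm v (by simp)).1
  have cG : G * y = y * G := (hcomm G (by simp)).1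
  have sn := hrel.sa_n.star_eq
  have sFA := hrel.sa_FA.star_eq
  have sFe := hrel.sa_Fe.star_eq
  have sv := hrel.sa_v.star_eq
  have sP := hrel.sa_P.star_eq
  have sG := hrel.sa_G.star_eq
  have sF1 := hrel.sa_F1.star_eq
  have sy : star y = y := hy.isSelfAdjoint.star_eq
  have sz : star z0 = z0 := hz.isSelfAdjoint.star_eq
  -- adjoint relations
  have nFA : n * FA = FA := by
    have := congrArg star hrel.FA_n
    rwa [star_mul, sn, sFA] at this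
  have GF1 : G * F1 = F1 := by
    have := congrArg star hrel.F1_G
    rwa [star_mul, sG, sF1] at this
  have Pv : P * v = P := by
    have := congrArg star hrel.v_P
    rwa [star_mul, sv, sP] at this
  -- positivity
  have hα' : α = n * y * n := by rw [hα, mul_assoc n n y, mul_assoc n y n, cn]
  have hβ' : β = v * y * v := by rw [hβ, mul_assoc v v y, mul_assoc v y v, cv]
  have hγ' : γ = G * y * G := by rw [hγ, mul_assoc G G y, mul_assoc G y G, cG]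
  have pα : 0 ≤ α := by rw [hα']; exact hrel.sa_n.conjugate_nonneg hy
  have pβ : 0 ≤ β := by rw [hβ']; exact hrel.sa_v.conjugate_nonneg hy
  have pγ : 0 ≤ γ := by rw [hγ']; exact hrel.sa_G.conjugate_nonneg hy
  have hβ'' : β = y * (v * v) := by rw [hβ', cv, mul_assoc]
  have hγ'' : γ = y * (G * G) := by rw [hγ', cG, mul_assoc]
  have hα'' : α = y * (n * n) := by rw [hα', cn, mul_assoc]
  have pZ : 0 ≤ Z1 * star Z1 := mul_star_self_nonneg Z1
  have hq14 : (0 : ℝ) < 1 / 4 := by norm_num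
  set w := pp (Z1 * star Z1) (1 / 4) with hw
  have pw : 0 ≤ w := pp_nonneg _ _
  have hg : gel α Z1 = α + w := rfl
  have pg : 0 ≤ gel α Z1 := by rw [hg]; exact add_nonneg pα pw
  have ng : ‖gel α Z1‖ ≤ 1 / 4 := (pp_eq_zero_iff pg hq14.le).mp ha
  have nα : ‖α‖ ≤ 1 / 4 := (KEY_norm_add_left pα pw).trans (hg ▸ ng)
  have nw : ‖w‖ ≤ 1 / 4 := (KEY_norm_add_right pα pw).trans (hg ▸ ng)
  -- step 1
  have hFAz : FA * z0 = 0 := by
    refine KEY_zero pα (r := 1 / 4) (by norm_num) (by norm_num) nα ?_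
    have h1 : FA * α * FA = FA * y * FA := by
      rw [hα']
      calc FA * (n * y * n) * FA = (FA * n) * y * (n * FA) := by noncomm_ring
        _ = FA * y * FA := by rw [hrel.FA_n, nFA]
    have cz : FA * z0 = z0 * FA := (hcomm FA (by simp)).2
    calc star (FA * z0) * α * (FA * z0) = z0 * (FA * α * FA) * z0 := by
          rw [star_mul, sFA, sz]; noncomm_ring
      _ = z0 * (FA * (FA * (y * z0))) := by
          rw [h1, mul_assoc FA y FA, ← cFA]; noncomm_ring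
      _ = star (FA * z0) * (FA * z0) := by
          rw [hyz, star_mul, sFA, sz]; noncomm_ring
  have hFAy : FA * y = 0 := by
    refine KEY_plateau hrel.nm_FA hFAz fun κ hκ => ?_
    obtain ⟨m, c, d, a, h1, h2, h3, h4⟩ := hpl κ hκ
    exact ⟨m, c, d, a, fun i => (h1 FA (by simp) i).1, h2, h4⟩
  -- step 2
  have nZ1 : ‖star Z1 * Z1‖ ≤ 1 / 2 := by
    have h1 : ‖w - Z1 * star Z1‖ ≤ 1 / 4 := pp_sub pZ hq14.le
    have h2 : ‖Z1 * star Z1‖ ≤ 1 / 2 := by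
      calc ‖Z1 * star Z1‖ = ‖w - (w - Z1 * star Z1)‖ := by rw [sub_sub_cancel]
        _ ≤ ‖w‖ + ‖w - Z1 * star Z1‖ := norm_sub_le _ _
        _ ≤ 1 / 4 + 1 / 4 := add_le_add nw h1
        _ = 1 / 2 := by norm_num
    rwa [CStarRing.norm_star_mul_self, ← CStarRing.norm_self_mul_star]
  have nγ : ‖γ‖ ≤ 11 / 20 := by
    calc ‖γ‖ = ‖star Z1 * Z1 - (star Z1 * Z1 - γ)‖ := by rw [sub_sub_cancel]
      _ ≤ ‖star Z1 * Z1‖ + ‖star Z1 * Z1 - γ‖ := norm_sub_le _ _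
      _ ≤ 1 / 2 + 1 / 20 := add_le_add nZ1 hZ11
      _ = 11 / 20 := by norm_num
  have hF1z : F1 * z0 = 0 := by
    refine KEY_zero pγ (r := 11 / 20) (by norm_num) (by norm_num) nγ ?_
    have h1 : F1 * γ * F1 = F1 * y * F1 := by
      rw [hγ']
      calc F1 * (G * y * G) * F1 = (F1 * G) * y * (G * F1) := by noncomm_ring
        _ = F1 * y * F1 := by rw [hrel.F1_G, GF1]
    calc star (F1 * z0) * γ * (F1 * z0) = z0 * (F1 * γ * F1) * z0 := by
          rw [star_mul, sF1, sz]; noncomm_ring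
      _ = z0 * (F1 * (F1 * (y * z0))) := by
          rw [h1, mul_assoc F1 y F1, ← cF1]; noncomm_ring
      _ = star (F1 * z0) * (F1 * z0) := by
          rw [hyz, star_mul, sF1, sz]; noncomm_ring
  have hF1y : F1 * y = 0 := by
    refine KEY_plateau hrel.nm_F1 hF1z fun κ hκ => ?_
    obtain ⟨m, c, d, a, h1, h2, h3, h4⟩ := hpl κ hκ
    exact ⟨m, c, d, a, fun i => (h1 F1 (by simp) i).1, h3, h4⟩
  -- step 3
  have hFey : Fe * y = 0 := by
    rw [← hrel.Fe_FA, mul_assoc, hFAy, mul_zero]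
  have hPy : P * y = y := by
    have : (P + F1 + Fe) * y = y := by rw [hrel.sum, one_mul]
    rwa [add_mul, add_mul, hF1y, hFey, add_zero, add_zero] at this
  have hyP : y * P = y := by rw [← cP, hPy]
  -- step 4
  obtain ⟨k, hk1, hk2, hk3, hk4⟩ := rmp_factor pγ (c := 1 / 40) (by norm_num)
  have hγP : P * γ = γ := by rw [hγ'', ← mul_assoc, hPy]
  have hPZ : ∀ Z : Q, rmp (1 / 40) γ * Z = Z → P * Z = Z := by
    intro Z hZ
    have h1 : P * rmp (1 / 40) γ = rmp (1 / 40) γ := by rw [hk3, ← mul_assoc, hγP]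
    calc P * Z = P * (rmp (1 / 40) γ * Z) := by rw [hZ]
      _ = Z := by rw [← mul_assoc, h1, hZ]
  have hyβ : y = β * P := by
    calc y = y * P := hyP.symm
      _ = y * (v * (v * P)) := by rw [hrel.v_P, hrel.v_P]
      _ = β * P := by rw [hβ'']; noncomm_ring
  have hTZ : ∀ Z : Q, rmp (1 / 40) γ * Z = Z → ∃ T, Z = β * T := by
    intro Z hZ
    refine ⟨P * (G * G) * k * Z, ?_⟩
    calc Z = rmp (1 / 40) γ * Z := hZ.symm
      _ = y * (G * G) * k * Z := by rw [hk3, hγ'']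
      _ = β * P * (G * G) * k * Z := by rw [← hyβ]
      _ = β * (P * (G * G) * k * Z) := by noncomm_ring
  obtain ⟨T1, hT1⟩ := hTZ Z1 hq1
  obtain ⟨T2, hT2⟩ := hTZ Z2 hq2
  -- step 5
  obtain ⟨k', hk'1, hk'2, hk'3, hk'4⟩ := KEY_factor Z1 (c := 1 / 4) hq14
  set e := rmp (1 / 4) (Z1 * star Z1) with he
  set f := rmp (1 / 4) (gel α Z1) with hf
  have sf : star f = f := (rmp_sa _ _).star_eq
  have h1fβ : (1 - f) * β = 0 := by
    obtain ⟨s, hs⟩ := CStarAlgebra.nonneg_iff_eq_star_mul_self.mp pβ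
    have h1 : star (s * (1 - f)) * (s * (1 - f)) = 0 := by
      rw [star_mul, star_sub, star_one, sf]
      calc (1 - f) * star s * (s * (1 - f)) = (1 - f) * (star s * s) * (1 - f) := by
            noncomm_ring
        _ = 0 := by rw [← hs, hb]
    have h2 : s * (1 - f) = 0 := (CStarRing.star_mul_self_eq_zero_iff _).mp h1
    have h3 : (1 - f) * star s = 0 := by
      have := congrArg star h2
      rwa [star_mul, star_sub, star_one, sf, star_zero] at this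
    rw [hs, ← mul_assoc, h3, zero_mul]
  set V := Z2 - e * Z2 with hV
  have hVβ : V = β * (T2 - T1 * star Z1 * k' * Z2) := by
    rw [mul_sub, ← hT2, ← mul_assoc, ← mul_assoc, ← mul_assoc, ← hT1, hV, hk'2]
  have hfV1 : (1 - f) * V = 0 := by rw [hVβ, ← mul_assoc, h1fβ, zero_mul]
  have hPV : P * V = V := by
    have h1 : P * e = e := by
      rw [hk'2, ← mul_assoc, ← mul_assoc, hPZ Z1 hq1]
    rw [hV, mul_sub, hPZ Z2 hq2, ← mul_assoc, h1]
  have hαV : α * V = 0 := by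
    calc α * V = y * (n * n) * (P * V) := by rw [hPV, hα'']
      _ = y * (n * (n * P)) * V := by noncomm_ring
      _ = 0 := by rw [hrel.n_P, mul_zero, mul_zero, zero_mul]
  have hwV : w * V = 0 := by
    have h1 : w * e = w := pp_mul_rmp pZ hq14
    rw [hV, mul_sub, ← mul_assoc, h1, sub_self]
  have hgV : gel α Z1 * V = 0 := by rw [hg, add_mul, hαV, hwV, add_zero]
  have hfV : f * V = 0 := rmp_mul_eq_zero pg hq14 hgV
  have hV0 : V = 0 := by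
    have : V = (1 - f) * V + f * V := by rw [sub_mul, one_mul, sub_add_cancel]
    rw [this, hfV1, hfV, add_zero]
  have hZe : Z2 = e * Z2 := sub_eq_zero.mp hV0
  -- step 6
  have nm : ‖star Z1 * k'‖ ≤ 2 := by
    have h1 : ‖star Z1 * k'‖ ^ 2 ≤ 2 ^ 2 := by
      refine hk'4.trans ?_
      norm_num
    exact (sq_le_sq₀ (norm_nonneg _) (by norm_num)).mp h1
  have hZ21 : ‖star Z2 * Z1‖ ≤ 1 / 20 := by
    have : star Z2 * Z1 = star (star Z1 * Z2) := by rw [star_mul, star_star]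
    rwa [this, norm_star]
  have nZ2 : ‖Z2‖ ≤ 1 / 10 := by
    have h1 : ‖Z2‖ * ‖Z2‖ ≤ 1 / 20 * 2 * ‖Z2‖ := by
      calc ‖Z2‖ * ‖Z2‖ = ‖star Z2 * Z2‖ := (CStarRing.norm_star_mul_self).symm
        _ = ‖star Z2 * Z1 * (star Z1 * k') * Z2‖ := by
            congr 1
            calc star Z2 * Z2 = star Z2 * (e * Z2) := by rw [← hZe]
              _ = star Z2 * (Z1 * star Z1 * k' * Z2) := by rw [hk'2]
              _ = star Z2 * Z1 * (star Z1 * k') * Z2 := by noncomm_ring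
        _ ≤ ‖star Z2 * Z1 * (star Z1 * k')‖ * ‖Z2‖ := norm_mul_le _ _
        _ ≤ ‖star Z2 * Z1‖ * ‖star Z1 * k'‖ * ‖Z2‖ :=
            mul_le_mul_of_nonneg_right (norm_mul_le _ _) (norm_nonneg _)
        _ ≤ 1 / 20 * 2 * ‖Z2‖ := by
            refine mul_le_mul_of_nonneg_right ?_ (norm_nonneg _)
            exact mul_le_mul hZ21 nm (norm_nonneg _) (by norm_num)
    by_contra hcon
    push Not at hcon
    nlinarith
  have nγ2 : ‖γ‖ ≤ 6 / 100 := by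
    have h1 : ‖star Z2 * Z2‖ ≤ 1 / 100 := by
      rw [CStarRing.norm_star_mul_self]
      nlinarith [norm_nonneg Z2]
    calc ‖γ‖ = ‖star Z2 * Z2 - (star Z2 * Z2 - γ)‖ := by rw [sub_sub_cancel]
      _ ≤ ‖star Z2 * Z2‖ + ‖star Z2 * Z2 - γ‖ := norm_sub_le _ _
      _ ≤ 1 / 100 + 1 / 20 := add_le_add h1 hZ22
      _ = 6 / 100 := by norm_num
  have hw0 : w = 0 := by
    refine (pp_eq_zero_iff pZ hq14.le).mpr ?_
    have h1 : ‖star Z1 * Z1‖ ≤ 1 / 4 := by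
      calc ‖star Z1 * Z1‖ = ‖(star Z1 * Z1 - γ) + γ‖ := by rw [sub_add_cancel]
        _ ≤ ‖star Z1 * Z1 - γ‖ + ‖γ‖ := norm_add_le _ _
        _ ≤ 1 / 20 + 6 / 100 := add_le_add hZ11 nγ2
        _ ≤ 1 / 4 := by norm_num
    rwa [CStarRing.norm_self_mul_star, ← CStarRing.norm_star_mul_self]
  -- step 7
  have hgβ : gel α Z1 * β = 0 := by
    rw [hg, hw0, add_zero, hα'', hβ]
    calc y * (n * n) * (v * v * y) = y * n * (n * v) * v * y := by noncomm_ring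
      _ = 0 := by rw [hrel.n_v, mul_zero, zero_mul, zero_mul]
  have hfβ : f * β = 0 := rmp_mul_eq_zero pg hq14 hgβ
  have hβ0 : β = 0 := by
    have : β = (1 - f) * β + f * β := by rw [sub_mul, one_mul, sub_add_cancel]
    rw [this, h1fβ, hfβ, add_zero]
  rw [hyβ, hβ0, zero_mul]

end MUP
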