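import Pool.Agent.MUP.CFM

/-!
MUP / QUO.  Quotient C*-algebras of unital C*-algebras (not in Mathlib).

Let `J` be a closed two-sided ideal of the unital C*-algebra `B`.  Construct `Q = B/J`:

* ring and algebra structure: let `I : Ideal B` be the (left) ideal with carrier `J`; it is
  two-sided (`I.IsTwoSided`), so `B ⧸ I` is a ring (`Ideal.Quotient.ring`, non commutative) with
  `Ideal.Quotient.mk I`; the `ℂ`-algebra structure comes from the surjection.  (Alternatively use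
  `TwoSidedIdeal`/`RingCon.Quotient`.)
* norm: the quotient norm (`Submodule.Quotient.normedAddCommGroup`, for `Submodule B B`; the
  additive structure is definitionally the same as in Mathlib's commutative
  `Ideal.Quotient.normedCommRing`), or by hand `‖π x‖ = infDist x J = inf_{j ∈ J} ‖x - j‖`.
  Complete, submultiplicative.
* star: `J` is selfadjoint (`star_mem_idl`), so `star` descends; `‖π x^*‖ = ‖π x‖`.
* C*-identity: it suffices that `‖π x‖^2 ≤ ‖π (x^* x)‖`.  For `j ∈ J` and `ε > 0` take `e ∈ J`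
  as in `exists_approx_unit`.  As `x e ∈ J`,
  `‖π x‖^2 ≤ ‖x (1-e)‖^2 = ‖(1-e) x^* x (1-e)‖
     ≤ ‖(1-e) (x^* x - j) (1-e)‖ + ‖(1-e) j (1-e)‖ ≤ ‖x^* x - j‖ + ε`.
  Taking the infimum over `j` gives `‖π x‖^2 ≤ ‖π(x^* x)‖`.
* the last assertion of the theorem is the definition of the quotient norm as an infimum.

(Universe: the quotient lives in the universe of `B`.)
-/

open Filter Topology

namespace MUP

universe u

section

variable {B : Type u} [CStarAlgebra B] (I : Ideal B) [I.IsTwoSided]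

/-- the normed ring structure -/
private noncomputable abbrev QUO_ring (hI : IsClosed (I : Set B)) : NormedRing (B ⧸ I) :=
  letI : NormedAddCommGroup (B ⧸ I) := Submodule.Quotient.normedAddCommGroup I (hS := hI)
  { Ideal.Quotient.ring I, Submodule.Quotient.normedAddCommGroup I (hS := hI) with
    dist_eq := dist_eq_norm_neg_add
    norm_mul_le := fun x y => le_of_forall_pos_le_add fun ε hε => by
      have := ((Metric.nhds_basis_ball.prod_nhds Metric.nhds_basis_ball).tendsto_iff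
        Metric.nhds_basis_ball).mp (continuous_mul.tendsto (‖x‖, ‖y‖)) ε hε
      simp only [Set.mem_prod, Metric.mem_ball, and_imp, Prod.forall, Prod.exists] at this
      rcases this with ⟨ε₁, ε₂, ⟨h₁, h₂⟩, h⟩
      obtain ⟨⟨a, rfl, ha⟩, ⟨b, rfl, hb⟩⟩ := And.intro (Submodule.Quotient.norm_mk_lt x h₁)
        (Submodule.Quotient.norm_mk_lt y h₂)
      simp only [dist, abs_sub_lt_iff] at h
      specialize h ‖a‖ ‖b‖ ⟨by linarith, by linarith [Submodule.Quotient.norm_mk_le I a]⟩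
        ⟨by linarith, by linarith [Submodule.Quotient.norm_mk_le I b]⟩
      calc
        _ ≤ ‖a * b‖ := Submodule.Quotient.norm_mk_le I (a * b)
        _ ≤ ‖a‖ * ‖b‖ := norm_mul_le a b
        _ ≤ _ := (sub_lt_iff_lt_add'.mp h.1).le }

/-- the star operation -/
private noncomputable def QUO_star (hs : ∀ x ∈ I, star x ∈ I) (x : B ⧸ I) : B ⧸ I :=
  Quotient.liftOn' x (fun a => Ideal.Quotient.mk I (star a)) fun a b h => by
    rw [Submodule.quotientRel_def] at h
    refine Ideal.Quotient.eq.2 ?_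
    rw [← star_sub]
    exact hs _ h

private noncomputable abbrev QUO_starRing (hs : ∀ x ∈ I, star x ∈ I) : StarRing (B ⧸ I) where
  star := QUO_star I hs
  star_involutive := by
    rintro ⟨a⟩
    exact congrArg (Ideal.Quotient.mk I) (star_star a)
  star_mul := by
    rintro ⟨a⟩ ⟨b⟩
    exact congrArg (Ideal.Quotient.mk I) (star_mul a b)
  star_add := by
    rintro ⟨a⟩ ⟨b⟩
    exact congrArg (Ideal.Quotient.mk I) (star_add a b)

/-- the C*-inequality -/
private theorem QUO_ineq (hI : IsClosed (I : Set B))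
    (hu : ∀ j ∈ I, ∀ ε : ℝ, 0 < ε → ∃ e ∈ I, IsSelfAdjoint e ∧ ‖1 - e‖ ≤ 1 ∧
      ‖j * (1 - e)‖ ≤ ε) (a : B) :
    letI : NormedRing (B ⧸ I) := QUO_ring I hI
    ‖Ideal.Quotient.mk I a‖ * ‖Ideal.Quotient.mk I a‖ ≤ ‖Ideal.Quotient.mk I (star a * a)‖ := by
  letI : NormedRing (B ⧸ I) := QUO_ring I hI
  refine le_of_forall_pos_le_add fun ε hε => ?_
  obtain ⟨m, hm, hmn⟩ := Submodule.Quotient.norm_mk_lt (S := I)
    (Ideal.Quotient.mk I (star a * a)) (half_pos hε)
  have hj : star a * a - m ∈ I := by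
    rw [← Ideal.Quotient.mk_eq_mk_iff_sub_mem]
    exact hm.symm
  obtain ⟨e, he, hesa, he1, hje⟩ := hu _ hj (ε / 2) (half_pos hε)
  have h1 : Ideal.Quotient.mk I a = Ideal.Quotient.mk I (a * (1 - e)) := by
    rw [Ideal.Quotient.mk_eq_mk_iff_sub_mem]
    have : a - a * (1 - e) = a * e := by noncomm_ring
    rw [this]
    exact I.mul_mem_left a he
  have h2 : ‖Ideal.Quotient.mk I a‖ ≤ ‖a * (1 - e)‖ := by
    rw [h1]
    exact Submodule.Quotient.norm_mk_le I (a * (1 - e))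
  have h3 : ‖a * (1 - e)‖ * ‖a * (1 - e)‖ = ‖(1 - e) * (star a * a) * (1 - e)‖ := by
    rw [← CStarRing.norm_star_mul_self, star_mul, star_sub, star_one, hesa.star_eq]
    congr 1
    noncomm_ring
  have h4 : (1 - e) * (star a * a) * (1 - e) =
      (1 - e) * m * (1 - e) + (1 - e) * ((star a * a - m) * (1 - e)) := by noncomm_ring
  have h5 : ‖(1 - e) * m * (1 - e)‖ ≤ ‖m‖ := by
    calc ‖(1 - e) * m * (1 - e)‖ ≤ ‖1 - e‖ * ‖m‖ * ‖1 - e‖ :=
          (norm_mul_le _ _).trans (mul_le_mul_of_nonneg_right (norm_mul_le _ _) (norm_nonneg _))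
      _ ≤ 1 * ‖m‖ * 1 := by gcongr
      _ = ‖m‖ := by ring
  have h6 : ‖(1 - e) * ((star a * a - m) * (1 - e))‖ ≤ ε / 2 := by
    calc _ ≤ ‖1 - e‖ * ‖(star a * a - m) * (1 - e)‖ := norm_mul_le _ _
      _ ≤ 1 * (ε / 2) := by gcongr
      _ = ε / 2 := one_mul _
  calc ‖Ideal.Quotient.mk I a‖ * ‖Ideal.Quotient.mk I a‖
      ≤ ‖a * (1 - e)‖ * ‖a * (1 - e)‖ :=
        mul_le_mul h2 h2 (norm_nonneg _) (norm_nonneg _)
    _ = ‖(1 - e) * m * (1 - e) + (1 - e) * ((star a * a - m) * (1 - e))‖ := by rw [h3, h4]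
    _ ≤ ‖m‖ + ε / 2 := (norm_add_le _ _).trans (add_le_add h5 h6)
    _ ≤ ‖Ideal.Quotient.mk I (star a * a)‖ + ε := by linarith [hmn.le]

private noncomputable abbrev QUO_cstar (hI : IsClosed (I : Set B)) (hs : ∀ x ∈ I, star x ∈ I)
    (hu : ∀ j ∈ I, ∀ ε : ℝ, 0 < ε → ∃ e ∈ I, IsSelfAdjoint e ∧ ‖1 - e‖ ≤ 1 ∧
      ‖j * (1 - e)‖ ≤ ε) : CStarAlgebra (B ⧸ I) :=
  letI : NormedRing (B ⧸ I) := QUO_ring I hI
  letI : StarRing (B ⧸ I) := QUO_starRing I hs
  letI : Algebra ℂ (B ⧸ I) := Ideal.Quotient.algebra ℂ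
  letI : NormedAlgebra ℂ (B ⧸ I) :=
    { (inferInstance : Algebra ℂ (B ⧸ I)) with
      norm_smul_le := fun r x => by
        exact norm_smul_le (α := ℂ) (β := B ⧸ I) r x }
  { QUO_ring I hI, QUO_starRing I hs, (inferInstance : NormedAlgebra ℂ (B ⧸ I)) with
    complete := (Submodule.Quotient.completeSpace (M := B) I).complete
    norm_mul_self_le := by
      rintro ⟨a⟩
      exact QUO_ineq I hI hu a
    star_smul := by
      rintro r ⟨a⟩
      exact congrArg (Ideal.Quotient.mk I) (star_smul r a) }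

end

theorem exists_quotient {B : Type u} [CStarAlgebra B] (J : Set B) (hJ : IsIdl J) :
    ∃ (Q : Type u) (_ : CStarAlgebra Q) (π : B →⋆ₐ[ℂ] Q), Function.Surjective π ∧
      (∀ x, π x = 0 ↔ x ∈ J) ∧ ∀ (x : B) (ε : ℝ), 0 < ε → ∃ j ∈ J, ‖x - j‖ ≤ ‖π x‖ + ε := by
  let I : Ideal B :=
    { carrier := J
      add_mem' := fun hx hy => hJ.add_mem _ hx _ hy
      zero_mem' := hJ.zero_mem
      smul_mem' := fun c x hx => hJ.mul_left c x hx }
  haveI : I.IsTwoSided := ⟨fun b h => hJ.mul_right b _ h⟩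
  have hI : IsClosed (I : Set B) := hJ.closed
  have hs : ∀ x ∈ I, star x ∈ I := fun x hx => star_mem_idl hJ hx
  have hu : ∀ j ∈ I, ∀ ε : ℝ, 0 < ε → ∃ e ∈ I, IsSelfAdjoint e ∧ ‖1 - e‖ ≤ 1 ∧
      ‖j * (1 - e)‖ ≤ ε := fun j hj ε hε => by
    obtain ⟨e, h1, h2, _, h4, h5⟩ := exists_approx_unit hJ hj hε
    exact ⟨e, h1, h2, h4, h5⟩
  letI : CStarAlgebra (B ⧸ I) := QUO_cstar I hI hs hu
  refine ⟨B ⧸ I, QUO_cstar I hI hs hu,
    { toFun := fun a => Ideal.Quotient.mk I a
      map_one' := rfl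
      map_mul' := fun _ _ => rfl
      map_zero' := rfl
      map_add' := fun _ _ => rfl
      commutes' := fun _ => rfl
      map_star' := fun _ => rfl }, ?_, ?_, ?_⟩
  · exact Ideal.Quotient.mk_surjective
  · intro x
    exact Ideal.Quotient.eq_zero_iff_mem
  · intro x ε hε
    obtain ⟨m, hm, hmn⟩ := Submodule.Quotient.norm_mk_lt (S := I) (Ideal.Quotient.mk I x) hε
    refine ⟨x - m, ?_, ?_⟩
    · have h1 : x - m ∈ I := by
        rw [← Ideal.Quotient.mk_eq_mk_iff_sub_mem]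
        exact hm.symm
      exact h1
    · rw [sub_sub_cancel]
      exact hmn.le

end MUP
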