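import Pool.Agent.MUP.FUN
import Pool.Agent.MUP.CNB
import Pool.Agent.MUP.CNC
import Pool.Agent.MUP.QUO
import Pool.Agent.MUP.IDL
import Pool.Agent.MUP.KEY

/-!
MUP / ABS.  The abstract theorem for exact stages.

`S : Stage y F A' 0` with `y, z0 ∈ F` and the plateau families in `F`, `A'`.  Since `τ = 0`:
`D * m = m * D` for all positions `D` and `m ∈ F`; `FA a = 0 = F1 a` for `a ∈ A'`; `α = n^2 y`, `β = v^2 y`, `γ = G^2 y`, and
`b = (1-f) β (1-f)` with `g = gel α Z1`, `f = rmp (1/4) g`.  Positivity: `α = n y n ≥ 0`, etc.,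
`g ≥ 0`, `b ≥ 0`, `a := pp g (1/4) ≥ 0`.

(1) `a b = 0`: `a (1 - f) = 0` by `pp_mul_rmp`.
(2) `a, b ∈ y C`: `α = y n^2`, `γ = y G^2`, `Z1 = rmp (1/40) γ * Z1 = γ k Z1 ∈ y C`, so
    `w = pp (Z1 Z1^*) (1/4) = Z1 Z1^* k' ∈ y C`, `g = α + w = y d_g`, `a = g k'' = y d_a`, and
    `b = β (1-f) - f β (1-f)` with `β = y v^2`, `f = g k''' ∈ y C`.
(3) Let `q = a + b = y d`.  `Cop 1 q y` by `cop_of_mem`; `Cop N q q` for all `N` by `cop_add`
    (`BCop` gives `Cop`: for `ε ≥ 1` use `η = 1/2`, for `ε < 1` use `η = ε`).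
(4) `InIdeal q y`: let `J = {x | InIdeal q x}` (`isIdl_inIdeal`), `π : C → Q` the quotient of
    `exists_quotient`; give `Q` the order `CStarAlgebra.spectralOrder`,
    `CStarAlgebra.spectralOrderedRing`.  `π q = 0`, so `π a = π b = 0` because both are positive
    (`π a + π b = 0`, `π a = star c * c`-form or `map_nonneg`).  Apply `key` in `Q` to the images
    (`map_pp`, `map_rmp`; `PosRel` maps; the plateau families map) and get `π y = 0`, `y ∈ J`.
(5) `cop_ideal` gives `Cop 2 y q`, then `cop_trans` with (3) gives `Cop 2 y y`.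
-/

open Filter Topology

namespace MUP

variable {C : Type*} [CStarAlgebra C] [PartialOrder C] [StarOrderedRing C]

omit [PartialOrder C] [StarOrderedRing C] in
private theorem ABS_cop_of_bcop {a : C} (h : BCop a) (N : ℕ) : Cop N a a := by
  intro ε hε
  obtain ⟨r, hr, _⟩ := h N (min ε (1 / 2)) (lt_min hε (by norm_num))
    (lt_of_le_of_lt (min_le_right _ _) (by norm_num))
  exact ⟨r, fun i j => (hr i j).trans (min_le_left _ _)⟩

private theorem ABS_map_nonneg {Q : Type*} [CStarAlgebra Q] [PartialOrder Q] [StarOrderedRing Q]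
    (π : C →⋆ₐ[ℂ] Q) {x : C} (hx : 0 ≤ x) : 0 ≤ π x := by
  have hs : IsSelfAdjoint (CFC.sqrt x) := IsSelfAdjoint.of_nonneg (CFC.sqrt_nonneg x)
  have h : π x = star (π (CFC.sqrt x)) * π (CFC.sqrt x) := by
    rw [← map_star, hs.star_eq, ← map_mul, CFC.sqrt_mul_sqrt_self x hx]
  rw [h]
  exact star_mul_self_nonneg _

omit [PartialOrder C] [StarOrderedRing C] in
private theorem ABS_map_rel {Q : Type*} [CStarAlgebra Q] (π : C →⋆ₐ[ℂ] Q)
    {n FA Fe v P G F1 : C} (h : PosRel n FA Fe v P G F1) :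
    PosRel (π n) (π FA) (π Fe) (π v) (π P) (π G) (π F1) := by
  have hn : ∀ x : C, ‖x‖ ≤ 1 → ‖π x‖ ≤ 1 := fun x hx =>
    (NonUnitalStarAlgHom.norm_apply_le π x).trans hx
  exact
  { sa_n := h.sa_n.map π
    sa_FA := h.sa_FA.map π
    sa_Fe := h.sa_Fe.map π
    sa_v := h.sa_v.map π
    sa_P := h.sa_P.map π
    sa_G := h.sa_G.map π
    sa_F1 := h.sa_F1.map π
    nm_n := hn _ h.nm_n
    nm_FA := hn _ h.nm_FA
    nm_Fe := hn _ h.nm_Fe
    nm_v := hn _ h.nm_v
    nm_P := hn _ h.nm_P
    nm_G := hn _ h.nm_G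
    nm_F1 := hn _ h.nm_F1
    n_v := by rw [← map_mul, h.n_v, map_zero]
    n_P := by rw [← map_mul, h.n_P, map_zero]
    v_P := by rw [← map_mul, h.v_P]
    FA_n := by rw [← map_mul, h.FA_n]
    F1_G := by rw [← map_mul, h.F1_G]
    Fe_FA := by rw [← map_mul, h.Fe_FA]
    sum := by rw [← map_add, ← map_add, h.sum, map_one] }

theorem abs_main {y z0 : C} (hy : 0 ≤ y) (hz : 0 ≤ z0) (hyz : y * z0 = z0)
    (F A' : Set C) (hyF : y ∈ F) (hzF : z0 ∈ F)
    (hpl : ∀ κ : ℝ, 0 < κ → ∃ (m : ℕ) (c d : Fin m → C), ∃ a ∈ A',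
      (∀ i, c i ∈ F ∧ d i ∈ F) ∧ ‖y - ∑ i, c i * z0 * d i - a‖ ≤ κ)
    (S : Stage y F A' 0) : Cop 2 y y := by
  obtain ⟨n, FA, Fe, v, P, G, F1, α, β, γ, Z1, Z2, b, rel, comm, kill, sa_α, sa_β, sa_γ, nm_α,
    nm_β, nm_γ, hα, hβ, hγ, Z11, Z22, Z12, qZ1, qZ2, sa_b, nm_b, hb, copa, copb⟩ := S
  -- exactness
  have comm' : ∀ m ∈ F, ∀ D ∈ ({n, FA, Fe, v, P, G, F1} : Set C), D * m = m * D :=
    fun m hm D hD => sub_eq_zero.mp (norm_le_zero_iff.mp (comm m hm D hD))
  have killA : ∀ a ∈ A', FA * a = 0 := fun a ha => norm_le_zero_iff.mp (kill a ha).1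
  have kill1 : ∀ a ∈ A', F1 * a = 0 := fun a ha => norm_le_zero_iff.mp (kill a ha).2
  have hα' : α = n * n * y := sub_eq_zero.mp (norm_le_zero_iff.mp hα)
  have hβ' : β = v * v * y := sub_eq_zero.mp (norm_le_zero_iff.mp hβ)
  have hγ' : γ = G * G * y := sub_eq_zero.mp (norm_le_zero_iff.mp hγ)
  have hb' := sub_eq_zero.mp (norm_le_zero_iff.mp hb)
  have hny : n * y = y * n := comm' y hyF n (by simp)
  have hvy : v * y = y * v := comm' y hyF v (by simp)
  have hGy : G * y = y * G := comm' y hyF G (by simp)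
  -- positivity
  have conj_nn : ∀ D : C, IsSelfAdjoint D → D * y = y * D → 0 ≤ D * D * y := by
    intro D hD hDy
    have e : D * D * y = D * y * D := by
      calc D * D * y = D * (D * y) := mul_assoc _ _ _
        _ = D * (y * D) := by rw [hDy]
        _ = D * y * D := (mul_assoc _ _ _).symm
    rw [e]
    exact hD.conjugate_nonneg hy
  have α_nn : 0 ≤ α := by rw [hα']; exact conj_nn n rel.sa_n hny
  have β_nn : 0 ≤ β := by rw [hβ']; exact conj_nn v rel.sa_v hvy
  have γ_nn : 0 ≤ γ := by rw [hγ']; exact conj_nn G rel.sa_G hGy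
  have zz_nn : 0 ≤ Z1 * star Z1 := mul_star_self_nonneg Z1
  have g_nn : 0 ≤ gel α Z1 := add_nonneg α_nn (pp_nonneg _ _)
  set g : C := gel α Z1 with hg
  have gsa : IsSelfAdjoint g := IsSelfAdjoint.of_nonneg g_nn
  set f : C := rmp (1 / 4) g with hf
  have fsa : IsSelfAdjoint f := rmp_sa _ _
  set a : C := pp g (1 / 4) with ha
  have a_nn : 0 ≤ a := pp_nonneg _ _
  have f1sa : IsSelfAdjoint (1 - f) := (IsSelfAdjoint.one C).sub fsa
  have b_nn : 0 ≤ b := by rw [hb']; exact f1sa.conjugate_nonneg β_nn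
  -- (1)
  have a1f : a * (1 - f) = 0 := by
    rw [mul_sub, mul_one, ha, hf, pp_mul_rmp g_nn (by norm_num), sub_self]
  have hab : a * b = 0 := by
    rw [hb', ← mul_assoc, ← mul_assoc, a1f, zero_mul, zero_mul]
  -- (2)
  have rα : α = y * (n * n) := by
    rw [hα', mul_assoc, hny, ← mul_assoc, hny, mul_assoc]
  have rβ : β = y * (v * v) := by
    rw [hβ', mul_assoc, hvy, ← mul_assoc, hvy, mul_assoc]
  have rγ : γ = y * (G * G) := by
    rw [hγ', mul_assoc, hGy, ← mul_assoc, hGy, mul_assoc]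
  obtain ⟨k1, -, -, hk1, -⟩ := rmp_factor γ_nn (c := 1 / 40) (by norm_num)
  obtain ⟨k2, -, -, hk2⟩ := pp_factor zz_nn (c := 1 / 4) (by norm_num)
  obtain ⟨k3, -, -, hk3⟩ := pp_factor g_nn (c := 1 / 4) (by norm_num)
  obtain ⟨k4, -, -, hk4, -⟩ := rmp_factor g_nn (c := 1 / 4) (by norm_num)
  have rZ : Z1 = y * (G * G * k1 * Z1) := by
    conv_lhs => rw [← qZ1, hk1, rγ]
    simp only [mul_assoc]
  have rg : g = y * (n * n + G * G * k1 * Z1 * star Z1 * k2) := by
    rw [hg]
    unfold gel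
    rw [hk2, mul_add, ← rα]
    congr 1
    conv_lhs => enter [1, 1]; rw [rZ]
    simp only [mul_assoc]
  set dg : C := n * n + G * G * k1 * Z1 * star Z1 * k2 with hdg
  have ra : a = y * (dg * k3) := by
    rw [ha, hk3]
    conv_lhs => enter [1]; rw [rg]
    rw [mul_assoc]
  have rf : f = y * (dg * k4) := by
    rw [hf, hk4]
    conv_lhs => enter [1]; rw [rg]
    rw [mul_assoc]
  have rb : b = y * (v * v * (1 - f) - dg * k4 * β * (1 - f)) := by
    have e1 : b = β * (1 - f) - f * (β * (1 - f)) := by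
      rw [hb', sub_mul 1 f β, one_mul, sub_mul β (f * β) (1 - f), mul_assoc f β (1 - f)]
    have e2 : β * (1 - f) = y * (v * v * (1 - f)) := by
      calc β * (1 - f) = (y * (v * v)) * (1 - f) := congrArg (fun z => z * (1 - f)) rβ
        _ = y * (v * v * (1 - f)) := by rw [mul_assoc]
    have e3 : f * (β * (1 - f)) = y * (dg * k4 * β * (1 - f)) := by
      calc f * (β * (1 - f)) = (y * (dg * k4)) * (β * (1 - f)) :=
            congrArg (fun z => z * (β * (1 - f))) rf
        _ = y * (dg * k4 * β * (1 - f)) := by simp only [mul_assoc]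
    rw [e1, e3, mul_sub y (v * v * (1 - f)), ← e2]
  -- (3)
  have q_nn : 0 ≤ a + b := add_nonneg a_nn b_nn
  have rq : a + b = y * (dg * k3 + (v * v * (1 - f) - dg * k4 * β * (1 - f))) := by
    rw [mul_add, ← ra, ← rb]
  have c1 : Cop 1 (a + b) y := by
    refine cop_of_mem q_nn hy fun ε hε =>
      ⟨dg * k3 + (v * v * (1 - f) - dg * k4 * β * (1 - f)), ?_⟩
    rw [← rq, sub_self, norm_zero]
    exact hε.le
  have cN : ∀ N, Cop N (a + b) (a + b) := fun N =>
    cop_add a_nn b_nn hab (ABS_cop_of_bcop copa N) (ABS_cop_of_bcop copb N)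
  -- (4)
  have hI : InIdeal (a + b) y := by
    obtain ⟨Q, inst, π, -, hker, -⟩ := exists_quotient {x : C | InIdeal (a + b) x}
      (isIdl_inIdeal (a + b))
    let _ := CStarAlgebra.spectralOrder Q
    let _ := CStarAlgebra.spectralOrderedRing Q
    have hπq : π (a + b) = 0 := (hker _).mpr (inIdeal_self _)
    have hπa_nn : 0 ≤ π a := ABS_map_nonneg π a_nn
    have hπb_nn : 0 ≤ π b := ABS_map_nonneg π b_nn
    rw [map_add] at hπq
    have hπa : π a = 0 := by
      have : π a = -π b := eq_neg_of_add_eq_zero_left hπq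
      exact le_antisymm (by rw [this]; exact neg_nonpos.mpr hπb_nn) hπa_nn
    have hπb : π b = 0 := by
      rw [hπa, zero_add] at hπq; exact hπq
    have hnorm : ∀ x : C, ‖π x‖ ≤ ‖x‖ := fun x => NonUnitalStarAlgHom.norm_apply_le π x
    have hgel : gel (π α) (π Z1) = π g := by
      rw [hg]
      unfold gel
      rw [map_add, map_pp π (IsSelfAdjoint.of_nonneg zz_nn), map_mul, map_star]
    have hπy : π y = 0 := by
      refine key (z0 := π z0) (n := π n) (FA := π FA) (Fe := π Fe) (v := π v) (P := π P)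
        (G := π G) (F1 := π F1) (α := π α) (β := π β) (γ := π γ) (Z1 := π Z1) (Z2 := π Z2)
        (ABS_map_nonneg π hy) (ABS_map_nonneg π hz) (by rw [← map_mul, hyz])
        (ABS_map_rel π rel) ?_ ?_ ?_ ?_ ?_ ?_ ?_ ?_ ?_ ?_ ?_ ?_
      · -- commutation
        have hc : ∀ D ∈ ({n, FA, Fe, v, P, G, F1} : Set C),
            π D * π y = π y * π D ∧ π D * π z0 = π z0 * π D := by
          intro D hD
          rw [← map_mul, ← map_mul, ← map_mul, ← map_mul, comm' y hyF D hD, comm' z0 hzF D hD]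
          exact ⟨rfl, rfl⟩
        intro D hD
        simp only [Set.mem_insert_iff, Set.mem_singleton_iff] at hD
        rcases hD with rfl | rfl | rfl | rfl | rfl | rfl | rfl
        · exact hc n (by simp)
        · exact hc FA (by simp)
        · exact hc Fe (by simp)
        · exact hc v (by simp)
        · exact hc P (by simp)
        · exact hc G (by simp)
        · exact hc F1 (by simp)
      · -- plateau
        intro κ hκ
        obtain ⟨m, c, d, a0, ha0, hcd, hle⟩ := hpl κ hκ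
        refine ⟨m, fun i => π (c i), fun i => π (d i), π a0, ?_, ?_, ?_, ?_⟩
        · have hc : ∀ D ∈ ({n, FA, Fe, v, P, G, F1} : Set C), ∀ i,
              π D * π (c i) = π (c i) * π D ∧ π D * π (d i) = π (d i) * π D := by
            intro D hD i
            rw [← map_mul, ← map_mul, ← map_mul, ← map_mul, comm' _ (hcd i).1 D hD,
              comm' _ (hcd i).2 D hD]
            exact ⟨rfl, rfl⟩
          intro D hD
          simp only [Set.mem_insert_iff, Set.mem_singleton_iff] at hD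
          rcases hD with rfl | rfl | rfl | rfl | rfl | rfl | rfl
          · exact hc n (by simp)
          · exact hc FA (by simp)
          · exact hc Fe (by simp)
          · exact hc v (by simp)
          · exact hc P (by simp)
          · exact hc G (by simp)
          · exact hc F1 (by simp)
        · rw [← map_mul, killA a0 ha0, map_zero]
        · rw [← map_mul, kill1 a0 ha0, map_zero]
        · refine le_trans ?_ hle
          refine le_trans (le_of_eq ?_) (hnorm _)
          congr 1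
          simp only [map_sub, map_sum, map_mul]
      · rw [hα', map_mul, map_mul]
      · rw [hβ', map_mul, map_mul]
      · rw [hγ', map_mul, map_mul]
      · refine le_trans (le_of_eq ?_) ((hnorm _).trans Z11)
        rw [map_sub, map_mul, map_star]
      · refine le_trans (le_of_eq ?_) ((hnorm _).trans Z22)
        rw [map_sub, map_mul, map_star]
      · refine le_trans (le_of_eq ?_) ((hnorm _).trans Z12)
        rw [map_mul, map_star]
      · rw [← map_rmp π sa_γ, ← map_mul, qZ1]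
      · rw [← map_rmp π sa_γ, ← map_mul, qZ2]
      · rw [hgel, ← map_pp π gsa]
        exact hπa
      · rw [hgel, ← map_rmp π gsa, ← hf]
        have : (1 - π f) * π β * (1 - π f) = π ((1 - f) * β * (1 - f)) := by
          simp only [map_mul, map_sub, map_one]
        rw [this, ← hb']
        exact hπb
    exact (hker y).mp hπy
  -- (5)
  exact cop_trans (cop_ideal hy q_nn hI cN 2) c1

end MUP
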