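import Pool.Agent.MUP.Defs

/-!
MUP / BRG.  From `Cop 2 x x` to `x ⊕ 0 ∼ x ⊕ x` in `M_2(B)`.

`ampl 2 2 x ≾ ampl 1 2 x`: for every `n` take a family `r` of `Cop 2 x x` for
`ε = 1/(n+1)` and the matrix `X_n` with first column `star (r 0), star (r 1)` and second column
`0`.  The entry `(i, j)` of `X_n diag(x, 0) X_n^*` is `star (r i) * x * r j → δ_ij x`.
`ampl 1 2 x ≾ ampl 2 2 x`: the constant sequence `diag(1, 0)`.
-/

open Filter Topology

namespace MUP

variable {B : Type*} [CStarAlgebra B]

private theorem brg_ampl12 (x : B) : ampl 1 2 x = Matrix.of ![![x, 0], ![0, 0]] := by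
  ext i j
  fin_cases i <;> fin_cases j <;> simp [ampl, Matrix.diagonal]

private theorem brg_ampl22 (x : B) : ampl 2 2 x = Matrix.of ![![x, 0], ![0, x]] := by
  ext i j
  fin_cases i <;> fin_cases j <;> simp [ampl, Matrix.diagonal]

theorem propInf_of_cop {x : B} (h : Cop 2 x x) : PropInf x := by
  constructor
  · refine ⟨fun _ => Matrix.of ![![1, 0], ![0, 0]], ?_⟩
    intro i j
    rw [brg_ampl12, brg_ampl22]
    fin_cases i <;> fin_cases j <;>
      simp [Matrix.mul_apply, Fin.sum_univ_two, Matrix.conjTranspose_apply]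
  · have hpos : ∀ n : ℕ, (0 : ℝ) < 1 / ((n : ℝ) + 1) := fun n => by positivity
    choose r hr using fun n : ℕ => h (1 / ((n : ℝ) + 1)) (hpos n)
    refine ⟨fun n => Matrix.of ![![star (r n 0), 0], ![star (r n 1), 0]], ?_⟩
    have key : ∀ n i j, ((Matrix.of ![![star (r n 0), 0], ![star (r n 1), 0]]) *
        (Matrix.of ![![x, 0], ![0, 0]]) *
        (Matrix.of ![![star (r n 0), 0], ![star (r n 1), 0]]).conjTranspose : Matrix (Fin 2) (Fin 2) B) i j
        = star (r n i) * x * r n j := by
      intro n i j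
      fin_cases i <;> fin_cases j <;>
        simp [Matrix.mul_apply, Fin.sum_univ_two, Matrix.conjTranspose_apply]
    intro i j
    rw [brg_ampl12, brg_ampl22]
    have hlim : Tendsto (fun n : ℕ => star (r n i) * x * r n j) atTop
        (𝓝 (if i = j then x else 0)) := by
      rw [tendsto_iff_norm_sub_tendsto_zero]
      refine squeeze_zero (fun _ => norm_nonneg _) (fun n => hr n i j) ?_
      exact tendsto_one_div_add_atTop_nhds_zero_nat
    have he : (Matrix.of ![![x, 0], ![0, x]] : Matrix (Fin 2) (Fin 2) B) i j =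
        if i = j then x else 0 := by
      fin_cases i <;> fin_cases j <;> simp
    rw [he]
    refine hlim.congr fun n => ?_
    exact (key n i j).symm

end MUP
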