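import Pool.Agent.MUP.COA
import Pool.Agent.MUP.CNB
import Pool.Agent.MUP.CNC

/-!
MUP / COB.  From compact pairs to general elements.  `T2` is the conclusion of `main_pair`.

Let `x ≥ 0` and suppose for every `ε > 0` there are `z ≥ 0` in `her(x)` and `δ > 0` with
`z ∈ Ideal((z - δ)_+) + K` and `(x - ε)_+ ∈ Ideal(z) + K`.  Then `Cop 2 x x`.

Proof.  Let `ε > 0`, take `z, δ` for it and put `p = pp x ε`.

(1) By `InIdealK K z p` there is `j` in the ideal of `z` and `a ∈ K` with `‖p - j - a‖ ≤ ε`.  By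
`exists_approx_unit` (for `K`) there is `e ∈ K`, selfadjoint, `‖1 - e‖ ≤ 1`, `‖a (1 - e)‖ ≤ ε`.
Let `c = 1 - e` and `s = CFC.sqrt p`, `a'' = s (1 - c^2) s = s (2 e - e^2) s ∈ K`; `a'' ≥ 0`
because `c^2 ≤ 1`.  Put `z' = z + a''`.

(2) `pp p (2 ε) = pp x (3 ε)` is in the ideal `J'` of `z'`.  `z, a'' ≤ z'` are in `J'`
(`inIdeal_of_le`), so `j ∈ J'` (`inIdeal_of_idl`).  In the quotient `π : B → B/J'`
(`exists_quotient`): `π p = π (p - a'') = π (s c^2 s)`, whose norm is
`‖π (c s) ^* π (c s)‖ = ‖π (c s) π (c s)^*‖ = ‖π (c p c)‖ ≤ ‖π (p c)‖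
  ≤ ‖π ((p - j - a) c)‖ + ‖π (a c)‖ ≤ 2 ε`.
(`π (pp p (2 ε)) = pp (π p) (2 ε) = 0`; alternatively `pp_mem_of_dist` with an element of `J'`
at distance `≤ ‖π p‖ + ε`, using `3 ε` instead of `2 ε`.)

(3) Let `I = {x | InIdealK K (pp z' δ) x}`, a closed ideal containing `K` and `pp z' δ`.
`0 ≤ z ≤ z'`, so `pp z δ ∈ I` (`pp_mem_of_le`) and hence `z ∈ I` by `InIdealK K (pp z δ) z`
(the closed ideal `I` contains `K` and `pp z δ`); so `z' = z + a'' ∈ I`.

(4) Let `y = rmp δ z'`, `z0 = pp z' δ`.  `0 ≤ y`, `‖y‖ ≤ 1`, `0 ≤ z0`, `y z0 = z0`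
(`rmp_mul_pp`), `y = z' k ∈ I`.  `T2` gives `Cop 2 y y` and `cop_all` gives `Cop N y y`.

(5) `z' ∈ Ideal(y)`: `z' = y * m` with `m` the function `max t δ` of `z'`
(`min (t/δ) 1 * max t δ = t` for `t ≥ 0`).  With (2) `pp x (3 ε) ∈ Ideal(y)`, so
`Cop 2 (pp x (3 ε)) y` (`cop_ideal`; `3 ε` or `4 ε`).

(6) `z' ∈ her(x)`: `a'' = s (2e - e^2) s` with `s = x m` where `m` is the function
`(max (t - ε) 0)^{1/2} / max t ε` of `x`, so `a'' = x (m (2e - e^2) m) x`.  Hence
`y = z' k ∈ closure (x B)` (`inHer_left`), `Cop 1 y x` (`cop_of_mem`), and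
`Cop 2 (pp x (3 ε)) x` (`cop_trans`).  `cop_approx` with `‖pp x (3 ε) - x‖ ≤ 3 ε`.
-/

open Filter Topology

namespace MUP

variable {M : Type*} [CStarAlgebra M] [PartialOrder M] [StarOrderedRing M] {K : Set M}

private lemma COB_one_sub_nonneg {c : M} (hc : IsSelfAdjoint c) (h : ‖c‖ ≤ 1) :
    0 ≤ 1 - c * c := by
  have h1 : 0 ≤ c * c := hc.mul_self_nonneg
  have h2 : ‖c * c‖ ≤ 1 := (norm_mul_le _ _).trans (by nlinarith [norm_nonneg c])
  have h3 : c * c ≤ algebraMap ℝ M 1 :=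
    (CStarAlgebra.norm_le_iff_le_algebraMap _ zero_le_one h1).mp h2
  rw [map_one] at h3
  exact sub_nonneg.mpr h3

theorem cor_compact (hK : IsIdl K)
    (T2 : ∀ y z0 : M, 0 ≤ y → ‖y‖ ≤ 1 → 0 ≤ z0 → y * z0 = z0 → InIdealK K z0 y → Cop 2 y y)
    {x : M} (hx : 0 ≤ x)
    (h : ∀ ε : ℝ, 0 < ε → ∃ (z : M) (δ : ℝ), 0 ≤ z ∧ 0 < δ ∧ InHer x z ∧
      InIdealK K (pp z δ) z ∧ InIdealK K z (pp x ε)) : Cop 2 x x := by
  refine cop_approx fun ε' hε' => ?_
  -- work with ε = ε'/4
  set ε := ε' / 4 with hεdef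
  have hε : 0 < ε := by positivity
  obtain ⟨z, δ, hz, hδ, hher, hzI, hpI⟩ := h ε hε
  set p := pp x ε with hp
  have pp0 : 0 ≤ p := pp_nonneg _ _
  -- the elements j, a, e
  obtain ⟨m, c, d, a, haK, hn⟩ := hpI ε hε
  set j := ∑ i, c i * z * d i with hj
  obtain ⟨e, heK, hesa, hen, hen1, hea⟩ := exists_approx_unit hK haK hε
  set c' := 1 - e with hc'
  have hc'sa : IsSelfAdjoint c' := (IsSelfAdjoint.one M).sub hesa
  -- the square root of p, as a function of x
  set s := cfc (fun t : ℝ => Real.sqrt (max (t - ε) 0)) x with hs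
  have hxsa : IsSelfAdjoint x := hx.isSelfAdjoint
  have hssa : IsSelfAdjoint s := by rw [hs]; exact cfc_predicate _ _
  have hss : s * s = p := by
    rw [hs, hp, pp, ← cfc_mul _ _ x (by fun_prop) (by fun_prop)]
    refine cfc_congr fun t _ => ?_
    exact Real.mul_self_sqrt (le_max_right _ _)
  obtain ⟨k, hksa, hkx, hsk⟩ : ∃ k : M, IsSelfAdjoint k ∧ k * x = x * k ∧ s = x * k := by
    refine ⟨cfc (fun t : ℝ => Real.sqrt (max (t - ε) 0) / max t ε) x, cfc_predicate _ _, ?_, ?_⟩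
    · have hcomm := (cfc_commute_cfc (fun t : ℝ => Real.sqrt (max (t - ε) 0) / max t ε)
        (fun t : ℝ => t) x)
      have hid : cfc (fun t : ℝ => t) x = x := cfc_id' ℝ x
      rw [hid] at hcomm
      exact hcomm
    · have hcont : Continuous fun t : ℝ => Real.sqrt (max (t - ε) 0) / max t ε := by
        refine Continuous.div (by fun_prop) (by fun_prop) fun t => ?_
        exact ne_of_gt (lt_of_lt_of_le hε (le_max_right _ _))
      have h1 := cfc_mul (fun t : ℝ => t) (fun t : ℝ => Real.sqrt (max (t - ε) 0) / max t ε) x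
        (by fun_prop) hcont.continuousOn
      rw [cfc_id' ℝ x] at h1
      rw [← h1, hs]
      refine cfc_congr fun t _ => ?_
      rcases le_total t ε with ht | ht
      · have : max (t - ε) 0 = 0 := max_eq_right (by linarith)
        simp [this]
      · have h1 : max t ε = t := max_eq_left ht
        have h2 : t ≠ 0 := by linarith
        simp only [h1]
        field_simp
  -- a''
  set b := 1 - c' * c' with hb
  have hbK : b ∈ K := by
    have : b = 2 * e - e * e := by rw [hb, hc']; noncomm_ring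
    rw [this, sub_eq_add_neg, ← neg_mul]
    exact hK.add_mem _ (hK.mul_left _ _ heK) _ (hK.mul_left _ _ heK)
  have hb0 : 0 ≤ b := COB_one_sub_nonneg hc'sa hen1
  set a'' := s * b * s with ha''
  have ha''0 : 0 ≤ a'' := hssa.conjugate_nonneg hb0
  have ha''K : a'' ∈ K := hK.mul_right _ _ (hK.mul_left _ _ hbK)
  set z' := z + a'' with hz'
  have hz'0 : 0 ≤ z' := add_nonneg hz ha''0
  have hzz' : z ≤ z' := le_add_of_nonneg_right ha''0
  have haz' : a'' ≤ z' := le_add_of_nonneg_left hz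
  -- (2)
  have hJ' : IsIdl {w : M | InIdeal z' w} := isIdl_inIdeal z'
  have hzJ : InIdeal z' z := inIdeal_of_le hz hzz'
  have haJ : InIdeal z' a'' := inIdeal_of_le ha''0 haz'
  have hjJ : j ∈ {w : M | InIdeal z' w} := by
    refine inIdeal_of_idl hJ' (z := z) hzJ fun κ hκ => ⟨m, c, d, ?_⟩
    rw [← hj, sub_self, norm_zero]; exact hκ.le
  have h2 : InIdeal z' (pp x (4 * ε)) := by
    obtain ⟨Q, instQ, π, hπs, hπ0, hπn⟩ := exists_quotient _ hJ'
    have hπj : π j = 0 := (hπ0 j).mpr hjJ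
    have hπa : π a'' = 0 := (hπ0 a'').mpr haJ
    have hπle : ∀ w : M, ‖π w‖ ≤ ‖w‖ := fun w => NonUnitalStarAlgHom.norm_apply_le π w
    have hpa : p - a'' = s * (c' * c') * s := by
      rw [ha'', hb, ← hss]; noncomm_ring
    have h3 : ‖π (c' * s)‖ * ‖π (c' * s)‖ ≤ 2 * ε := by
      have h31 : ‖π (c' * s)‖ * ‖π (c' * s)‖ = ‖π (c' * p * c')‖ := by
        rw [← CStarRing.norm_self_mul_star, ← map_star, ← map_mul, star_mul, hssa.star_eq,
          hc'sa.star_eq, ← hss]
        congr 2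
        noncomm_ring
      rw [h31]
      have h32 : c' * p * c' = c' * ((p - j - a) * c') + c' * (j * c') + c' * (a * c') := by
        noncomm_ring
      have h33 : ‖(p - j - a) * c'‖ ≤ ε := by
        calc ‖(p - j - a) * c'‖ ≤ ‖p - j - a‖ * ‖c'‖ := norm_mul_le _ _
          _ ≤ ε * 1 := mul_le_mul hn hen1 (norm_nonneg _) hε.le
          _ = ε := mul_one _
      have h34 : π (c' * (j * c')) = 0 := by rw [map_mul, map_mul, hπj, zero_mul, mul_zero]
      rw [h32, map_add, map_add, h34, add_zero]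
      calc ‖π (c' * ((p - j - a) * c')) + π (c' * (a * c'))‖
          ≤ ‖π (c' * ((p - j - a) * c'))‖ + ‖π (c' * (a * c'))‖ := norm_add_le _ _
        _ ≤ ‖c' * ((p - j - a) * c')‖ + ‖c' * (a * c')‖ := add_le_add (hπle _) (hπle _)
        _ ≤ ‖c'‖ * ‖(p - j - a) * c'‖ + ‖c'‖ * ‖a * c'‖ :=
            add_le_add (norm_mul_le _ _) (norm_mul_le _ _)
        _ ≤ 1 * ε + 1 * ε := add_le_add
            (mul_le_mul hen1 h33 (norm_nonneg _) zero_le_one)
            (mul_le_mul hen1 hea (norm_nonneg _) zero_le_one)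
        _ = 2 * ε := by ring
    have h4 : ‖π p‖ ≤ 2 * ε := by
      have : π p = star (π (c' * s)) * π (c' * s) := by
        have h41 : π p = π (p - a'') := by rw [map_sub, hπa, sub_zero]
        rw [h41, hpa, ← map_star, ← map_mul, star_mul, hssa.star_eq, hc'sa.star_eq]
        congr 1
        noncomm_ring
      rw [this, CStarRing.norm_star_mul_self]
      exact h3
    obtain ⟨j', hj', hj'n⟩ := hπn p ε hε
    have h5 : pp p (3 * ε) ∈ {w : M | InIdeal z' w} :=
      pp_mem_of_dist hJ' pp0 hj' (by positivity) (by linarith)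
    have h6 : pp p (3 * ε) = pp x (4 * ε) := by
      rw [hp, pp_pp hx hε.le (by positivity)]
      congr 1
      ring
    rw [h6] at h5
    exact h5
  -- (3)
  have hI : IsIdl {w : M | InIdealK K (pp z' δ) w} := isIdl_inIdealK hK _
  have hppI : pp z' δ ∈ {w : M | InIdealK K (pp z' δ) w} :=
    inIdealK_of_inIdeal hK (inIdeal_self _)
  have hppz : pp z δ ∈ {w : M | InIdealK K (pp z' δ) w} :=
    pp_mem_of_le hI hz hzz' hδ.le hppI
  have hzI' : z ∈ {w : M | InIdealK K (pp z' δ) w} := by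
    -- z is a limit of elements of I
    refine hI.closed.closure_subset ?_
    rw [Metric.mem_closure_iff]
    intro κ hκ
    obtain ⟨n, c1, d1, a1, ha1, hn1⟩ := hzI (κ / 2) (by positivity)
    refine ⟨∑ i, c1 i * pp z δ * d1 i + a1, ?_, ?_⟩
    · refine hI.add_mem _ ?_ _ (inIdealK_of_mem ha1 _)
      exact inIdeal_of_idl hI hppz fun κ' hκ' => ⟨n, c1, d1, by
        rw [sub_self, norm_zero]; exact hκ'.le⟩
    · rw [dist_eq_norm, ← sub_sub]
      exact lt_of_le_of_lt hn1 (by linarith)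
  have hz'I : InIdealK K (pp z' δ) z' := hI.add_mem _ hzI' _ (inIdealK_of_mem ha''K _)
  -- (4)
  obtain ⟨k1, hk1sa, hk1c, hk1, hk1n⟩ := rmp_factor hz'0 hδ
  set y := rmp δ z' with hy
  have hy0 : 0 ≤ y := rmp_nonneg hz'0 hδ
  have hyI : InIdealK K (pp z' δ) y := by
    rw [hk1]
    exact hI.mul_right _ _ hz'I
  have hCy : Cop 2 y y := T2 y (pp z' δ) hy0 (rmp_nm hz'0 hδ) (pp_nonneg _ _)
    (rmp_mul_pp hz'0 hδ) hyI
  -- (5)
  have hz'y : InIdeal y z' := by
    have h51 : z' = 1 * y * cfc (fun t : ℝ => max t δ) z' := by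
      rw [one_mul, hy, rmp, ← cfc_mul _ _ z' (by fun_prop) (by fun_prop)]
      have hid : cfc (fun t : ℝ => t) z' = z' := cfc_id' ℝ z'
      conv_lhs => rw [← hid]
      refine cfc_congr fun t ht => ?_
      have ht0 : 0 ≤ t := spectrum_nonneg_of_nonneg hz'0 ht
      rcases le_total t δ with h | h
      · have e1 : min (t / δ) 1 = t / δ := min_eq_left (by rw [div_le_one hδ]; exact h)
        have e2 : max t δ = δ := max_eq_right h
        simp only [e1, e2]
        field_simp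
      · have e1 : min (t / δ) 1 = 1 := min_eq_right (by rw [le_div_iff₀ hδ]; linarith)
        have e2 : max t δ = t := max_eq_left h
        simp only [e1, e2, one_mul]
    rw [h51]
    exact inIdeal_of_mul _ _ _
  have h5 : Cop 2 (pp x (4 * ε)) y :=
    cop_ideal (pp_nonneg _ _) hy0 (inIdeal_trans hz'y h2) (cop_all hCy) 2
  -- (6)
  have hz'her : InHer x z' := by
    refine inHer_add hher ?_
    have : a'' = x * (k * b * k) * x := by
      rw [ha'']
      calc s * b * s = (x * k) * b * (k * x) := by rw [hkx, ← hsk]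
        _ = x * (k * b * k) * x := by noncomm_ring
    rw [this]
    exact inHer_of_mul _ _
  have h6 : Cop 1 y x := by
    refine cop_of_mem hy0 hx fun κ hκ => ?_
    rw [hk1]
    exact inHer_left hz'her k1 κ hκ
  refine ⟨pp x (4 * ε), ?_, cop_trans h5 h6⟩
  have := pp_sub hx (t := 4 * ε) (by positivity)
  refine this.trans (le_of_eq ?_)
  rw [hεdef]; ring

end MUP
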