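import Pool.Agent.MUP.COA

/-!
MUP / COC.  The hypothesis of `cor_compact` for two classes of elements.

`compact_of_full`: `x ≥ 0` is full modulo `K`: `InIdealK K x 1`.  There is `δ > 0` with
`InIdealK K (pp x δ) 1`: choose `c, d, a` with `‖1 - ∑ c_i x d_i - a‖ ≤ 1/4` and `δ > 0` with
`δ ∑ ‖c_i‖ ‖d_i‖ ≤ 1/4`; then (`‖pp x δ - x‖ ≤ δ`) `‖1 - S‖ ≤ 1/2` with
`S = ∑ c_i (pp x δ) d_i + a` in the closed ideal `I = {y | InIdealK K (pp x δ) y}`
(`isIdl_inIdealK`), so `S` is invertible (`Units.oneSub`-type lemma) and `1 = S S^{-1} ∈ I`, so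
everything is in `I`.  Take `z = x`; `InHer x x` is `inHer_self`; `pp x ε = 1 * pp x ε` is in the
ideal of `x` by `inIdeal_pp` (from `pp x 0 = x`, `pp_zero`) and `inIdealK_of_inIdeal`.

`compact_of_proj`: `x ≥ 0` and `x^2 - x ∈ K`.  Take `z = x`, `δ = 1/2`.  `pp x (1/2)` and `x`:
modulo `I = {y | InIdealK K (pp x (1/2)) y}` (quotient `π`): `π (pp x (1/2)) = 0`, so
`‖π x‖ ≤ 1/2` (`map_pp`, `pp_eq_zero_iff`), and `π x = π x ^2` (as `K ⊆ I`), so
`‖π x‖ = ‖π x‖^2 ≤ ‖π x‖ / 2` and `π x = 0`, `x ∈ I`.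
-/

open Filter Topology

namespace MUP

variable {M : Type*} [CStarAlgebra M] [PartialOrder M] [StarOrderedRing M] {K : Set M}

private lemma COC_rest {x : M} (hK : IsIdl K) (hx : 0 ≤ x) {δ : ℝ} (hδ : 0 < δ)
    (h : InIdealK K (pp x δ) x) :
    ∀ ε : ℝ, 0 < ε → ∃ (z : M) (δ : ℝ), 0 ≤ z ∧ 0 < δ ∧ InHer x z ∧
      InIdealK K (pp z δ) z ∧ InIdealK K z (pp x ε) := by
  intro ε hε
  refine ⟨x, δ, hx, hδ, inHer_self hx, h, ?_⟩
  have h1 := inIdeal_pp hx (s := 0) (t := ε) le_rfl hε.le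
  rw [pp_zero hx] at h1
  exact inIdealK_of_inIdeal hK h1

theorem compact_of_full (hK : IsIdl K) {x : M} (hx : 0 ≤ x) (h : InIdealK K x 1) :
    ∀ ε : ℝ, 0 < ε → ∃ (z : M) (δ : ℝ), 0 ≤ z ∧ 0 < δ ∧ InHer x z ∧
      InIdealK K (pp z δ) z ∧ InIdealK K z (pp x ε) := by
  obtain ⟨n, c, d, a, haK, hn⟩ := h (1 / 4) (by norm_num)
  set R := ∑ i, ‖c i‖ * ‖d i‖ with hR
  have hR0 : 0 ≤ R := Finset.sum_nonneg fun i _ => mul_nonneg (norm_nonneg _) (norm_nonneg _)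
  set δ := 1 / (4 * (R + 1)) with hδdef
  have hδ : 0 < δ := by positivity
  refine COC_rest hK hx hδ ?_
  have hI : IsIdl {w : M | InIdealK K (pp x δ) w} := isIdl_inIdealK hK _
  set S := ∑ i, c i * pp x δ * d i + a with hS
  have hSI : S ∈ {w : M | InIdealK K (pp x δ) w} := by
    refine hI.add_mem _ ?_ _ (inIdealK_of_mem haK _)
    exact inIdeal_of_idl hI (z := pp x δ) (inIdealK_of_inIdeal hK (inIdeal_self _))
      fun κ hκ => ⟨n, c, d, by rw [sub_self, norm_zero]; exact hκ.le⟩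
  have h1 : ‖1 - S‖ < 1 := by
    have h2 : 1 - S = (1 - ∑ i, c i * x * d i - a) - ∑ i, c i * (pp x δ - x) * d i := by
      have : ∑ i, c i * (pp x δ - x) * d i
          = ∑ i, c i * pp x δ * d i - ∑ i, c i * x * d i := by
        rw [← Finset.sum_sub_distrib]
        exact Finset.sum_congr rfl fun i _ => by noncomm_ring
      rw [this, hS]; abel
    have h3 : ‖∑ i, c i * (pp x δ - x) * d i‖ ≤ 1 / 4 := by
      calc ‖∑ i, c i * (pp x δ - x) * d i‖ ≤ ∑ i, ‖c i * (pp x δ - x) * d i‖ :=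
            norm_sum_le _ _
        _ ≤ ∑ i, δ * (‖c i‖ * ‖d i‖) := by
            refine Finset.sum_le_sum fun i _ => ?_
            calc ‖c i * (pp x δ - x) * d i‖ ≤ ‖c i * (pp x δ - x)‖ * ‖d i‖ := norm_mul_le _ _
              _ ≤ ‖c i‖ * ‖pp x δ - x‖ * ‖d i‖ :=
                  mul_le_mul_of_nonneg_right (norm_mul_le _ _) (norm_nonneg _)
              _ ≤ ‖c i‖ * δ * ‖d i‖ := by
                  refine mul_le_mul_of_nonneg_right ?_ (norm_nonneg _)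
                  exact mul_le_mul_of_nonneg_left (pp_sub hx hδ.le) (norm_nonneg _)
              _ = δ * (‖c i‖ * ‖d i‖) := by ring
        _ = δ * R := by rw [← Finset.mul_sum]
        _ ≤ 1 / 4 := by
            rw [hδdef, div_mul_eq_mul_div, div_le_iff₀ (by positivity)]
            linarith
    rw [h2]
    calc ‖(1 - ∑ i, c i * x * d i - a) - ∑ i, c i * (pp x δ - x) * d i‖
        ≤ ‖1 - ∑ i, c i * x * d i - a‖ + ‖∑ i, c i * (pp x δ - x) * d i‖ := norm_sub_le _ _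
      _ ≤ 1 / 4 + 1 / 4 := add_le_add hn h3
      _ < 1 := by norm_num
  have h4 : (1 : M) ∈ {w : M | InIdealK K (pp x δ) w} := by
    obtain ⟨U, hU⟩ : ∃ U : Mˣ, (U : M) = S :=
      ⟨Units.oneSub (1 - S) h1, by rw [Units.val_oneSub]; abel⟩
    have h7 : (1 : M) = S * ((U⁻¹ : Mˣ) : M) := by rw [← hU, Units.mul_inv]
    rw [h7]
    exact hI.mul_right _ _ hSI
  have h8 := hI.mul_right x 1 h4
  rwa [one_mul] at h8

theorem compact_of_proj (hK : IsIdl K) {x : M} (hx : 0 ≤ x) (h : x * x - x ∈ K) :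
    ∀ ε : ℝ, 0 < ε → ∃ (z : M) (δ : ℝ), 0 ≤ z ∧ 0 < δ ∧ InHer x z ∧
      InIdealK K (pp z δ) z ∧ InIdealK K z (pp x ε) := by
  refine COC_rest hK hx (δ := 1 / 2) (by norm_num) ?_
  have hI : IsIdl {w : M | InIdealK K (pp x (1 / 2)) w} := isIdl_inIdealK hK _
  obtain ⟨Q, instQ, π, hπs, hπ0, hπn⟩ := exists_quotient _ hI
  let _ : PartialOrder Q := CStarAlgebra.spectralOrder _
  have _ : StarOrderedRing Q := CStarAlgebra.spectralOrderedRing _
  have hπx : 0 ≤ π x := by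
    obtain ⟨s, hs⟩ := CStarAlgebra.nonneg_iff_eq_star_mul_self.mp hx
    rw [hs, map_mul, map_star]
    exact star_mul_self_nonneg _
  have h1 : pp (π x) (1 / 2) = 0 := by
    rw [← map_pp π hx.isSelfAdjoint]
    exact (hπ0 _).mpr (inIdealK_of_inIdeal hK (inIdeal_self _))
  have h2 : ‖π x‖ ≤ 1 / 2 := (pp_eq_zero_iff hπx (by norm_num)).mp h1
  have h3 : π x * π x = π x := by
    have : π (x * x - x) = 0 := (hπ0 _).mpr (inIdealK_of_mem h _)
    rw [map_sub, map_mul] at this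
    exact sub_eq_zero.mp this
  have h4 : ‖π x‖ * ‖π x‖ = ‖π x‖ := by
    have h41 : star (π x) * π x = π x := by rw [hπx.isSelfAdjoint.star_eq, h3]
    calc ‖π x‖ * ‖π x‖ = ‖star (π x) * π x‖ := (CStarRing.norm_star_mul_self).symm
      _ = ‖π x‖ := by rw [h41]
  have h5 : ‖π x‖ = 0 := by
    by_contra hne
    have : 0 < ‖π x‖ := lt_of_le_of_ne (norm_nonneg _) (Ne.symm hne)
    nlinarith
  exact (hπ0 x).mp (norm_eq_zero.mp h5)

end MUP
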