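import Pool.Agent.MUP.Defs

/-!
MUP / CFM.  Functional calculus, annihilation, ideals.

Let `x` be selfadjoint and let `f : ℝ → ℝ` be continuous with `f 0 = 0`.

Key approximation: for `ε > 0` let `f_ε (t) = f(t) t^2 / (t^2 + ε) = t * k_ε(t)` with
`k_ε (t) = f(t) t / (t^2 + ε)` continuous.  Since `f` is continuous with `f 0 = 0` and bounded on
the spectrum, `f_ε → f` uniformly on the spectrum: `|f - f_ε| = |f| ε / (t^2 + ε)`, which is at
most `|f(t)|` (small for small `|t|`) and at most `|f(t)| ε / t^2` (small for `|t|` bounded below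
and `ε → 0`).  So `cfc f x = lim x * cfc k_ε x = lim cfc k_ε x * x`.

Consequences: `cfc_mul_zero` (if `x z = 0` then `f(x) z = 0`), `mul_cfc_zero`, membership in
closed ideals, and `cfc_fix` (if `x e = x`, then `f(x) e = f(x)`, apply the first fact to
`z = e - 1`); `cfc_mul_cfc_zero`.
-/

open Filter Topology

namespace MUP

variable {B : Type*} [CStarAlgebra B]

private theorem CFM_approx {x : B} (hx : IsSelfAdjoint x) {f : ℝ → ℝ} (hf : Continuous f)
    (hf0 : f 0 = 0) {δ : ℝ} (hδ : 0 < δ) : ∃ k : B, x * k = k * x ∧ ‖cfc f x - x * k‖ ≤ δ := by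
  obtain ⟨M, hM⟩ := (ContinuousFunctionalCalculus.isCompact_spectrum (R := ℝ)
    (p := IsSelfAdjoint) x).exists_bound_of_continuousOn hf.continuousOn
  have hf1 : Filter.Tendsto f (𝓝 0) (𝓝 0) := by
    have := hf.tendsto 0
    rwa [hf0] at this
  obtain ⟨η, hη, hη2⟩ := Metric.tendsto_nhds_nhds.1 hf1 δ hδ
  set c : ℝ := δ * η ^ 2 / (|M| + 1) with hc
  have hc0 : 0 < c := by positivity
  have hden : ∀ t : ℝ, 0 < t ^ 2 + c := fun t => by positivity
  set k : ℝ → ℝ := fun t => f t * t / (t ^ 2 + c) with hk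
  have hkc : Continuous k := by
    rw [hk]
    exact Continuous.div (by fun_prop) (by fun_prop) fun t => (hden t).ne'
  have h1 : x * cfc k x = cfc (fun t => t * k t) x := by
    rw [cfc_mul (fun t : ℝ => t) k x (by fun_prop) hkc.continuousOn, cfc_id' ℝ x hx]
  have h2 : cfc k x * x = cfc (fun t => t * k t) x := by
    have h3 : (fun t : ℝ => t * k t) = fun t => k t * t := by
      funext t
      ring
    rw [h3, cfc_mul k (fun t : ℝ => t) x hkc.continuousOn (by fun_prop), cfc_id' ℝ x hx]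
  refine ⟨cfc k x, by rw [h1, h2], ?_⟩
  rw [h1, ← cfc_sub f (fun t => t * k t) x hf.continuousOn
    ((continuous_id.mul hkc).continuousOn)]
  refine norm_cfc_le hδ.le fun t ht => ?_
  have h4 : f t - t * k t = f t * (c / (t ^ 2 + c)) := by
    rw [hk]
    field_simp [(hden t).ne']
    ring
  rw [h4, norm_mul, Real.norm_eq_abs (c / (t ^ 2 + c)),
    abs_of_nonneg (div_nonneg hc0.le (hden t).le)]
  by_cases hs : |t| < η
  · have h5 : ‖f t‖ ≤ δ := by
      have := hη2 (x := t) (by simpa using hs)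
      simpa using this.le
    have h6 : c / (t ^ 2 + c) ≤ 1 := by
      rw [div_le_one (hden t)]
      nlinarith [sq_nonneg t]
    calc ‖f t‖ * (c / (t ^ 2 + c)) ≤ ‖f t‖ * 1 :=
          mul_le_mul_of_nonneg_left h6 (norm_nonneg _)
      _ ≤ δ := by rw [mul_one]; exact h5
  · push Not at hs
    have h5 : ‖f t‖ ≤ |M| + 1 := (hM t ht).trans (by linarith [le_abs_self M])
    have h6 : c / (t ^ 2 + c) ≤ c / η ^ 2 := by
      refine div_le_div_of_nonneg_left hc0.le (by positivity) ?_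
      have h7 : η ^ 2 ≤ |t| ^ 2 := pow_le_pow_left₀ hη.le hs 2
      rw [sq_abs] at h7
      linarith
    calc ‖f t‖ * (c / (t ^ 2 + c)) ≤ (|M| + 1) * (c / η ^ 2) :=
          mul_le_mul h5 h6 (div_nonneg hc0.le (hden t).le) (by positivity)
      _ = δ := by
          rw [hc]
          field_simp

private theorem CFM_zero {y : B} {C : ℝ} (h : ∀ δ : ℝ, 0 < δ → ‖y‖ ≤ δ * C) : y = 0 := by
  rw [← norm_le_zero_iff]
  refine le_of_forall_pos_le_add fun ε hε => ?_
  have h1 := h (ε / (|C| + 1)) (by positivity)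
  have h2 : ε / (|C| + 1) * C ≤ ε := by
    rw [div_mul_eq_mul_div, div_le_iff₀ (by positivity)]
    nlinarith [le_abs_self C]
  linarith

theorem cfc_mul_zero {x z : B} (hx : IsSelfAdjoint x) {f : ℝ → ℝ} (hf : Continuous f)
    (hf0 : f 0 = 0) (h : x * z = 0) : cfc f x * z = 0 := by
  refine CFM_zero (C := ‖z‖) fun δ hδ => ?_
  obtain ⟨k, hk1, hk2⟩ := CFM_approx hx hf hf0 hδ
  have h1 : cfc f x * z = (cfc f x - x * k) * z := by
    rw [sub_mul, hk1, mul_assoc, h, mul_zero, sub_zero]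
  rw [h1]
  exact (norm_mul_le _ _).trans (mul_le_mul_of_nonneg_right hk2 (norm_nonneg _))

theorem mul_cfc_zero {x z : B} (hx : IsSelfAdjoint x) {f : ℝ → ℝ} (hf : Continuous f)
    (hf0 : f 0 = 0) (h : z * x = 0) : z * cfc f x = 0 := by
  refine CFM_zero (C := ‖z‖) fun δ hδ => ?_
  obtain ⟨k, hk1, hk2⟩ := CFM_approx hx hf hf0 hδ
  have h1 : z * cfc f x = z * (cfc f x - x * k) := by
    rw [mul_sub, ← mul_assoc, h, zero_mul, sub_zero]
  rw [h1, mul_comm δ]
  exact (norm_mul_le _ _).trans (mul_le_mul_of_nonneg_left hk2 (norm_nonneg _))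

theorem cfc_fix {x e : B} (hx : IsSelfAdjoint x) {f : ℝ → ℝ} (hf : Continuous f)
    (hf0 : f 0 = 0) (h : x * e = x) : cfc f x * e = cfc f x := by
  have h1 := cfc_mul_zero hx hf hf0 (z := e - 1) (by rw [mul_sub, h, mul_one, sub_self])
  rwa [mul_sub, mul_one, sub_eq_zero] at h1

theorem fix_cfc {x e : B} (hx : IsSelfAdjoint x) {f : ℝ → ℝ} (hf : Continuous f)
    (hf0 : f 0 = 0) (h : e * x = x) : e * cfc f x = cfc f x := by
  have h1 := mul_cfc_zero hx hf hf0 (z := e - 1) (by rw [sub_mul, h, one_mul, sub_self])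
  rwa [sub_mul, one_mul, sub_eq_zero] at h1

theorem cfc_mem {J : Set B} (hJ : IsIdl J) {x : B} (hx : IsSelfAdjoint x) (hxJ : x ∈ J)
    {f : ℝ → ℝ} (hf : Continuous f) (hf0 : f 0 = 0) : cfc f x ∈ J := by
  rw [← hJ.closed.closure_eq, Metric.mem_closure_iff]
  intro ε hε
  obtain ⟨k, hk1, hk2⟩ := CFM_approx hx hf hf0 (half_pos hε)
  refine ⟨x * k, hJ.mul_right k x hxJ, ?_⟩
  rw [dist_eq_norm]
  linarith

private theorem CFM_unit {J : Set B} (hJ : IsIdl J) {a : B} (ha : IsSelfAdjoint a) (haJ : a ∈ J)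
    {δ : ℝ} (hδ : 0 < δ) : ∃ e ∈ J, IsSelfAdjoint e ∧ ‖e‖ ≤ 1 ∧ ‖1 - e‖ ≤ 1 ∧
      ‖(1 - e) * a * (1 - e)‖ ≤ δ := by
  have hden : ∀ t : ℝ, 0 < t ^ 2 + δ ^ 2 := fun t => by positivity
  set f : ℝ → ℝ := fun t => t ^ 2 / (t ^ 2 + δ ^ 2) with hf
  have hfc : Continuous f := by
    rw [hf]
    exact Continuous.div (by fun_prop) (by fun_prop) fun t => (hden t).ne'
  have hf0 : f 0 = 0 := by simp [hf]
  have h1 : (1 : B) - cfc f a = cfc (fun t => 1 - f t) a := by
    rw [cfc_sub (fun _ => (1 : ℝ)) f a (by fun_prop) hfc.continuousOn, cfc_const_one ℝ a ha]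
  have hg : ∀ t, 0 ≤ 1 - f t ∧ 1 - f t ≤ 1 := by
    intro t
    have h2 : 1 - f t = δ ^ 2 / (t ^ 2 + δ ^ 2) := by
      simp only [hf]
      field_simp [(hden t).ne']
      ring
    rw [h2]
    refine ⟨by positivity, ?_⟩
    rw [div_le_one (hden t)]
    nlinarith [sq_nonneg t]
  refine ⟨cfc f a, cfc_mem hJ ha haJ hfc hf0, IsSelfAdjoint.cfc, ?_, ?_, ?_⟩
  · refine norm_cfc_le zero_le_one fun t _ => ?_
    rw [Real.norm_eq_abs, abs_le]
    constructor <;> linarith [(hg t).1, (hg t).2]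
  · rw [h1]
    refine norm_cfc_le zero_le_one fun t _ => ?_
    rw [Real.norm_eq_abs, abs_le]
    constructor <;> linarith [(hg t).1, (hg t).2]
  · have hgc : Continuous fun t => 1 - f t := continuous_const.sub hfc
    have h3 : (1 - cfc f a) * a * (1 - cfc f a) =
        cfc (fun t => (1 - f t) * t * (1 - f t)) a := by
      rw [cfc_mul (fun t => (1 - f t) * t) (fun t => 1 - f t) a
        ((hgc.mul continuous_id).continuousOn) hgc.continuousOn,
        cfc_mul (fun t => 1 - f t) (fun t => t) a hgc.continuousOn (by fun_prop),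
        cfc_id' ℝ a ha, h1]
    rw [h3]
    refine norm_cfc_le hδ.le fun t _ => ?_
    have h4 : (1 - f t) * |t| ≤ δ := by
      have h2 : 1 - f t = δ ^ 2 / (t ^ 2 + δ ^ 2) := by
        simp only [hf]
        field_simp [(hden t).ne']
        ring
      rw [h2, div_mul_eq_mul_div, div_le_iff₀ (hden t)]
      nlinarith [sq_nonneg (|t| - δ), sq_abs t, abs_nonneg t, mul_nonneg hδ.le (abs_nonneg t),
        mul_nonneg hδ.le (sq_nonneg (|t| - δ)), mul_nonneg hδ.le (sq_nonneg (|t|)),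
        mul_nonneg hδ.le (mul_nonneg hδ.le (abs_nonneg t))]
    rw [norm_mul, norm_mul, Real.norm_eq_abs, Real.norm_eq_abs, abs_of_nonneg (hg t).1]
    calc (1 - f t) * |t| * (1 - f t) ≤ δ * 1 :=
          mul_le_mul h4 (hg t).2 (hg t).1 hδ.le
      _ = δ := mul_one δ

/-- closed two-sided ideals are selfadjoint: `x^* = lim x^* f_n(x x^*)` with
`f_n (t) = min (n t) 1`, because `‖x^* - x^* f(x x^*)‖^2 = ‖(1 - f) x x^* (1 - f)‖ ≤ 1/n`, and
`f_n (x x^*) ∈ J` by `cfc_mem` -/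
theorem star_mem_idl {J : Set B} (hJ : IsIdl J) {x : B} (hx : x ∈ J) : star x ∈ J := by
  rw [← hJ.closed.closure_eq, Metric.mem_closure_iff]
  intro ε hε
  obtain ⟨e, heJ, hes, -, -, he⟩ := CFM_unit hJ (IsSelfAdjoint.mul_star_self x)
    (hJ.mul_right (star x) x hx) (δ := (ε / 2) ^ 2) (by positivity)
  refine ⟨star x * e, hJ.mul_left (star x) e heJ, ?_⟩
  have h1 : star x - star x * e = star x * (1 - e) := by noncomm_ring
  have h2 : ‖star x * (1 - e)‖ * ‖star x * (1 - e)‖ ≤ (ε / 2) ^ 2 := by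
    rw [← CStarRing.norm_star_mul_self]
    have h3 : star (star x * (1 - e)) * (star x * (1 - e)) = (1 - e) * (x * star x) * (1 - e) := by
      rw [star_mul, star_star, star_sub, star_one, hes.star_eq]
      noncomm_ring
    rw [h3]
    exact he
  rw [dist_eq_norm, h1]
  have h4 : ‖star x * (1 - e)‖ ≤ ε / 2 := by
    rw [← sq] at h2
    exact (pow_le_pow_iff_left₀ (norm_nonneg _) (by positivity) (by norm_num)).1 h2
  linarith

/-- approximate units: for `j ∈ J`, `ε > 0` there is `e ∈ J` selfadjoint with `‖e‖ ≤ 1`,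
`‖1 - e‖ ≤ 1`, `‖j (1 - e)‖ ≤ ε`: take `e = min (t/δ, 1)` of `j^* j`, then
`‖j (1-e)‖^2 = ‖(1-e) j^* j (1-e)‖ ≤ δ` -/
theorem exists_approx_unit {J : Set B} (hJ : IsIdl J) {j : B} (hj : j ∈ J) {ε : ℝ} (hε : 0 < ε) :
    ∃ e ∈ J, IsSelfAdjoint e ∧ ‖e‖ ≤ 1 ∧ ‖1 - e‖ ≤ 1 ∧ ‖j * (1 - e)‖ ≤ ε := by
  obtain ⟨e, heJ, hes, he1, he2, he⟩ := CFM_unit hJ (IsSelfAdjoint.star_mul_self j)
    (hJ.mul_left (star j) j hj) (δ := ε ^ 2) (by positivity)
  refine ⟨e, heJ, hes, he1, he2, ?_⟩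
  have h2 : ‖j * (1 - e)‖ * ‖j * (1 - e)‖ ≤ ε ^ 2 := by
    rw [← CStarRing.norm_star_mul_self]
    have h3 : star (j * (1 - e)) * (j * (1 - e)) = (1 - e) * (star j * j) * (1 - e) := by
      rw [star_mul, star_sub, star_one, hes.star_eq]
      noncomm_ring
    rw [h3]
    exact he
  rw [← sq] at h2
  exact (pow_le_pow_iff_left₀ (norm_nonneg _) hε.le (by norm_num)).1 h2

end MUP
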