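import Pool.Agent.MUP.Defs

/-!
MUP / MPA.  The pair `(𝓜(ℂ, A), A)` is a multiplier pair.

Mathlib's `DoubleCentralizer` `𝓜(ℂ, A)`: elements are `m = (m.fst, m.snd)` with
`m.snd a * b = a * m.fst b`; the embedding of `A` is `(a : 𝓜(ℂ, A))` with
`fst = left multiplication`, `snd = right multiplication`.  `m * (a : 𝓜) = (m.fst a : 𝓜)`,
`(a : 𝓜) * m = (m.snd a : 𝓜)`; `‖m‖ = ‖m.fst‖ = ‖m.snd‖`; the embedding is isometric and a star
homomorphism (`DoubleCentralizer.coeHom`).
Let `K = range`.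
* closed: `A` is complete and the embedding isometric.
* ideal: the two formulas above.
* `nrm`: `‖m * a‖ = ‖m.fst a‖ ≤ C ‖a‖` for all `a ∈ A` gives `‖m.fst‖ ≤ C`.
* `strict`: let `S` be bounded by `C` with `S N * a`, `a * S N` Cauchy for `a ∈ K`.  For `a ∈ A`
  let `L a = lim (S N).fst a`, `R a = lim (S N).snd a` (Cauchy in `A`, because the embedding is
  isometric).  `L, R` are linear and bounded by `C` (`continuousLinearMapOfTendsto`, or
  `LinearMap.mkContinuous`), and `R a * b = a * L b` in the limit.  `s = (L, R)`.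
-/

open Filter Topology MultiplierAlgebra

namespace MUP

section MPAaux

variable {A : Type*} [NonUnitalCStarAlgebra A]

private lemma MPA_zero_of_left {z : A} (h : ∀ x : A, x * z = 0) : z = 0 :=
  (CStarRing.star_mul_self_eq_zero_iff z).1 (h (star z))

private lemma MPA_zero_of_right {z : A} (h : ∀ x : A, z * x = 0) : z = 0 :=
  (CStarRing.mul_star_self_eq_zero_iff z).1 (h (star z))

private lemma MPA_mul_coe (m : 𝓜(ℂ, A)) (a : A) :
    m * (a : 𝓜(ℂ, A)) = ((m.fst a : A) : 𝓜(ℂ, A)) := by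
  apply DoubleCentralizer.ext
  refine Prod.ext ?_ ?_
  · rw [DoubleCentralizer.mul_fst, DoubleCentralizer.coe_fst, DoubleCentralizer.coe_fst]
    ext b
    change m.fst (a * b) = m.fst a * b
    have h : m.fst (a * b) - m.fst a * b = 0 := by
      apply MPA_zero_of_left
      intro x
      rw [mul_sub, ← m.central, ← mul_assoc, ← mul_assoc, ← m.central, sub_self]
    exact sub_eq_zero.1 h
  · rw [DoubleCentralizer.mul_snd, DoubleCentralizer.coe_snd, DoubleCentralizer.coe_snd]
    ext b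
    change m.snd b * a = b * m.fst a
    exact m.central b a

private lemma MPA_coe_mul (m : 𝓜(ℂ, A)) (a : A) :
    (a : 𝓜(ℂ, A)) * m = ((m.snd a : A) : 𝓜(ℂ, A)) := by
  apply DoubleCentralizer.ext
  refine Prod.ext ?_ ?_
  · rw [DoubleCentralizer.mul_fst, DoubleCentralizer.coe_fst, DoubleCentralizer.coe_fst]
    ext b
    change a * m.fst b = m.snd a * b
    exact (m.central a b).symm
  · rw [DoubleCentralizer.mul_snd, DoubleCentralizer.coe_snd, DoubleCentralizer.coe_snd]
    ext b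
    change m.snd (b * a) = b * m.snd a
    have h : m.snd (b * a) - b * m.snd a = 0 := by
      apply MPA_zero_of_right
      intro x
      rw [sub_mul, m.central, mul_assoc, mul_assoc, m.central, sub_self]
    exact sub_eq_zero.1 h

private lemma MPA_norm_coe (a : A) : ‖(a : 𝓜(ℂ, A))‖ = ‖a‖ := by
  rw [← DoubleCentralizer.norm_fst, DoubleCentralizer.coe_fst]
  exact ContinuousLinearMap.opNorm_mul_apply ℂ A a

private lemma MPA_coe_sub (a b : A) :
    ((a - b : A) : 𝓜(ℂ, A)) = (a : 𝓜(ℂ, A)) - (b : 𝓜(ℂ, A)) :=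
  map_sub (DoubleCentralizer.coeHom (𝕜 := ℂ) (A := A)) a b

private lemma MPA_isometry : Isometry (fun a : A => (a : 𝓜(ℂ, A))) := by
  refine Isometry.of_dist_eq ?_
  intro a b
  rw [dist_eq_norm, dist_eq_norm, ← MPA_coe_sub, MPA_norm_coe]

private lemma MPA_cauchy (u : ℕ → A) (h : CauchySeq fun n => ((u n : A) : 𝓜(ℂ, A))) :
    CauchySeq u := by
  rw [Metric.cauchySeq_iff] at h ⊢
  intro ε hε
  obtain ⟨N, hN⟩ := h ε hε
  refine ⟨N, fun m hm n hn => ?_⟩
  have h1 := hN m hm n hn
  rwa [MPA_isometry.dist_eq] at h1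

end MPAaux

theorem multPair_multiplier (A : Type*) [NonUnitalCStarAlgebra A] :
    MultPair (Set.range (fun a : A => (a : 𝓜(ℂ, A)))) := by
  refine ⟨⟨?_, ?_, ?_, ?_, ?_⟩, ?_, ?_, ?_⟩
  · exact ⟨0, map_zero (DoubleCentralizer.coeHom (𝕜 := ℂ) (A := A))⟩
  · rintro _ ⟨a, rfl⟩ _ ⟨b, rfl⟩
    exact ⟨a + b, map_add (DoubleCentralizer.coeHom (𝕜 := ℂ) (A := A)) a b⟩
  · rintro m _ ⟨a, rfl⟩
    exact ⟨m.fst a, (MPA_mul_coe m a).symm⟩
  · rintro m _ ⟨a, rfl⟩
    exact ⟨m.snd a, (MPA_coe_mul m a).symm⟩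
  · exact MPA_isometry.isClosedEmbedding.isClosed_range
  · rintro _ ⟨a, rfl⟩
    exact ⟨star a, map_star (DoubleCentralizer.coeHom (𝕜 := ℂ) (A := A)) a⟩
  · intro m C hC h
    rw [← DoubleCentralizer.norm_fst]
    refine ContinuousLinearMap.opNorm_le_bound _ hC ?_
    intro a
    have h1 := h _ ⟨a, rfl⟩
    rwa [MPA_mul_coe, MPA_norm_coe, MPA_norm_coe] at h1
  · intro S C hS hl hr
    have hL : ∀ a : A, ∃ l : A, Tendsto (fun N => (S N).fst a) atTop (𝓝 l) := by
      intro a
      have h1 := hl _ ⟨a, rfl⟩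
      simp only [MPA_mul_coe] at h1
      exact cauchySeq_tendsto_of_complete (MPA_cauchy _ h1)
    have hR : ∀ a : A, ∃ l : A, Tendsto (fun N => (S N).snd a) atTop (𝓝 l) := by
      intro a
      have h1 := hr _ ⟨a, rfl⟩
      simp only [MPA_coe_mul] at h1
      exact cauchySeq_tendsto_of_complete (MPA_cauchy _ h1)
    choose L hL using hL
    choose R hR using hR
    have tL : Tendsto (fun N x => (S N).fst x) atTop (𝓝 L) := tendsto_pi_nhds.2 hL
    have tR : Tendsto (fun N x => (S N).snd x) atTop (𝓝 R) := tendsto_pi_nhds.2 hR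
    let Lc : A →L[ℂ] A := continuousLinearMapOfTendsto (fun N => (S N).fst) tL
    let Rc : A →L[ℂ] A := continuousLinearMapOfTendsto (fun N => (S N).snd) tR
    have hcen : ∀ x y : A, Rc x * y = x * Lc y := by
      intro x y
      change R x * y = x * L y
      have h1 : Tendsto (fun N => (S N).snd x * y) atTop (𝓝 (R x * y)) := (hR x).mul_const y
      have h2 : Tendsto (fun N => x * (S N).fst y) atTop (𝓝 (x * L y)) := (hL y).const_mul x
      have h3 : (fun N => (S N).snd x * y) = fun N => x * (S N).fst y := by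
        funext N
        exact (S N).central x y
      rw [h3] at h1
      exact tendsto_nhds_unique h1 h2
    refine ⟨⟨(Lc, Rc), hcen⟩, ?_, ?_⟩
    · rintro _ ⟨a, rfl⟩
      simp only [MPA_mul_coe]
      exact (MPA_isometry.continuous.tendsto (L a)).comp (hL a)
    · rintro _ ⟨a, rfl⟩
      simp only [MPA_coe_mul]
      exact (MPA_isometry.continuous.tendsto (R a)).comp (hR a)

end MUP
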