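import Pool.Agent.MUP.CNA
import Pool.Agent.MUP.CFM
import Pool.Agent.MUP.MPA

/-!
MUP / PIA.  Purely infinite algebras have copies; sigma-unital algebras have a sequence in
`𝓜(ℂ, A)`.

`cop_of_purelyInfinite`.  Let `c ∈ A ⊆ 𝓜(ℂ, A)`, `c ≥ 0`.  Then `r = CFC.sqrt c` (or the function
`√(max t 0)` of `c`) lies in `A` (`cfc_mem` with `(multPair_multiplier A).idl`), `r` is
selfadjoint and `c = r r`, so `c` is the image of a positive element `a = star b * b` of `A`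
(the embedding is an injective star homomorphism).
`PurelyInfinite A` gives `CuntzLE (ampl 2 2 a) (ampl 1 2 a)`: matrices `x_n ∈ M_2(A)` with
`x_n diag(a, 0) x_n^* → diag(a, a)`.  The `(i, j)` entry of the left side is
`x_n i 0 * a * star (x_n j 0)`.  Given `ε` take `n` with all four entries within `ε`, and
`r_i = star (x_n i 0)` in `𝓜(ℂ, A)`.  This is `Cop 2 c c`, and `cop_all` gives all `n`.

`exists_seq_of_sigmaUnital`.  Images of the `e n` (`IsPos` gives `0 ≤`, norms are preserved).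
-/

open Filter Topology MultiplierAlgebra

namespace MUP

section PIAaux

variable {A : Type*} [NonUnitalCStarAlgebra A]

private theorem PIA_norm_coe (a : A) : ‖(a : 𝓜(ℂ, A))‖ = ‖a‖ := by
  rw [← DoubleCentralizer.norm_fst, DoubleCentralizer.coe_fst]
  exact ContinuousLinearMap.opNorm_mul_apply ℂ A a

private theorem PIA_sub (a b : A) :
    ((a - b : A) : 𝓜(ℂ, A)) = (a : 𝓜(ℂ, A)) - (b : 𝓜(ℂ, A)) :=
  map_sub (DoubleCentralizer.coeHom (𝕜 := ℂ) (A := A)) a b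

private theorem PIA_mul (a b : A) :
    ((a * b : A) : 𝓜(ℂ, A)) = (a : 𝓜(ℂ, A)) * (b : 𝓜(ℂ, A)) :=
  map_mul (DoubleCentralizer.coeHom (𝕜 := ℂ) (A := A)) a b

private theorem PIA_star (a : A) : ((star a : A) : 𝓜(ℂ, A)) = star (a : 𝓜(ℂ, A)) :=
  map_star (DoubleCentralizer.coeHom (𝕜 := ℂ) (A := A)) a

private theorem PIA_zero : ((0 : A) : 𝓜(ℂ, A)) = 0 :=
  map_zero (DoubleCentralizer.coeHom (𝕜 := ℂ) (A := A))

private theorem PIA_isometry : Isometry (fun a : A => (a : 𝓜(ℂ, A))) := by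
  refine Isometry.of_dist_eq ?_
  intro a b
  rw [dist_eq_norm, dist_eq_norm, ← PIA_sub, PIA_norm_coe]

private theorem PIA_entry (x : Matrix (Fin 2) (Fin 2) A) (a : A) (i j : Fin 2) :
    (x * ampl 1 2 a * x.conjTranspose) i j = x i 0 * a * star (x j 0) := by
  rw [Matrix.mul_apply, Fin.sum_univ_two]
  have h0 : (x * ampl 1 2 a) i 0 = x i 0 * a := by
    rw [Matrix.mul_apply, Fin.sum_univ_two]
    simp [ampl]
  have h1 : (x * ampl 1 2 a) i 1 = 0 := by
    rw [Matrix.mul_apply, Fin.sum_univ_two]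
    simp [ampl]
  rw [h0, h1, zero_mul, add_zero, Matrix.conjTranspose_apply]

private theorem PIA_diag (a : A) (i j : Fin 2) :
    (ampl 2 2 a) i j = if i = j then a else 0 := by
  unfold ampl
  rw [Matrix.diagonal_apply]
  have : (i : ℕ) < 2 := i.2
  simp [this]

private theorem PIA_copies (hA : PurelyInfinite A) {a : A} (ha : IsPos a) {ε : ℝ} (hε : 0 < ε) :
    ∃ z : Fin 2 → A, ∀ i j, ‖z i * a * star (z j) - (if i = j then a else 0)‖ ≤ ε := by
  obtain ⟨x, hx⟩ := (hA a ha).2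
  have h1 : ∀ i j, ∀ᶠ n in atTop,
      ‖x n i 0 * a * star (x n j 0) - (if i = j then a else 0)‖ ≤ ε := by
    intro i j
    have h2 := hx i j
    rw [PIA_diag] at h2
    simp only [PIA_entry] at h2
    have h3 := (tendsto_iff_norm_sub_tendsto_zero.1 h2)
    exact (h3.eventually (gt_mem_nhds hε)).mono fun n hn => le_of_lt hn
  have h2 : ∀ᶠ n in atTop, ∀ i j,
      ‖x n i 0 * a * star (x n j 0) - (if i = j then a else 0)‖ ≤ ε :=
    eventually_all.2 fun i => eventually_all.2 fun j => h1 i j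
  obtain ⟨n, hn⟩ := h2.exists
  exact ⟨fun i => x n i 0, hn⟩

end PIAaux

variable {A : Type*} [NonUnitalCStarAlgebra A] [PartialOrder 𝓜(ℂ, A)] [StarOrderedRing 𝓜(ℂ, A)]

private theorem PIA_root {c : 𝓜(ℂ, A)} (hc : c ∈ Set.range (fun a : A => (a : 𝓜(ℂ, A))))
    (h0 : 0 ≤ c) : ∃ b : A, c = ((star b * b : A) : 𝓜(ℂ, A)) := by
  have hsa : IsSelfAdjoint c := h0.isSelfAdjoint
  obtain ⟨b, hb⟩ := cfc_mem (multPair_multiplier A).idl hsa hc Real.continuous_sqrt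
    Real.sqrt_zero
  refine ⟨b, ?_⟩
  have hb' : (b : 𝓜(ℂ, A)) = cfc Real.sqrt c := hb
  have hrsa : star (cfc Real.sqrt c) = cfc Real.sqrt c :=
    (cfc_predicate Real.sqrt c : IsSelfAdjoint (cfc Real.sqrt c)).star_eq
  rw [PIA_mul, PIA_star, hb', hrsa]
  have h1 : cfc Real.sqrt c * cfc Real.sqrt c = cfc (fun t : ℝ => √t * √t) c :=
    (cfc_mul Real.sqrt Real.sqrt c Real.continuous_sqrt.continuousOn
      Real.continuous_sqrt.continuousOn).symm
  rw [h1]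
  have h2 : cfc (fun t : ℝ => √t * √t) c = cfc (fun t : ℝ => t) c := by
    refine cfc_congr fun t ht => ?_
    exact Real.mul_self_sqrt (spectrum_nonneg_of_nonneg h0 ht)
  rw [h2]
  exact (cfc_id' ℝ c).symm

theorem cop_of_purelyInfinite (hA : PurelyInfinite A) :
    ∀ c ∈ Set.range (fun a : A => (a : 𝓜(ℂ, A))), 0 ≤ c → ∀ n, Cop n c c := by
  intro c hc h0
  refine cop_all fun ε hε => ?_
  obtain ⟨b, hb⟩ := PIA_root hc h0
  obtain ⟨z, hz⟩ := PIA_copies hA (a := star b * b) ⟨b, rfl⟩ hε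
  refine ⟨fun i => star (z i : 𝓜(ℂ, A)), fun i j => ?_⟩
  have h1 : star (star (z i : 𝓜(ℂ, A))) * c * star (z j : 𝓜(ℂ, A)) - (if i = j then c else 0) =
      ((z i * (star b * b) * star (z j) - (if i = j then star b * b else 0) : A) :
        𝓜(ℂ, A)) := by
    rw [star_star, PIA_sub, PIA_mul, PIA_mul, PIA_star, ← hb]
    congr 1
    split_ifs
    · exact hb
    · exact PIA_zero.symm
  rw [h1, PIA_norm_coe]
  exact hz i j

theorem exists_seq_of_sigmaUnital (hA : SigmaUnital A) :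
    ∃ e : ℕ → 𝓜(ℂ, A), (∀ n, e n ∈ Set.range (fun a : A => (a : 𝓜(ℂ, A)))) ∧
      (∀ n, 0 ≤ e n) ∧ (∀ n, ‖e n‖ ≤ 1) ∧
      ∀ a ∈ Set.range (fun a : A => (a : 𝓜(ℂ, A))), Tendsto (fun n => e n * a) atTop (𝓝 a) := by
  obtain ⟨e, he, hc⟩ := hA
  refine ⟨fun n => (e n : 𝓜(ℂ, A)), fun n => ⟨e n, rfl⟩, fun n => ?_, fun n => ?_, ?_⟩
  · obtain ⟨b, hb⟩ := (he n).1
    change 0 ≤ (e n : 𝓜(ℂ, A))
    rw [hb, PIA_mul, PIA_star]
    exact star_mul_self_nonneg _
  · change ‖(e n : 𝓜(ℂ, A))‖ ≤ 1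
    rw [PIA_norm_coe]
    exact (he n).2
  · rintro _ ⟨b, rfl⟩
    have h1 : (fun n => (e n : 𝓜(ℂ, A)) * (b : 𝓜(ℂ, A))) =
        fun n => ((e n * b : A) : 𝓜(ℂ, A)) := by
      funext n
      rw [PIA_mul]
    change Tendsto (fun n => (e n : 𝓜(ℂ, A)) * (b : 𝓜(ℂ, A))) atTop (𝓝 (b : 𝓜(ℂ, A)))
    rw [h1]
    exact (PIA_isometry.continuous.tendsto b).comp (hc b).1

end MUP
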