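import Pool.Agent.MUP.FIN
import Pool.Agent.MUP.COB
import Pool.Agent.MUP.COC
import Pool.Agent.MUP.PIA
import Pool.Agent.MUP.BRG

/-!
MUP / ASM.  Assembly for `𝓜(ℂ, A)`.
-/

open Filter Topology MultiplierAlgebra

namespace MUP

/-- The copy of `A` in `𝓜(ℂ, A)`. -/
def rangeA (A : Type*) [NonUnitalCStarAlgebra A] : Set 𝓜(ℂ, A) :=
  Set.range fun a : A => (a : 𝓜(ℂ, A))

theorem isPos_iff_nonneg {B : Type*} [CStarAlgebra B] [PartialOrder B] [StarOrderedRing B]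
    {x : B} : IsPos x ↔ 0 ≤ x :=
  ⟨fun ⟨c, hc⟩ => hc ▸ star_mul_self_nonneg c, fun h => CStarAlgebra.nonneg_iff_eq_star_mul_self.mp h⟩

section

variable {A : Type*} [NonUnitalCStarAlgebra A] [PartialOrder 𝓜(ℂ, A)] [StarOrderedRing 𝓜(ℂ, A)]

theorem T2_multiplier (hσ : SigmaUnital A) (hA : PurelyInfinite A) :
    ∀ y z0 : 𝓜(ℂ, A), 0 ≤ y → ‖y‖ ≤ 1 → 0 ≤ z0 → y * z0 = z0 → InIdealK (rangeA A) z0 y →
      Cop 2 y y := by
  intro y z0 hy hy1 hz hyz hid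
  obtain ⟨e, he, he0, he1, hc⟩ := exists_seq_of_sigmaUnital hσ
  exact main_pair (multPair_multiplier A) he he0 he1 hc (cop_of_purelyInfinite hA) hy hy1 hz hyz
    hid

theorem assembled (hσ : SigmaUnital A) (hA : PurelyInfinite A) :
    (∀ x : 𝓜(ℂ, A), IsPos x →
      (∀ ε : ℝ, 0 < ε → ∃ (z : 𝓜(ℂ, A)) (δ : ℝ), IsPos z ∧ 0 < δ ∧ InHer x z ∧
        InIdealK (rangeA A) (pp z δ) z ∧ InIdealK (rangeA A) z (pp x ε)) → PropInf x) ∧
    (∀ x : 𝓜(ℂ, A), IsPos x → x * x - x ∈ rangeA A → PropInf x) ∧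
    (∀ x : 𝓜(ℂ, A), IsPos x → InIdealK (rangeA A) x 1 → PropInf x) := by
  have hK : IsIdl (rangeA A) := (multPair_multiplier A).idl
  have T2 := T2_multiplier hσ hA
  refine ⟨fun x hx h => ?_, fun x hx h => ?_, fun x hx h => ?_⟩
  · refine propInf_of_cop (cor_compact hK T2 (isPos_iff_nonneg.mp hx) fun ε hε => ?_)
    obtain ⟨z, δ, hz, hrest⟩ := h ε hε
    exact ⟨z, δ, isPos_iff_nonneg.mp hz, hrest⟩
  · have hx' := isPos_iff_nonneg.mp hx
    exact propInf_of_cop (cor_compact hK T2 hx' (compact_of_proj hK hx' h))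
  · have hx' := isPos_iff_nonneg.mp hx
    exact propInf_of_cop (cor_compact hK T2 hx' (compact_of_full hK hx' h))

end

end MUP
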