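import Pool.Agent.MUP.Defs

/-!
MUP / BLA.  Frames and blocks `blk u p q = u q - u p`.

* `Frame.mul_lt`: `u n * u m = u m = u m * u n` for `m < n` (induction on `n` from
  `u (m+1) u m = u m`: `u (n+1) u m = u (n+1) u n u m = u n u m = u m`; adjoints for the other
  order).
* `Frame.comm`: all `u m` commute.
* `blk_nm`: for `p < q`, `u q - u p = u q (1 - u p)`, so the norm is `≤ 1`; `p = q` gives `0`.
* `blk_orth`: `q < p'` gives `(u q - u p)(u q' - u p') = u q - u q - u p + u p = 0`.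
* `blk_absorb`: `p < p'` or `p = 0`, and `q' < q` (`p' ≤ q'`):
  `(u q - u p)(u q' - u p') = u q' - u p' - u p + u p`; if `p = 0` then `u p = 0`.
* `blk_mul_u`: `l < p ≤ q`: `(u q - u p) u l = 0`.
* `BSeq`: `p` is strictly increasing, `j ≤ p j`; for `i < j`, `q i < p (i+1) ≤ p j`.
* `OFam.of_supp`: if `x_j ∈ D_j M ∩ M D_j` for a block sequence `D`, then `x` is an orthogonal
  family: `x_i^* x_j = s_i^* D_i D_j s_j = 0`, `x_i x_j^* = t_i D_i D_j t_j^* = 0`;
  `x_j u_l = t_j D_j u_l = 0` for large `j`; `x_j = D_j s_j ∈ K`.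
-/

open Filter Topology

namespace MUP

variable {M : Type*} [CStarAlgebra M] {K : Set M} {u D : ℕ → M}

theorem Frame.mul_lt (hu : Frame K u) {m n : ℕ} (h : m < n) : u n * u m = u m := by
  induction n, h using Nat.le_induction with
  | base => exact hu.step m
  | succ n hn ih =>
    have hn' : m + 1 ≤ n := hn
    calc u (n + 1) * u m = u (n + 1) * (u n * u m) := by rw [ih]
      _ = (u (n + 1) * u n) * u m := by rw [mul_assoc]
      _ = u m := by rw [hu.step n, ih]

theorem Frame.mul_lt' (hu : Frame K u) {m n : ℕ} (h : m < n) : u m * u n = u m := by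
  have h1 := congrArg star (hu.mul_lt h)
  rwa [star_mul, (hu.sa n).star_eq, (hu.sa m).star_eq] at h1

theorem Frame.comm (hu : Frame K u) (m n : ℕ) : u m * u n = u n * u m := by
  rcases lt_trichotomy m n with h | h | h
  · rw [hu.mul_lt h, hu.mul_lt' h]
  · rw [h]
  · rw [hu.mul_lt h, hu.mul_lt' h]

theorem blk_sa (hu : Frame K u) (p q : ℕ) : IsSelfAdjoint (blk u p q) := by
  exact (hu.sa q).sub (hu.sa p)

theorem blk_comm (hu : Frame K u) (p q p' q' : ℕ) :
    blk u p q * blk u p' q' = blk u p' q' * blk u p q := by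
  have h : ∀ a b, Commute (u a) (u b) := fun a b => hu.comm a b
  exact ((h q q').sub_right (h q p')).sub_left ((h p q').sub_right (h p p'))

theorem blk_mem (hK : MultPair K) (hu : Frame K u) (p q : ℕ) : blk u p q ∈ K := by
  have h : blk u p q = u q + (-1) * u p := by rw [blk, neg_one_mul, sub_eq_add_neg]
  rw [h]
  exact hK.idl.add_mem _ (hu.mem q) _ (hK.idl.mul_left _ _ (hu.mem p))

theorem blk_nm (hu : Frame K u) {p q : ℕ} (h : p ≤ q) : ‖blk u p q‖ ≤ 1 := by
  rcases h.lt_or_eq with h | h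
  · have e : blk u p q = u q * (1 - u p) := by
      rw [blk, mul_sub, mul_one, hu.mul_lt h]
    rw [e]
    calc ‖u q * (1 - u p)‖ ≤ ‖u q‖ * ‖1 - u p‖ := norm_mul_le _ _
      _ ≤ 1 * 1 := mul_le_mul (hu.nm q) (hu.nm1 p) (norm_nonneg _) zero_le_one
      _ = 1 := one_mul 1
  · rw [blk, h, sub_self, norm_zero]
    exact zero_le_one

theorem blk_orth (hu : Frame K u) {p q p' q' : ℕ} (h : p ≤ q) (h' : q < p') (h'' : p' ≤ q') :
    blk u p q * blk u p' q' = 0 := by
  rw [blk, blk, sub_mul, mul_sub, mul_sub, hu.mul_lt' (show q < q' by omega),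
    hu.mul_lt' (show q < p' by omega), hu.mul_lt' (show p < q' by omega),
    hu.mul_lt' (show p < p' by omega), sub_self, sub_self, sub_self]

theorem blk_absorb (hu : Frame K u) {p q p' q' : ℕ} (h : p < p' ∨ p = 0) (h' : p' ≤ q')
    (h'' : q' < q) : blk u p q * blk u p' q' = blk u p' q' := by
  rcases h with h | h
  · rw [blk, blk, sub_mul, mul_sub, mul_sub, hu.mul_lt (show q' < q by omega),
      hu.mul_lt (show p' < q by omega), hu.mul_lt' (show p < q' by omega),
      hu.mul_lt' (show p < p' by omega), sub_self, sub_zero]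
  · rw [blk, blk, h, hu.zero, sub_zero, mul_sub, hu.mul_lt (show q' < q by omega),
      hu.mul_lt (show p' < q by omega)]

theorem blk_mul_u (hu : Frame K u) {p q l : ℕ} (h : l < p) (h' : p ≤ q) :
    blk u p q * u l = 0 := by
  rw [blk, sub_mul, hu.mul_lt (show l < q by omega), hu.mul_lt h, sub_self]

private theorem bla_mono {p q : ℕ → ℕ} (h0 : ∀ j, p j ≤ q j) (h1 : ∀ j, q j < p (j + 1)) :
    StrictMono p :=
  strictMono_nat_of_lt_succ fun j => lt_of_le_of_lt (h0 j) (h1 j)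

private theorem bla_lt {p q : ℕ → ℕ} (h0 : ∀ j, p j ≤ q j) (h1 : ∀ j, q j < p (j + 1))
    {i j : ℕ} (h : i < j) : q i < p j :=
  lt_of_lt_of_le (h1 i) ((bla_mono h0 h1).monotone h)

private theorem bla_le {p q : ℕ → ℕ} (h0 : ∀ j, p j ≤ q j) (h1 : ∀ j, q j < p (j + 1))
    (j : ℕ) : j ≤ p j :=
  (bla_mono h0 h1).le_apply

theorem BSeq.sa (hu : Frame K u) (hD : BSeq u D) (j : ℕ) : IsSelfAdjoint (D j) := by
  obtain ⟨p, q, -, -, h⟩ := hD
  rw [h j]
  exact blk_sa hu _ _

theorem BSeq.nm (hu : Frame K u) (hD : BSeq u D) (j : ℕ) : ‖D j‖ ≤ 1 := by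
  obtain ⟨p, q, h0, -, h⟩ := hD
  rw [h j]
  exact blk_nm hu (h0 j)

theorem BSeq.mem (hK : MultPair K) (hu : Frame K u) (hD : BSeq u D) (j : ℕ) : D j ∈ K := by
  obtain ⟨p, q, -, -, h⟩ := hD
  rw [h j]
  exact blk_mem hK hu _ _

theorem BSeq.orth (hu : Frame K u) (hD : BSeq u D) {i j : ℕ} (h : i ≠ j) : D i * D j = 0 := by
  obtain ⟨p, q, h0, h1, h2⟩ := hD
  have key : ∀ i j, i < j → blk u (p i) (q i) * blk u (p j) (q j) = 0 := by
    intro i j hij
    exact blk_orth hu (h0 i) (bla_lt h0 h1 hij) (h0 j)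
  rw [h2 i, h2 j]
  rcases lt_or_gt_of_ne h with hij | hij
  · exact key i j hij
  · rw [blk_comm hu]
    exact key j i hij

theorem BSeq.loc (hu : Frame K u) (hD : BSeq u D) (l : ℕ) :
    ∀ᶠ j in atTop, D j * u l = 0 ∧ u l * D j = 0 := by
  obtain ⟨p, q, h0, h1, h2⟩ := hD
  filter_upwards [eventually_gt_atTop l] with j hj
  have hl : l < p j := lt_of_lt_of_le hj (bla_le h0 h1 j)
  have e : D j * u l = 0 := by
    rw [h2 j]
    exact blk_mul_u hu hl (h0 j)
  refine ⟨e, ?_⟩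
  have h3 := congrArg star e
  rw [star_mul, star_zero, (hu.sa l).star_eq] at h3
  have h4 : star (D j) = D j := by
    rw [h2 j]
    exact (blk_sa hu _ _).star_eq
  rwa [h4] at h3

theorem OFam.of_supp (hK : MultPair K) (hu : Frame K u) (hD : BSeq u D) {x : ℕ → M} {C : ℝ}
    (hC : ∀ j, ‖x j‖ ≤ C) (h1 : ∀ j, ∃ s, x j = D j * s) (h2 : ∀ j, ∃ t, x j = t * D j) :
    OFam K u x C := by
  refine ⟨?_, hC, ?_, ?_, ?_⟩
  · intro j
    obtain ⟨s, hs⟩ := h1 j
    rw [hs]
    exact hK.idl.mul_right _ _ (hD.mem hK hu j)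
  · intro i j hij
    obtain ⟨s, hs⟩ := h1 i
    obtain ⟨t, ht⟩ := h1 j
    rw [hs, ht, star_mul, (hD.sa hu i).star_eq, mul_assoc, ← mul_assoc (D i),
      hD.orth hu hij, zero_mul, mul_zero]
  · intro i j hij
    obtain ⟨s, hs⟩ := h2 i
    obtain ⟨t, ht⟩ := h2 j
    rw [hs, ht, star_mul, (hD.sa hu j).star_eq, mul_assoc, ← mul_assoc (D i),
      hD.orth hu hij, zero_mul, mul_zero]
  · intro l
    filter_upwards [hD.loc hu l] with j hj
    obtain ⟨s, hs⟩ := h1 j
    obtain ⟨t, ht⟩ := h2 j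
    constructor
    · rw [ht, mul_assoc, hj.1, mul_zero]
    · rw [hs, ← mul_assoc, hj.2, zero_mul]

theorem OFam.of_bseq (hK : MultPair K) (hu : Frame K u) (hD : BSeq u D) : OFam K u D 1 := by
  exact OFam.of_supp hK hu hD (fun j => hD.nm hu j) (fun j => ⟨1, (mul_one _).symm⟩)
    (fun j => ⟨1, (one_mul _).symm⟩)

end MUP
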