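import Pool.Agent.MUP.FUN

/-!
MUP / CPL.  Local copies.

Let `0 ≤ c`, `η, θ > 0`, `c' = pp c η = (c - η)_+`, and assume `Cop k c' c'`.  Choose
`r : Fin k → M` with `‖r_i^* c' r_j - δ_ij c'‖ ≤ θ`, let `q = rmp η c` (`‖q‖ ≤ 1`,
`q c' = c' = c' q`) and let `h` be the function `(max (t - η) 0)^{1/2}` of `c` (so
`h^2 = c'`, `h = c k = k c` with `k` the function `(max (t - η) 0)^{1/2} / max t η`, and
`q h = h`).  Put `X_i = h r_i q`.  Then
`X_i^* X_j = q r_i^* c' r_j q`, and `‖q (r_i^* c' r_j - δ_ij c') q‖ ≤ θ`, `q c' q = c'`.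
`q X_i = X_i`; `X_i = c (k r_i q)`; `X_i = (h r_i k2) c` where `q = k2 c` (`rmp_factor`).
-/

open Filter Topology

namespace MUP

variable {M : Type*} [CStarAlgebra M] [PartialOrder M] [StarOrderedRing M]

theorem local_copies {c : M} (hc : 0 ≤ c) {η θ : ℝ} (hη : 0 < η) (hθ : 0 < θ) {k : ℕ}
    (hP : Cop k (pp c η) (pp c η)) :
    ∃ X : Fin k → M, (∀ i j, ‖star (X i) * X j - (if i = j then pp c η else 0)‖ ≤ θ) ∧
      (∀ i, rmp η c * X i = X i) ∧ (∀ i, ∃ s, X i = c * s) ∧ ∀ i, ∃ t, X i = t * c := by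
  obtain ⟨r, hr⟩ := hP θ hθ
  have hsa : IsSelfAdjoint c := IsSelfAdjoint.of_nonneg hc
  set f : ℝ → ℝ := fun t => √(max (t - η) 0) with hf
  have hfc : Continuous f := by fun_prop
  set h : M := cfc f c with hh
  have hhsa : star h = h := (cfc_predicate f c : IsSelfAdjoint h).star_eq
  have hh2 : h * h = pp c η := by
    rw [hh, ← cfc_mul f f c hfc.continuousOn hfc.continuousOn, pp]
    congr 1
    ext t
    exact Real.mul_self_sqrt (le_max_right _ _)
  have hqh : rmp η c * h = h := by
    rw [rmp, hh, ← cfc_mul (fun s : ℝ => min (s / η) 1) f c (by fun_prop) hfc.continuousOn]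
    congr 1
    ext t
    simp only [hf]
    rcases le_total t η with h1 | h1
    · rw [max_eq_right (by linarith), Real.sqrt_zero, mul_zero]
    · rw [min_eq_right ((one_le_div hη).mpr h1), one_mul]
  have hhc : ∃ w : M, h = c * w := by
    have hd : ∀ t : ℝ, 0 < max t η := fun t => lt_max_of_lt_right hη
    have hkc : Continuous fun t : ℝ => f t / max t η :=
      hfc.div (by fun_prop) fun t => (hd t).ne'
    refine ⟨cfc (fun t : ℝ => f t / max t η) c, ?_⟩
    conv_rhs => rw [← cfc_id' ℝ c]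
    have e : cfc (fun t : ℝ => f t / max t η) (cfc (fun t : ℝ => t) c) =
        cfc (fun t : ℝ => f t / max t η) c := by rw [cfc_id' ℝ c]
    rw [e, hh, ← cfc_mul (fun t : ℝ => t) (fun t : ℝ => f t / max t η) c
      (by fun_prop) hkc.continuousOn]
    congr 1
    ext t
    simp only [hf]
    rcases le_total t η with h1 | h1
    · rw [max_eq_right (a := t - η) (by linarith), Real.sqrt_zero, zero_div, mul_zero]
    · rw [max_eq_left h1]
      have : t ≠ 0 := by linarith
      field_simp
  obtain ⟨w, hw⟩ := hhc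
  obtain ⟨k2, hk2, hk2c, hqk, -⟩ := rmp_factor hc hη
  have hq1 := rmp_nm hc hη
  have hqsa : star (rmp η c) = rmp η c := (rmp_sa η c).star_eq
  have hqc : rmp η c * pp c η * rmp η c = pp c η := by
    rw [rmp_mul_pp hc hη, pp_mul_rmp hc hη]
  refine ⟨fun i => h * r i * rmp η c, fun i j => ?_, fun i => ?_, fun i => ?_, fun i => ?_⟩
  · have e1 : star (h * r i * rmp η c) * (h * r j * rmp η c) =
        rmp η c * (star (r i) * pp c η * r j) * rmp η c := by
      rw [star_mul, star_mul, hhsa, hqsa, ← hh2]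
      simp only [mul_assoc]
    have e2 : (if i = j then pp c η else 0) =
        rmp η c * (if i = j then pp c η else 0) * rmp η c := by
      split_ifs
      · exact hqc.symm
      · rw [mul_zero, zero_mul]
    rw [e1, e2, ← sub_mul, ← mul_sub]
    have h1 := hr i j
    have h2 : ‖rmp η c * (star (r i) * pp c η * r j - if i = j then pp c η else 0)‖ ≤ θ := by
      refine (norm_mul_le _ _).trans ?_
      calc ‖rmp η c‖ * ‖star (r i) * pp c η * r j - if i = j then pp c η else 0‖
          ≤ 1 * θ := mul_le_mul hq1 h1 (norm_nonneg _) zero_le_one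
        _ = θ := one_mul θ
    refine (norm_mul_le _ _).trans ?_
    calc _ ≤ θ * 1 := mul_le_mul h2 hq1 (norm_nonneg _) hθ.le
      _ = θ := mul_one θ
  · show rmp η c * (h * r i * rmp η c) = h * r i * rmp η c
    rw [← mul_assoc, ← mul_assoc, hqh]
  · refine ⟨w * r i * rmp η c, ?_⟩
    show h * r i * rmp η c = c * (w * r i * rmp η c)
    rw [hw]
    simp only [mul_assoc]
  · refine ⟨h * r i * k2, ?_⟩
    show h * r i * rmp η c = h * r i * k2 * c
    rw [hqk, ← hk2c]
    simp only [mul_assoc]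

end MUP
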