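import Pool.Agent.MUP.ICA

/-!
MUP / ISC.  Functional calculus of orthogonal strict sums.

Let `x` be an orthogonal family of selfadjoint elements, `‖x_j‖ ≤ C`, with strict sum `s`
(`‖s‖ ≤ C`), and let `f : ℝ → ℝ` be continuous with `f 0 = 0`.

`IsSum.cfc`: `cfc f s` is the strict sum of the `cfc f (x_j)`.
Let `t` be the strict sum of `j ↦ cfc f (x_j)` (`OFam.cfc`, `OFam.exists_sum`; `f` is bounded on
`[-C, C]`).  For a polynomial `p` with `p(0) = 0`, `p(s)` is the strict sum of `p(x_j)` (powers:
`s^(m+1) = s^m s` is the strict sum of `x_j^m x_j` by `IsSum.mul`, the partial sums being bounded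
by `C^m` by `OFam.partial_le` for the orthogonal family `x_j^m`; linear combinations:
`IsSum.add`, `IsSum.mul_left` with scalars `algebraMap`).  Given `ε`, choose (Weierstrass on
`[-C, C]`) a polynomial `p` with `|f - p| ≤ ε` on `[-C, C]` and `p(0) = 0` (replace `p` by
`p - p(0)` and `ε` by `2ε`).  Then `‖cfc f s - p(s)‖ ≤ ε` and `t - p(s)` is the strict sum of the
orthogonal family `cfc f (x_j) - p(x_j) = cfc (f - p) (x_j)` of elements of norm `≤ ε`
(`OFam.cfc`), so its norm is `≤ ε` (`OFam.norm_le`).  Hence `‖t - cfc f s‖ ≤ 2 ε` for every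
`ε`.

(`IsSum.pp`, `IsSum.rmp` are the cases `f r = max (r - t) 0`, `f r = min (r / c) 1`.)
-/

open Filter Topology

namespace MUP

variable {M : Type*} [CStarAlgebra M] {K : Set M} {u x : ℕ → M} {s : M} {C : ℝ}

private theorem isc_spec {a : M} {r : ℝ} (hC : 0 ≤ C) (ha : ‖a‖ ≤ C)
    (hr : r ∈ spectrum ℝ a) : |r| ≤ C := by
  have h1 : ‖r‖ ≤ ‖a‖ * ‖(1 : M)‖ := spectrum.norm_le_norm_mul_of_mem hr
  have h2 : ‖(1 : M)‖ ≤ 1 := by
    rcases subsingleton_or_nontrivial M with h | h
    · rw [Subsingleton.elim (1 : M) 0, norm_zero]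
      exact zero_le_one
    · exact (CStarRing.norm_one (E := M)).le
  rw [← Real.norm_eq_abs]
  calc ‖r‖ ≤ ‖a‖ * ‖(1 : M)‖ := h1
    _ ≤ C * 1 := mul_le_mul ha h2 (norm_nonneg _) hC
    _ = C := mul_one C

private theorem isc_mul_id {b : M} (hb : IsSelfAdjoint b) {g : ℝ → ℝ} (hg : Continuous g) :
    cfc (fun r : ℝ => g r * r) b = cfc g b * b := by
  have h := cfc_mul g (fun r : ℝ => r) b hg.continuousOn continuous_id.continuousOn
  rw [h, cfc_id' ℝ b]

private theorem isc_poly (hK : MultPair K) (hu : Frame K u) (hx : OFam K u x C)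
    (hsa : ∀ j, IsSelfAdjoint (x j)) (h : IsSum K x s) (q : Polynomial ℝ) :
    IsSum K (fun j => cfc (fun r : ℝ => r * q.eval r) (x j))
      (cfc (fun r : ℝ => r * q.eval r) s) := by
  have hC := hx.C_nonneg
  have hs : IsSelfAdjoint s := h.sa hK hsa
  have hz : ∀ i j, i ≠ j → x i * x j = 0 := by
    intro i j hij
    have h := hx.o1 i j hij
    rwa [(hsa i).star_eq] at h
  induction q using Polynomial.induction_on with
  | C a =>
    have e : ∀ b : M, IsSelfAdjoint b →
        cfc (fun r : ℝ => r * (Polynomial.C a).eval r) b = algebraMap ℝ M a * b := by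
      intro b hb
      have e1 : (fun r : ℝ => r * (Polynomial.C a).eval r) = fun r : ℝ => a * r := by
        funext r
        rw [Polynomial.eval_C, mul_comm]
      rw [e1, cfc_const_mul_id a b, Algebra.algebraMap_eq_smul_one, smul_one_mul]
    rw [e s hs]
    exact (h.mul_left hK (algebraMap ℝ M a)).congr fun j => (e (x j) (hsa j)).symm
  | add p q hp hq =>
    have e : ∀ b : M, IsSelfAdjoint b →
        cfc (fun r : ℝ => r * (p + q).eval r) b
          = cfc (fun r : ℝ => r * p.eval r) b + cfc (fun r : ℝ => r * q.eval r) b := by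
      intro b hb
      have e1 : (fun r : ℝ => r * (p + q).eval r)
          = fun r : ℝ => r * p.eval r + r * q.eval r := by
        funext r
        rw [Polynomial.eval_add, mul_add]
      rw [e1, cfc_add b (fun r : ℝ => r * p.eval r) (fun r : ℝ => r * q.eval r)
        (continuous_id.mul p.continuous).continuousOn
        (continuous_id.mul q.continuous).continuousOn]
    rw [e s hs]
    exact (hp.add hq).congr fun j => (e (x j) (hsa j)).symm
  | monomial n a hn =>
    have hcont : Continuous fun r : ℝ => r * (Polynomial.C a * Polynomial.X ^ n).eval r :=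
      continuous_id.mul (Polynomial.C a * Polynomial.X ^ n).continuous
    have e : ∀ b : M, IsSelfAdjoint b →
        cfc (fun r : ℝ => r * (Polynomial.C a * Polynomial.X ^ (n + 1)).eval r) b
          = cfc (fun r : ℝ => r * (Polynomial.C a * Polynomial.X ^ n).eval r) b * b := by
      intro b hb
      have e1 : (fun r : ℝ => r * (Polynomial.C a * Polynomial.X ^ (n + 1)).eval r)
          = fun r : ℝ => (r * (Polynomial.C a * Polynomial.X ^ n).eval r) * r := by
        funext r
        simp only [Polynomial.eval_mul, Polynomial.eval_C, Polynomial.eval_pow,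
          Polynomial.eval_X]
        ring
      rw [e1]
      exact isc_mul_id hb hcont
    obtain ⟨D, hD⟩ := (isCompact_Icc (a := -C) (b := C)).exists_bound_of_continuousOn
      (f := fun r : ℝ => r * (Polynomial.C a * Polynomial.X ^ n).eval r) hcont.continuousOn
    have hD' : ∀ r : ℝ, |r| ≤ C →
        |r * (Polynomial.C a * Polynomial.X ^ n).eval r| ≤ D := by
      intro r hr
      have := hD r (abs_le.mp hr)
      rwa [Real.norm_eq_abs] at this
    have hfam := hx.cfc hK hu hsa hcont (by simp) hD'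
    rw [e s hs]
    refine (hn.mul hK h (fun N => hfam.partial_le _) (fun N => hx.partial_le _) ?_).congr
      fun j => (e (x j) (hsa j)).symm
    intro i j hij
    exact cfc_mul_zero (hsa i) hcont (by simp) (hz i j hij)

theorem IsSum.cfc (hK : MultPair K) (hu : Frame K u) (hx : OFam K u x C)
    (hsa : ∀ j, IsSelfAdjoint (x j)) (h : IsSum K x s) {f : ℝ → ℝ} (hf : Continuous f)
    (hf0 : f 0 = 0) : IsSum K (fun j => _root_.cfc f (x j)) (_root_.cfc f s) := by
  have hC := hx.C_nonneg
  have hs : IsSelfAdjoint s := h.sa hK hsa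
  have hns : ‖s‖ ≤ C := hx.norm_le hK h
  obtain ⟨D, hD⟩ := (isCompact_Icc (a := -C) (b := C)).exists_bound_of_continuousOn
    (f := f) hf.continuousOn
  have hD' : ∀ r : ℝ, |r| ≤ C → |f r| ≤ D := by
    intro r hr
    have := hD r (abs_le.mp hr)
    rwa [Real.norm_eq_abs] at this
  obtain ⟨t, ht, -⟩ := (hx.cfc hK hu hsa hf hf0 hD').exists_sum hK hu
  suffices e : t = _root_.cfc f s by rw [← e]; exact ht
  have key : ∀ ε : ℝ, 0 < ε → ‖t - _root_.cfc f s‖ ≤ 4 * ε := by
    intro ε hε
    obtain ⟨p, hp⟩ := exists_polynomial_near_of_continuousOn (-C) C f hf.continuousOn ε hε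
    have hq : ∀ r : ℝ, |r| ≤ C → |f r - r * (p.divX).eval r| ≤ 2 * ε := by
      intro r hr
      have h1 := hp r (abs_le.mp hr)
      have h2 := hp 0 ⟨by linarith, hC⟩
      rw [hf0, sub_zero] at h2
      have h3 : p.eval r = r * (p.divX).eval r + p.eval 0 := by
        conv_lhs => rw [← Polynomial.divX_mul_X_add p]
        rw [Polynomial.eval_add, Polynomial.eval_mul, Polynomial.eval_X, Polynomial.eval_C,
          Polynomial.coeff_zero_eq_eval_zero]
        ring
      rw [abs_lt] at h1 h2
      rw [abs_le]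
      constructor <;> linarith [h1.1, h1.2, h2.1, h2.2, h3]
    have hg : Continuous fun r : ℝ => r * (p.divX).eval r :=
      continuous_id.mul (p.divX).continuous
    have hfg : Continuous fun r : ℝ => f r - r * (p.divX).eval r := hf.sub hg
    have hP := isc_poly hK hu hx hsa h p.divX
    have h1 : IsSum K (fun j => _root_.cfc (fun r : ℝ => f r - r * (p.divX).eval r) (x j))
        (t - _root_.cfc (fun r : ℝ => r * (p.divX).eval r) s) := by
      refine (ht.sub hP).congr fun j => ?_
      rw [cfc_sub f (fun r : ℝ => r * (p.divX).eval r) (x j) hf.continuousOn hg.continuousOn]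
    have h2 : ‖t - _root_.cfc (fun r : ℝ => r * (p.divX).eval r) s‖ ≤ 2 * ε := by
      have h3 := hx.cfc hK hu hsa hfg (by simp [hf0]) hq
      exact h3.norm_le hK h1
    have h4 : ‖_root_.cfc f s - _root_.cfc (fun r : ℝ => r * (p.divX).eval r) s‖ ≤ 2 * ε := by
      rw [← cfc_sub f (fun r : ℝ => r * (p.divX).eval r) s hf.continuousOn hg.continuousOn]
      refine norm_cfc_le (by positivity) fun r hr => ?_
      rw [Real.norm_eq_abs]
      exact hq r (isc_spec hC hns hr)
    calc ‖t - _root_.cfc f s‖ = ‖(t - _root_.cfc (fun r : ℝ => r * (p.divX).eval r) s)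
          - (_root_.cfc f s - _root_.cfc (fun r : ℝ => r * (p.divX).eval r) s)‖ := by
          congr 1; abel
      _ ≤ ‖t - _root_.cfc (fun r : ℝ => r * (p.divX).eval r) s‖
          + ‖_root_.cfc f s - _root_.cfc (fun r : ℝ => r * (p.divX).eval r) s‖ :=
          norm_sub_le _ _
      _ ≤ 4 * ε := by linarith
  have h0 : ‖t - _root_.cfc f s‖ ≤ 0 := by
    refine le_of_forall_pos_le_add fun ε hε => ?_
    have := key (ε / 4) (by positivity)
    linarith
  exact sub_eq_zero.mp (norm_le_zero_iff.mp h0)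

theorem IsSum.pp (hK : MultPair K) (hu : Frame K u) (hx : OFam K u x C)
    (hsa : ∀ j, IsSelfAdjoint (x j)) (h : IsSum K x s) {t : ℝ} (ht : 0 ≤ t) :
    IsSum K (fun j => MUP.pp (x j) t) (MUP.pp s t) := by
  refine IsSum.cfc hK hu hx hsa h (f := fun r : ℝ => max (r - t) 0) (by fun_prop) ?_
  simp [ht]

theorem IsSum.rmp (hK : MultPair K) (hu : Frame K u) (hx : OFam K u x C)
    (hsa : ∀ j, IsSelfAdjoint (x j)) (h : IsSum K x s) {c : ℝ} (hc : 0 < c) :
    IsSum K (fun j => MUP.rmp c (x j)) (MUP.rmp c s) := by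
  refine IsSum.cfc hK hu hx hsa h (f := fun r : ℝ => min (r / c) 1) (by fun_prop) ?_
  simp

end MUP
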