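import Pool.Agent.MUP.FUN
import Pool.Agent.MUP.ISC
import Pool.Agent.MUP.BLA
import Pool.Agent.MUP.CPL

/-!
MUP / BCO.  Bounded copies for strict sums of orthogonal positive elements of `K`.

Let `c_j ≥ 0` be an orthogonal family in `K` with `‖c_j‖ ≤ 2`, supported by a block sequence `D`
(`c_j = D_j s = t D_j`), with strict sum `cs` (so `0 ≤ cs`, `‖cs‖ ≤ 2`).  Suppose
`Cop n c c` for all `n` and all `0 ≤ c ∈ K`.  Then `BCop cs`.

Proof.  Let `N`, `0 < η' < 1` and put `η = θ = η'/2`.  By `local_copies` for `c_j`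
(`pp (c_j) η ∈ K` is positive: `cfc_mem`) there are `X_{j,i}` (`i < N`) with
`‖X_{j,i}^* X_{j,l} - δ_il pp (c_j) η‖ ≤ η`, `rmp η (c_j) X_{j,i} = X_{j,i}`, `X_{j,i} = c_j s`,
`X_{j,i} = t c_j`.  So for fixed `i` the family `j ↦ X_{j,i}` is supported by `D`, its norm is
bounded by `2` (`‖X‖^2 ≤ ‖pp (c_j) η‖ + η ≤ 2 + 1/2`), and it has a strict sum `X_i`
(`OFam.of_supp`, `OFam.exists_sum`).  By `IsSum.mul` and `IsSum.star`, `X_i^* X_l - δ_il cs` is
the strict sum of `X_{j,i}^* X_{j,l} - δ_il c_j`, which is supported by `D`, with norms at most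
`η + ‖pp (c_j) η - c_j‖ ≤ 2 η = η'`; so `‖X_i^* X_l - δ_il cs‖ ≤ η'` (`OFam.norm_le`), and
`‖X_i‖^2 ≤ 2 + η' ≤ 3`.
`rmp η cs` is the strict sum of `rmp η (c_j)` (`IsSum.rmp`), so `rmp η cs * X_i = X_i`
(`IsSum.mul`, `rmp η (c_i) X_{j,.} = 0` for `i ≠ j` as `c_i c_j = 0`; `IsSum.unique`).
Let `m` be the function `t^{1/2} / max t η` (of `cs`, `t ≥ 0`): `‖m‖ ≤ η^{-1/2}` and
`m cs m = (rmp η cs)^2` (`t^2 / (max t η)^2 = min (t/η) 1 ^2`).  Put `r_i = m X_i`.  Then
`r_i^* cs r_l = X_i^* (rmp η cs)^2 X_l = X_i^* X_l` and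
`‖r_i‖ ≤ η^{-1/2} √3 = √6 / √η' ≤ 4 / η'`.
-/

open Filter Topology

namespace MUP

variable {M : Type*} [CStarAlgebra M] [PartialOrder M] [StarOrderedRing M]
  {K : Set M} {u D : ℕ → M}

private theorem BCO_root {cs : M} (hcs : 0 ≤ cs) {η : ℝ} (hη : 0 < η) :
    ∃ m : M, star m = m ∧ ‖m‖ ≤ 1 / √η ∧ m * cs * m = rmp η cs * rmp η cs := by
  have hd : ∀ t : ℝ, 0 < max t η := fun t => lt_max_of_lt_right hη
  set f : ℝ → ℝ := fun t => √t / max t η with hf
  have hfc : Continuous f := Real.continuous_sqrt.div (by fun_prop) fun t => (hd t).ne'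
  have hsa : IsSelfAdjoint cs := IsSelfAdjoint.of_nonneg hcs
  refine ⟨cfc f cs, (cfc_predicate f cs : IsSelfAdjoint _).star_eq, ?_, ?_⟩
  · refine norm_cfc_le (by positivity) fun t ht => ?_
    have ht0 : 0 ≤ t := spectrum_nonneg_of_nonneg hcs ht
    rw [Real.norm_of_nonneg (by positivity), div_le_div_iff₀ (hd t) (Real.sqrt_pos.mpr hη),
      one_mul]
    have h1 : √t ≤ √(max t η) := Real.sqrt_le_sqrt (le_max_left _ _)
    have h2 : √η ≤ √(max t η) := Real.sqrt_le_sqrt (le_max_right _ _)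
    calc √t * √η ≤ √(max t η) * √(max t η) :=
          mul_le_mul h1 h2 (Real.sqrt_nonneg _) (Real.sqrt_nonneg _)
      _ = max t η := Real.mul_self_sqrt (hd t).le
  · have hid : cfc (fun s : ℝ => s) cs = cs := cfc_id' ℝ cs hsa
    have e1 : cfc f cs * cs * cfc f cs = cfc (fun t : ℝ => f t * t * f t) cs := by
      rw [cfc_mul (fun t : ℝ => f t * t) f cs (hfc.mul continuous_id).continuousOn
        hfc.continuousOn, cfc_mul f (fun t : ℝ => t) cs hfc.continuousOn
        continuous_id.continuousOn, hid]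
    have hg : Continuous fun t : ℝ => min (t / η) 1 := by fun_prop
    have e2 : rmp η cs * rmp η cs = cfc (fun t : ℝ => min (t / η) 1 * min (t / η) 1) cs := by
      rw [rmp, cfc_mul _ _ cs hg.continuousOn hg.continuousOn]
    rw [e1, e2]
    refine cfc_congr fun t ht => ?_
    have ht0 : 0 ≤ t := spectrum_nonneg_of_nonneg hcs ht
    have hs : √t * √t = t := Real.mul_self_sqrt ht0
    have hm : min (t / η) 1 = t / max t η := by
      rcases le_total t η with h | h
      · rw [max_eq_right h, min_eq_left ((div_le_one hη).mpr h)]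
      · rw [max_eq_left h, min_eq_right ((one_le_div hη).mpr h), div_self (by linarith)]
    simp only [hf]
    rw [hm, div_mul_eq_mul_div, div_mul_div_comm, div_mul_div_comm]
    congr 1
    calc √t * t * √t = (√t * √t) * t := by ring
      _ = t * t := by rw [hs]

theorem bcop_sum (hK : MultPair K) (hu : Frame K u) (hD : BSeq u D)
    (hPI : ∀ c ∈ K, 0 ≤ c → ∀ n, Cop n c c) {c : ℕ → M} {cs : M} (h : IsSum K c cs)
    (hb : ∀ j, ‖c j‖ ≤ 2) (hpos : ∀ j, 0 ≤ c j) (h1 : ∀ j, ∃ s, c j = D j * s)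
    (h2 : ∀ j, ∃ t, c j = t * D j) : BCop cs := by
  intro N η' hη' hη1
  set η := η' / 2 with hη
  have hη0 : 0 < η := by positivity
  have hsa : ∀ j, IsSelfAdjoint (c j) := fun j => IsSelfAdjoint.of_nonneg (hpos j)
  have hcK : ∀ j, c j ∈ K := fun j => by
    obtain ⟨s, hs⟩ := h1 j
    rw [hs]
    exact hK.idl.mul_right _ _ (hD.mem hK hu j)
  have hppK : ∀ j, pp (c j) η ∈ K := fun j =>
    cfc_mem hK.idl (hsa j) (hcK j) (by fun_prop) (max_eq_right (by linarith))
  have hloc := fun j => local_copies (hpos j) hη0 hη0 (k := N)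
    (hPI _ (hppK j) (pp_nonneg _ _) N)
  choose X hX1 hX2 hX3 hX4 using hloc
  have hofc : OFam K u c 2 := OFam.of_supp hK hu hD hb h1 h2
  have hcs0 : 0 ≤ cs := h.nonneg hK hpos (fun N => hofc.partial_le _)
  have hcsn : ‖cs‖ ≤ 2 := hofc.norm_le hK h
  have hXs : ∀ i j, ∃ s, X j i = D j * s := fun i j => by
    obtain ⟨s, hs⟩ := hX3 j i
    obtain ⟨t, ht⟩ := h1 j
    exact ⟨t * s, by rw [hs, ht, mul_assoc]⟩
  have hXt : ∀ i j, ∃ t, X j i = t * D j := fun i j => by
    obtain ⟨s, hs⟩ := hX4 j i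
    obtain ⟨t, ht⟩ := h2 j
    exact ⟨s * t, by rw [hs, ht, mul_assoc]⟩
  have hsq : ∀ (a : M) (C : ℝ), 0 ≤ C → ‖star a * a‖ ≤ C ^ 2 → ‖a‖ ≤ C := fun a C hC ha => by
    rw [CStarRing.norm_star_mul_self] at ha
    exact abs_le_of_sq_le_sq' (by nlinarith) hC |>.2
  have hXn : ∀ i j, ‖X j i‖ ≤ 2 := fun i j => by
    refine hsq _ 2 (by norm_num) ?_
    have e1 := hX1 j i i
    rw [if_pos rfl] at e1
    have e2 : ‖pp (c j) η‖ ≤ 2 := (pp_nm (hpos j) hη0.le).trans (hb j)
    have e3 : star (X j i) * X j i = (star (X j i) * X j i - pp (c j) η) + pp (c j) η := by abel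
    rw [e3]
    refine (norm_add_le _ _).trans ?_
    linarith
  have hof : ∀ i, OFam K u (fun j => X j i) 2 := fun i =>
    OFam.of_supp hK hu hD (hXn i) (hXs i) (hXt i)
  choose Y hY hYn using fun i => (hof i).exists_sum hK hu
  have hDs : ∀ j, star (D j) = D j := fun j => (hD.sa hu j).star_eq
  have hmul : ∀ i l, IsSum K (fun j => star (X j i) * X j l) (star (Y i) * Y l) := by
    intro i l
    refine ((hY i).star hK).mul hK (hY l) (C := 2) (D := 2) (fun N => ?_)
      (fun N => (hof l).partial_le _) ?_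
    · rw [← star_sum, norm_star]
      exact (hof i).partial_le _
    · intro j j' hjj
      obtain ⟨s, hs⟩ := hXs i j
      obtain ⟨s', hs'⟩ := hXs l j'
      rw [hs, hs', star_mul, hDs, mul_assoc, ← mul_assoc (D j), hD.orth hu hjj, zero_mul,
        mul_zero]
  have hmain : ∀ i l, ‖star (Y i) * Y l - (if i = l then cs else 0)‖ ≤ η' := by
    intro i l
    have hS : IsSum K (fun j => star (X j i) * X j l - (if i = l then c j else 0))
        (star (Y i) * Y l - (if i = l then cs else 0)) := by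
      refine (hmul i l).sub ?_
      split_ifs
      · exact h
      · have := IsSum.of_eventually_zero (K := K) (x := fun _ : ℕ => (0 : M)) (n := 0)
          (fun _ _ => rfl)
        simpa using this
    refine (OFam.of_supp hK hu hD (C := η') (fun j => ?_) (fun j => ?_) (fun j => ?_)).norm_le
      hK hS
    · have e1 := hX1 j i l
      have e2 : star (X j i) * X j l - (if i = l then c j else 0) =
          (star (X j i) * X j l - (if i = l then pp (c j) η else 0)) +
            (if i = l then pp (c j) η - c j else 0) := by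
        split_ifs <;> abel
      rw [e2]
      have e3 : ‖(if i = l then pp (c j) η - c j else 0 : M)‖ ≤ η := by
        split_ifs
        · exact pp_sub (hpos j) hη0.le
        · rw [norm_zero]; exact hη0.le
      refine (norm_add_le _ _).trans ?_
      linarith
    · obtain ⟨t, ht⟩ := hXt i j
      obtain ⟨s, hs⟩ := h1 j
      refine ⟨star t * X j l - (if i = l then s else 0), ?_⟩
      rw [mul_sub, ← mul_assoc]
      congr 1
      · rw [ht, star_mul, hDs]
      · split_ifs
        · exact hs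
        · rw [mul_zero]
    · obtain ⟨t, ht⟩ := hXt l j
      obtain ⟨s, hs⟩ := h2 j
      refine ⟨star (X j i) * t - (if i = l then s else 0), ?_⟩
      rw [sub_mul, mul_assoc]
      congr 1
      · rw [ht]
      · split_ifs
        · exact hs
        · rw [zero_mul]
  have hY3 : ∀ i, ‖Y i‖ ≤ √3 := fun i => by
    refine hsq _ _ (Real.sqrt_nonneg _) ?_
    have e1 := hmain i i
    rw [if_pos rfl] at e1
    have e3 : star (Y i) * Y i = (star (Y i) * Y i - cs) + cs := by abel
    rw [e3, Real.sq_sqrt (by norm_num)]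
    refine (norm_add_le _ _).trans ?_
    linarith
  have hrs : IsSum K (fun j => rmp η (c j)) (rmp η cs) := IsSum.rmp hK hu hofc hsa h hη0
  have hro : OFam K u (fun j => rmp η (c j)) (2 / η + 1) := by
    refine hofc.cfc hK hu hsa (f := fun r : ℝ => min (r / η) 1) (by fun_prop) (by simp) ?_
    intro r hr
    have h3 : |r / η| ≤ 2 / η := by
      rw [abs_div, abs_of_pos hη0]
      exact div_le_div_of_nonneg_right hr hη0.le
    have h4 := abs_le.mp h3
    have h5 : 0 < 2 / η := by positivity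
    rw [abs_le]
    constructor
    · refine le_min (by linarith) (by linarith)
    · exact (min_le_right _ _).trans (by linarith)
  have hfix : ∀ i, rmp η cs * Y i = Y i := by
    intro i
    have e := hrs.mul hK (hY i) (fun N => hro.partial_le _) (fun N => (hof i).partial_le _) (by
      intro j j' hjj
      refine rmp_mul_eq_zero (hpos j) hη0 ?_
      obtain ⟨t, ht⟩ := h2 j
      obtain ⟨s, hs⟩ := hXs i j'
      rw [ht, hs, mul_assoc, ← mul_assoc (D j), hD.orth hu hjj, zero_mul, mul_zero])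
    exact (e.congr fun j => hX2 j i).unique hK (hY i)
  obtain ⟨m, hm1, hm2, hm3⟩ := BCO_root hcs0 hη0
  refine ⟨fun i => m * Y i, fun i l => ?_, fun i => ?_⟩
  · have hq : star (rmp η cs) = rmp η cs := (rmp_sa η cs).star_eq
    have e : star (m * Y i) * cs * (m * Y l) = star (Y i) * Y l := by
      have e1 : star (m * Y i) * cs * (m * Y l) = star (Y i) * (m * cs * m) * Y l := by
        rw [star_mul, hm1]
        simp only [mul_assoc]
      have e2 : star (Y i) * (rmp η cs * rmp η cs) * Y l =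
          star (rmp η cs * Y i) * (rmp η cs * Y l) := by
        rw [star_mul, hq]
        simp only [mul_assoc]
      rw [e1, hm3, e2, hfix, hfix]
    show ‖star (m * Y i) * cs * (m * Y l) - _‖ ≤ η'
    rw [e]
    exact hmain i l
  · show ‖m * Y i‖ ≤ 4 / η'
    have hw : 0 < √η := Real.sqrt_pos.mpr hη0
    have hw2 : √η ^ 2 = η := Real.sq_sqrt hη0.le
    have h3 : √3 ≤ 2 := by
      rw [Real.sqrt_le_left (by norm_num)]
      norm_num
    have hw1 : √η ≤ 1 := by
      rw [Real.sqrt_le_left (by norm_num)]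
      linarith
    have hee : (4 : ℝ) / η' = 2 / √η ^ 2 := by
      rw [hw2, hη]
      field_simp
      norm_num
    calc ‖m * Y i‖ ≤ ‖m‖ * ‖Y i‖ := norm_mul_le _ _
      _ ≤ 1 / √η * √3 := mul_le_mul hm2 (hY3 i) (norm_nonneg _) (by positivity)
      _ ≤ 4 / η' := by
          rw [hee, div_mul_eq_mul_div, one_mul, div_le_div_iff₀ hw (by positivity)]
          have h4 : √3 * √η ≤ 2 * 1 := mul_le_mul h3 hw1 hw.le (by norm_num)
          nlinarith

end MUP
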