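import Pool.Agent.MUP.BLA

/-!
MUP / BLB.  The explicit blocks: they are block sequences, and their relations.

Intervals (truncated subtraction, so the first block of `vb, Pb, Eb` starts at `0`, where
`u 0 = 0`):
`Nb [40j+11, 40j+30]`, `FAb [40j+12, 40j+29]`, `Feb [40j+18, 40j+23]`, `vb [40j-8, 40j+9]`,
`Pb [40j-2, 40j+3]`, `Eb [40j-19, 40j+20]`, `Gb [20k+2, 20k+19]`, `F1b [20k+3, 20k+18]`,
`Rb [40j+1, 40j+40]`.

Everything follows from `blk_orth`, `blk_absorb`, `blk_comm` and `omega` for the indices (split
`i < j`, `i = j`, `j < i`).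
-/

open Filter Topology

namespace MUP

variable {M : Type*} [CStarAlgebra M] {K : Set M} {u : ℕ → M}

theorem bseq_Nb : BSeq u (Nb u) := by
  exact ⟨fun j => 40 * j + 11, fun j => 40 * j + 30, fun j => by dsimp only; omega,
    fun j => by dsimp only; omega, fun j => rfl⟩

theorem bseq_FAb : BSeq u (FAb u) := by
  exact ⟨fun j => 40 * j + 12, fun j => 40 * j + 29, fun j => by dsimp only; omega,
    fun j => by dsimp only; omega, fun j => rfl⟩

theorem bseq_Feb : BSeq u (Feb u) := by
  exact ⟨fun j => 40 * j + 18, fun j => 40 * j + 23, fun j => by dsimp only; omega,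
    fun j => by dsimp only; omega, fun j => rfl⟩

theorem bseq_vb : BSeq u (vb u) := by
  exact ⟨fun j => 40 * j - 8, fun j => 40 * j + 9, fun j => by dsimp only; omega,
    fun j => by dsimp only; omega, fun j => rfl⟩

theorem bseq_Pb : BSeq u (Pb u) := by
  exact ⟨fun j => 40 * j - 2, fun j => 40 * j + 3, fun j => by dsimp only; omega,
    fun j => by dsimp only; omega, fun j => rfl⟩

theorem bseq_Eb : BSeq u (Eb u) := by
  exact ⟨fun j => 40 * j - 19, fun j => 40 * j + 20, fun j => by dsimp only; omega,
    fun j => by dsimp only; omega, fun j => rfl⟩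

theorem bseq_Gb : BSeq u (Gb u) := by
  exact ⟨fun j => 20 * j + 2, fun j => 20 * j + 19, fun j => by dsimp only; omega,
    fun j => by dsimp only; omega, fun j => rfl⟩

theorem bseq_F1b : BSeq u (F1b u) := by
  exact ⟨fun j => 20 * j + 3, fun j => 20 * j + 18, fun j => by dsimp only; omega,
    fun j => by dsimp only; omega, fun j => rfl⟩

theorem bseq_Rb : BSeq u (Rb u) := by
  exact ⟨fun j => 40 * j + 1, fun j => 40 * j + 40, fun j => by dsimp only; omega,
    fun j => by dsimp only; omega, fun j => rfl⟩

theorem Nb_vb (hu : Frame K u) (i j : ℕ) : Nb u i * vb u j = 0 := by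
  unfold Nb vb
  rcases Nat.lt_or_ge i j with h | h
  · exact blk_orth hu (by omega) (by omega) (by omega)
  · rw [blk_comm hu]
    exact blk_orth hu (by omega) (by omega) (by omega)

theorem Nb_Pb (hu : Frame K u) (i j : ℕ) : Nb u i * Pb u j = 0 := by
  unfold Nb Pb
  rcases Nat.lt_or_ge i j with h | h
  · exact blk_orth hu (by omega) (by omega) (by omega)
  · rw [blk_comm hu]
    exact blk_orth hu (by omega) (by omega) (by omega)

theorem vb_Pb (hu : Frame K u) (i j : ℕ) : vb u i * Pb u j = if i = j then Pb u j else 0 := by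
  unfold vb Pb
  rcases lt_trichotomy i j with h | h | h
  · rw [if_neg (by omega)]
    exact blk_orth hu (by omega) (by omega) (by omega)
  · rw [if_pos h]
    subst h
    exact blk_absorb hu (by omega) (by omega) (by omega)
  · rw [if_neg (by omega), blk_comm hu]
    exact blk_orth hu (by omega) (by omega) (by omega)

theorem FAb_Nb (hu : Frame K u) (i j : ℕ) : FAb u i * Nb u j = if i = j then FAb u i else 0 := by
  unfold FAb Nb
  rcases lt_trichotomy i j with h | h | h
  · rw [if_neg (by omega)]
    exact blk_orth hu (by omega) (by omega) (by omega)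
  · rw [if_pos h]
    subst h
    rw [blk_comm hu]
    exact blk_absorb hu (by omega) (by omega) (by omega)
  · rw [if_neg (by omega), blk_comm hu]
    exact blk_orth hu (by omega) (by omega) (by omega)

theorem F1b_Gb (hu : Frame K u) (i j : ℕ) : F1b u i * Gb u j = if i = j then F1b u i else 0 := by
  unfold F1b Gb
  rcases lt_trichotomy i j with h | h | h
  · rw [if_neg (by omega)]
    exact blk_orth hu (by omega) (by omega) (by omega)
  · rw [if_pos h]
    subst h
    rw [blk_comm hu]
    exact blk_absorb hu (by omega) (by omega) (by omega)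
  · rw [if_neg (by omega), blk_comm hu]
    exact blk_orth hu (by omega) (by omega) (by omega)

theorem Feb_FAb (hu : Frame K u) (i j : ℕ) :
    Feb u i * FAb u j = if i = j then Feb u i else 0 := by
  unfold Feb FAb
  rcases lt_trichotomy i j with h | h | h
  · rw [if_neg (by omega)]
    exact blk_orth hu (by omega) (by omega) (by omega)
  · rw [if_pos h]
    subst h
    rw [blk_comm hu]
    exact blk_absorb hu (by omega) (by omega) (by omega)
  · rw [if_neg (by omega), blk_comm hu]
    exact blk_orth hu (by omega) (by omega) (by omega)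

theorem Eb_vb (hu : Frame K u) (i j : ℕ) : Eb u i * vb u j = if i = j then vb u j else 0 := by
  unfold Eb vb
  rcases lt_trichotomy i j with h | h | h
  · rw [if_neg (by omega)]
    exact blk_orth hu (by omega) (by omega) (by omega)
  · rw [if_pos h]
    subst h
    exact blk_absorb hu (by omega) (by omega) (by omega)
  · rw [if_neg (by omega), blk_comm hu]
    exact blk_orth hu (by omega) (by omega) (by omega)

theorem Eb_Gb (hu : Frame K u) (j k : ℕ) :
    Eb u j * Gb u k = if k = 2 * j ∨ k + 1 = 2 * j then Gb u k else 0 := by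
  unfold Eb Gb
  by_cases h : k = 2 * j ∨ k + 1 = 2 * j
  · rw [if_pos h]
    exact blk_absorb hu (by omega) (by omega) (by omega)
  · rw [if_neg h]
    rcases Nat.lt_or_ge k (2 * j) with h' | h'
    · rw [blk_comm hu]
      exact blk_orth hu (by omega) (by omega) (by omega)
    · exact blk_orth hu (by omega) (by omega) (by omega)

theorem Eb_Nb (hu : Frame K u) {i j : ℕ} (h : i ≠ j) (h' : i + 1 ≠ j) :
    Eb u j * Nb u i = 0 := by
  unfold Eb Nb
  rcases Nat.lt_or_ge i j with h'' | h''
  · rw [blk_comm hu]
    exact blk_orth hu (by omega) (by omega) (by omega)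
  · exact blk_orth hu (by omega) (by omega) (by omega)

theorem Rb_Gb (hu : Frame K u) (j k : ℕ) :
    Rb u j * Gb u k = if k = 2 * j ∨ k = 2 * j + 1 then Gb u k else 0 := by
  unfold Rb Gb
  by_cases h : k = 2 * j ∨ k = 2 * j + 1
  · rw [if_pos h]
    exact blk_absorb hu (by omega) (by omega) (by omega)
  · rw [if_neg h]
    rcases Nat.lt_or_ge k (2 * j) with h' | h'
    · rw [blk_comm hu]
      exact blk_orth hu (by omega) (by omega) (by omega)
    · exact blk_orth hu (by omega) (by omega) (by omega)

theorem Rb_Nb (hu : Frame K u) (i j : ℕ) : Rb u i * Nb u j = if i = j then Nb u j else 0 := by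
  unfold Rb Nb
  rcases lt_trichotomy i j with h | h | h
  · rw [if_neg (by omega)]
    exact blk_orth hu (by omega) (by omega) (by omega)
  · rw [if_pos h]
    subst h
    exact blk_absorb hu (by omega) (by omega) (by omega)
  · rw [if_neg (by omega), blk_comm hu]
    exact blk_orth hu (by omega) (by omega) (by omega)

/-- telescoping: the blocks `P_j, F1_{2j}, Fe_j, F1_{2j+1}` for `j < N` are consecutive; their sum
is `u (40 N - 2)` (`u 0 = 0`). -/
theorem sum_blocks (hu : Frame K u) (N : ℕ) :
    ∑ j ∈ Finset.range N, (Pb u j + (F1b u (2 * j) + F1b u (2 * j + 1)) + Feb u j)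
      = u (40 * N - 2) := by
  induction N with
  | zero => simpa using hu.zero.symm
  | succ N ih =>
    rw [Finset.sum_range_succ, ih]
    unfold Pb F1b Feb blk
    have e1 : 20 * (2 * N) + 18 = 40 * N + 18 := by omega
    have e2 : 20 * (2 * N) + 3 = 40 * N + 3 := by omega
    have e3 : 20 * (2 * N + 1) + 18 = 40 * N + 38 := by omega
    have e4 : 20 * (2 * N + 1) + 3 = 40 * N + 23 := by omega
    have e5 : 40 * (N + 1) - 2 = 40 * N + 38 := by omega
    rw [e1, e2, e3, e4, e5]
    abel

/-- `|p - q|`-type estimate: commutator of a block -/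
theorem blk_comm_le (u : ℕ → M) (p q : ℕ) (m : M) {a b : ℝ} (ha : ‖u p * m - m * u p‖ ≤ a)
    (hb : ‖u q * m - m * u q‖ ≤ b) : ‖blk u p q * m - m * blk u p q‖ ≤ a + b := by
  have e : blk u p q * m - m * blk u p q = (u q * m - m * u q) - (u p * m - m * u p) := by
    rw [blk, sub_mul, mul_sub]
    abel
  rw [e]
  have h := norm_sub_le (u q * m - m * u q) (u p * m - m * u p)
  linarith

end MUP
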