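import Pool.Agent.MUP.FUN
import Pool.Agent.MUP.LFM
import Pool.Agent.MUP.IDL
import Pool.Agent.MUP.QUO

/-!
MUP / COA.  Ideals, order and hereditary subalgebras.

* `isIdl_inIdealK`: `{x | InIdealK K z x}` is a closed two-sided ideal (as `isIdl_inIdeal`);
  it contains `K` (`n = 0`) and `z`, and contains `{x | InIdeal z x}`.
* `inIdeal_of_le`: `0 ≤ a ≤ b` gives `InIdeal b a`: `cop_of_le` gives `r` with
  `‖r^* b r - a‖ ≤ ε`.
* `mem_of_le`: hence closed ideals are hereditary.
* `pp_mem_of_dist`: let `J` be a closed ideal, `0 ≤ p`, `j ∈ J`, `‖p - j‖ ≤ ε`.  In the quotient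
  (`exists_quotient`, with the spectral order) `‖π p‖ = ‖π (p - j)‖ ≤ ε`, so
  `π (pp p ε) = pp (π p) ε = 0` (`map_pp`, `pp_eq_zero_iff`).
* `pp_mem_of_le`: `0 ≤ a ≤ b`, `pp b δ ∈ J`: in the quotient `‖π b‖ ≤ δ`, `0 ≤ π a ≤ π b`, so
  `‖π a‖ ≤ δ` and `π (pp a δ) = 0`.  (`π` is monotone: `b - a = c^* c`.)
* `inHer_add`; `inHer_pp`: `pp x s = x m x` with `m` the function `max (r - s) 0 / (max r s)^2`
  of `x` (`s > 0`); `inHer_self`: `x m x` with `m = 1 / max r s` is the function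
  `r^2 / max r s`, within `s` of `x`.
* `inHer_left`: `z ∈ her(x)` gives `z k ∈ closure (x B)` for every `k`.
-/

open Filter Topology

namespace MUP

variable {B : Type*} [CStarAlgebra B] {K J : Set B} {x z : B}

theorem isIdl_inIdealK (hK : IsIdl K) (z : B) : IsIdl {x : B | InIdealK K z x} where
  zero_mem := fun ε hε => ⟨0, Fin.elim0, Fin.elim0, 0, hK.zero_mem, by simpa using hε.le⟩
  add_mem := by
    intro x hx y hy ε hε
    obtain ⟨n, c, d, a, ha, h1⟩ := hx (ε / 2) (by positivity)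
    obtain ⟨m, c', d', a', ha', h2⟩ := hy (ε / 2) (by positivity)
    refine ⟨n + m, Fin.append c c', Fin.append d d', a + a', hK.add_mem _ ha _ ha', ?_⟩
    rw [Fin.sum_univ_add]
    simp only [Fin.append_left, Fin.append_right]
    have : x + y - (∑ i, c i * z * d i + ∑ i, c' i * z * d' i) - (a + a')
        = (x - ∑ i, c i * z * d i - a) + (y - ∑ i, c' i * z * d' i - a') := by abel
    rw [this]
    exact (norm_add_le _ _).trans (by linarith)
  mul_left := by
    intro m x hx ε hε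
    obtain ⟨n, c, d, a, ha, h1⟩ := hx (ε / (‖m‖ + 1)) (by positivity)
    refine ⟨n, fun i => m * c i, d, m * a, hK.mul_left _ _ ha, ?_⟩
    have : m * x - ∑ i, m * c i * z * d i - m * a = m * (x - ∑ i, c i * z * d i - a) := by
      rw [mul_sub, mul_sub, Finset.mul_sum]
      simp only [mul_assoc]
    rw [this]
    calc ‖m * (x - ∑ i, c i * z * d i - a)‖ ≤ ‖m‖ * ‖x - ∑ i, c i * z * d i - a‖ :=
          norm_mul_le _ _
      _ ≤ ‖m‖ * (ε / (‖m‖ + 1)) := mul_le_mul_of_nonneg_left h1 (norm_nonneg _)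
      _ ≤ ε := by
          rw [mul_div_assoc', div_le_iff₀ (by positivity)]
          nlinarith [norm_nonneg m]
  mul_right := by
    intro m x hx ε hε
    obtain ⟨n, c, d, a, ha, h1⟩ := hx (ε / (‖m‖ + 1)) (by positivity)
    refine ⟨n, c, fun i => d i * m, a * m, hK.mul_right _ _ ha, ?_⟩
    have : x * m - ∑ i, c i * z * (d i * m) - a * m = (x - ∑ i, c i * z * d i - a) * m := by
      rw [sub_mul, sub_mul, Finset.sum_mul]
      simp only [mul_assoc]
    rw [this]
    calc ‖(x - ∑ i, c i * z * d i - a) * m‖ ≤ ‖x - ∑ i, c i * z * d i - a‖ * ‖m‖ :=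
          norm_mul_le _ _
      _ ≤ (ε / (‖m‖ + 1)) * ‖m‖ := mul_le_mul_of_nonneg_right h1 (norm_nonneg _)
      _ ≤ ε := by
          rw [div_mul_eq_mul_div, div_le_iff₀ (by positivity)]
          nlinarith [norm_nonneg m]
  closed := by
    refine isClosed_of_closure_subset fun x hx => ?_
    intro ε hε
    rw [Metric.mem_closure_iff] at hx
    obtain ⟨y, hy, hxy⟩ := hx (ε / 2) (by positivity)
    obtain ⟨n, c, d, a, ha, h1⟩ := hy (ε / 2) (by positivity)
    refine ⟨n, c, d, a, ha, ?_⟩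
    have : x - ∑ i, c i * z * d i - a = (x - y) + (y - ∑ i, c i * z * d i - a) := by abel
    rw [this]
    rw [dist_eq_norm] at hxy
    exact (norm_add_le _ _).trans (by linarith)

theorem inIdealK_of_mem {a : B} (ha : a ∈ K) (z : B) : InIdealK K z a :=
  fun ε hε => ⟨0, Fin.elim0, Fin.elim0, a, ha, by simpa using hε.le⟩

theorem inIdealK_of_inIdeal (hK : IsIdl K) {y : B} (h : InIdeal z y) : InIdealK K z y := by
  intro ε hε
  obtain ⟨n, c, d, h1⟩ := h ε hε
  exact ⟨n, c, d, 0, hK.zero_mem, by simpa using h1⟩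

theorem inHer_add {z' : B} (h : InHer x z) (h' : InHer x z') : InHer x (z + z') := by
  intro ε hε
  obtain ⟨m, h1⟩ := h (ε / 2) (by positivity)
  obtain ⟨m', h2⟩ := h' (ε / 2) (by positivity)
  refine ⟨m + m', ?_⟩
  have : z + z' - x * (m + m') * x = (z - x * m * x) + (z' - x * m' * x) := by noncomm_ring
  rw [this]
  exact (norm_add_le _ _).trans (by linarith)

theorem inHer_of_mul (x m : B) : InHer x (x * m * x) :=
  fun ε hε => ⟨m, by rw [sub_self, norm_zero]; exact hε.le⟩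

theorem inHer_left (h : InHer x z) (k : B) :
    ∀ ε : ℝ, 0 < ε → ∃ d : B, ‖z * k - x * d‖ ≤ ε := by
  intro ε hε
  obtain ⟨m, h1⟩ := h (ε / (‖k‖ + 1)) (by positivity)
  refine ⟨m * x * k, ?_⟩
  have : z * k - x * (m * x * k) = (z - x * m * x) * k := by noncomm_ring
  rw [this]
  calc ‖(z - x * m * x) * k‖ ≤ ‖z - x * m * x‖ * ‖k‖ := norm_mul_le _ _
    _ ≤ (ε / (‖k‖ + 1)) * ‖k‖ := mul_le_mul_of_nonneg_right h1 (norm_nonneg _)
    _ ≤ ε := by
        rw [div_mul_eq_mul_div, div_le_iff₀ (by positivity)]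
        nlinarith [norm_nonneg k]

variable [PartialOrder B] [StarOrderedRing B]

private lemma COA_cfc_sandwich (hx : 0 ≤ x) {g : ℝ → ℝ} (hg : Continuous g) :
    x * cfc g x * x = cfc (fun t : ℝ => t * g t * t) x := by
  have hsa : IsSelfAdjoint x := hx.isSelfAdjoint
  have h1 := cfc_mul (fun t : ℝ => t) g x (by fun_prop) hg.continuousOn
  rw [cfc_id' ℝ x] at h1
  have h2 := cfc_mul (fun t : ℝ => t * g t) (fun t : ℝ => t) x (by fun_prop) (by fun_prop)
  rw [cfc_id' ℝ x] at h2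
  rw [← h1, h2]

theorem inHer_pp (hx : 0 ≤ x) {s : ℝ} (hs : 0 < s) : InHer x (pp x s) := by
  have hcont : Continuous fun t : ℝ => max (t - s) 0 / max t s ^ 2 := by
    refine Continuous.div (by fun_prop) (by fun_prop) fun t => ?_
    have : 0 < max t s := lt_of_lt_of_le hs (le_max_right _ _)
    positivity
  have : pp x s = x * cfc (fun t : ℝ => max (t - s) 0 / max t s ^ 2) x * x := by
    rw [COA_cfc_sandwich hx hcont, pp]
    refine cfc_congr fun t _ => ?_
    rcases le_total t s with ht | ht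
    · have : max (t - s) 0 = 0 := max_eq_right (by linarith)
      simp [this]
    · have h1 : max t s = t := max_eq_left ht
      have h2 : t ≠ 0 := by linarith
      simp only [h1]
      field_simp
  rw [this]
  exact inHer_of_mul _ _

theorem inHer_self (hx : 0 ≤ x) : InHer x x := by
  intro ε hε
  have hsa : IsSelfAdjoint x := hx.isSelfAdjoint
  have hcont : Continuous fun t : ℝ => 1 / max t ε := by
    refine Continuous.div (by fun_prop) (by fun_prop) fun t => ?_
    exact ne_of_gt (lt_of_lt_of_le hε (le_max_right _ _))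
  refine ⟨cfc (fun t : ℝ => 1 / max t ε) x, ?_⟩
  rw [COA_cfc_sandwich hx hcont]
  have h1 : x - cfc (fun t : ℝ => t * (1 / max t ε) * t) x
      = cfc (fun t : ℝ => t - t * (1 / max t ε) * t) x := by
    rw [cfc_sub (fun t : ℝ => t) (fun t : ℝ => t * (1 / max t ε) * t) x (by fun_prop)
      (by fun_prop), cfc_id' ℝ x]
  rw [h1]
  refine norm_cfc_le hε.le fun t ht => ?_
  have ht0 : 0 ≤ t := spectrum_nonneg_of_nonneg hx ht
  rw [Real.norm_eq_abs, abs_le]
  rcases le_total t ε with h | h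
  · have e2 : max t ε = ε := max_eq_right h
    simp only [e2]
    have h3 : t * (1 / ε) * t ≤ t := by
      have : t / ε ≤ 1 := by rw [div_le_one hε]; exact h
      calc t * (1 / ε) * t = (t / ε) * t := by ring
        _ ≤ 1 * t := mul_le_mul_of_nonneg_right this ht0
        _ = t := one_mul t
    have h4 : 0 ≤ t * (1 / ε) * t := by positivity
    constructor <;> linarith
  · have e2 : max t ε = t := max_eq_left h
    have h2 : t ≠ 0 := by linarith
    have h3 : t - t * (1 / t) * t = 0 := by field_simp; ring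
    simp only [e2, h3]
    constructor <;> linarith

theorem inIdeal_of_le {a b : B} (ha : 0 ≤ a) (hab : a ≤ b) : InIdeal b a := by
  intro ε hε
  obtain ⟨r, hr⟩ := cop_of_le ha hab ε hε
  refine ⟨1, fun _ => star (r 0), fun _ => r 0, ?_⟩
  have := hr 0 0
  rw [if_pos rfl] at this
  rw [Fin.sum_univ_one, ← norm_neg, neg_sub]
  exact this

theorem mem_of_le (hJ : IsIdl J) {a b : B} (ha : 0 ≤ a) (hab : a ≤ b) (hb : b ∈ J) : a ∈ J :=
  inIdeal_of_idl hJ hb (inIdeal_of_le ha hab)

private lemma COA_map_nonneg {Q : Type*} [CStarAlgebra Q] [PartialOrder Q] [StarOrderedRing Q]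
    (π : B →⋆ₐ[ℂ] Q) {a : B} (ha : 0 ≤ a) : 0 ≤ π a := by
  obtain ⟨s, hs⟩ := CStarAlgebra.nonneg_iff_eq_star_mul_self.mp ha
  rw [hs, map_mul, map_star]
  exact star_mul_self_nonneg _

theorem pp_mem_of_dist (hJ : IsIdl J) {p j : B} (hp : 0 ≤ p) (hj : j ∈ J) {ε : ℝ} (hε : 0 ≤ ε)
    (h : ‖p - j‖ ≤ ε) : pp p ε ∈ J := by
  obtain ⟨Q, instQ, π, hπs, hπ0, hπn⟩ := exists_quotient _ hJ
  let _ : PartialOrder Q := CStarAlgebra.spectralOrder _
  have _ : StarOrderedRing Q := CStarAlgebra.spectralOrderedRing _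
  rw [← hπ0, map_pp π hp.isSelfAdjoint, pp_eq_zero_iff (COA_map_nonneg π hp) hε]
  have h1 : π p = π (p - j) := by rw [map_sub, (hπ0 j).mpr hj, sub_zero]
  rw [h1]
  exact (NonUnitalStarAlgHom.norm_apply_le π _).trans h

theorem pp_mem_of_le (hJ : IsIdl J) {a b : B} (ha : 0 ≤ a) (hab : a ≤ b) {δ : ℝ} (hδ : 0 ≤ δ)
    (hb : pp b δ ∈ J) : pp a δ ∈ J := by
  obtain ⟨Q, instQ, π, hπs, hπ0, hπn⟩ := exists_quotient _ hJ
  let _ : PartialOrder Q := CStarAlgebra.spectralOrder _
  have _ : StarOrderedRing Q := CStarAlgebra.spectralOrderedRing _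
  have hb0 : 0 ≤ b := ha.trans hab
  have hπa := COA_map_nonneg π ha
  have hπb := COA_map_nonneg π hb0
  have hle : π a ≤ π b := by
    have := COA_map_nonneg π (sub_nonneg.mpr hab)
    rw [map_sub] at this
    exact sub_nonneg.mp this
  rw [← hπ0, map_pp π ha.isSelfAdjoint, pp_eq_zero_iff hπa hδ]
  rw [← hπ0, map_pp π hb0.isSelfAdjoint, pp_eq_zero_iff hπb hδ] at hb
  exact (CStarAlgebra.norm_le_norm_of_nonneg_of_le hπa hle).trans hb

end MUP
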