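import Pool.Agent.MUP.ISB
import Pool.Agent.MUP.BLA

/-!
MUP / COM.  Commutators of strict sums.

* `comm_sum_le`: `s m - m s` is the strict sum of `D_j m - m D_j` (`IsSum.mul_right`,
  `IsSum.mul_left`, `IsSum.sub`); use `IsSum.norm_le_tsum`.
* `sandwich_sum`: for a block sequence `D` with strict sum `s` and `y` with `‖y‖ ≤ 1`: the family
  `D_j y D_j` is supported by `D`, norms `≤ 1`, has a strict sum `t`; if `0 ≤ y` everything is
  selfadjoint.  `s s` is the strict sum of `D_j D_j` (`IsSum.mul`), `s s y` of `D_j D_j y`, and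
  `t - s s y` of `D_j (y D_j - D_j y)`, of norm `≤ ‖D_j y - y D_j‖ ≤ δ_j`.
-/

open Filter Topology

namespace MUP

variable {M : Type*} [CStarAlgebra M] {K : Set M} {u D : ℕ → M} {s : M}

theorem comm_sum_le (hK : MultPair K) (h : IsSum K D s) (m : M) {δ : ℕ → ℝ} (hδ : Summable δ)
    (hb : ∀ j, ‖D j * m - m * D j‖ ≤ δ j) : ‖s * m - m * s‖ ≤ ∑' j, δ j :=
  IsSum.norm_le_tsum hK ((h.mul_right hK m).sub (h.mul_left hK m)) hδ hb

theorem sandwich_sum (hK : MultPair K) (hu : Frame K u) (hD : BSeq u D) (h : IsSum K D s)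
    {y : M} (hy : IsSelfAdjoint y) (hy1 : ‖y‖ ≤ 1) {δ : ℕ → ℝ} (hδ : Summable δ)
    (hb : ∀ j, ‖D j * y - y * D j‖ ≤ δ j) :
    ∃ t, IsSum K (fun j => D j * y * D j) t ∧ IsSelfAdjoint t ∧ ‖t‖ ≤ 1 ∧
      ‖t - s * s * y‖ ≤ ∑' j, δ j := by
  have hn : ∀ j, ‖D j‖ ≤ 1 := fun j => hD.nm hu j
  have hof : OFam K u (fun j => D j * y * D j) 1 := by
    refine OFam.of_supp hK hu hD (fun j => ?_) (fun j => ⟨y * D j, mul_assoc _ _ _⟩)
      (fun j => ⟨D j * y, rfl⟩)
    calc ‖D j * y * D j‖ ≤ ‖D j‖ * ‖y‖ * ‖D j‖ :=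
          (norm_mul_le _ _).trans (mul_le_mul_of_nonneg_right (norm_mul_le _ _) (norm_nonneg _))
      _ ≤ 1 * 1 * 1 := by
          refine mul_le_mul ?_ (hn j) (norm_nonneg _) (by norm_num)
          exact mul_le_mul (hn j) hy1 (norm_nonneg _) zero_le_one
      _ = 1 := by norm_num
  obtain ⟨t, ht, htn⟩ := hof.exists_sum hK hu
  have hbs := OFam.of_bseq hK hu hD
  refine ⟨t, ht, ht.sa hK fun j => ?_, htn, ?_⟩
  · have h1 : star (D j) = D j := (hD.sa hu j).star_eq
    change star (D j * y * D j) = D j * y * D j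
    rw [star_mul, star_mul, h1, hy.star_eq, mul_assoc]
  · have h1 : IsSum K (fun j => D j * D j) (s * s) :=
      IsSum.mul hK h h (C := 1) (D := 1) (fun N => hbs.partial_le _) (fun N => hbs.partial_le _)
        fun i j hij => hD.orth hu hij
    have h2 := ht.sub (h1.mul_right hK y)
    refine IsSum.norm_le_tsum hK h2 hδ fun j => ?_
    have e : D j * y * D j - D j * D j * y = D j * (y * D j - D j * y) := by noncomm_ring
    change ‖D j * y * D j - D j * D j * y‖ ≤ δ j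
    rw [e]
    calc _ ≤ ‖D j‖ * ‖y * D j - D j * y‖ := norm_mul_le _ _
      _ ≤ 1 * ‖y * D j - D j * y‖ := mul_le_mul_of_nonneg_right (hn j) (norm_nonneg _)
      _ = ‖D j * y - y * D j‖ := by rw [one_mul, norm_sub_rev]
      _ ≤ δ j := hb j

end MUP
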