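import Pool.Agent.MUP.CFM

/-!
MUP / CZI.  The ideal `c_0(M)` of the C*-algebra `ℓ^∞(M) = (ℕ →ᵇ M)` of bounded sequences.

`ℕ →ᵇ M` (`BoundedContinuousFunction`, `ℕ` discrete) is a unital C*-algebra (instance in
`Mathlib/Analysis/CStarAlgebra/ContinuousMap.lean`).

* `isIdl_c0`: the sequences with `‖x n‖ → 0` form a closed two-sided ideal
  (`‖(m x) n‖ ≤ ‖m‖ ‖x n‖`; closed: `3ε`).
* `evalHom n` : evaluation at `n` is a star homomorphism.
* `mkb`: a bounded sequence as an element of `ℕ →ᵇ M`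
  (`BoundedContinuousFunction.ofNormedAddCommGroupDiscrete`), together with its norm bound.
* `cst`: the constant sequences, a star homomorphism `M → ℕ →ᵇ M`.
-/

open Filter Topology BoundedContinuousFunction

namespace MUP

variable {M : Type*} [CStarAlgebra M]

private theorem CZI_squeeze {f g : ℕ → ℝ} (C : ℝ) (hg : Tendsto g atTop (𝓝 0))
    (h0 : ∀ n, 0 ≤ f n) (h : ∀ n, f n ≤ C * g n) : Tendsto f atTop (𝓝 0) := by
  have h1 : Tendsto (fun n => C * g n) atTop (𝓝 0) := by
    have := hg.const_mul C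
    rwa [mul_zero] at this
  exact squeeze_zero h0 h h1

theorem isIdl_c0 :
    IsIdl {x : ℕ →ᵇ M | Tendsto (fun n => ‖x n‖) atTop (𝓝 0)} where
  zero_mem := by
    change Tendsto (fun n => ‖(0 : ℕ →ᵇ M) n‖) atTop (𝓝 0)
    have h : (fun n => ‖(0 : ℕ →ᵇ M) n‖) = fun _ => (0 : ℝ) := by
      funext n
      rw [BoundedContinuousFunction.coe_zero, Pi.zero_apply, norm_zero]
    rw [h]
    exact tendsto_const_nhds
  add_mem x hx y hy := by
    change Tendsto (fun n => ‖(x + y) n‖) atTop (𝓝 0)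
    have hx' : Tendsto (fun n => ‖x n‖) atTop (𝓝 0) := hx
    have hy' : Tendsto (fun n => ‖y n‖) atTop (𝓝 0) := hy
    have h1 : Tendsto (fun n => ‖x n‖ + ‖y n‖) atTop (𝓝 0) := by
      have := hx'.add hy'
      rwa [add_zero] at this
    exact squeeze_zero (fun n => norm_nonneg _) (fun n => norm_add_le (x n) (y n)) h1
  mul_left m x hx := by
    change Tendsto (fun n => ‖(m * x) n‖) atTop (𝓝 0)
    refine CZI_squeeze ‖m‖ hx (fun n => norm_nonneg _) fun n => ?_
    exact (norm_mul_le (m n) (x n)).trans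
      (mul_le_mul_of_nonneg_right (m.norm_coe_le_norm n) (norm_nonneg _))
  mul_right m x hx := by
    change Tendsto (fun n => ‖(x * m) n‖) atTop (𝓝 0)
    refine CZI_squeeze ‖m‖ hx (fun n => norm_nonneg _) fun n => ?_
    refine (norm_mul_le (x n) (m n)).trans ?_
    rw [mul_comm]
    exact mul_le_mul_of_nonneg_right (m.norm_coe_le_norm n) (norm_nonneg _)
  closed := by
    refine isClosed_of_closure_subset fun x hx => ?_
    rw [Metric.mem_closure_iff] at hx
    change Tendsto (fun n => ‖x n‖) atTop (𝓝 0)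
    rw [Metric.tendsto_atTop]
    intro ε hε
    obtain ⟨y, hy, hxy⟩ := hx (ε / 2) (half_pos hε)
    have hy' : Tendsto (fun n => ‖y n‖) atTop (𝓝 0) := hy
    rw [Metric.tendsto_atTop] at hy'
    obtain ⟨N, hN⟩ := hy' (ε / 2) (half_pos hε)
    refine ⟨N, fun n hn => ?_⟩
    have h1 := hN n hn
    rw [Real.dist_eq, sub_zero, abs_of_nonneg (norm_nonneg _)] at h1 ⊢
    have h2 : ‖x n - y n‖ ≤ ‖x - y‖ := (x - y).norm_coe_le_norm n
    rw [dist_eq_norm] at hxy
    have h3 : ‖x n‖ ≤ ‖x n - y n‖ + ‖y n‖ := by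
      have := norm_add_le (x n - y n) (y n)
      rwa [sub_add_cancel] at this
    linarith

/-- evaluation at `n` -/
noncomputable def evalHom (n : ℕ) : (ℕ →ᵇ M) →⋆ₐ[ℂ] M where
  toFun x := x n
  map_one' := by rfl
  map_mul' := by intro x y; rfl
  map_zero' := by rfl
  map_add' := by intro x y; rfl
  commutes' := by intro r; rfl
  map_star' := by intro x; rfl

theorem evalHom_apply (n : ℕ) (x : ℕ →ᵇ M) : evalHom n x = x n := rfl

theorem exists_bdd (x : ℕ → M) (C : ℝ) (hC : 0 ≤ C) (h : ∀ n, ‖x n‖ ≤ C) :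
    ∃ X : ℕ →ᵇ M, (∀ n, X n = x n) ∧ ‖X‖ ≤ C :=
  ⟨BoundedContinuousFunction.ofNormedAddCommGroup x continuous_of_discreteTopology C h,
    fun _ => rfl, BoundedContinuousFunction.norm_ofNormedAddCommGroup_le
      continuous_of_discreteTopology hC h⟩

/-- constant sequences -/
noncomputable def cst : M →⋆ₐ[ℂ] (ℕ →ᵇ M) where
  toFun x := BoundedContinuousFunction.const ℕ x
  map_one' := by rfl
  map_mul' := by intro x y; ext n; rfl
  map_zero' := by ext n; rfl
  map_add' := by intro x y; ext n; rfl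
  commutes' := by intro r; ext n; rfl
  map_star' := by intro x; ext n; rfl

theorem cst_apply (x : M) (n : ℕ) : cst x n = x := rfl

/-- elements of norm `≤ C` at every place -/
theorem norm_le_of_forall {X : ℕ →ᵇ M} {C : ℝ} (hC : 0 ≤ C) (h : ∀ n, ‖X n‖ ≤ C) : ‖X‖ ≤ C :=
  (BoundedContinuousFunction.norm_le hC).2 h

end MUP
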