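import Pool.Agent.MUP.BLB

/-!
MUP / DEL.  Bookkeeping for the commutators of the blocks.

Given `τ > 0` and positive numbers `δ' j` there is a positive sequence `δ` such that every frame
`u` and every `x` with `‖u m x - x u m‖ ≤ δ m` for all `m` satisfy
 * `‖D_j x - x D_j‖ ≤ τ 2^{-(j+1)}` for all `j` and each of the sequences
   `D = Nb u, FAb u, Feb u, vb u, Pb u, Gb u, F1b u`, and
 * `2 ‖E_j x - x E_j‖ ≤ δ' j` for `E = Eb u`.

Proof.  `δ m = min (τ 2^{-(m+2)}) (min_{j ≤ m} δ' j / 4)` (a minimum over a finite set of positive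
numbers).  Each `D_j = u q - u p` with `q ≥ j`, `p ≥ j` (truncated subtraction: for `j = 0` also
fine), so the commutator is at most `δ p + δ q ≤ 2 τ 2^{-(j+2)}` (`blk_comm_le`), and for `E_j`:
`δ p + δ q ≤ 2 * δ' j / 4` because `j ≤ p` and `j ≤ q` (`j ≤ 40 j - 19` for `j ≥ 1` and
`0 ≤ 0`).
-/

open Filter Topology

namespace MUP

private theorem del_seq {τ : ℝ} (hτ : 0 < τ) {δ' : ℕ → ℝ} (hδ' : ∀ j, 0 < δ' j) :
    ∃ δ : ℕ → ℝ, (∀ m, 0 < δ m) ∧ (∀ j m, j ≤ m → δ m ≤ τ * (1 / 2) ^ (j + 2)) ∧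
      ∀ j m, j ≤ m → δ m ≤ δ' j / 4 := by
  refine ⟨fun m => min (τ * (1 / 2) ^ (m + 2))
    ((Finset.range (m + 1)).inf' Finset.nonempty_range_add_one (fun j => δ' j / 4)), ?_, ?_, ?_⟩
  · intro m
    refine lt_min (by positivity) ?_
    rw [Finset.lt_inf'_iff]
    intro j _
    have := hδ' j
    positivity
  · intro j m h
    refine (min_le_left _ _).trans ?_
    refine mul_le_mul_of_nonneg_left ?_ hτ.le
    exact pow_le_pow_of_le_one (by norm_num) (by norm_num) (by omega)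
  · intro j m h
    refine (min_le_right _ _).trans ?_
    exact Finset.inf'_le _ (Finset.mem_range.mpr (by omega))

variable (M : Type*) [CStarAlgebra M]

theorem exists_delta {τ : ℝ} (hτ : 0 < τ) {δ' : ℕ → ℝ} (hδ' : ∀ j, 0 < δ' j) :
    ∃ δ : ℕ → ℝ, (∀ m, 0 < δ m) ∧ ∀ (u : ℕ → M) (x : M),
      (∀ m, ‖u m * x - x * u m‖ ≤ δ m) →
        (∀ D ∈ ({Nb u, FAb u, Feb u, vb u, Pb u, Gb u, F1b u} : Set (ℕ → M)),
          ∀ j, ‖D j * x - x * D j‖ ≤ τ * (1 / 2) ^ (j + 1)) ∧
        ∀ j, 2 * ‖Eb u j * x - x * Eb u j‖ ≤ δ' j := by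
  obtain ⟨δ, h0, h1, h2⟩ := del_seq hτ hδ'
  refine ⟨δ, h0, fun u x hx => ⟨?_, ?_⟩⟩
  · have key : ∀ p q j : ℕ, j ≤ p → j ≤ q →
        ‖blk u p q * x - x * blk u p q‖ ≤ τ * (1 / 2) ^ (j + 1) := by
      intro p q j hp hq
      have h := blk_comm_le u p q x (hx p) (hx q)
      have h3 := h1 j p hp
      have h4 := h1 j q hq
      calc ‖blk u p q * x - x * blk u p q‖ ≤ δ p + δ q := h
        _ ≤ τ * (1 / 2) ^ (j + 2) + τ * (1 / 2) ^ (j + 2) := add_le_add h3 h4
        _ = τ * (1 / 2) ^ (j + 1) := by ring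
    intro D hD j
    simp only [Set.mem_insert_iff, Set.mem_singleton_iff] at hD
    rcases hD with h | h | h | h | h | h | h <;> subst h
    · exact key _ _ j (by omega) (by omega)
    · exact key _ _ j (by omega) (by omega)
    · exact key _ _ j (by omega) (by omega)
    · exact key _ _ j (by omega) (by omega)
    · exact key _ _ j (by omega) (by omega)
    · exact key _ _ j (by omega) (by omega)
    · exact key _ _ j (by omega) (by omega)
  · intro j
    have h := blk_comm_le u (40 * j - 19) (40 * j + 20) x (hx _) (hx _)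
    have h3 := h2 j (40 * j - 19) (by omega)
    have h4 := h2 j (40 * j + 20) (by omega)
    have h5 : Eb u j = blk u (40 * j - 19) (40 * j + 20) := rfl
    rw [h5]
    linarith

end MUP
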