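import Mathlib

/-!
Project MUP (problem MP_d531b0_an): multiplier algebras of sigma-unital purely infinite
C*-algebras.  Base definitions.  See the blueprint in the headers of the modules.
-/

open Filter Topology

namespace MUP

section General

variable {B : Type*}

/-- Positive elements of a C*-algebra: the elements of the form `c^* c`. -/
def IsPos [NonUnitalCStarAlgebra B] (b : B) : Prop := ∃ c : B, b = star c * c

/-- The diagonal matrix in `M_k(B)` with `m` diagonal entries equal to `a` and the remaining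
entries equal to `0`. -/
def ampl [NonUnitalCStarAlgebra B] (m k : ℕ) (a : B) : Matrix (Fin k) (Fin k) B :=
  Matrix.diagonal fun i : Fin k => if (i : ℕ) < m then a else 0

/-- Cuntz subequivalence in `M_k(B)`: there is a sequence `x_n` in `M_k(B)` with
`x_n b x_n^* → a`.  Convergence in the C*-norm of `M_k(B)` is the same as convergence of all
`k^2` entries in `B`. -/
def CuntzLE [NonUnitalCStarAlgebra B] {k : ℕ} (a b : Matrix (Fin k) (Fin k) B) : Prop :=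
  ∃ x : ℕ → Matrix (Fin k) (Fin k) B,
    ∀ i j, Tendsto (fun n => (x n * b * (x n).conjTranspose) i j) atTop (𝓝 (a i j))

/-- Cuntz equivalence in `M_k(B)`. -/
def CuntzEq [NonUnitalCStarAlgebra B] {k : ℕ} (a b : Matrix (Fin k) (Fin k) B) : Prop :=
  CuntzLE a b ∧ CuntzLE b a

/-- `a ⊕ 0 ∼ a ⊕ a` in `M_2(B)`. -/
def PropInf [NonUnitalCStarAlgebra B] (a : B) : Prop := CuntzEq (ampl 1 2 a) (ampl 2 2 a)

/-- Purely infinite C*-algebras: `a ⊕ 0 ∼ a ⊕ a` in `M_2(B)` for every positive `a`. -/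
def PurelyInfinite (B : Type*) [NonUnitalCStarAlgebra B] : Prop := ∀ a : B, IsPos a → PropInf a

/-- Sigma-unital C*-algebras: there is a countable approximate unit. -/
def SigmaUnital (B : Type*) [NonUnitalCStarAlgebra B] : Prop :=
  ∃ e : ℕ → B, (∀ n, IsPos (e n) ∧ ‖e n‖ ≤ 1) ∧
    ∀ b : B, Tendsto (fun n => e n * b) atTop (𝓝 b) ∧ Tendsto (fun n => b * e n) atTop (𝓝 b)

end General

section Unital

variable {B : Type*} [CStarAlgebra B]

/-- `n` orthogonal copies of `p` under `q`, up to arbitrarily small error.  For `n = 1` this is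
Cuntz subequivalence of `p` and `q` in `B`. -/
def Cop (n : ℕ) (p q : B) : Prop :=
  ∀ ε : ℝ, 0 < ε → ∃ r : Fin n → B,
    ∀ i j, ‖star (r i) * q * r j - (if i = j then p else 0)‖ ≤ ε

/-- `y` lies in the closed two-sided ideal generated by `z`. -/
def InIdeal (z y : B) : Prop :=
  ∀ ε : ℝ, 0 < ε → ∃ (n : ℕ) (c d : Fin n → B), ‖y - ∑ i, c i * z * d i‖ ≤ ε

/-- `y` lies in the closure of (the two-sided ideal generated by `z`) + `K`. -/
def InIdealK (K : Set B) (z y : B) : Prop :=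
  ∀ ε : ℝ, 0 < ε → ∃ (n : ℕ) (c d : Fin n → B), ∃ a ∈ K, ‖y - ∑ i, c i * z * d i - a‖ ≤ ε

/-- `z` lies in the hereditary subalgebra `closure (x B x)` (for `z, x` positive). -/
def InHer (x z : B) : Prop := ∀ ε : ℝ, 0 < ε → ∃ m : B, ‖z - x * m * x‖ ≤ ε

/-- `(x - t)_+`. -/
noncomputable def pp (x : B) (t : ℝ) : B := cfc (fun s : ℝ => max (s - t) 0) x

/-- `min (x / c, 1)`. -/
noncomputable def rmp (c : ℝ) (x : B) : B := cfc (fun s : ℝ => min (s / c) 1) x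

/-- Closed two-sided ideals of a unital C*-algebra, as sets. -/
structure IsIdl (J : Set B) : Prop where
  zero_mem : (0 : B) ∈ J
  add_mem : ∀ x ∈ J, ∀ y ∈ J, x + y ∈ J
  mul_left : ∀ m : B, ∀ x ∈ J, m * x ∈ J
  mul_right : ∀ m : B, ∀ x ∈ J, x * m ∈ J
  closed : IsClosed J

/-- The relations between the seven position elements. -/
structure PosRel (n FA Fe v P G F1 : B) : Prop where
  sa_n : IsSelfAdjoint n
  sa_FA : IsSelfAdjoint FA
  sa_Fe : IsSelfAdjoint Fe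
  sa_v : IsSelfAdjoint v
  sa_P : IsSelfAdjoint P
  sa_G : IsSelfAdjoint G
  sa_F1 : IsSelfAdjoint F1
  nm_n : ‖n‖ ≤ 1
  nm_FA : ‖FA‖ ≤ 1
  nm_Fe : ‖Fe‖ ≤ 1
  nm_v : ‖v‖ ≤ 1
  nm_P : ‖P‖ ≤ 1
  nm_G : ‖G‖ ≤ 1
  nm_F1 : ‖F1‖ ≤ 1
  n_v : n * v = 0
  n_P : n * P = 0
  v_P : v * P = P
  FA_n : FA * n = FA
  F1_G : F1 * G = F1
  Fe_FA : Fe * FA = Fe
  sum : P + F1 + Fe = 1

/-- The element `g = α + (Z Z^* - 1/4)_+`. -/
noncomputable def gel (α Z : B) : B := α + pp (Z * star Z) (1 / 4)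

/-- Copies with a bound on the norms of the implementing elements. -/
def BCop (a : B) : Prop :=
  ∀ (K : ℕ) (η : ℝ), 0 < η → η < 1 → ∃ r : Fin K → B,
    (∀ i j, ‖star (r i) * a * r j - (if i = j then a else 0)‖ ≤ η) ∧ ∀ i, ‖r i‖ ≤ 4 / η

/-- Data of one stage: position elements which commute up to `τ` with the elements of `F` (and
almost kill the elements of `A'`), and wall copies. -/
structure Stage (y : B) (F A' : Set B) (τ : ℝ) where
  n : B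
  FA : B
  Fe : B
  v : B
  P : B
  G : B
  F1 : B
  α : B
  β : B
  γ : B
  Z1 : B
  Z2 : B
  b : B
  rel : PosRel n FA Fe v P G F1
  comm : ∀ m ∈ F, ∀ D ∈ ({n, FA, Fe, v, P, G, F1} : Set B), ‖D * m - m * D‖ ≤ τ
  kill : ∀ a ∈ A', ‖FA * a‖ ≤ τ ∧ ‖F1 * a‖ ≤ τ
  sa_α : IsSelfAdjoint α
  sa_β : IsSelfAdjoint β
  sa_γ : IsSelfAdjoint γ
  nm_α : ‖α‖ ≤ 1
  nm_β : ‖β‖ ≤ 1
  nm_γ : ‖γ‖ ≤ 1
  hα : ‖α - n * n * y‖ ≤ τ
  hβ : ‖β - v * v * y‖ ≤ τ
  hγ : ‖γ - G * G * y‖ ≤ τ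
  Z11 : ‖star Z1 * Z1 - γ‖ ≤ 1 / 20
  Z22 : ‖star Z2 * Z2 - γ‖ ≤ 1 / 20
  Z12 : ‖star Z1 * Z2‖ ≤ 1 / 20
  qZ1 : rmp (1 / 40) γ * Z1 = Z1
  qZ2 : rmp (1 / 40) γ * Z2 = Z2
  sa_b : IsSelfAdjoint b
  nm_b : ‖b‖ ≤ 1
  hb : ‖b - (1 - rmp (1 / 4) (gel α Z1)) * β * (1 - rmp (1 / 4) (gel α Z1))‖ ≤ τ
  copa : BCop (pp (gel α Z1) (1 / 4))
  copb : BCop b

end Unital

section Pair

variable {M : Type*} [CStarAlgebra M]

/-- `K` is a closed two-sided ideal of `M` and `M` behaves like the multiplier algebra of `K`. -/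
structure MultPair (K : Set M) : Prop where
  idl : IsIdl K
  star_mem : ∀ x ∈ K, star x ∈ K
  nrm : ∀ (m : M) (C : ℝ), 0 ≤ C → (∀ a ∈ K, ‖m * a‖ ≤ C * ‖a‖) → ‖m‖ ≤ C
  strict : ∀ (S : ℕ → M) (C : ℝ), (∀ N, ‖S N‖ ≤ C) → (∀ a ∈ K, CauchySeq fun N => S N * a) →
    (∀ a ∈ K, CauchySeq fun N => a * S N) →
    ∃ s : M, (∀ a ∈ K, Tendsto (fun N => S N * a) atTop (𝓝 (s * a))) ∧
      ∀ a ∈ K, Tendsto (fun N => a * S N) atTop (𝓝 (a * s))

/-- `s` is the strict sum of the `x j`. -/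
def IsSum (K : Set M) (x : ℕ → M) (s : M) : Prop :=
  (∀ a ∈ K, Tendsto (fun N => (∑ j ∈ Finset.range N, x j) * a) atTop (𝓝 (s * a))) ∧
  (∀ a ∈ K, Tendsto (fun N => a * ∑ j ∈ Finset.range N, x j) atTop (𝓝 (a * s)))

/-- A frame: a sequential approximate unit of `K` with `u (m+1) * u m = u m`.  The two norm
conditions say that `u m` is a positive contraction. -/
structure Frame (K : Set M) (u : ℕ → M) : Prop where
  mem : ∀ m, u m ∈ K
  sa : ∀ m, IsSelfAdjoint (u m)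
  nm : ∀ m, ‖u m‖ ≤ 1
  nm1 : ∀ m, ‖1 - u m‖ ≤ 1
  zero : u 0 = 0
  step : ∀ m, u (m + 1) * u m = u m
  conv : ∀ a ∈ K, Tendsto (fun m => u m * a) atTop (𝓝 a)

/-- The block `U_q - U_p`. -/
def blk (u : ℕ → M) (p q : ℕ) : M := u q - u p

/-- A sequence of consecutive disjoint blocks. -/
def BSeq (u : ℕ → M) (D : ℕ → M) : Prop :=
  ∃ p q : ℕ → ℕ, (∀ j, p j ≤ q j) ∧ (∀ j, q j < p (j + 1)) ∧ ∀ j, D j = blk u (p j) (q j)

/-- Bounded, localised, pairwise orthogonal families in `K`. -/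
structure OFam (K : Set M) (u : ℕ → M) (x : ℕ → M) (C : ℝ) : Prop where
  mem : ∀ j, x j ∈ K
  bd : ∀ j, ‖x j‖ ≤ C
  o1 : ∀ i j, i ≠ j → star (x i) * x j = 0
  o2 : ∀ i j, i ≠ j → x i * star (x j) = 0
  loc : ∀ l, ∀ᶠ j in atTop, x j * u l = 0 ∧ u l * x j = 0

/-- The positions. -/
def Nb (u : ℕ → M) (j : ℕ) : M := blk u (40 * j + 11) (40 * j + 30)
/-- position -/
def FAb (u : ℕ → M) (j : ℕ) : M := blk u (40 * j + 12) (40 * j + 29)
/-- position -/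
def Feb (u : ℕ → M) (j : ℕ) : M := blk u (40 * j + 18) (40 * j + 23)
/-- position -/
def vb (u : ℕ → M) (j : ℕ) : M := blk u (40 * j - 8) (40 * j + 9)
/-- position -/
def Pb (u : ℕ → M) (j : ℕ) : M := blk u (40 * j - 2) (40 * j + 3)
/-- position -/
def Eb (u : ℕ → M) (j : ℕ) : M := blk u (40 * j - 19) (40 * j + 20)
/-- position -/
def Gb (u : ℕ → M) (k : ℕ) : M := blk u (20 * k + 2) (20 * k + 19)
/-- position -/
def F1b (u : ℕ → M) (k : ℕ) : M := blk u (20 * k + 3) (20 * k + 18)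
/-- wide block -/
def Rb (u : ℕ → M) (j : ℕ) : M := blk u (40 * j + 1) (40 * j + 40)

end Pair

end MUP
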