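import Pool.Agent.MUP.GWS

/-!
MUP / ECM.  Commutators of `E_j = Eb u j` with `g = gel α Z`.

`‖E_j g - g E_j‖ ≤ 2 ‖E_j y - y E_j‖`.

Proof.  `g = α + w`, `w = pp (Z Z^*) (1/4)` the strict sum of `w_k = G_k s = t G_k` (`w_sum`).
`E_j w_k = w_k` or `0` and `w_k E_j = w_k` or `0` in the same cases (`Eb_Gb`, adjoint or
`blk_comm`), so `E_j w = w E_j` (`IsSum.mul_left`, `IsSum.mul_right`, `IsSum.unique`).
`E_j α - α E_j` is the strict sum of
`E_j N_i y N_i - N_i y N_i E_j = N_i (E_j y - y E_j) N_i` (`E_j` commutes with `N_i`,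
`blk_comm`), and this is `0` unless `i = j` or `i + 1 = j` (`Eb_Nb`: `E_j N_i = 0 = N_i E_j`).
So it is a sum of at most two terms (`IsSum.of_eventually_zero`, `IsSum.unique`), each of norm at
most `‖E_j y - y E_j‖` (`blk_nm`).
-/

open Filter Topology

namespace MUP

variable {M : Type*} [CStarAlgebra M] [PartialOrder M] [StarOrderedRing M]
  {K : Set M} {u z : ℕ → M} {y α Z : M}

theorem comm_E_g (hK : MultPair K) (hu : Frame K u)
    (hα : IsSum K (fun j => Nb u j * y * Nb u j) α)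
    (hZ : IsSum K z Z) (hz : ∀ k, ‖z k‖ ≤ 2)
    (h1 : ∀ k, ∃ s, z k = Gb u k * s) (h2 : ∀ k, ∃ t, z k = t * Gb u k) (j : ℕ) :
    ‖Eb u j * gel α Z - gel α Z * Eb u j‖ ≤ 2 * ‖Eb u j * y - y * Eb u j‖ := by
  obtain ⟨hw, hw1, hw2⟩ := w_sum hK hu hZ hz h1 h2
  have hEw : Eb u j * pp (Z * star Z) (1 / 4) = pp (Z * star Z) (1 / 4) * Eb u j := by
    have e : ∀ k, Eb u j * pp (z k * star (z k)) (1 / 4) = pp (z k * star (z k)) (1 / 4) * Eb u j := by
      intro k
      obtain ⟨s, hs⟩ := hw1 k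
      obtain ⟨t, ht⟩ := hw2 k
      have hc : Eb u j * Gb u k = Gb u k * Eb u j := blk_comm hu _ _ _ _
      have e1 : Eb u j * pp (z k * star (z k)) (1 / 4) =
          if k = 2 * j ∨ k + 1 = 2 * j then pp (z k * star (z k)) (1 / 4) else 0 := by
        rw [hs, ← mul_assoc, Eb_Gb hu j k]
        split_ifs
        · rfl
        · rw [zero_mul]
      have e2 : pp (z k * star (z k)) (1 / 4) * Eb u j =
          if k = 2 * j ∨ k + 1 = 2 * j then pp (z k * star (z k)) (1 / 4) else 0 := by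
        rw [ht, mul_assoc, ← hc, Eb_Gb hu j k]
        split_ifs
        · rfl
        · rw [mul_zero]
      rw [e1, e2]
    have a1 := IsSum.mul_left hK hw (Eb u j)
    have a2 := IsSum.mul_right hK hw (Eb u j)
    exact IsSum.unique hK (IsSum.congr a1 e) a2
  have a1 := IsSum.mul_left hK hα (Eb u j)
  have a2 := IsSum.mul_right hK hα (Eb u j)
  have a3 := IsSum.sub a1 a2
  have hcN : ∀ i, Eb u j * Nb u i = Nb u i * Eb u j := fun i => blk_comm hu _ _ _ _
  have e3 : ∀ i, Eb u j * (Nb u i * y * Nb u i) - Nb u i * y * Nb u i * Eb u j =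
      Nb u i * (Eb u j * y - y * Eb u j) * Nb u i := by
    intro i
    have b1 : Eb u j * (Nb u i * y * Nb u i) = Nb u i * Eb u j * y * Nb u i := by
      rw [← hcN i]
      simp only [mul_assoc]
    have b2 : Nb u i * y * Nb u i * Eb u j = Nb u i * y * Eb u j * Nb u i := by
      rw [mul_assoc (Nb u i * y), ← hcN i]
      simp only [mul_assoc]
    rw [b1, b2]
    simp only [mul_sub, sub_mul, mul_assoc]
  have e4 : ∀ i, i ≠ j → i + 1 ≠ j → Nb u i * (Eb u j * y - y * Eb u j) * Nb u i = 0 := by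
    intro i hi hi'
    have c1 : Eb u j * Nb u i = 0 := Eb_Nb hu hi hi'
    have c2 : Nb u i * Eb u j = 0 := by rw [← hcN i]; exact c1
    have c3 : Nb u i * (Eb u j * y - y * Eb u j) * Nb u i =
        Nb u i * Eb u j * y * Nb u i - Nb u i * y * (Eb u j * Nb u i) := by
      simp only [mul_sub, sub_mul, mul_assoc]
    rw [c3, c1, c2]
    simp
  have a4 := IsSum.congr a3 e3
  have a5 : IsSum K (fun i => Nb u i * (Eb u j * y - y * Eb u j) * Nb u i)
      (∑ i ∈ Finset.range (j + 1), Nb u i * (Eb u j * y - y * Eb u j) * Nb u i) :=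
    IsSum.of_eventually_zero (n := j + 1) fun i hi => e4 i (by omega) (by omega)
  have e5 := IsSum.unique hK a4 a5
  have nb : ∀ i, ‖Nb u i * (Eb u j * y - y * Eb u j) * Nb u i‖ ≤ ‖Eb u j * y - y * Eb u j‖ := by
    intro i
    have hN : ‖Nb u i‖ ≤ 1 := blk_nm hu (by omega)
    calc ‖Nb u i * (Eb u j * y - y * Eb u j) * Nb u i‖
        ≤ ‖Nb u i * (Eb u j * y - y * Eb u j)‖ * ‖Nb u i‖ := norm_mul_le _ _
      _ ≤ ‖Nb u i * (Eb u j * y - y * Eb u j)‖ * 1 :=
          mul_le_mul_of_nonneg_left hN (norm_nonneg _)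
      _ ≤ (‖Nb u i‖ * ‖Eb u j * y - y * Eb u j‖) * 1 :=
          mul_le_mul_of_nonneg_right (norm_mul_le _ _) zero_le_one
      _ ≤ (1 * ‖Eb u j * y - y * Eb u j‖) * 1 :=
          mul_le_mul_of_nonneg_right (mul_le_mul_of_nonneg_right hN (norm_nonneg _)) zero_le_one
      _ = ‖Eb u j * y - y * Eb u j‖ := by ring
  have e6 : Eb u j * gel α Z - gel α Z * Eb u j =
      ∑ i ∈ Finset.range (j + 1), Nb u i * (Eb u j * y - y * Eb u j) * Nb u i := by
    rw [← e5]
    unfold gel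
    rw [mul_add, add_mul, hEw]
    abel
  rw [e6]
  have hpos : 0 ≤ ‖Eb u j * y - y * Eb u j‖ := norm_nonneg _
  rcases j with _ | k
  · rw [Finset.sum_range_one]
    have := nb 0
    linarith
  · rw [Finset.sum_range_succ, Finset.sum_range_succ, Finset.sum_eq_zero, zero_add]
    · have g1 := nb k
      have g2 := nb (k + 1)
      have g3 := norm_add_le (Nb u k * (Eb u (k + 1) * y - y * Eb u (k + 1)) * Nb u k)
        (Nb u (k + 1) * (Eb u (k + 1) * y - y * Eb u (k + 1)) * Nb u (k + 1))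
      linarith
    · intro i hi
      rw [Finset.mem_range] at hi
      exact e4 i (by omega) (by omega)

end MUP
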