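import Pool.Agent.MUP.BCO
import Pool.Agent.MUP.BLB

/-!
MUP / ESM.  The element `b`.

Data: `0 ≤ y`, `‖y‖ ≤ 1`, `f` selfadjoint with `‖1 - f‖ ≤ 1`, `β` the strict sum of
`v_j y v_j` (`v_j = vb u j`), and `‖E_j f - f E_j‖ ≤ δ_j` (`E_j = Eb u j`), `δ` summable.

Let `h = 1 - f`, `X_j = h v_j y v_j h ∈ K`, `b_j = E_j X_j E_j`.  Then `b_j ≥ 0`, `‖b_j‖ ≤ 1`,
`b_j` is supported by the block sequence `Eb u`; let `b` be its strict sum (`OFam.of_supp`,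
`OFam.exists_sum`): `b` is selfadjoint, `‖b‖ ≤ 1`, and `BCop b` by `bcop_sum`.
`h β h` is the strict sum of the `X_j` (`IsSum.mul_left`, `IsSum.mul_right`), so
`b - h β h` is the strict sum of `b_j - X_j` and
`‖b - h β h‖ ≤ ∑' ‖b_j - X_j‖`-type bound (`IsSum.norm_le_tsum`).  Let `A = h v_j`,
`A' = E_j A`.  Since `E_j v_j = v_j`:
`A' - A = E_j (1 - f) v_j - (1 - f) v_j = - E_j f v_j + f E_j v_j = - (E_j f - f E_j) v_j`, so
`‖A' - A‖ ≤ δ_j`, `‖A‖, ‖A'‖ ≤ 1`, and `b_j = A' y A'^*`, `X_j = A y A^*` give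
`‖b_j - X_j‖ ≤ ‖A' - A‖ ‖y‖ (‖A'‖ + ‖A‖) ≤ 2 δ_j`.
-/

open Filter Topology

namespace MUP

variable {M : Type*} [CStarAlgebra M] [PartialOrder M] [StarOrderedRing M]
  {K : Set M} {u : ℕ → M} {y f β : M}

private theorem ESM_nm {a b : M} (ha : ‖a‖ ≤ 1) (hb : ‖b‖ ≤ 1) : ‖a * b‖ ≤ 1 :=
  (norm_mul_le a b).trans (mul_le_one₀ ha (norm_nonneg b) hb)

private theorem ESM_nm2 {a b : M} {d : ℝ} (ha : ‖a‖ ≤ d) (hb : ‖b‖ ≤ 1) : ‖a * b‖ ≤ d := by
  refine (norm_mul_le a b).trans ?_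
  have h0 : 0 ≤ d := (norm_nonneg a).trans ha
  calc ‖a‖ * ‖b‖ ≤ d * 1 := mul_le_mul ha hb (norm_nonneg b) h0
    _ = d := mul_one d

private theorem ESM_nm3 {a b : M} {d : ℝ} (ha : ‖a‖ ≤ 1) (hb : ‖b‖ ≤ d) : ‖a * b‖ ≤ d := by
  refine (norm_mul_le a b).trans ?_
  have h0 : 0 ≤ d := (norm_nonneg b).trans hb
  calc ‖a‖ * ‖b‖ ≤ 1 * d := mul_le_mul ha hb (norm_nonneg b) zero_le_one
    _ = d := one_mul d

theorem exists_b (hK : MultPair K) (hu : Frame K u)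
    (hPI : ∀ c ∈ K, 0 ≤ c → ∀ n, Cop n c c) (hy : 0 ≤ y) (hy1 : ‖y‖ ≤ 1)
    (hf : IsSelfAdjoint f) (hf1 : ‖1 - f‖ ≤ 1)
    (hβ : IsSum K (fun j => vb u j * y * vb u j) β) {δ : ℕ → ℝ} (hδ : Summable δ)
    (hc : ∀ j, ‖Eb u j * f - f * Eb u j‖ ≤ δ j) :
    ∃ b : M, IsSelfAdjoint b ∧ ‖b‖ ≤ 1 ∧ BCop b ∧
      ‖b - (1 - f) * β * (1 - f)‖ ≤ 2 * ∑' j, δ j := by
  obtain ⟨h, hh⟩ : ∃ h : M, h = 1 - f := ⟨_, rfl⟩
  rw [← hh] at hf1 ⊢
  have hsa : star h = h := by rw [hh, star_sub, star_one, hf.star_eq]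
  have hE : BSeq u (Eb u) := bseq_Eb
  have hv : BSeq u (vb u) := bseq_vb
  have Esa : ∀ j, star (Eb u j) = Eb u j := fun j => (hE.sa hu j).star_eq
  have vsa : ∀ j, star (vb u j) = vb u j := fun j => (hv.sa hu j).star_eq
  have Enm : ∀ j, ‖Eb u j‖ ≤ 1 := fun j => hE.nm hu j
  have vnm : ∀ j, ‖vb u j‖ ≤ 1 := fun j => hv.nm hu j
  have Ev : ∀ j, Eb u j * vb u j = vb u j := fun j => by rw [Eb_vb hu, if_pos rfl]
  have hX : IsSum K (fun j => h * (vb u j * y * vb u j) * h) (h * β * h) :=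
    (hβ.mul_left hK h).mul_right hK h
  have hpos : ∀ j, 0 ≤ Eb u j * (h * (vb u j * y * vb u j) * h) * Eb u j := by
    intro j
    have e : Eb u j * (h * (vb u j * y * vb u j) * h) * Eb u j =
        star (vb u j * h * Eb u j) * y * (vb u j * h * Eb u j) := by
      rw [star_mul, star_mul, Esa, vsa, hsa]
      noncomm_ring
    rw [e]
    exact star_left_conjugate_nonneg hy _
  have hXn : ∀ j, ‖h * (vb u j * y * vb u j) * h‖ ≤ 1 := fun j =>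
    ESM_nm (ESM_nm hf1 (ESM_nm (ESM_nm (vnm j) hy1) (vnm j))) hf1
  have hbn : ∀ j, ‖Eb u j * (h * (vb u j * y * vb u j) * h) * Eb u j‖ ≤ 1 := fun j =>
    ESM_nm (ESM_nm (Enm j) (hXn j)) (Enm j)
  have hs1 : ∀ j, ∃ s, Eb u j * (h * (vb u j * y * vb u j) * h) * Eb u j = Eb u j * s :=
    fun j => ⟨_, mul_assoc _ _ _⟩
  have hs2 : ∀ j, ∃ t, Eb u j * (h * (vb u j * y * vb u j) * h) * Eb u j = t * Eb u j :=
    fun j => ⟨_, rfl⟩
  obtain ⟨b, hb, hb1⟩ := (OFam.of_supp hK hu hE hbn hs1 hs2).exists_sum hK hu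
  refine ⟨b, hb.sa hK fun j => IsSelfAdjoint.of_nonneg (hpos j), hb1,
    bcop_sum hK hu hE hPI hb (fun j => (hbn j).trans (by norm_num)) hpos hs1 hs2, ?_⟩
  have hd : ∀ j, ‖Eb u j * (h * (vb u j * y * vb u j) * h) * Eb u j -
      h * (vb u j * y * vb u j) * h‖ ≤ 2 * δ j := by
    intro j
    have e1 : Eb u j * h * vb u j - h * vb u j = -((Eb u j * f - f * Eb u j) * vb u j) := by
      rw [hh]
      have e2 := Ev j
      have e3 : -((Eb u j * f - f * Eb u j) * vb u j) =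
          -(Eb u j * f * vb u j) + f * (Eb u j * vb u j) := by noncomm_ring
      rw [e3, e2]
      have e4 : Eb u j * (1 - f) * vb u j - (1 - f) * vb u j =
          Eb u j * vb u j - Eb u j * f * vb u j - vb u j + f * vb u j := by noncomm_ring
      rw [e4, e2]
      abel
    have n1 : ‖Eb u j * h * vb u j - h * vb u j‖ ≤ δ j := by
      rw [e1, norm_neg]
      exact ESM_nm2 (hc j) (vnm j)
    have e5 : star (Eb u j * h * vb u j - h * vb u j) = vb u j * h * Eb u j - vb u j * h := by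
      rw [star_sub, star_mul, star_mul, star_mul, Esa, vsa, hsa]
      noncomm_ring
    have n2 : ‖vb u j * h * Eb u j - vb u j * h‖ ≤ δ j := by
      rw [← e5, norm_star]
      exact n1
    have e6 : Eb u j * (h * (vb u j * y * vb u j) * h) * Eb u j -
        h * (vb u j * y * vb u j) * h =
        (Eb u j * h * vb u j - h * vb u j) * (y * (vb u j * h * Eb u j)) +
          (h * vb u j * y) * (vb u j * h * Eb u j - vb u j * h) := by
      noncomm_ring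
    rw [e6]
    refine (norm_add_le _ _).trans ?_
    have n3 : ‖(Eb u j * h * vb u j - h * vb u j) * (y * (vb u j * h * Eb u j))‖ ≤ δ j :=
      ESM_nm2 n1 (ESM_nm hy1 (ESM_nm (ESM_nm (vnm j) hf1) (Enm j)))
    have n4 : ‖(h * vb u j * y) * (vb u j * h * Eb u j - vb u j * h)‖ ≤ δ j :=
      ESM_nm3 (ESM_nm (ESM_nm hf1 (vnm j)) hy1) n2
    linarith
  have hsub := hb.sub hX
  have hfin := hsub.norm_le_tsum hK (hδ.mul_left 2) hd
  rwa [tsum_mul_left] at hfin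

end MUP
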