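import Pool.Agent.MUP.FUN
import Pool.Agent.MUP.CZI

/-!
MUP / TRA.  From approximate stages in `M` to an exact stage in `ℓ^∞(M)/c_0(M)`.

Let `L = ℕ →ᵇ M`, let `π : L → C` be a star homomorphism with kernel `c_0(M)`.
Let `F, A' : ℕ → Finset M` be increasing and for every `k` let
`T k : Stage y (F k) (A' k) (1/(k+1))`.
Build the sequences `n, FA, Fe, v, P, G, F1, α, β, γ, b` (norms `≤ 1`), `Z1, Z2` (norms `≤ 2`:
`‖Z1‖^2 = ‖Z1^* Z1‖ ≤ ‖γ‖ + 1/20`), elements of `L` by `exists_bdd`, and take their images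
under `π`.  The images form a
`Stage (π (cst y)) {π (cst m) | m ∈ ⋃ F k} {π (cst a) | a ∈ ⋃ A' k} 0`:
 * exact relations hold at every place, so in `L` (`BoundedContinuousFunction.ext`), so in `C`;
   self-adjointness likewise; norms: `‖π X‖ ≤ ‖X‖` (star homomorphisms between C*-algebras are
   contractive: `NonUnitalStarAlgHom.norm_apply_le` / `StarAlgHom.norm_apply_le`-type lemma);
 * a sequence `X` with `‖X k‖ ≤ 1/(k+1)` for all large `k` is killed by `π`: this gives `comm`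
   (`m ∈ F k` for all large `k`, by monotonicity), `kill`, `hα`, `hβ`, `hγ`, `hb` with `τ = 0`;
 * functional calculus: `π (rmp c X) = rmp c (π X)`, `π (pp X t) = pp (π X) t` (`map_rmp`,
   `map_pp`), and `(rmp c X) k = rmp c (X k)`, `(pp X t) k = pp (X k) t` by the same lemmas for
   `evalHom k` (for selfadjoint `X`); hence `(gel α Z1) k = gel (α k) (Z1 k)` (`α` and
   `Z1 Z1^*` are selfadjoint, `pp_sa`);
 * `copa`, `copb`: given `K, η` choose the families at every place; they are bounded by `4/η`,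
   so they define elements of `L` (`exists_bdd`) whose error has norm `≤ η` (`norm_le_of_forall`);
   apply `π`.
-/

open Filter Topology BoundedContinuousFunction

namespace MUP

variable {M : Type*} [CStarAlgebra M]


private theorem TRA_nrm {C : Type*} [CStarAlgebra C] (π : (ℕ →ᵇ M) →⋆ₐ[ℂ] C) (X : ℕ →ᵇ M)
    {c : ℝ} (hc : 0 ≤ c) (h : ∀ n, ‖X n‖ ≤ c) : ‖π X‖ ≤ c :=
  (NonUnitalStarAlgHom.norm_apply_le π X).trans (norm_le_of_forall hc h)

private theorem TRA_null {C : Type*} [CStarAlgebra C] (π : (ℕ →ᵇ M) →⋆ₐ[ℂ] C)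
    (hπ : ∀ X : ℕ →ᵇ M, π X = 0 ↔ Tendsto (fun n => ‖X n‖) atTop (𝓝 0)) (X : ℕ →ᵇ M)
    {k0 : ℕ} (h : ∀ k, k0 ≤ k → ‖X k‖ ≤ 1 / ((k : ℝ) + 1)) : π X = 0 := by
  rw [hπ]
  refine squeeze_zero' (Eventually.of_forall fun n => norm_nonneg _) ?_
    tendsto_one_div_add_atTop_nhds_zero_nat
  filter_upwards [eventually_ge_atTop k0] with k hk
  exact h k hk

private theorem TRA_sa {C : Type*} [CStarAlgebra C] (π : (ℕ →ᵇ M) →⋆ₐ[ℂ] C) (X : ℕ →ᵇ M)
    (h : ∀ n, IsSelfAdjoint (X n)) : IsSelfAdjoint X ∧ IsSelfAdjoint (π X) := by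
  have h1 : IsSelfAdjoint X := by
    show star X = X
    ext n
    exact h n
  exact ⟨h1, h1.map π⟩

private theorem TRA_bcop {C : Type*} [CStarAlgebra C] (π : (ℕ →ᵇ M) →⋆ₐ[ℂ] C) (A : ℕ →ᵇ M)
    (h : ∀ k, BCop (A k)) : BCop (π A) := by
  intro K η hη hη1
  choose r hr1 hr2 using fun k => h k K η hη hη1
  have h4 : 0 ≤ 4 / η := by positivity
  choose R hR1 hR2 using fun i : Fin K => exists_bdd (fun k => r k i) (4 / η) h4 (fun k => hr2 k i)
  refine ⟨fun i => π (R i), fun i j => ?_, fun i => ?_⟩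
  · have e : star (π (R i)) * π A * π (R j) - (if i = j then π A else 0)
        = π (star (R i) * A * R j - (if i = j then A else 0)) := by
      rw [map_sub, map_mul, map_mul, map_star]
      congr 1
      split_ifs <;> simp
    rw [e]
    refine TRA_nrm π _ hη.le fun k => ?_
    have e2 : (star (R i) * A * R j - (if i = j then A else 0)) k
        = star (r k i) * A k * r k j - (if i = j then A k else 0) := by
      have hi := hR1 i k
      have hj := hR1 j k
      rw [← hi, ← hj]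
      split_ifs <;> rfl
    rw [e2]
    exact hr1 k i j
  · exact TRA_nrm π _ h4 fun k => by rw [hR1 i k]; exact hr2 k i

theorem trn_stage {C : Type*} [CStarAlgebra C] (π : (ℕ →ᵇ M) →⋆ₐ[ℂ] C)
    (hπ : ∀ X : ℕ →ᵇ M, π X = 0 ↔ Tendsto (fun n => ‖X n‖) atTop (𝓝 0))
    {y : M} (F A' : ℕ → Finset M) (hF : Monotone F) (hA : Monotone A')
    (T : ∀ k : ℕ, Nonempty (Stage y (↑(F k) : Set M) (↑(A' k) : Set M) (1 / ((k : ℝ) + 1)))) :
    Nonempty (Stage (π (cst y)) {x : C | ∃ k, ∃ m ∈ F k, x = π (cst m)}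
      {x : C | ∃ k, ∃ m ∈ A' k, x = π (cst m)} 0) := by
  let S : ∀ k : ℕ, Stage y (↑(F k) : Set M) (↑(A' k) : Set M) (1 / ((k : ℝ) + 1)) :=
    fun k => (T k).some
  have zn : ∀ (Z : M) (g : M), ‖g‖ ≤ 1 → ‖star Z * Z - g‖ ≤ 1 / 20 → ‖Z‖ ≤ 2 := by
    intro Z g hg h
    have h3 : ‖Z‖ * ‖Z‖ = ‖star Z * Z‖ := (CStarRing.norm_star_mul_self).symm
    have h4 : ‖star Z * Z‖ ≤ 1 / 20 + 1 := by
      calc ‖star Z * Z‖ = ‖(star Z * Z - g) + g‖ := by rw [sub_add_cancel]
        _ ≤ _ := (norm_add_le _ _).trans (add_le_add h hg)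
    nlinarith [norm_nonneg Z]
  have o1 : (0 : ℝ) ≤ 1 := zero_le_one
  have o2 : (0 : ℝ) ≤ 2 := by norm_num
  obtain ⟨N, hN, -⟩ := exists_bdd (fun k => (S k).n) 1 o1 (fun k => (S k).rel.nm_n)
  obtain ⟨FA, hFA, -⟩ := exists_bdd (fun k => (S k).FA) 1 o1 (fun k => (S k).rel.nm_FA)
  obtain ⟨Fe, hFe, -⟩ := exists_bdd (fun k => (S k).Fe) 1 o1 (fun k => (S k).rel.nm_Fe)
  obtain ⟨v, hv, -⟩ := exists_bdd (fun k => (S k).v) 1 o1 (fun k => (S k).rel.nm_v)
  obtain ⟨P, hP, -⟩ := exists_bdd (fun k => (S k).P) 1 o1 (fun k => (S k).rel.nm_P)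
  obtain ⟨G, hG, -⟩ := exists_bdd (fun k => (S k).G) 1 o1 (fun k => (S k).rel.nm_G)
  obtain ⟨F1, hF1, -⟩ := exists_bdd (fun k => (S k).F1) 1 o1 (fun k => (S k).rel.nm_F1)
  obtain ⟨α, hα, -⟩ := exists_bdd (fun k => (S k).α) 1 o1 (fun k => (S k).nm_α)
  obtain ⟨β, hβ, -⟩ := exists_bdd (fun k => (S k).β) 1 o1 (fun k => (S k).nm_β)
  obtain ⟨γ, hγ, -⟩ := exists_bdd (fun k => (S k).γ) 1 o1 (fun k => (S k).nm_γ)
  obtain ⟨b, hb, -⟩ := exists_bdd (fun k => (S k).b) 1 o1 (fun k => (S k).nm_b)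
  obtain ⟨Z1, hZ1, -⟩ := exists_bdd (fun k => (S k).Z1) 2 o2
    (fun k => zn _ _ (S k).nm_γ (S k).Z11)
  obtain ⟨Z2, hZ2, -⟩ := exists_bdd (fun k => (S k).Z2) 2 o2
    (fun k => zn _ _ (S k).nm_γ (S k).Z22)
  have saN := TRA_sa π N (fun k => by rw [hN]; exact (S k).rel.sa_n)
  have saFA := TRA_sa π FA (fun k => by rw [hFA]; exact (S k).rel.sa_FA)
  have saFe := TRA_sa π Fe (fun k => by rw [hFe]; exact (S k).rel.sa_Fe)
  have sav := TRA_sa π v (fun k => by rw [hv]; exact (S k).rel.sa_v)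
  have saP := TRA_sa π P (fun k => by rw [hP]; exact (S k).rel.sa_P)
  have saG := TRA_sa π G (fun k => by rw [hG]; exact (S k).rel.sa_G)
  have saF1 := TRA_sa π F1 (fun k => by rw [hF1]; exact (S k).rel.sa_F1)
  have saα := TRA_sa π α (fun k => by rw [hα]; exact (S k).sa_α)
  have saβ := TRA_sa π β (fun k => by rw [hβ]; exact (S k).sa_β)
  have saγ := TRA_sa π γ (fun k => by rw [hγ]; exact (S k).sa_γ)
  have sab := TRA_sa π b (fun k => by rw [hb]; exact (S k).sa_b)
  -- functional calculus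
  have sag : IsSelfAdjoint (gel α Z1) := by
    unfold gel
    exact saα.1.add (pp_sa _ _)
  have hgel : π (gel α Z1) = gel (π α) (π Z1) := by
    unfold gel
    rw [map_add, map_pp π (IsSelfAdjoint.mul_star_self Z1), map_mul, map_star]
  have hgelk : ∀ k, (gel α Z1) k = gel ((S k).α) ((S k).Z1) := by
    intro k
    have h1 : evalHom k (gel α Z1) = gel (evalHom k α) (evalHom k Z1) := by
      unfold gel
      rw [map_add, map_pp (evalHom k) (IsSelfAdjoint.mul_star_self Z1), map_mul, map_star]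
    rw [evalHom_apply, evalHom_apply, evalHom_apply, hα, hZ1] at h1
    exact h1
  have hrg : π (rmp (1 / 4) (gel α Z1)) = rmp (1 / 4) (gel (π α) (π Z1)) := by
    rw [map_rmp π sag, hgel]
  have hrgk : ∀ k, (rmp (1 / 4) (gel α Z1)) k = rmp (1 / 4) (gel ((S k).α) ((S k).Z1)) := by
    intro k
    have h1 := map_rmp (evalHom k) sag (1 / 4)
    rw [evalHom_apply, evalHom_apply, hgelk] at h1
    exact h1
  have hpg : π (pp (gel α Z1) (1 / 4)) = pp (gel (π α) (π Z1)) (1 / 4) := by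
    rw [map_pp π sag, hgel]
  have hpgk : ∀ k, (pp (gel α Z1) (1 / 4)) k = pp (gel ((S k).α) ((S k).Z1)) (1 / 4) := by
    intro k
    have h1 := map_pp (evalHom k) sag (1 / 4)
    rw [evalHom_apply, evalHom_apply, hgelk] at h1
    exact h1
  have hrγ : π (rmp (1 / 40) γ) = rmp (1 / 40) (π γ) := map_rmp π saγ.1 _
  have hrγk : ∀ k, (rmp (1 / 40) γ) k = rmp (1 / 40) ((S k).γ) := by
    intro k
    have h1 := map_rmp (evalHom k) saγ.1 (1 / 40)
    rw [evalHom_apply, evalHom_apply, hγ] at h1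
    exact h1
  -- relations
  have rel0 : ∀ X Y : ℕ →ᵇ M, (∀ k, X k * Y k = 0) → π X * π Y = 0 := by
    intro X Y h
    have h1 : X * Y = 0 := by
      ext k
      exact h k
    rw [← map_mul, h1, map_zero]
  have relE : ∀ X Y W : ℕ →ᵇ M, (∀ k, X k * Y k = W k) → π X * π Y = π W := by
    intro X Y W h
    have h1 : X * Y = W := by
      ext k
      exact h k
    rw [← map_mul, h1]
  have comm : ∀ X : ℕ →ᵇ M, (∀ k, X k ∈ ({(S k).n, (S k).FA, (S k).Fe, (S k).v, (S k).P,
      (S k).G, (S k).F1} : Set M)) → ∀ k0, ∀ m ∈ F k0, π X * π (cst m) - π (cst m) * π X = 0 := by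
    intro X hX k0 m hm
    rw [← map_mul, ← map_mul, ← map_sub]
    refine TRA_null π hπ _ (k0 := k0) fun k hk => ?_
    exact (S k).comm m (hF hk hm) _ (hX k)
  have kill : ∀ k0, ∀ a ∈ A' k0, π FA * π (cst a) = 0 ∧ π F1 * π (cst a) = 0 := by
    intro k0 a ha
    constructor
    · rw [← map_mul]
      refine TRA_null π hπ _ (k0 := k0) fun k hk => ?_
      have := ((S k).kill a (hA hk ha)).1
      rw [← hFA k] at this
      exact this
    · rw [← map_mul]
      refine TRA_null π hπ _ (k0 := k0) fun k hk => ?_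
      have := ((S k).kill a (hA hk ha)).2
      rw [← hF1 k] at this
      exact this
  refine ⟨{
    n := π N, FA := π FA, Fe := π Fe, v := π v, P := π P, G := π G, F1 := π F1
    α := π α, β := π β, γ := π γ, Z1 := π Z1, Z2 := π Z2, b := π b
    rel := ?_, comm := ?_, kill := ?_
    sa_α := saα.2, sa_β := saβ.2, sa_γ := saγ.2
    nm_α := TRA_nrm π _ o1 fun k => by rw [hα]; exact (S k).nm_α
    nm_β := TRA_nrm π _ o1 fun k => by rw [hβ]; exact (S k).nm_β
    nm_γ := TRA_nrm π _ o1 fun k => by rw [hγ]; exact (S k).nm_γ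
    hα := ?_, hβ := ?_, hγ := ?_, Z11 := ?_, Z22 := ?_, Z12 := ?_, qZ1 := ?_, qZ2 := ?_
    sa_b := sab.2
    nm_b := TRA_nrm π _ o1 fun k => by rw [hb]; exact (S k).nm_b
    hb := ?_, copa := ?_, copb := ?_ }⟩
  · exact {
      sa_n := saN.2, sa_FA := saFA.2, sa_Fe := saFe.2, sa_v := sav.2, sa_P := saP.2
      sa_G := saG.2, sa_F1 := saF1.2
      nm_n := TRA_nrm π _ o1 fun k => by rw [hN]; exact (S k).rel.nm_n
      nm_FA := TRA_nrm π _ o1 fun k => by rw [hFA]; exact (S k).rel.nm_FA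
      nm_Fe := TRA_nrm π _ o1 fun k => by rw [hFe]; exact (S k).rel.nm_Fe
      nm_v := TRA_nrm π _ o1 fun k => by rw [hv]; exact (S k).rel.nm_v
      nm_P := TRA_nrm π _ o1 fun k => by rw [hP]; exact (S k).rel.nm_P
      nm_G := TRA_nrm π _ o1 fun k => by rw [hG]; exact (S k).rel.nm_G
      nm_F1 := TRA_nrm π _ o1 fun k => by rw [hF1]; exact (S k).rel.nm_F1
      n_v := rel0 _ _ fun k => by rw [hN, hv]; exact (S k).rel.n_v
      n_P := rel0 _ _ fun k => by rw [hN, hP]; exact (S k).rel.n_P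
      v_P := relE _ _ _ fun k => by rw [hv, hP]; exact (S k).rel.v_P
      FA_n := relE _ _ _ fun k => by rw [hFA, hN]; exact (S k).rel.FA_n
      F1_G := relE _ _ _ fun k => by rw [hF1, hG]; exact (S k).rel.F1_G
      Fe_FA := relE _ _ _ fun k => by rw [hFe, hFA]; exact (S k).rel.Fe_FA
      sum := by
        have h1 : P + F1 + Fe = 1 := by
          ext k
          show P k + F1 k + Fe k = 1
          rw [hP, hF1, hFe]
          exact (S k).rel.sum
        rw [← map_add, ← map_add, h1, map_one] }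
  · rintro m ⟨k0, m', hm', rfl⟩ D hD
    have key : D * π (cst m') - π (cst m') * D = 0 := by
      simp only [Set.mem_insert_iff, Set.mem_singleton_iff] at hD
      rcases hD with rfl | rfl | rfl | rfl | rfl | rfl | rfl
      · exact comm N (fun k => by rw [hN]; simp) k0 m' hm'
      · exact comm FA (fun k => by rw [hFA]; simp) k0 m' hm'
      · exact comm Fe (fun k => by rw [hFe]; simp) k0 m' hm'
      · exact comm v (fun k => by rw [hv]; simp) k0 m' hm'
      · exact comm P (fun k => by rw [hP]; simp) k0 m' hm'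
      · exact comm G (fun k => by rw [hG]; simp) k0 m' hm'
      · exact comm F1 (fun k => by rw [hF1]; simp) k0 m' hm'
    rw [key, norm_zero]
  · rintro a ⟨k0, a', ha', rfl⟩
    obtain ⟨h1, h2⟩ := kill k0 a' ha'
    rw [h1, h2, norm_zero]
    exact ⟨le_rfl, le_rfl⟩
  · rw [← map_mul, ← map_mul, ← map_sub]
    rw [TRA_null π hπ _ (k0 := 0) fun k _ => ?_, norm_zero]
    have := (S k).hα
    rw [← hα k, ← hN k] at this
    exact this
  · rw [← map_mul, ← map_mul, ← map_sub]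
    rw [TRA_null π hπ _ (k0 := 0) fun k _ => ?_, norm_zero]
    have := (S k).hβ
    rw [← hβ k, ← hv k] at this
    exact this
  · rw [← map_mul, ← map_mul, ← map_sub]
    rw [TRA_null π hπ _ (k0 := 0) fun k _ => ?_, norm_zero]
    have := (S k).hγ
    rw [← hγ k, ← hG k] at this
    exact this
  · rw [← map_star, ← map_mul, ← map_sub]
    refine TRA_nrm π _ (by norm_num) fun k => ?_
    have := (S k).Z11
    rw [← hγ k, ← hZ1 k] at this
    exact this
  · rw [← map_star, ← map_mul, ← map_sub]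
    refine TRA_nrm π _ (by norm_num) fun k => ?_
    have := (S k).Z22
    rw [← hγ k, ← hZ2 k] at this
    exact this
  · rw [← map_star, ← map_mul]
    refine TRA_nrm π _ (by norm_num) fun k => ?_
    have := (S k).Z12
    rw [← hZ1 k, ← hZ2 k] at this
    exact this
  · rw [← hrγ]
    refine relE _ _ _ fun k => ?_
    rw [hrγk, hZ1]
    exact (S k).qZ1
  · rw [← hrγ]
    refine relE _ _ _ fun k => ?_
    rw [hrγk, hZ2]
    exact (S k).qZ2
  · rw [← hrg]
    have e : π b - (1 - π (rmp (1 / 4) (gel α Z1))) * π β * (1 - π (rmp (1 / 4) (gel α Z1)))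
        = π (b - (1 - rmp (1 / 4) (gel α Z1)) * β * (1 - rmp (1 / 4) (gel α Z1))) := by
      simp only [map_sub, map_mul, map_one]
    rw [e]
    rw [TRA_null π hπ _ (k0 := 0) fun k _ => ?_, norm_zero]
    have := (S k).hb
    rw [← hrgk k, ← hb k, ← hβ k] at this
    exact this
  · rw [← hpg]
    refine TRA_bcop π _ fun k => ?_
    rw [hpgk]
    exact (S k).copa
  · refine TRA_bcop π _ fun k => ?_
    rw [hb]
    exact (S k).copb

end MUP
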