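import Pool.Agent.MUP.CZI

/-!
MUP / TRB.  Back from `ℓ^∞(M)/c_0(M)` to `M`.

If `Cop 2 (π (cst y)) (π (cst y))` then `Cop 2 y y`: given `ε`, choose a family `r` in `C` with
error `ε/2`, lift it to `R : Fin 2 → L` (surjectivity).  For each pair `i, j` the element
`X = R_i^* (cst y) R_j - δ_ij cst y` has `‖π X‖ ≤ ε/2`, so by `hq` there is a null sequence `c`
with `‖X - c‖ ≤ 3ε/4`, so `‖X k‖ ≤ 3ε/4 + ‖c k‖ ≤ ε` for all large `k`.  Use the values of
`R_0, R_1` at one `k` which is large for all four pairs.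
-/

open Filter Topology BoundedContinuousFunction

namespace MUP

variable {M : Type*} [CStarAlgebra M]

theorem trn_back {C : Type*} [CStarAlgebra C] (π : (ℕ →ᵇ M) →⋆ₐ[ℂ] C)
    (hs : Function.Surjective π)
    (hq : ∀ (X : ℕ →ᵇ M) (ε : ℝ), 0 < ε →
      ∃ j : ℕ →ᵇ M, Tendsto (fun n => ‖j n‖) atTop (𝓝 0) ∧ ‖X - j‖ ≤ ‖π X‖ + ε)
    {y : M} (h : Cop 2 (π (cst y)) (π (cst y))) : Cop 2 y y := by
  intro ε hε
  obtain ⟨r, hr⟩ := h (ε / 2) (by positivity)
  choose R hR using fun i => hs (r i)
  have key : ∀ i j : Fin 2, ∀ᶠ k in atTop,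
      ‖star (R i k) * y * R j k - (if i = j then y else 0)‖ ≤ ε := by
    intro i j
    obtain ⟨c, hc, hXc⟩ := hq (star (R i) * cst y * R j - (if i = j then cst y else 0)) (ε / 4)
      (by positivity)
    have hπ : ‖π (star (R i) * cst y * R j - (if i = j then cst y else 0))‖ ≤ ε / 2 := by
      have := hr i j
      rw [← hR i, ← hR j] at this
      convert this using 2
      rw [map_sub, map_mul, map_mul, map_star]
      congr 1
      split_ifs <;> simp
    have hc' : ∀ᶠ k in atTop, ‖c k‖ < ε / 4 :=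
      (tendsto_order.1 hc).2 (ε / 4) (by positivity)
    filter_upwards [hc'] with k hk
    have h1 : ‖(star (R i) * cst y * R j - (if i = j then cst y else 0) - c) k‖ ≤
        ε / 2 + ε / 4 :=
      (BoundedContinuousFunction.norm_coe_le_norm _ k).trans (hXc.trans (by linarith))
    have h2 : (star (R i) * cst y * R j - (if i = j then cst y else 0) - c) k
        = (star (R i k) * y * R j k - (if i = j then y else 0)) - c k := by
      split_ifs <;> rfl
    rw [h2] at h1
    calc ‖star (R i k) * y * R j k - (if i = j then y else 0)‖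
        = ‖((star (R i k) * y * R j k - (if i = j then y else 0)) - c k) + c k‖ := by
          rw [sub_add_cancel]
      _ ≤ ‖(star (R i k) * y * R j k - (if i = j then y else 0)) - c k‖ + ‖c k‖ :=
          norm_add_le _ _
      _ ≤ (ε / 2 + ε / 4) + ε / 4 := by linarith
      _ = ε := by ring
  have hall : ∀ᶠ k in atTop, ∀ i j : Fin 2,
      ‖star (R i k) * y * R j k - (if i = j then y else 0)‖ ≤ ε := by
    rw [eventually_all]
    intro i
    rw [eventually_all]
    exact key i
  obtain ⟨k, hk⟩ := hall.exists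
  exact ⟨fun i => R i k, hk⟩

end MUP
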