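import Pool.Agent.MUP.QUO
import Pool.Agent.MUP.TRA
import Pool.Agent.MUP.TRB
import Pool.Agent.MUP.ABS

/-!
MUP / TRN.  The abstract theorem: approximate stages for all finite sets and tolerances suffice.

For each `m` choose `n_m`, `c^m, d^m : Fin n_m → M` and `a^m ∈ K` with
`‖y - ∑ c^m_i z0 d^m_i - a^m‖ ≤ 1/(m+1)` (`hid`), let `F k` be the finite set consisting of
`y, z0` and of all `c^m_i, d^m_i` with `m ≤ k`, and `A' k` the finite set of the `a^m` with
`m ≤ k`; both are increasing.  Let `π : (ℕ →ᵇ M) → C` be the quotient by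
`c_0(M)` (`exists_quotient`, `isIdl_c0`); give `C` the order `CStarAlgebra.spectralOrder`,
`CStarAlgebra.spectralOrderedRing`.  `trn_stage` gives an exact stage for `π (cst y)`,
`{π (cst m) | m ∈ F k for some k}` and `{π (cst a) | a ∈ A' k for some k}`.  `π ∘ cst` maps positive elements to positive elements
(write `y = a^* a`), and the images of the `c^m_i, d^m_i` are plateau families
(`‖π (cst x)‖ ≤ ‖x‖`).  So `abs_main` gives `Cop 2 (π (cst y)) (π (cst y))` and `trn_back` gives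
`Cop 2 y y`.
-/

open Filter Topology BoundedContinuousFunction

namespace MUP

variable {M : Type*} [CStarAlgebra M]

theorem trn [PartialOrder M] [StarOrderedRing M] {K : Set M} {y z0 : M} (hy : 0 ≤ y)
    (hz : 0 ≤ z0) (hyz : y * z0 = z0) (hid : InIdealK K z0 y)
    (hS : ∀ (F A' : Finset M), (∀ a ∈ A', a ∈ K) → ∀ τ : ℝ, 0 < τ →
      Nonempty (Stage y (↑F : Set M) (↑A' : Set M) τ)) :
    Cop 2 y y := by
  classical
  have h1 : ∀ m : ℕ, ∃ (n : ℕ) (c d : Fin n → M), ∃ a ∈ K,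
      ‖y - ∑ i, c i * z0 * d i - a‖ ≤ 1 / ((m : ℝ) + 1) := fun m => hid _ (by positivity)
  choose n c d a ha hb using h1
  obtain ⟨F, hFd⟩ : ∃ F : ℕ → Finset M, ∀ k, F k = (Finset.range (k + 1)).biUnion fun m =>
      {y, z0} ∪ Finset.univ.image (c m) ∪ Finset.univ.image (d m) := ⟨_, fun _ => rfl⟩
  obtain ⟨A', hAd⟩ : ∃ A' : ℕ → Finset M, ∀ k, A' k = (Finset.range (k + 1)).image a :=
    ⟨_, fun _ => rfl⟩
  have hr : ∀ i j : ℕ, i ≤ j → Finset.range (i + 1) ⊆ Finset.range (j + 1) := fun i j hij =>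
    Finset.range_subset_range.2 (by omega)
  have hF : Monotone F := fun i j hij => by
    rw [hFd, hFd]
    exact Finset.biUnion_subset_biUnion_of_subset_left _ (hr i j hij)
  have hA : Monotone A' := fun i j hij => by
    rw [hAd, hAd]
    exact Finset.image_subset_image (hr i j hij)
  have hT : ∀ k : ℕ,
      Nonempty (Stage y (↑(F k) : Set M) (↑(A' k) : Set M) (1 / ((k : ℝ) + 1))) := fun k => by
    refine hS _ _ (fun x hx => ?_) _ (by positivity)
    rw [hAd, Finset.mem_image] at hx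
    obtain ⟨m, -, rfl⟩ := hx
    exact ha m
  have hyF : y ∈ F 0 := by
    rw [hFd, Finset.mem_biUnion]
    exact ⟨0, by simp, by simp⟩
  have hzF : z0 ∈ F 0 := by
    rw [hFd, Finset.mem_biUnion]
    exact ⟨0, by simp, by simp⟩
  have hcF : ∀ m i, c m i ∈ F m := fun m i => by
    rw [hFd, Finset.mem_biUnion]
    exact ⟨m, by simp, by simp⟩
  have hdF : ∀ m i, d m i ∈ F m := fun m i => by
    rw [hFd, Finset.mem_biUnion]
    exact ⟨m, by simp, by simp⟩
  have haA : ∀ m, a m ∈ A' m := fun m => by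
    rw [hAd, Finset.mem_image]
    exact ⟨m, by simp, rfl⟩
  obtain ⟨C, hC, π, hπs, hπ0, hπq⟩ :=
    exists_quotient {x : ℕ →ᵇ M | Tendsto (fun n => ‖x n‖) atTop (𝓝 0)} isIdl_c0
  let : PartialOrder C := CStarAlgebra.spectralOrder C
  have : StarOrderedRing C := CStarAlgebra.spectralOrderedRing C
  obtain ⟨S⟩ := trn_stage π (fun X => hπ0 X) F A' hF hA hT
  have hpos : ∀ x : M, 0 ≤ x → 0 ≤ π (cst x) := fun x hx => by
    obtain ⟨s, rfl⟩ := CStarAlgebra.nonneg_iff_eq_star_mul_self.mp hx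
    rw [map_mul, map_mul, map_star, map_star]
    exact star_mul_self_nonneg _
  have hmain : Cop 2 (π (cst y)) (π (cst y)) := by
    refine abs_main (z0 := π (cst z0)) (hpos y hy) (hpos z0 hz)
      (by rw [← map_mul, ← map_mul, hyz]) {x : C | ∃ k, ∃ m ∈ F k, x = π (cst m)}
      {x : C | ∃ k, ∃ m ∈ A' k, x = π (cst m)} ⟨0, y, hyF, rfl⟩ ⟨0, z0, hzF, rfl⟩ ?_ S
    intro κ hκ
    obtain ⟨m, hm⟩ := exists_nat_one_div_lt hκ
    refine ⟨n m, fun i => π (cst (c m i)), fun i => π (cst (d m i)), π (cst (a m)),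
      ⟨m, a m, haA m, rfl⟩, fun i => ⟨⟨m, c m i, hcF m i, rfl⟩, ⟨m, d m i, hdF m i, rfl⟩⟩, ?_⟩
    have e : π (cst y) - ∑ i, π (cst (c m i)) * π (cst z0) * π (cst (d m i)) - π (cst (a m)) =
        π (cst (y - ∑ i, c m i * z0 * d m i - a m)) := by
      simp only [map_sub, map_sum, map_mul]
    rw [e]
    refine (NonUnitalStarAlgHom.norm_apply_le π _).trans ?_
    refine (NonUnitalStarAlgHom.norm_apply_le (cst : M →⋆ₐ[ℂ] (ℕ →ᵇ M)) _).trans ?_
    exact (hb m).trans hm.le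
  exact trn_back π hπs (fun X ε hε => hπq X ε hε) hmain

end MUP
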