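import Pool.Agent.MUP.STG
import Pool.Agent.MUP.TRN

/-!
MUP / FIN.  The main theorem for a multiplier pair (assembly; short).
-/

open Filter Topology

namespace MUP

variable {M : Type*} [CStarAlgebra M] [PartialOrder M] [StarOrderedRing M] {K : Set M}

theorem main_pair (hK : MultPair K) {e : ℕ → M} (he : ∀ n, e n ∈ K) (he0 : ∀ n, 0 ≤ e n)
    (he1 : ∀ n, ‖e n‖ ≤ 1) (hc : ∀ a ∈ K, Tendsto (fun n => e n * a) atTop (𝓝 a))
    (hPI : ∀ c ∈ K, 0 ≤ c → ∀ n, Cop n c c) {y z0 : M} (hy : 0 ≤ y) (hy1 : ‖y‖ ≤ 1)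
    (hz : 0 ≤ z0) (hyz : y * z0 = z0) (hid : InIdealK K z0 y) : Cop 2 y y := by
  obtain ⟨w, hw⟩ := exists_frame hK he he0 he1 hc
  exact trn hy hz hyz hid fun F A' hA τ hτ => exists_stage hK hw hPI hy hy1 F A' hA hτ

end MUP
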