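import Pool.Agent.MUP.FUN
import Pool.Agent.MUP.CFM

/-!
MUP / FR0.  A frame from a sequential approximate unit.

Let `e_n ∈ K`, `0 ≤ e_n`, `‖e_n‖ ≤ 1`, `e_n a → a` for `a ∈ K`.  Put
`h = ∑'_n 2^{-(n+1)} e_n ∈ K` (absolutely convergent, `K` closed), `0 ≤ h`,
`2^{-(n+1)} e_n ≤ h`.  For `t > 0` let `φ_t(s) = min (max (2 s / t - 1) 0) 1`, continuous,
`φ_t(0) = 0`, `φ_t (s) = 0` for `s ≤ t/2`, `= 1` for `s ≥ t`.  Let `w_0 = 0` and
`w_k = φ_{2^{-k}}(h)` for `k ≥ 1`.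
* `w_k ∈ K` (`cfc_mem`), selfadjoint, `‖w_k‖ ≤ 1`, `‖1 - w_k‖ ≤ 1` (values in `[0, 1]`).
* `w_{k+1} w_k = w_k`: `φ_{t/2} φ_t = φ_t`.
* `‖(1 - w_k) h (1 - w_k)‖ ≤ 2^{-k}`: `(1 - φ_t(s))^2 s ≤ t`.
* hence `‖(1 - w_k) e_n (1 - w_k)‖ ≤ 2^{n+1} 2^{-k}` (conjugation and norm are monotone), and
  with `e_n = r^2` (`r = CFC.sqrt e_n`), `‖(1 - w_k) r‖^2 ≤ 2^{n+1-k} → 0`, so
  `(1 - w_k) e_n → 0` as `k → ∞`.
* for `a ∈ K` and `ε > 0` choose `n` with `‖e_n a - a‖ ≤ ε`; then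
  `‖(1 - w_k) a‖ ≤ ε + ‖(1 - w_k) e_n‖ ‖a‖`.
-/

open Filter Topology

namespace MUP

variable {M : Type*} [CStarAlgebra M] [PartialOrder M] [StarOrderedRing M] {K : Set M}

/-- the cut function -/
private noncomputable def FR0_f (t s : ℝ) : ℝ := min (max (2 * s / t - 1) 0) 1

private theorem FR0_fc (t : ℝ) : Continuous (FR0_f t) := by
  unfold FR0_f
  fun_prop

private theorem FR0_f0 (t : ℝ) : FR0_f t 0 = 0 := by
  simp [FR0_f]

private theorem FR0_fnn (t s : ℝ) : 0 ≤ FR0_f t s := by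
  unfold FR0_f
  exact le_min (le_max_right _ _) zero_le_one

private theorem FR0_fle (t s : ℝ) : FR0_f t s ≤ 1 := by
  unfold FR0_f
  exact min_le_right _ _

private theorem FR0_f1 {t s : ℝ} (ht : 0 < t) (h : t ≤ s) : FR0_f t s = 1 := by
  unfold FR0_f
  apply min_eq_right
  apply le_max_of_le_left
  have : 1 ≤ s / t := by rwa [le_div_iff₀ ht, one_mul]
  have e : 2 * s / t = 2 * (s / t) := by ring
  rw [e]
  linarith

private theorem FR0_fz {t s : ℝ} (ht : 0 < t) (h : s ≤ t / 2) : FR0_f t s = 0 := by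
  unfold FR0_f
  rw [max_eq_right, min_eq_left zero_le_one]
  have : s / t ≤ 1 / 2 := by
    rw [div_le_iff₀ ht]
    linarith
  have e : 2 * s / t = 2 * (s / t) := by ring
  rw [e]
  linarith

private theorem FR0_fm {t : ℝ} (ht : 0 < t) (s : ℝ) :
    FR0_f (t / 2) s * FR0_f t s = FR0_f t s := by
  rcases le_or_gt s (t / 2) with h | h
  · rw [FR0_fz ht h, mul_zero]
  · rw [FR0_f1 (by linarith) h.le, one_mul]

private theorem FR0_q {t s : ℝ} (ht : 0 < t) (hs : 0 ≤ s) :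
    ‖(1 - FR0_f t s) * s * (1 - FR0_f t s)‖ ≤ t := by
  have h1 := FR0_fnn t s
  have h2 := FR0_fle t s
  rw [Real.norm_of_nonneg (mul_nonneg (mul_nonneg (by linarith) hs) (by linarith))]
  rcases le_or_gt t s with h | h
  · rw [FR0_f1 ht h]
    simpa using ht.le
  · have h3 : (1 - FR0_f t s) * (1 - FR0_f t s) ≤ 1 := by nlinarith
    nlinarith [mul_le_mul_of_nonneg_left h3 hs]

private noncomputable def FR0_w (h : M) (k : ℕ) : M :=
  if k = 0 then 0 else cfc (FR0_f ((1 / 2) ^ k)) h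

omit [PartialOrder M] [StarOrderedRing M] in
private theorem FR0_one (h : M) (f : ℝ → ℝ) (hf : Continuous f) (hh : IsSelfAdjoint h) :
    1 - cfc f h = cfc (fun s => 1 - f s) h := by
  rw [cfc_sub (fun _ => (1:ℝ)) f h (by fun_prop) (hf.continuousOn), cfc_const_one ℝ h]

private theorem FR0_nm1 (h : M) (hh : IsSelfAdjoint h) (k : ℕ) : ‖1 - FR0_w h k‖ ≤ 1 := by
  unfold FR0_w
  split_ifs with hk
  · rw [sub_zero, ← cfc_const_one ℝ h]
    exact norm_cfc_le zero_le_one fun x _ => by simp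
  · rw [FR0_one h _ (FR0_fc _) hh]
    refine norm_cfc_le zero_le_one fun x _ => ?_
    have h1 := FR0_fnn ((1 / 2) ^ k) x
    have h2 := FR0_fle ((1 / 2) ^ k) x
    rw [Real.norm_of_nonneg (by linarith)]
    linarith

omit [PartialOrder M] [StarOrderedRing M] in
private theorem FR0_nm (h : M) (k : ℕ) : ‖FR0_w h k‖ ≤ 1 := by
  unfold FR0_w
  split_ifs with hk
  · simp
  · refine norm_cfc_le zero_le_one fun x _ => ?_
    rw [Real.norm_of_nonneg (FR0_fnn _ _)]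
    exact FR0_fle _ _

omit [PartialOrder M] [StarOrderedRing M] in
private theorem FR0_sa (h : M) (k : ℕ) : IsSelfAdjoint (FR0_w h k) := by
  unfold FR0_w
  split_ifs with hk
  · exact IsSelfAdjoint.zero M
  · exact cfc_predicate _ _

omit [PartialOrder M] [StarOrderedRing M] in
private theorem FR0_step (h : M) (k : ℕ) : FR0_w h (k + 1) * FR0_w h k = FR0_w h k := by
  unfold FR0_w
  rw [if_neg (Nat.succ_ne_zero k)]
  split_ifs with hk
  · rw [mul_zero]
  · rw [← cfc_mul _ _ h ((FR0_fc _).continuousOn) ((FR0_fc _).continuousOn)]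
    refine cfc_congr fun s _ => ?_
    have e : ((1:ℝ) / 2) ^ (k + 1) = (1 / 2) ^ k / 2 := by rw [pow_succ]; ring
    simp only [e]
    exact FR0_fm (by positivity) s

private theorem FR0_h {h : M} (hh : 0 ≤ h) {k : ℕ} (hk : k ≠ 0) :
    ‖(1 - FR0_w h k) * h * (1 - FR0_w h k)‖ ≤ (1 / 2) ^ k := by
  have hsa : IsSelfAdjoint h := IsSelfAdjoint.of_nonneg hh
  have e : (1 - FR0_w h k) * h * (1 - FR0_w h k) =
      cfc (fun s => (1 - FR0_f ((1 / 2) ^ k) s) * s * (1 - FR0_f ((1 / 2) ^ k) s)) h := by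
    have hc := FR0_fc ((1 / 2) ^ k)
    rw [cfc_mul (fun s => (1 - FR0_f ((1 / 2) ^ k) s) * s) (fun s => 1 - FR0_f ((1 / 2) ^ k) s) h
      (by fun_prop) (by fun_prop),
      cfc_mul (fun s => (1 - FR0_f ((1 / 2) ^ k) s)) (fun s => s) h
      (by fun_prop) (by fun_prop), cfc_id' ℝ h, ← FR0_one h _ hc hsa]
    unfold FR0_w
    rw [if_neg hk]
  rw [e]
  refine norm_cfc_le (by positivity) fun s hs => ?_
  exact FR0_q (by positivity) (spectrum_nonneg_of_nonneg hh hs)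

private theorem FR0_e {h e : M} (hh : 0 ≤ h) (he : 0 ≤ e) (he1 : ‖e‖ ≤ 1) {c : ℝ} (hc : 0 ≤ c)
    (hle : e ≤ c • h) {k : ℕ} (hk : k ≠ 0) :
    ‖(1 - FR0_w h k) * e‖ ^ 2 ≤ c * (1 / 2) ^ k := by
  set g := 1 - FR0_w h k with hg
  have hgs : star g = g := by
    rw [hg, star_sub, star_one, (FR0_sa h k).star_eq]
  have hr : 0 ≤ CFC.sqrt e := CFC.sqrt_nonneg e
  have hrs : star (CFC.sqrt e) = CFC.sqrt e := (IsSelfAdjoint.of_nonneg hr).star_eq
  have hrr : CFC.sqrt e * CFC.sqrt e = e := CFC.sqrt_mul_sqrt_self e he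
  have h1 : ‖CFC.sqrt e‖ ≤ 1 := by
    have h2 : ‖CFC.sqrt e‖ * ‖CFC.sqrt e‖ = ‖e‖ := by
      rw [← CStarRing.norm_self_mul_star, hrs, hrr]
    nlinarith [norm_nonneg (CFC.sqrt e)]
  have h3 : ‖g * CFC.sqrt e‖ * ‖g * CFC.sqrt e‖ = ‖g * e * g‖ := by
    rw [← CStarRing.norm_self_mul_star, star_mul, hrs, hgs]
    have h31 : g * CFC.sqrt e * (CFC.sqrt e * g) = g * (CFC.sqrt e * CFC.sqrt e) * g := by
      simp only [mul_assoc]
    rw [h31, hrr]
  have h4 : g * e * g ≤ g * (c • h) * g := by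
    have := star_left_conjugate_le_conjugate hle g
    rwa [hgs] at this
  have h5 : 0 ≤ g * e * g := by
    have := star_left_conjugate_nonneg he g
    rwa [hgs] at this
  have h6 : ‖g * e * g‖ ≤ ‖g * (c • h) * g‖ := CStarAlgebra.norm_le_norm_of_nonneg_of_le h5 h4
  have h7 : g * (c • h) * g = c • (g * h * g) := by
    rw [mul_smul_comm, smul_mul_assoc]
  have h8 : ‖g * (c • h) * g‖ ≤ c * (1 / 2) ^ k := by
    rw [h7, norm_smul, Real.norm_of_nonneg hc]
    exact mul_le_mul_of_nonneg_left (FR0_h hh hk) hc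
  have h9 : ‖g * e‖ ≤ ‖g * CFC.sqrt e‖ := by
    calc ‖g * e‖ = ‖g * CFC.sqrt e * CFC.sqrt e‖ := by rw [mul_assoc, hrr]
      _ ≤ ‖g * CFC.sqrt e‖ * ‖CFC.sqrt e‖ := norm_mul_le _ _
      _ ≤ ‖g * CFC.sqrt e‖ * 1 := mul_le_mul_of_nonneg_left h1 (norm_nonneg _)
      _ = _ := mul_one _
  have h10 := norm_nonneg (g * e)
  nlinarith

theorem exists_frame (hK : MultPair K) {e : ℕ → M} (he : ∀ n, e n ∈ K) (he0 : ∀ n, 0 ≤ e n)
    (he1 : ∀ n, ‖e n‖ ≤ 1) (hc : ∀ a ∈ K, Tendsto (fun n => e n * a) atTop (𝓝 a)) :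
    ∃ w : ℕ → M, Frame K w := by
  have hcl := hK.idl.closed
  have hsm : ∀ (r : ℝ) (x : M), x ∈ K → r • x ∈ K := by
    intro r x hx
    have e1 : r • x = (r • (1:M)) * x := by rw [smul_mul_assoc, one_mul]
    rw [e1]
    exact hK.idl.mul_left _ x hx
  have hsum : Summable fun n => ((1 / 2 : ℝ) ^ (n + 1)) • e n := by
    have hg : Summable fun n : ℕ => ((1 / 2 : ℝ)) ^ (n + 1) := by
      have := (summable_geometric_of_lt_one (r := (1/2:ℝ)) (by norm_num) (by norm_num))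
      exact (summable_nat_add_iff 1).mpr this
    refine Summable.of_norm_bounded hg fun n => ?_
    rw [norm_smul, Real.norm_of_nonneg (by positivity)]
    have h1 : (0:ℝ) ≤ (1 / 2) ^ (n + 1) := by positivity
    nlinarith [he1 n]
  obtain ⟨h, hh⟩ := hsum
  have hhK : h ∈ K := by
    refine hcl.mem_of_tendsto hh.tendsto_sum_nat (Eventually.of_forall fun N => ?_)
    induction N with
    | zero => simpa using hK.idl.zero_mem
    | succ N ih =>
      rw [Finset.sum_range_succ]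
      exact hK.idl.add_mem _ ih _ (hsm _ _ (he N))
  have hnn : ∀ n, 0 ≤ ((1 / 2 : ℝ) ^ (n + 1)) • e n := fun n =>
    smul_nonneg (by positivity) (he0 n)
  have hge : ∀ n, ((1 / 2 : ℝ) ^ (n + 1)) • e n ≤ h := by
    intro n
    have hcn : IsClosed {a : M | 0 ≤ a} := CStarAlgebra.isClosed_nonneg
    have ht : Tendsto (fun N => ∑ i ∈ Finset.range N, ((1 / 2 : ℝ) ^ (i + 1)) • e i -
        ((1 / 2 : ℝ) ^ (n + 1)) • e n) atTop (𝓝 (h - ((1 / 2 : ℝ) ^ (n + 1)) • e n)) :=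
      hh.tendsto_sum_nat.sub_const _
    have hmem := hcn.mem_of_tendsto ht (by
      filter_upwards [eventually_gt_atTop n] with N hN
      show 0 ≤ _
      rw [sub_nonneg]
      exact Finset.single_le_sum (f := fun i => ((1 / 2 : ℝ) ^ (i + 1)) • e i)
        (fun i _ => hnn i) (Finset.mem_range.mpr hN))
    exact sub_nonneg.mp hmem
  have hh0 : 0 ≤ h := (hnn 0).trans (hge 0)
  have hhs : IsSelfAdjoint h := IsSelfAdjoint.of_nonneg hh0
  have hle : ∀ n, e n ≤ ((2:ℝ) ^ (n + 1)) • h := by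
    intro n
    have h1 := smul_le_smul_of_nonneg_left (hge n) (show (0:ℝ) ≤ 2 ^ (n + 1) by positivity)
    rw [smul_smul, ← mul_pow] at h1
    norm_num at h1
    exact h1
  refine ⟨FR0_w h, ?_, FR0_sa h, FR0_nm h, FR0_nm1 h hhs, by simp [FR0_w], FR0_step h, ?_⟩
  · intro k
    unfold FR0_w
    split_ifs with hk
    · exact hK.idl.zero_mem
    · exact cfc_mem hK.idl hhs hhK (FR0_fc _) (FR0_f0 _)
  · intro a ha
    have hlim : ∀ n, Tendsto (fun k => ‖(1 - FR0_w h k) * e n‖) atTop (𝓝 0) := by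
      intro n
      have h1 : Tendsto (fun k : ℕ => (2:ℝ) ^ (n + 1) * (1 / 2) ^ k) atTop (𝓝 ((2:ℝ) ^ (n + 1) * 0)) :=
        (tendsto_pow_atTop_nhds_zero_of_lt_one (by norm_num) (by norm_num)).const_mul _
      rw [mul_zero] at h1
      have h2 : Tendsto (fun k => ‖(1 - FR0_w h k) * e n‖ ^ 2) atTop (𝓝 0) := by
        refine squeeze_zero' (Eventually.of_forall fun k => by positivity) ?_ h1
        filter_upwards [eventually_ne_atTop 0] with k hk
        exact FR0_e hh0 (he0 n) (he1 n) (by positivity) (hle n) hk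
      have h3 := h2.sqrt
      simpa [Real.sqrt_sq (norm_nonneg _)] using h3
    rw [Metric.tendsto_atTop]
    intro ε hε
    have h1 := hc a ha
    rw [Metric.tendsto_atTop] at h1
    obtain ⟨n, hn⟩ := h1 (ε / 2) (by positivity)
    have hn' := hn n le_rfl
    rw [dist_eq_norm] at hn'
    have h2 := (hlim n).mul_const ‖a‖
    rw [zero_mul, Metric.tendsto_atTop] at h2
    obtain ⟨k0, hk0⟩ := h2 (ε / 2) (by positivity)
    refine ⟨k0, fun k hk => ?_⟩
    have h3 := hk0 k hk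
    rw [Real.dist_eq, sub_zero] at h3
    have h3' := (le_abs_self _).trans_lt h3
    rw [dist_eq_norm]
    have e1 : FR0_w h k * a - a = -((1 - FR0_w h k) * e n * a - (1 - FR0_w h k) * (e n * a - a)) := by
      simp only [mul_sub, sub_mul, one_mul, mul_assoc]
      abel
    rw [e1, norm_neg]
    have h4 := norm_sub_le ((1 - FR0_w h k) * e n * a) ((1 - FR0_w h k) * (e n * a - a))
    have h5 : ‖(1 - FR0_w h k) * e n * a‖ ≤ ‖(1 - FR0_w h k) * e n‖ * ‖a‖ := norm_mul_le _ _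
    have h6 : ‖(1 - FR0_w h k) * (e n * a - a)‖ ≤ 1 * ‖e n * a - a‖ :=
      (norm_mul_le _ _).trans (mul_le_mul_of_nonneg_right (FR0_nm1 h hhs k) (norm_nonneg _))
    linarith

end MUP
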