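import Pool.Agent.MUP.Defs

/-!
MUP / FUN.  Elementary facts about `pp x t = (x - t)_+` and `rmp c x = min (x/c, 1)`.

All of them are one-variable facts transported by the continuous functional calculus
(`cfc_congr`, `cfc_mul`, `cfc_comp'`, `norm_cfc_le`, `cfc_nonneg`, `cfc_mono`,
`StarAlgHomClass.map_cfc`); for `0 ≤ x` the real spectrum is contained in `[0, ∞)` and in
`[0, ‖x‖]`.

* `pp_factor`: `max (s - c) 0 = s * k s` for `s ≥ 0` with `k s = max (s - c) 0 / max s c`.
* `rmp_factor`: `min (s / c) 1 = s * k s` for `s ≥ 0` with `k s = 1 / max s c`, `0 ≤ k ≤ 1/c`.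
* `pp_mul_rmp`: `max (s - c) 0 * min (s / c) 1 = max (s - c) 0` for `s ≥ 0`.
* `mul_zero`: from the factorisations.
-/

open Filter Topology
open scoped CStarAlgebra

namespace MUP

variable {B : Type*} [CStarAlgebra B]

theorem pp_sa (x : B) (t : ℝ) : IsSelfAdjoint (pp x t) := by
  unfold pp
  exact cfc_predicate _ _

theorem rmp_sa (c : ℝ) (x : B) : IsSelfAdjoint (rmp c x) := by
  unfold rmp
  exact cfc_predicate _ _

theorem map_pp {C : Type*} [CStarAlgebra C] (φ : B →⋆ₐ[ℂ] C) {x : B} (hx : IsSelfAdjoint x)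
    (t : ℝ) : φ (pp x t) = pp (φ x) t := by
  unfold pp
  have hφ : Continuous φ := map_continuous φ
  exact (φ.restrictScalars ℝ).map_cfc (fun s : ℝ => max (s - t) 0) x (by fun_prop) hφ hx (hx.map φ)

theorem map_rmp {C : Type*} [CStarAlgebra C] (φ : B →⋆ₐ[ℂ] C) {x : B} (hx : IsSelfAdjoint x)
    (c : ℝ) : φ (rmp c x) = rmp c (φ x) := by
  unfold rmp
  have hφ : Continuous φ := map_continuous φ
  exact (φ.restrictScalars ℝ).map_cfc (fun s : ℝ => min (s / c) 1) x (by fun_prop) hφ hx (hx.map φ)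

variable [PartialOrder B] [StarOrderedRing B]

omit [PartialOrder B] [StarOrderedRing B] in
private theorem FUN_spec_le {x : B} {s : ℝ} (hs : s ∈ spectrum ℝ x) : s ≤ ‖x‖ := by
  rcases subsingleton_or_nontrivial B with h | h
  · rw [spectrum.of_subsingleton] at hs
    exact absurd hs (Set.notMem_empty _)
  · exact (le_abs_self s).trans (spectrum.norm_le_norm_of_mem hs)

theorem pp_nonneg (x : B) (t : ℝ) : 0 ≤ pp x t := by
  unfold pp
  exact cfc_nonneg fun s _ => le_max_right _ _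

theorem pp_zero {x : B} (hx : 0 ≤ x) : pp x 0 = x := by
  unfold pp
  have hsa : IsSelfAdjoint x := IsSelfAdjoint.of_nonneg hx
  conv_rhs => rw [← cfc_id' ℝ x hsa]
  refine cfc_congr fun s hs => ?_
  have := spectrum_nonneg_of_nonneg hx hs
  simp only [sub_zero]
  exact max_eq_left this

theorem rmp_nonneg {x : B} (hx : 0 ≤ x) {c : ℝ} (hc : 0 < c) : 0 ≤ rmp c x := by
  unfold rmp
  refine cfc_nonneg fun s hs => ?_
  have := spectrum_nonneg_of_nonneg hx hs
  exact le_min (by positivity) zero_le_one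

theorem rmp_nm {x : B} (hx : 0 ≤ x) {c : ℝ} (hc : 0 < c) : ‖rmp c x‖ ≤ 1 := by
  unfold rmp
  refine norm_cfc_le zero_le_one fun s hs => ?_
  have := spectrum_nonneg_of_nonneg hx hs
  rw [Real.norm_of_nonneg (le_min (by positivity) zero_le_one)]
  exact min_le_right _ _

theorem rmp_nm1 {x : B} (hx : 0 ≤ x) {c : ℝ} (hc : 0 < c) : ‖1 - rmp c x‖ ≤ 1 := by
  unfold rmp
  have hsa : IsSelfAdjoint x := IsSelfAdjoint.of_nonneg hx
  have h1 : cfc (fun _ : ℝ => (1 : ℝ)) x = 1 := cfc_const_one ℝ x hsa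
  have e : (1 : B) - cfc (fun s : ℝ => min (s / c) 1) x = cfc (fun s : ℝ => 1 - min (s / c) 1) x := by
    rw [cfc_sub (fun _ : ℝ => (1 : ℝ)) (fun s : ℝ => min (s / c) 1) x (by fun_prop) (by fun_prop),
      h1]
  rw [e]
  refine norm_cfc_le zero_le_one fun s hs => ?_
  have := spectrum_nonneg_of_nonneg hx hs
  have h2 : 0 ≤ min (s / c) 1 := le_min (by positivity) zero_le_one
  have h3 : min (s / c) 1 ≤ 1 := min_le_right _ _
  rw [Real.norm_of_nonneg (by linarith)]
  linarith

theorem pp_nm' {x : B} (hx : 0 ≤ x) {t : ℝ} : ‖pp x t‖ ≤ max (‖x‖ - t) 0 := by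
  unfold pp
  refine norm_cfc_le (le_max_right _ _) fun s hs => ?_
  rw [Real.norm_of_nonneg (le_max_right _ _)]
  exact max_le_max (by linarith [FUN_spec_le hs]) le_rfl

theorem pp_nm {x : B} (hx : 0 ≤ x) {t : ℝ} (ht : 0 ≤ t) : ‖pp x t‖ ≤ ‖x‖ := by
  refine (pp_nm' hx).trans (max_le (by linarith) (norm_nonneg _))

theorem pp_sub {x : B} (hx : 0 ≤ x) {t : ℝ} (ht : 0 ≤ t) : ‖pp x t - x‖ ≤ t := by
  have hsa : IsSelfAdjoint x := IsSelfAdjoint.of_nonneg hx
  unfold pp
  conv_lhs => enter [1, 2]; rw [← cfc_id' ℝ x hsa]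
  rw [← cfc_sub (fun s : ℝ => max (s - t) 0) (fun s : ℝ => s) x (by fun_prop) (by fun_prop)]
  refine norm_cfc_le ht fun s hs => ?_
  have := spectrum_nonneg_of_nonneg hx hs
  rw [Real.norm_eq_abs, abs_le]
  rcases le_total (s - t) 0 with h | h
  · rw [max_eq_right h]; constructor <;> linarith
  · rw [max_eq_left h]; constructor <;> linarith

private theorem FUN_scalar {c s : ℝ} (hc : 0 < c) (hs : 0 ≤ s) :
    max (s - c) 0 * min (s / c) 1 = max (s - c) 0 := by
  rcases le_total (s - c) 0 with h | h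
  · rw [max_eq_right h, zero_mul]
  · have : 1 ≤ s / c := by rw [le_div_iff₀ hc]; linarith
    rw [min_eq_right this, mul_one]

theorem pp_mul_rmp {x : B} (hx : 0 ≤ x) {c : ℝ} (hc : 0 < c) : pp x c * rmp c x = pp x c := by
  unfold pp rmp
  rw [← cfc_mul (fun s : ℝ => max (s - c) 0) (fun s : ℝ => min (s / c) 1) x (by fun_prop)
    (by fun_prop)]
  refine cfc_congr fun s hs => ?_
  exact FUN_scalar hc (spectrum_nonneg_of_nonneg hx hs)

theorem rmp_mul_pp {x : B} (hx : 0 ≤ x) {c : ℝ} (hc : 0 < c) : rmp c x * pp x c = pp x c := by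
  unfold pp rmp
  rw [← cfc_mul (fun s : ℝ => min (s / c) 1) (fun s : ℝ => max (s - c) 0) x (by fun_prop)
    (by fun_prop)]
  refine cfc_congr fun s hs => ?_
  have := FUN_scalar hc (spectrum_nonneg_of_nonneg hx hs)
  rw [mul_comm]
  exact this

omit [PartialOrder B] [StarOrderedRing B] in
private theorem FUN_factor {x : B} (hx : IsSelfAdjoint x) (f : ℝ → ℝ) (hf : Continuous f) :
    IsSelfAdjoint (cfc f x) ∧ cfc f x * x = x * cfc f x ∧ cfc (fun s : ℝ => s * f s) x = x * cfc f x := by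
  have hid : cfc (fun s : ℝ => s) x = x := cfc_id' ℝ x hx
  refine ⟨cfc_predicate _ _, ?_, ?_⟩
  · have h0 := (cfc_commute_cfc f (fun t : ℝ => t) x).eq
    rw [hid] at h0
    exact h0
  · rw [cfc_mul (fun s : ℝ => s) f x continuous_id.continuousOn hf.continuousOn, hid]

theorem pp_factor {x : B} (hx : 0 ≤ x) {c : ℝ} (hc : 0 < c) :
    ∃ k : B, IsSelfAdjoint k ∧ k * x = x * k ∧ pp x c = x * k := by
  have hsa : IsSelfAdjoint x := IsSelfAdjoint.of_nonneg hx
  have hcont : Continuous (fun s : ℝ => max (s - c) 0 / max s c) := by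
    refine Continuous.div (by fun_prop) (by fun_prop) fun s => ?_
    exact (lt_of_lt_of_le hc (le_max_right _ _)).ne'
  obtain ⟨h1, h2, h3⟩ := FUN_factor hsa _ hcont
  refine ⟨_, h1, h2, ?_⟩
  rw [← h3]
  unfold pp
  refine cfc_congr fun s hs => ?_
  have hs0 := spectrum_nonneg_of_nonneg hx hs
  rcases le_total (s - c) 0 with h | h
  · rw [max_eq_right h, zero_div, mul_zero]
  · have h4 : max s c = s := max_eq_left (by linarith)
    rw [h4]
    have : s ≠ 0 := by linarith
    field_simp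

theorem rmp_factor {x : B} (hx : 0 ≤ x) {c : ℝ} (hc : 0 < c) :
    ∃ k : B, IsSelfAdjoint k ∧ k * x = x * k ∧ rmp c x = x * k ∧ ‖k‖ ≤ 1 / c := by
  have hsa : IsSelfAdjoint x := IsSelfAdjoint.of_nonneg hx
  have hcont : Continuous (fun s : ℝ => 1 / max s c) := by
    refine Continuous.div (by fun_prop) (by fun_prop) fun s => ?_
    exact (lt_of_lt_of_le hc (le_max_right _ _)).ne'
  obtain ⟨h1, h2, h3⟩ := FUN_factor hsa _ hcont
  refine ⟨_, h1, h2, ?_, ?_⟩
  · rw [← h3]
    unfold rmp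
    refine cfc_congr fun s hs => ?_
    have hs0 := spectrum_nonneg_of_nonneg hx hs
    rcases le_total s c with h | h
    · rw [max_eq_right h, min_eq_left (by rw [div_le_one hc]; exact h)]
      ring
    · have h5 : s ≠ 0 := by linarith
      rw [max_eq_left h, min_eq_right (by rw [le_div_iff₀ hc]; linarith)]
      field_simp
  · refine norm_cfc_le (by positivity) fun s hs => ?_
    have h6 : c ≤ max s c := le_max_right _ _
    have h7 : 0 < max s c := lt_of_lt_of_le hc h6
    rw [Real.norm_of_nonneg (by positivity)]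
    exact one_div_le_one_div_of_le hc h6

theorem pp_pp {x : B} (hx : 0 ≤ x) {s t : ℝ} (hs : 0 ≤ s) (ht : 0 ≤ t) :
    pp (pp x s) t = pp x (s + t) := by
  have hsa : IsSelfAdjoint x := IsSelfAdjoint.of_nonneg hx
  unfold pp
  rw [← cfc_comp' (fun r : ℝ => max (r - t) 0) (fun r : ℝ => max (r - s) 0) x (by fun_prop)
    (by fun_prop) hsa]
  refine cfc_congr fun r hr => ?_
  rcases le_total (r - s) 0 with h | h
  · rw [max_eq_right h, max_eq_right (by linarith), max_eq_right (by linarith)]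
  · rw [max_eq_left h, sub_sub]

theorem pp_eq_zero_iff {x : B} (hx : 0 ≤ x) {t : ℝ} (ht : 0 ≤ t) : pp x t = 0 ↔ ‖x‖ ≤ t := by
  constructor
  · intro h
    have := pp_sub hx ht
    rw [h, zero_sub, norm_neg] at this
    exact this
  · intro h
    have := pp_nm' (t := t) hx
    rw [max_eq_right (by linarith)] at this
    exact norm_le_zero_iff.mp this

theorem sub_le_pp {x : B} (hx : 0 ≤ x) {t : ℝ} (ht : 0 ≤ t) : x - algebraMap ℝ B t ≤ pp x t := by
  have hsa : IsSelfAdjoint x := IsSelfAdjoint.of_nonneg hx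
  have e : x - algebraMap ℝ B t = cfc (fun s : ℝ => s - t) x := by
    rw [cfc_sub (fun s : ℝ => s) (fun _ : ℝ => t) x (by fun_prop) (by fun_prop),
      cfc_id' ℝ x hsa, cfc_const t x hsa]
  rw [e]
  unfold pp
  exact cfc_mono (fun s _ => le_max_left _ _) (by fun_prop) (by fun_prop)

theorem pp_mul_eq_zero {x z : B} (hx : 0 ≤ x) {t : ℝ} (ht : 0 < t) (h : x * z = 0) :
    pp x t * z = 0 := by
  obtain ⟨k, _, hk, hpk⟩ := pp_factor hx ht
  rw [hpk, ← hk, mul_assoc, h, mul_zero]

theorem rmp_mul_eq_zero {x z : B} (hx : 0 ≤ x) {c : ℝ} (hc : 0 < c) (h : x * z = 0) :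
    rmp c x * z = 0 := by
  obtain ⟨k, _, hk, hpk, _⟩ := rmp_factor hx hc
  rw [hpk, ← hk, mul_assoc, h, mul_zero]

/-- unitality of a plateau: if `1` is fixed by `x` on the left factor `z`, i.e. `x * z = z`, then
also `rmp c x * z = z` for `c ≤ 1`.  (Polynomial-free proof: with `k = 1 / max x c`,
`rmp c x = x k`; `x z = z` gives that `z z^*` commutes with `x` and lives over the spectral
value `1`; alternatively `(1 - rmp c x) = (1 - x) * l` where `l s = (1 - min (s/c) 1)/(1 - s)`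
for `s ≤ c`, and `0` for `s ≥ c`, continuous if `c < 1`.) -/
theorem rmp_mul_of_fix {x z : B} (hx : 0 ≤ x) {c : ℝ} (hc : 0 < c) (hc1 : c < 1)
    (h : x * z = z) : rmp c x * z = z := by
  have hsa : IsSelfAdjoint x := IsSelfAdjoint.of_nonneg hx
  -- `l s = (1 - min (s/c) 1) / (1 - min s c)`
  have hcont : Continuous (fun s : ℝ => (1 - min (s / c) 1) / (1 - min s c)) := by
    refine Continuous.div (by fun_prop) (by fun_prop) fun s => ?_
    have : min s c ≤ c := min_le_right _ _
    have : 0 < 1 - min s c := by linarith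
    exact this.ne'
  have e : (1 : B) - rmp c x = cfc (fun s : ℝ => (1 - min (s / c) 1) / (1 - min s c)) x * (1 - x) := by
    unfold rmp
    have h1 : cfc (fun _ : ℝ => (1 : ℝ)) x = 1 := cfc_const_one ℝ x hsa
    have hid : cfc (fun s : ℝ => s) x = x := cfc_id' ℝ x hsa
    have e1 : (1 : B) - cfc (fun s : ℝ => min (s / c) 1) x =
        cfc (fun s : ℝ => 1 - min (s / c) 1) x := by
      rw [cfc_sub (fun _ : ℝ => (1 : ℝ)) (fun s : ℝ => min (s / c) 1) x (by fun_prop)
        (by fun_prop), h1]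
    have e2 : (1 : B) - x = cfc (fun s : ℝ => 1 - s) x := by
      rw [cfc_sub (fun _ : ℝ => (1 : ℝ)) (fun s : ℝ => s) x (by fun_prop)
        (by fun_prop), h1, hid]
    rw [e1, e2, ← cfc_mul _ (fun s : ℝ => 1 - s) x hcont.continuousOn (by fun_prop)]
    refine cfc_congr fun s hs => ?_
    rcases le_total s c with h' | h'
    · rw [min_eq_left h']
      have : (1 : ℝ) - s ≠ 0 := by linarith
      field_simp
    · have h8 : 1 ≤ s / c := by rw [le_div_iff₀ hc]; linarith
      rw [min_eq_right h8, sub_self, zero_div, zero_mul]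
  have e3 : ((1 : B) - rmp c x) * z = 0 := by
    rw [e, mul_assoc, sub_mul, one_mul, h, sub_self, mul_zero]
  rw [sub_mul, one_mul, sub_eq_zero] at e3
  exact e3.symm

end MUP
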