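import Pool.Agent.MUP.GSM

/-!
MUP / GSB.  The element `a = pp g (1/4)` as an orthogonal strict sum.

By `g_sum`, `g = gel α Z` is the strict sum of an orthogonal family (`OFam.of_supp` with
`D = Rb u`, `bseq_Rb`) of positive elements `g_j = R_j s = t R_j` with `‖g_j‖ ≤ 2`.  So
`pp g (1/4)` is the strict sum of `a_j = pp (g_j) (1/4)` (`IsSum.pp`), `a_j ≥ 0` (`pp_nonneg`),
`‖a_j‖ ≤ ‖g_j‖ ≤ 2` (`pp_nm`), and `a_j = g_j k = k g_j` (`pp_factor`) is supported by `R_j`.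
-/

open Filter Topology

namespace MUP

variable {M : Type*} [CStarAlgebra M] [PartialOrder M] [StarOrderedRing M]
  {K : Set M} {u z : ℕ → M} {y α Z : M}

theorem a_sum (hK : MultPair K) (hu : Frame K u) (hy : 0 ≤ y) (hy1 : ‖y‖ ≤ 1)
    (hα : IsSum K (fun j => Nb u j * y * Nb u j) α)
    (hZ : IsSum K z Z) (hz : ∀ k, ‖z k‖ ≤ 2) (hZn : ‖star Z * Z‖ ≤ 21 / 20)
    (h1 : ∀ k, ∃ s, z k = Gb u k * s) (h2 : ∀ k, ∃ t, z k = t * Gb u k) :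
    ∃ a : ℕ → M, IsSum K a (pp (gel α Z) (1 / 4)) ∧ (∀ j, 0 ≤ a j) ∧
      (∀ j, ‖a j‖ ≤ 2) ∧ (∀ j, ∃ s, a j = Rb u j * s) ∧ ∀ j, ∃ t, a j = t * Rb u j := by
  obtain ⟨-, -, g, hg, gpos, gnm, gL, gR⟩ := g_sum hK hu hy hy1 hα hZ hz hZn h1 h2
  have gO : OFam K u g 2 := OFam.of_supp hK hu bseq_Rb gnm gL gR
  have gsa : ∀ j, IsSelfAdjoint (g j) := fun j => IsSelfAdjoint.of_nonneg (gpos j)
  refine ⟨fun j => pp (g j) (1 / 4), IsSum.pp hK hu gO gsa hg (by norm_num),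
    fun j => pp_nonneg _ _, fun j => (pp_nm (gpos j) (by norm_num)).trans (gnm j), ?_, ?_⟩
  · intro j
    obtain ⟨κ, -, -, hκ⟩ := pp_factor (gpos j) (c := 1 / 4) (by norm_num)
    obtain ⟨s, hs⟩ := gL j
    refine ⟨s * κ, ?_⟩
    show pp (g j) (1 / 4) = Rb u j * (s * κ)
    rw [hκ, hs, mul_assoc]
  · intro j
    obtain ⟨κ, -, hc, hκ⟩ := pp_factor (gpos j) (c := 1 / 4) (by norm_num)
    obtain ⟨t, ht⟩ := gR j
    refine ⟨κ * t, ?_⟩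
    show pp (g j) (1 / 4) = κ * t * Rb u j
    rw [hκ, ← hc, mul_assoc, ← ht]

end MUP
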