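import Pool.Agent.MUP.GWS

/-!
MUP / GSM.  The element `g = α + pp (Z Z^*) (1/4)` as an orthogonal strict sum.

Data: `0 ≤ y`, `‖y‖ ≤ 1`, `α` the strict sum of `N_j y N_j` (`N_j = Nb u j`), `Z` the strict sum
of `z_k = G_k s = t G_k`, `‖z_k‖ ≤ 2`, and `‖Z^* Z‖ ≤ 21/20`.  `w_k` as in GWS.

`g_j = N_j y N_j + (w_{2j} + w_{2j+1})` (`IsSum.pair`, `IsSum.add`), `g_j ≥ 0`,
`g_j = R_j s = t R_j` (`R_j = Rb u j` absorbs `N_j, G_{2j}, G_{2j+1}`: `Rb_Nb`, `Rb_Gb`, and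
adjoints / `blk_comm`).  The strict sum is `g = gel α Z`.  First, with the crude bound
`‖g_j‖ ≤ 1 + 4 + 4`, `OFam.of_supp` makes `g_j` an orthogonal family, hence `0 ≤ g`
(`IsSum.nonneg`), and `R_j g = g_j` by `IsSum.mul_left` and uniqueness (`R_j g_i = 0` for
`i ≠ j`; the family `R_j g_i` is the family which is `g_j` for `i = j` and `0` otherwise; compare
with `IsSum.of_eventually_zero`).  Since
`‖g‖ ≤ ‖α‖ + ‖pp (Z Z^*) (1/4)‖ ≤ 1 + max (‖Z Z^*‖ - 1/4) 0 ≤ 1 + 4/5 ≤ 2`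
(`‖α‖ ≤ 1` by `OFam.norm_le`; `pp_nm'`; `‖Z Z^*‖ = ‖Z^* Z‖ ≤ 21/20`), we get
`‖g_j‖ = ‖R_j g‖ ≤ 2`.
-/

open Filter Topology

namespace MUP

variable {M : Type*} [CStarAlgebra M] [PartialOrder M] [StarOrderedRing M]
  {K : Set M} {u z : ℕ → M} {y α Z : M}

theorem g_sum (hK : MultPair K) (hu : Frame K u) (hy : 0 ≤ y) (hy1 : ‖y‖ ≤ 1)
    (hα : IsSum K (fun j => Nb u j * y * Nb u j) α)
    (hZ : IsSum K z Z) (hz : ∀ k, ‖z k‖ ≤ 2) (hZn : ‖star Z * Z‖ ≤ 21 / 20)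
    (h1 : ∀ k, ∃ s, z k = Gb u k * s) (h2 : ∀ k, ∃ t, z k = t * Gb u k) :
    0 ≤ gel α Z ∧ ‖gel α Z‖ ≤ 2 ∧ ∃ g : ℕ → M, IsSum K g (gel α Z) ∧ (∀ j, 0 ≤ g j) ∧
      (∀ j, ‖g j‖ ≤ 2) ∧ (∀ j, ∃ s, g j = Rb u j * s) ∧ ∀ j, ∃ t, g j = t * Rb u j := by
  obtain ⟨hw, hwL, hwR⟩ := w_sum hK hu hZ hz h1 h2
  have hN : ∀ j, IsSelfAdjoint (Nb u j) := fun j => BSeq.sa hu bseq_Nb j
  have hR : ∀ j, IsSelfAdjoint (Rb u j) := fun j => BSeq.sa hu bseq_Rb j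
  have hNn : ∀ j, ‖Nb u j‖ ≤ 1 := fun j => BSeq.nm hu bseq_Nb j
  have hRn : ∀ j, ‖Rb u j‖ ≤ 1 := fun j => BSeq.nm hu bseq_Rb j
  obtain ⟨w, hwd⟩ : ∃ w : ℕ → M, ∀ k, w k = pp (z k * star (z k)) (1 / 4) := ⟨_, fun _ => rfl⟩
  have hwe : (fun k => pp (z k * star (z k)) (1 / 4)) = w := (funext hwd).symm
  rw [hwe] at hw
  simp only [← hwd] at hwL hwR
  have hw0 : ∀ k, 0 ≤ w k := fun k => by
    rw [hwd]
    exact pp_nonneg _ _
  have hwn : ∀ k, ‖w k‖ ≤ 4 := fun k => by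
    rw [hwd]
    refine (pp_nm (mul_star_self_nonneg (z k)) (by norm_num)).trans ?_
    calc ‖z k * star (z k)‖ ≤ ‖z k‖ * ‖star (z k)‖ := norm_mul_le _ _
      _ = ‖z k‖ * ‖z k‖ := by rw [norm_star]
      _ ≤ 2 * 2 := mul_le_mul (hz k) (hz k) (norm_nonneg _) (by norm_num)
      _ = 4 := by norm_num
  have hNyn : ∀ j, ‖Nb u j * y * Nb u j‖ ≤ 1 := fun j => by
    calc ‖Nb u j * y * Nb u j‖ ≤ ‖Nb u j * y‖ * ‖Nb u j‖ := norm_mul_le _ _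
      _ ≤ (‖Nb u j‖ * ‖y‖) * ‖Nb u j‖ :=
          mul_le_mul_of_nonneg_right (norm_mul_le _ _) (norm_nonneg _)
      _ ≤ (1 * 1) * 1 := by
          refine mul_le_mul (mul_le_mul (hNn j) hy1 (norm_nonneg _) zero_le_one) (hNn j)
            (norm_nonneg _) (by norm_num)
      _ = 1 := by norm_num
  -- the family
  obtain ⟨g, hgd⟩ : ∃ g : ℕ → M, ∀ j, g j = Nb u j * y * Nb u j + (w (2 * j) + w (2 * j + 1)) :=
    ⟨_, fun _ => rfl⟩
  have hge : (fun j => Nb u j * y * Nb u j + (w (2 * j) + w (2 * j + 1))) = g :=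
    (funext hgd).symm
  have hg : IsSum K g (gel α Z) := by
    have h := hα.add hw.pair
    rw [hge] at h
    exact h
  have hg0 : ∀ j, 0 ≤ g j := fun j => by
    rw [hgd]
    exact add_nonneg ((hN j).conjugate_nonneg hy) (add_nonneg (hw0 _) (hw0 _))
  have hgn : ∀ j, ‖g j‖ ≤ 9 := fun j => by
    rw [hgd]
    calc ‖Nb u j * y * Nb u j + (w (2 * j) + w (2 * j + 1))‖
        ≤ ‖Nb u j * y * Nb u j‖ + ‖w (2 * j) + w (2 * j + 1)‖ := norm_add_le _ _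
      _ ≤ ‖Nb u j * y * Nb u j‖ + (‖w (2 * j)‖ + ‖w (2 * j + 1)‖) := by
          gcongr
          exact norm_add_le _ _
      _ ≤ 1 + (4 + 4) := add_le_add (hNyn j) (add_le_add (hwn _) (hwn _))
      _ = 9 := by norm_num
  -- support
  have hRG : ∀ j k, k = 2 * j ∨ k = 2 * j + 1 → Rb u j * w k = w k := fun j k hk => by
    obtain ⟨s, hs⟩ := hwL k
    have h := Rb_Gb hu j k
    rw [if_pos hk] at h
    rw [hs, ← mul_assoc, h]
  have hRg : ∀ j, Rb u j * g j = g j := fun j => by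
    have h := Rb_Nb hu j j
    rw [if_pos rfl] at h
    rw [hgd, mul_add, mul_add, hRG j _ (Or.inl rfl), hRG j _ (Or.inr rfl), ← mul_assoc,
      ← mul_assoc, h]
  have hgR : ∀ j, g j * Rb u j = g j := fun j => by
    have h := congrArg star (hRg j)
    rwa [star_mul, (hR j).star_eq, (hg0 j).isSelfAdjoint.star_eq] at h
  have hL : ∀ j, ∃ s, g j = Rb u j * s := fun j => ⟨g j, (hRg j).symm⟩
  have hRt : ∀ j, ∃ t, g j = t * Rb u j := fun j => ⟨g j, (hgR j).symm⟩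
  have hO : OFam K u g 9 := OFam.of_supp hK hu bseq_Rb hgn hL hRt
  have hpos : 0 ≤ gel α Z := IsSum.nonneg hK hg hg0 fun N => hO.partial_le _
  -- norm
  have hαn : ‖α‖ ≤ 1 := by
    refine OFam.norm_le hK (OFam.of_supp hK hu bseq_Nb (x := fun j => Nb u j * y * Nb u j) hNyn
      (fun j => ⟨y * Nb u j, by rw [mul_assoc]⟩) fun j => ⟨Nb u j * y, rfl⟩) hα
  have hZn' : ‖Z * star Z‖ ≤ 21 / 20 := by
    rwa [CStarRing.norm_self_mul_star, ← CStarRing.norm_star_mul_self]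
  have hpn : ‖pp (Z * star Z) (1 / 4)‖ ≤ 4 / 5 := by
    refine (pp_nm' (mul_star_self_nonneg Z)).trans (max_le ?_ (by norm_num))
    linarith
  have hn : ‖gel α Z‖ ≤ 2 := by
    have h : ‖gel α Z‖ ≤ ‖α‖ + ‖pp (Z * star Z) (1 / 4)‖ := norm_add_le _ _
    linarith
  refine ⟨hpos, hn, g, hg, hg0, fun j => ?_, hL, hRt⟩
  have h3 : IsSum K (fun i => Rb u j * g i) (Rb u j * gel α Z) := hg.mul_left hK _
  have hz0 : ∀ i, i ≠ j → Rb u j * g i = 0 := fun i hi => by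
    have h := BSeq.orth hu (bseq_Rb (u := u)) (Ne.symm hi)
    rw [← hRg i, ← mul_assoc, h, zero_mul]
  have h4 : IsSum K (fun i => Rb u j * g i) (∑ i ∈ Finset.range (j + 1), Rb u j * g i) :=
    IsSum.of_eventually_zero fun i hi => hz0 i (by omega)
  have h5 : ∑ i ∈ Finset.range (j + 1), Rb u j * g i = g j := by
    rw [Finset.sum_eq_single_of_mem j (by simp) fun i _ hi => hz0 i hi, hRg]
  rw [h5] at h4
  have h6 := h4.unique hK h3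
  rw [h6]
  calc ‖Rb u j * gel α Z‖ ≤ ‖Rb u j‖ * ‖gel α Z‖ := norm_mul_le _ _
    _ ≤ 1 * 2 := mul_le_mul (hRn j) hn (norm_nonneg _) zero_le_one
    _ = 2 := one_mul _

end MUP
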