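import Pool.Agent.MUP.FUN
import Pool.Agent.MUP.ISC
import Pool.Agent.MUP.BLB

/-!
MUP / GWS.  The wall part `pp (Z Z^*) (1/4)` as a strict sum.

`Z` is the strict sum of `z_k = G_k s = t G_k` (`G_k = Gb u k`), `‖z_k‖ ≤ 2`.
`Z Z^*` is the strict sum of `z_k z_k^*` (`IsSum.mul`, `IsSum.star`; `z_k z_l^* = 0` for
`k ≠ l`), an orthogonal family (`OFam.of_supp`) supported by `Gb u` with norms `≤ 4`: with
`z = G s`, `z z^* = G (s z^*) = (z s^*) G`.  So `pp (Z Z^*) (1/4)` is the strict sum of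
`w_k = pp (z_k z_k^*) (1/4)` (`IsSum.pp`), and with `pp x (1/4) = x k = k x` (`pp_factor` for
`x = z_k z_k^*`), `w_k = G_k (s z^* k)` and `w_k = (k z s^*) G_k`.
-/

open Filter Topology

namespace MUP

variable {M : Type*} [CStarAlgebra M] [PartialOrder M] [StarOrderedRing M]
  {K : Set M} {u z : ℕ → M} {y α Z : M}

theorem w_sum (hK : MultPair K) (hu : Frame K u) (hZ : IsSum K z Z) (hz : ∀ k, ‖z k‖ ≤ 2)
    (h1 : ∀ k, ∃ s, z k = Gb u k * s) (h2 : ∀ k, ∃ t, z k = t * Gb u k) :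
    IsSum K (fun k => pp (z k * star (z k)) (1 / 4)) (pp (Z * star Z) (1 / 4)) ∧
      (∀ k, ∃ s, pp (z k * star (z k)) (1 / 4) = Gb u k * s) ∧
      ∀ k, ∃ t, pp (z k * star (z k)) (1 / 4) = t * Gb u k := by
  have hz' : OFam K u z 2 := OFam.of_supp hK hu bseq_Gb hz h1 h2
  have hG : ∀ k, IsSelfAdjoint (Gb u k) := fun k => BSeq.sa hu bseq_Gb k
  -- partial sums
  have hpz : ∀ N, ‖∑ j ∈ Finset.range N, z j‖ ≤ 2 := fun N => hz'.partial_le _
  have hpz' : ∀ N, ‖∑ j ∈ Finset.range N, star (z j)‖ ≤ 2 := by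
    intro N
    rw [← star_sum, norm_star]
    exact hpz N
  have hsum : IsSum K (fun k => z k * star (z k)) (Z * star Z) :=
    IsSum.mul hK hZ (IsSum.star hK hZ) hpz hpz' (fun i j hij => hz'.o2 i j hij)
  have hzn : ∀ k, ‖z k * star (z k)‖ ≤ 4 := by
    intro k
    calc ‖z k * star (z k)‖ ≤ ‖z k‖ * ‖star (z k)‖ := norm_mul_le _ _
      _ = ‖z k‖ * ‖z k‖ := by rw [norm_star]
      _ ≤ 2 * 2 := mul_le_mul (hz k) (hz k) (norm_nonneg _) (by norm_num)
      _ = 4 := by norm_num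
  have hL : ∀ k, ∃ s, z k * star (z k) = Gb u k * s := by
    intro k
    obtain ⟨s, hs⟩ := h1 k
    refine ⟨s * star (z k), ?_⟩
    rw [← mul_assoc, ← hs]
  have hR : ∀ k, ∃ t, z k * star (z k) = t * Gb u k := by
    intro k
    obtain ⟨s, hs⟩ := h1 k
    refine ⟨z k * star s, ?_⟩
    have : star (z k) = star s * Gb u k := by
      rw [hs, star_mul, (hG k).star_eq]
    rw [mul_assoc, ← this]
  have hO : OFam K u (fun k => z k * star (z k)) 4 := OFam.of_supp hK hu bseq_Gb hzn hL hR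
  have hsa : ∀ k, IsSelfAdjoint (z k * star (z k)) := fun k => IsSelfAdjoint.mul_star_self _
  have hpos : ∀ k, 0 ≤ z k * star (z k) := fun k => mul_star_self_nonneg _
  refine ⟨IsSum.pp hK hu hO hsa hsum (by norm_num), ?_, ?_⟩
  · intro k
    obtain ⟨κ, -, -, hκ⟩ := pp_factor (hpos k) (c := 1 / 4) (by norm_num)
    obtain ⟨s, hs⟩ := hL k
    refine ⟨s * κ, ?_⟩
    rw [hκ, hs, mul_assoc]
  · intro k
    obtain ⟨κ, -, hc, hκ⟩ := pp_factor (hpos k) (c := 1 / 4) (by norm_num)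
    obtain ⟨t, ht⟩ := hR k
    refine ⟨κ * t, ?_⟩
    rw [hκ, ← hc, mul_assoc, ← ht]

end MUP
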