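import Pool.Agent.MUP.ISB
import Pool.Agent.MUP.CFM

/-!
MUP / ICA.  Functional calculus of orthogonal families.

Let `x` be an orthogonal family of selfadjoint elements, `‖x_j‖ ≤ C`, and let `f : ℝ → ℝ` be
continuous with `f 0 = 0` and `|f| ≤ D` on `[-C, C]`.  Then `j ↦ cfc f (x_j)` is an orthogonal
family with bound `D`: membership `cfc_mem`; norm `norm_cfc_le` (the spectrum of `x_j` is
contained in `[-C, C]`); orthogonality: `x_i x_j = 0` gives `cfc f x_i * x_j = 0`
(`cfc_mul_zero`) and then `cfc f x_i * cfc f x_j = 0` (`mul_cfc_zero`); localisation: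
`x_j u_l = 0 → cfc f (x_j) u_l = 0`, `u_l x_j = 0 → u_l cfc f (x_j) = 0`.
-/

open Filter Topology

namespace MUP

variable {M : Type*} [CStarAlgebra M] {K : Set M} {u x : ℕ → M} {s : M} {C : ℝ}

theorem OFam.cfc (hK : MultPair K) (hu : Frame K u) (hx : OFam K u x C)
    (hsa : ∀ j, IsSelfAdjoint (x j)) {f : ℝ → ℝ} (hf : Continuous f) (hf0 : f 0 = 0) {D : ℝ}
    (hD : ∀ r : ℝ, |r| ≤ C → |f r| ≤ D) : OFam K u (fun j => _root_.cfc f (x j)) D := by
  have hC := hx.C_nonneg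
  have hD0 : 0 ≤ D := (abs_nonneg _).trans (hD 0 (by simpa using hC))
  have hs : ∀ j, IsSelfAdjoint (_root_.cfc f (x j)) := fun j => cfc_predicate f (x j)
  have hz : ∀ i j, i ≠ j → x i * x j = 0 := by
    intro i j hij
    have h := hx.o1 i j hij
    rwa [(hsa i).star_eq] at h
  have ho : ∀ i j, i ≠ j → _root_.cfc f (x i) * _root_.cfc f (x j) = 0 := by
    intro i j hij
    exact mul_cfc_zero (hsa j) hf hf0 (cfc_mul_zero (hsa i) hf hf0 (hz i j hij))
  refine ⟨fun j => cfc_mem hK.idl (hsa j) (hx.mem j) hf hf0, ?_, ?_, ?_, ?_⟩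
  · intro j
    refine norm_cfc_le hD0 fun r hr => ?_
    rw [Real.norm_eq_abs]
    refine hD r ?_
    have h1 : ‖r‖ ≤ ‖x j‖ * ‖(1 : M)‖ := spectrum.norm_le_norm_mul_of_mem hr
    have h2 : ‖(1 : M)‖ ≤ 1 := by
      rcases subsingleton_or_nontrivial M with h | h
      · rw [Subsingleton.elim (1 : M) 0, norm_zero]
        exact zero_le_one
      · exact (CStarRing.norm_one (E := M)).le
    rw [← Real.norm_eq_abs]
    calc ‖r‖ ≤ ‖x j‖ * ‖(1 : M)‖ := h1
      _ ≤ C * 1 := mul_le_mul (hx.bd j) h2 (norm_nonneg _) hC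
      _ = C := mul_one C
  · intro i j hij
    rw [(hs i).star_eq]
    exact ho i j hij
  · intro i j hij
    rw [(hs j).star_eq]
    exact ho i j hij
  · intro l
    filter_upwards [hx.loc l] with j hj
    exact ⟨cfc_mul_zero (hsa j) hf hf0 hj.1, mul_cfc_zero (hsa j) hf hf0 hj.2⟩

end MUP
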