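import Pool.Agent.MUP.Defs

/-!
MUP / ISA.  Calculus of strict sums, part A (`IsSum K x s`: the partial sums `S_N` of `x`
satisfy `S_N a → s a` and `a S_N → a s` for all `a ∈ K`).

* `unique`: `(s - s') a = 0` for all `a ∈ K`, so `‖s - s'‖ ≤ 0` by `MultPair.nrm` with `C = 0`.
* `mul_left`: `(∑ m x_j) a = m (S_N a) → m s a`; `a (m S_N) = (a m) S_N` with `a m ∈ K`.
* `mul_right`, `star` (`a ∈ K → a^* ∈ K`, `star` is continuous), `add`, `sub`: similar.
* `norm_le`: `‖s a‖ = lim ‖S_N a‖ ≤ C ‖a‖`, so `‖s‖ ≤ C` by `MultPair.nrm`.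
* `norm_le_tsum`: `‖S_N‖ ≤ ∑_{j<N} δ_j ≤ ∑' δ`.
* `mul`: if the partial sums of `x` are bounded by `C` and `x_i y_j = 0` for `i ≠ j`, then
  `S_N T_N = ∑_{j<N} x_j y_j`, and
  `S_N T_N a = S_N (T_N a - t a) + S_N (t a) → s t a` since `t a ∈ K`; for the other side one
  needs `a S_N T_N = (a S_N - a s) T_N + a s T_N → a s t`, so also a bound on the partial sums of
  `y` is assumed.
* `pair`: the partial sums of `j ↦ x (2j) + x (2j+1)` are the even partial sums of `x`.
* `sa`: from `star` and `unique`.
* `of_eventually_zero`: a finite sum.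
-/

open Filter Topology

namespace MUP

variable {M : Type*} [CStarAlgebra M] {K : Set M} {x y : ℕ → M} {s t : M}

theorem IsSum.unique (hK : MultPair K) {s' : M} (h : IsSum K x s) (h' : IsSum K x s') :
    s = s' := by
  have h0 : ‖s - s'‖ ≤ 0 := by
    refine hK.nrm _ _ le_rfl fun a ha => ?_
    have e := tendsto_nhds_unique (h.1 a ha) (h'.1 a ha)
    rw [sub_mul, e, sub_self, norm_zero, zero_mul]
  exact sub_eq_zero.mp (norm_le_zero_iff.mp h0)

theorem IsSum.mul_left (hK : MultPair K) (h : IsSum K x s) (m : M) :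
    IsSum K (fun j => m * x j) (m * s) := by
  constructor
  · intro a ha
    have h1 := (h.1 a ha).const_mul m
    rw [← mul_assoc] at h1
    refine h1.congr fun N => ?_
    rw [← Finset.mul_sum, mul_assoc]
  · intro a ha
    have h1 := h.2 (a * m) (hK.idl.mul_right m a ha)
    rw [mul_assoc] at h1
    refine h1.congr fun N => ?_
    rw [← Finset.mul_sum, mul_assoc]

theorem IsSum.mul_right (hK : MultPair K) (h : IsSum K x s) (m : M) :
    IsSum K (fun j => x j * m) (s * m) := by
  constructor
  · intro a ha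
    have h1 := h.1 (m * a) (hK.idl.mul_left m a ha)
    rw [← mul_assoc] at h1
    refine h1.congr fun N => ?_
    rw [← Finset.sum_mul, mul_assoc]
  · intro a ha
    have h1 := (h.2 a ha).mul_const m
    rw [mul_assoc] at h1
    refine h1.congr fun N => ?_
    rw [← Finset.sum_mul, mul_assoc]

theorem IsSum.add (h : IsSum K x s) (h' : IsSum K y t) :
    IsSum K (fun j => x j + y j) (s + t) := by
  constructor
  · intro a ha
    have h1 := (h.1 a ha).add (h'.1 a ha)
    rw [← add_mul] at h1
    refine h1.congr fun N => ?_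
    rw [Finset.sum_add_distrib, add_mul]
  · intro a ha
    have h1 := (h.2 a ha).add (h'.2 a ha)
    rw [← mul_add] at h1
    refine h1.congr fun N => ?_
    rw [Finset.sum_add_distrib, mul_add]

theorem IsSum.sub (h : IsSum K x s) (h' : IsSum K y t) :
    IsSum K (fun j => x j - y j) (s - t) := by
  constructor
  · intro a ha
    have h1 := (h.1 a ha).sub (h'.1 a ha)
    rw [← sub_mul] at h1
    refine h1.congr fun N => ?_
    rw [Finset.sum_sub_distrib, sub_mul]
  · intro a ha
    have h1 := (h.2 a ha).sub (h'.2 a ha)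
    rw [← mul_sub] at h1
    refine h1.congr fun N => ?_
    rw [Finset.sum_sub_distrib, mul_sub]

theorem IsSum.star (hK : MultPair K) (h : IsSum K x s) :
    IsSum K (fun j => star (x j)) (star s) := by
  constructor
  · intro a ha
    have h1 := (h.2 (Star.star a) (hK.star_mem a ha)).star
    rw [star_mul, star_star] at h1
    refine h1.congr fun N => ?_
    rw [star_mul, star_star, star_sum]
  · intro a ha
    have h1 := (h.1 (Star.star a) (hK.star_mem a ha)).star
    rw [star_mul, star_star] at h1
    refine h1.congr fun N => ?_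
    rw [star_mul, star_star, star_sum]

theorem IsSum.norm_le (hK : MultPair K) (h : IsSum K x s) {C : ℝ} (hC : 0 ≤ C)
    (hb : ∀ N, ‖∑ j ∈ Finset.range N, x j‖ ≤ C) : ‖s‖ ≤ C := by
  refine hK.nrm _ _ hC fun a ha => ?_
  refine le_of_tendsto (h.1 a ha).norm (Eventually.of_forall fun N => ?_)
  exact (norm_mul_le _ _).trans (mul_le_mul_of_nonneg_right (hb N) (norm_nonneg a))

theorem IsSum.norm_le_tsum (hK : MultPair K) (h : IsSum K x s) {δ : ℕ → ℝ} (hδ : Summable δ)
    (hb : ∀ j, ‖x j‖ ≤ δ j) : ‖s‖ ≤ ∑' j, δ j := by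
  have h0 : ∀ j, 0 ≤ δ j := fun j => (norm_nonneg _).trans (hb j)
  refine h.norm_le hK (tsum_nonneg h0) fun N => ?_
  refine (norm_sum_le _ _).trans ?_
  refine (Finset.sum_le_sum fun j _ => hb j).trans ?_
  exact hδ.sum_le_tsum _ fun j _ => h0 j

theorem IsSum.mul (hK : MultPair K) (h : IsSum K x s) (h' : IsSum K y t) {C D : ℝ}
    (hC : ∀ N, ‖∑ j ∈ Finset.range N, x j‖ ≤ C) (hD : ∀ N, ‖∑ j ∈ Finset.range N, y j‖ ≤ D)
    (o : ∀ i j, i ≠ j → x i * y j = 0) : IsSum K (fun j => x j * y j) (s * t) := by
  have key : ∀ N, (∑ j ∈ Finset.range N, x j) * (∑ j ∈ Finset.range N, y j)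
      = ∑ j ∈ Finset.range N, x j * y j := by
    intro N
    rw [Finset.sum_mul_sum]
    refine Finset.sum_congr rfl fun i hi => ?_
    refine Finset.sum_eq_single_of_mem i hi fun j _ hj => ?_
    exact o i j hj.symm
  constructor
  · intro a ha
    have h1 : Tendsto (fun N => (∑ j ∈ Finset.range N, x j) *
        ((∑ j ∈ Finset.range N, y j) * a - t * a)) atTop (𝓝 0) := by
      have h2 : Tendsto (fun N => C * ‖(∑ j ∈ Finset.range N, y j) * a - t * a‖) atTop
          (𝓝 0) := by
        have h3 := ((h'.1 a ha).sub_const (t * a)).norm.const_mul C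
        rwa [sub_self, norm_zero, mul_zero] at h3
      refine squeeze_zero_norm (fun N => ?_) h2
      exact (norm_mul_le _ _).trans (mul_le_mul_of_nonneg_right (hC N) (norm_nonneg _))
    have h4 := h1.add (h.1 (t * a) (hK.idl.mul_left t a ha))
    rw [zero_add, ← mul_assoc] at h4
    refine h4.congr fun N => ?_
    rw [← key N]
    noncomm_ring
  · intro a ha
    have h1 : Tendsto (fun N => (a * (∑ j ∈ Finset.range N, x j) - a * s) *
        (∑ j ∈ Finset.range N, y j)) atTop (𝓝 0) := by
      have h2 : Tendsto (fun N => ‖a * (∑ j ∈ Finset.range N, x j) - a * s‖ * D) atTop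
          (𝓝 0) := by
        have h3 := ((h.2 a ha).sub_const (a * s)).norm.mul_const D
        rwa [sub_self, norm_zero, zero_mul] at h3
      refine squeeze_zero_norm (fun N => ?_) h2
      exact (norm_mul_le _ _).trans (mul_le_mul_of_nonneg_left (hD N) (norm_nonneg _))
    have h4 := h1.add (h'.2 (a * s) (hK.idl.mul_right s a ha))
    rw [zero_add, mul_assoc] at h4
    refine h4.congr fun N => ?_
    rw [← key N]
    noncomm_ring

theorem IsSum.pair (h : IsSum K x s) : IsSum K (fun j => x (2 * j) + x (2 * j + 1)) s := by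
  have key : ∀ N, ∑ j ∈ Finset.range N, (x (2 * j) + x (2 * j + 1))
      = ∑ j ∈ Finset.range (2 * N), x j := by
    intro N
    induction N with
    | zero => simp
    | succ N ih =>
      rw [Finset.sum_range_succ, ih, show 2 * (N + 1) = 2 * N + 1 + 1 from by ring,
        Finset.sum_range_succ, Finset.sum_range_succ, add_assoc]
  have h2 : Tendsto (fun N : ℕ => 2 * N) atTop atTop :=
    tendsto_id.const_mul_atTop' two_pos
  constructor
  · intro a ha
    refine ((h.1 a ha).comp h2).congr fun N => ?_
    rw [key N, Function.comp_apply]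
  · intro a ha
    refine ((h.2 a ha).comp h2).congr fun N => ?_
    rw [key N, Function.comp_apply]

theorem IsSum.sa (hK : MultPair K) (h : IsSum K x s) (hx : ∀ j, IsSelfAdjoint (x j)) :
    IsSelfAdjoint s := by
  have h1 := h.star hK
  have e : (fun j => Star.star (x j)) = x := funext fun j => (hx j).star_eq
  rw [e] at h1
  exact h1.unique hK h

theorem IsSum.of_eventually_zero {n : ℕ} (hx : ∀ j, n ≤ j → x j = 0) :
    IsSum K x (∑ j ∈ Finset.range n, x j) := by
  have key : ∀ N, n ≤ N → ∑ j ∈ Finset.range N, x j = ∑ j ∈ Finset.range n, x j := by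
    intro N hN
    refine (Finset.sum_subset (Finset.range_mono hN) fun j _ hj => ?_).symm
    exact hx j (by simpa using hj)
  constructor
  · intro a _
    refine tendsto_const_nhds.congr' ?_
    filter_upwards [eventually_ge_atTop n] with N hN
    rw [key N hN]
  · intro a _
    refine tendsto_const_nhds.congr' ?_
    filter_upwards [eventually_ge_atTop n] with N hN
    rw [key N hN]

theorem IsSum.congr (h : IsSum K x s) (hxy : ∀ j, x j = y j) : IsSum K y s := by
  have e : x = y := funext hxy
  rw [← e]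
  exact h

end MUP
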