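import Pool.Agent.MUP.Defs

/-!
MUP / ORT.  The norm of an orthogonal sum.

Let `x j` (`j ∈ ℕ`) satisfy `x_i^* x_j = 0 = x_i x_j^*` for `i ≠ j` and `‖x_j‖ ≤ C`.  Then
`‖∑_{j ∈ s} x_j‖ ≤ C` for every finite `s`.

Proof.  Let `T = ∑_{j ∈ s} x_j`.  Then `T^* T = ∑ x_j^* x_j` and the positive elements
`a_j = x_j^* x_j` satisfy `a_i a_j = x_i^* (x_i x_j^*) x_j = 0` for `i ≠ j`.  Therefore
`(T^* T)^m = ∑ a_j^m` for `m ≥ 1` (induction) and
`‖T‖^{2m} = ‖(T^* T)^m‖ ≤ |s| C^{2m}` for `m = 2^k`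
(`IsSelfAdjoint.norm_pow_two_pow`-type lemmas, or `‖a^2‖ = ‖a‖^2` for selfadjoint `a` by
induction).  Hence `‖T‖ ≤ |s|^{1/(2m)} C` for all `m = 2^k`, and `k → ∞` gives `‖T‖ ≤ C`
(if `‖T‖ > C ≥ 0` and `C > 0` then `(‖T‖/C)^{2m} → ∞`; if `C = 0` then all `x_j = 0`).

Alternative: induction on `s` with the two-element statement
`‖a + b‖ ≤ max ‖a‖ ‖b‖` for `a^* b = 0 = a b^*`.
-/

open Filter Topology

namespace MUP

variable {B : Type*} [CStarAlgebra B]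

theorem norm_sum_orth {x : ℕ → B} {C : ℝ} (hC : 0 ≤ C) (hb : ∀ j, ‖x j‖ ≤ C)
    (o1 : ∀ i j, i ≠ j → star (x i) * x j = 0) (o2 : ∀ i j, i ≠ j → x i * star (x j) = 0)
    (s : Finset ℕ) : ‖∑ j ∈ s, x j‖ ≤ C := by
  classical
  set T : B := ∑ j ∈ s, x j with hT
  have h1 : star T * T = ∑ j ∈ s, star (x j) * x j := by
    rw [hT, star_sum, Finset.sum_mul]
    refine Finset.sum_congr rfl fun i hi => ?_
    rw [Finset.mul_sum]
    refine Finset.sum_eq_single i (fun j _ hj => o1 i j (Ne.symm hj)) (fun h => absurd hi h)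
  have h2 : ∀ m : ℕ, (star T * T) ^ (m + 1) = ∑ j ∈ s, (star (x j) * x j) ^ (m + 1) := by
    intro m
    induction m with
    | zero => simpa using h1
    | succ m ih =>
      rw [pow_succ, ih, h1, Finset.sum_mul]
      refine Finset.sum_congr rfl fun i hi => ?_
      rw [Finset.mul_sum, Finset.sum_eq_single i, ← pow_succ]
      · intro j _ hj
        rw [pow_succ, mul_assoc]
        have h3 : star (x i) * x i * (star (x j) * x j) = 0 := by
          rw [mul_assoc, ← mul_assoc (x i), o2 i j (Ne.symm hj), zero_mul, mul_zero]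
        rw [h3, mul_zero]
      · exact fun h => absurd hi h
  have h3 : ∀ k : ℕ, (‖T‖ ^ 2) ^ (2 ^ k) ≤ (s.card : ℝ) * (C ^ 2) ^ (2 ^ k) := by
    intro k
    have hsa : IsSelfAdjoint (star T * T) := IsSelfAdjoint.star_mul_self T
    have h4 := hsa.norm_pow_two_pow k
    rw [CStarRing.norm_star_mul_self] at h4
    have h5 : ‖T‖ ^ 2 = ‖T‖ * ‖T‖ := sq _
    rw [h5, ← h4]
    obtain ⟨m, hm⟩ : ∃ m, 2 ^ k = m + 1 := ⟨2 ^ k - 1, by have := Nat.one_le_two_pow (n := k); omega⟩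
    rw [hm, h2 m]
    calc ‖∑ j ∈ s, (star (x j) * x j) ^ (m + 1)‖ ≤ ∑ j ∈ s, ‖(star (x j) * x j) ^ (m + 1)‖ :=
          norm_sum_le _ _
      _ ≤ ∑ _j ∈ s, (C ^ 2) ^ (m + 1) := by
          refine Finset.sum_le_sum fun j _ => ?_
          refine (norm_pow_le' _ (Nat.succ_pos m)).trans ?_
          refine pow_le_pow_left₀ (norm_nonneg _) ?_ _
          rw [CStarRing.norm_star_mul_self, sq]
          exact mul_le_mul (hb j) (hb j) (norm_nonneg _) hC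
      _ = (s.card : ℝ) * (C ^ 2) ^ (m + 1) := by rw [Finset.sum_const, nsmul_eq_mul]
  by_contra hcon
  push Not at hcon
  have hT0 : 0 < ‖T‖ := lt_of_le_of_lt hC hcon
  rcases hC.eq_or_lt with h0 | h0
  · have h4 := h3 0
    rw [← h0] at h4
    simp only [pow_zero, pow_one] at h4
    nlinarith [pow_pos hT0 2]
  · have h4 : 1 < ‖T‖ ^ 2 / C ^ 2 := by
      rw [one_lt_div (by positivity)]
      exact pow_lt_pow_left₀ hcon hC (by norm_num)
    obtain ⟨n, hn⟩ := pow_unbounded_of_one_lt (s.card : ℝ) h4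
    have h5 : (‖T‖ ^ 2 / C ^ 2) ^ n ≤ (‖T‖ ^ 2 / C ^ 2) ^ (2 ^ n) :=
      pow_le_pow_right₀ h4.le (Nat.lt_two_pow_self).le
    have h6 : (‖T‖ ^ 2 / C ^ 2) ^ (2 ^ n) ≤ (s.card : ℝ) := by
      rw [div_pow, div_le_iff₀ (by positivity)]
      exact h3 n
    linarith

end MUP
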