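import Pool.Agent.MUP.ISA
import Pool.Agent.MUP.ORT

/-!
MUP / ISB.  Calculus of strict sums, part B.

* `nonneg`: if all `x_j ≥ 0` then `s ≥ 0`.  `s` is selfadjoint (`IsSum.sa`).  For `b ∈ M` and
  `a ∈ K`: `a^* S_N a ≥ 0` converges in norm to `a^* s a`, so `a^* s a ≥ 0`
  (`isClosed_nonneg`/`CStarAlgebra.isClosed_nonneg`).  Let `m = s_-` be the negative part
  (`cfc (fun r => max (-r) 0) s`, or `s⁻`), `m s = - m^2`.  For `c ∈ K` put `a = m c ∈ K`:
  `a^* s a = c^* m s m c = - c^* m^3 c ≤ 0`, so `c^* m^3 c = 0`, hence with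
  `r = m^{3/2}` (the function `(max (-t) 0)^{3/2}`, so `r^2 = m^3`) `‖r c‖^2 = ‖c^* m^3 c‖ = 0`.
  By `MultPair.nrm` `r = 0`, so `m^3 = 0`, `m = 0` and `s ≥ 0`.
  (Alternative: `s + ε` and norms: `‖C - s‖ ≤ C` characterises positivity of a selfadjoint `s`
  with `‖s‖ ≤ C`; if the partial sums are bounded by `C` then `‖C - S_N‖ ≤ C` passes to the
  strict limit by `MultPair.nrm`.  Under the extra hypothesis `hb` below this is the shortest
  proof; it is included as a hypothesis for convenience.)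
* `OFam.partial`: `‖∑_{j ∈ t} x_j‖ ≤ C` for every finite `t` (`norm_sum_orth`; `0 ≤ C` because
  `‖x 0‖ ≤ C`).
* `OFam.exists_sum`: the partial sums `S_N` are bounded by `C`.  Let `a ∈ K`, `ε > 0`; choose `l`
  with `‖u_l a - a‖ ≤ ε`; for `N, N' ≥ N_0(l)` we have `(S_N - S_{N'}) u_l = 0`, so
  `‖(S_N - S_{N'}) a‖ ≤ 2 C ε`.  Similarly `a (S_N - S_{N'})` using
  `‖a - a u_l‖ = ‖a^* - u_l a^*‖`.  So both are Cauchy, and `MultPair.strict` gives `s`; the norm
  bound is `IsSum.norm_le`.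
* `OFam.norm_le`: any strict sum has norm at most `C`.
-/

open Filter Topology

namespace MUP

variable {M : Type*} [CStarAlgebra M] {K : Set M} {u x : ℕ → M} {s : M} {C : ℝ}

private theorem isb_pos [PartialOrder M] [StarOrderedRing M] {a : M} {C : ℝ}
    (ha : IsSelfAdjoint a) (h : ‖a‖ ≤ C) : 0 ≤ a ↔ ‖algebraMap ℝ M C - a‖ ≤ C := by
  have hC : 0 ≤ C := (norm_nonneg _).trans h
  lift C to NNReal using hC
  have h1 := SpectrumRestricts.nnreal_iff_nnnorm ha (t := C) (by exact_mod_cast h)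
  have h2 : 0 ≤ a ↔ SpectrumRestricts a ContinuousMap.realToNNReal := by
    rw [nonneg_iff_isSelfAdjoint_and_quasispectrumRestricts]
    exact ⟨fun h => h.2, fun h => ⟨ha, h⟩⟩
  rw [h2, h1]
  exact Iff.rfl

theorem IsSum.nonneg [PartialOrder M] [StarOrderedRing M] (hK : MultPair K) (h : IsSum K x s)
    (hx : ∀ j, 0 ≤ x j) (hb : ∀ N, ‖∑ j ∈ Finset.range N, x j‖ ≤ C) : 0 ≤ s := by
  have hC : 0 ≤ C := (norm_nonneg _).trans (hb 0)
  have hsa : IsSelfAdjoint s := h.sa hK fun j => (hx j).isSelfAdjoint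
  have hn : ‖s‖ ≤ C := h.norm_le hK hC hb
  rw [isb_pos hsa hn]
  refine hK.nrm _ _ hC fun a ha => ?_
  have h1 : Tendsto (fun N => (algebraMap ℝ M C - ∑ j ∈ Finset.range N, x j) * a) atTop
      (𝓝 ((algebraMap ℝ M C - s) * a)) := by
    have h2 := (h.1 a ha).const_sub (algebraMap ℝ M C * a)
    rw [← sub_mul] at h2
    exact h2.congr fun N => (sub_mul _ _ _).symm
  refine le_of_tendsto h1.norm (Eventually.of_forall fun N => ?_)
  refine (norm_mul_le _ _).trans (mul_le_mul_of_nonneg_right ?_ (norm_nonneg a))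
  have h3 : 0 ≤ ∑ j ∈ Finset.range N, x j := Finset.sum_nonneg fun j _ => hx j
  exact (isb_pos h3.isSelfAdjoint (hb N)).mp h3

theorem OFam.C_nonneg (hx : OFam K u x C) : 0 ≤ C := (norm_nonneg _).trans (hx.bd 0)

theorem OFam.partial_le (hx : OFam K u x C) (t : Finset ℕ) : ‖∑ j ∈ t, x j‖ ≤ C := by
  exact norm_sum_orth hx.C_nonneg hx.bd hx.o1 hx.o2 t

theorem OFam.exists_sum (hK : MultPair K) (hu : Frame K u) (hx : OFam K u x C) :
    ∃ s, IsSum K x s ∧ ‖s‖ ≤ C := by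
  have hC := hx.C_nonneg
  have hb : ∀ N, ‖∑ j ∈ Finset.range N, x j‖ ≤ C := fun N => hx.partial_le _
  have hdiff : ∀ N n, N ≤ n → (∑ j ∈ Finset.range n, x j) - ∑ j ∈ Finset.range N, x j
      = ∑ j ∈ Finset.Ico N n, x j := fun N n h => (Finset.sum_Ico_eq_sub _ h).symm
  have happ : ∀ a ∈ K, ∀ ε : ℝ, 0 < ε → ∃ l, ‖a - u l * a‖ < ε := by
    intro a ha ε hε
    obtain ⟨l, hl⟩ := ((Metric.tendsto_atTop.mp (hu.conv a ha)) ε hε)
    refine ⟨l, ?_⟩
    have := hl l le_rfl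
    rwa [dist_comm, dist_eq_norm] at this
  have hloc : ∀ l, ∃ N, ∀ n, N ≤ n → (∑ j ∈ Finset.Ico N n, x j) * u l = 0 ∧
      u l * (∑ j ∈ Finset.Ico N n, x j) = 0 := by
    intro l
    obtain ⟨N, hN⟩ := eventually_atTop.mp (hx.loc l)
    refine ⟨N, fun n _ => ⟨?_, ?_⟩⟩
    · rw [Finset.sum_mul]
      exact Finset.sum_eq_zero fun j hj => (hN j (Finset.mem_Ico.mp hj).1).1
    · rw [Finset.mul_sum]
      exact Finset.sum_eq_zero fun j hj => (hN j (Finset.mem_Ico.mp hj).1).2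
  have hc1 : ∀ a ∈ K, CauchySeq fun N => (∑ j ∈ Finset.range N, x j) * a := by
    intro a ha
    rw [Metric.cauchySeq_iff']
    intro ε hε
    have hε' : 0 < ε / (C + 1) := by positivity
    obtain ⟨l, hl⟩ := happ a ha _ hε'
    obtain ⟨N, hN⟩ := hloc l
    refine ⟨N, fun n hn => ?_⟩
    rw [dist_eq_norm, ← sub_mul, hdiff N n hn]
    have e : (∑ j ∈ Finset.Ico N n, x j) * a
        = (∑ j ∈ Finset.Ico N n, x j) * (a - u l * a) := by
      rw [mul_sub, ← mul_assoc, (hN n hn).1, zero_mul, sub_zero]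
    rw [e]
    calc ‖(∑ j ∈ Finset.Ico N n, x j) * (a - u l * a)‖
        ≤ ‖∑ j ∈ Finset.Ico N n, x j‖ * ‖a - u l * a‖ := norm_mul_le _ _
      _ ≤ C * (ε / (C + 1)) :=
          mul_le_mul (hx.partial_le _) hl.le (norm_nonneg _) hC
      _ < ε := by
          rw [mul_div_assoc', div_lt_iff₀ (by positivity)]
          nlinarith
  have hc2 : ∀ a ∈ K, CauchySeq fun N => a * ∑ j ∈ Finset.range N, x j := by
    intro a ha
    rw [Metric.cauchySeq_iff']
    intro ε hε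
    have hε' : 0 < ε / (C + 1) := by positivity
    obtain ⟨l, hl⟩ := happ (star a) (hK.star_mem a ha) _ hε'
    have hl' : ‖a - a * u l‖ < ε / (C + 1) := by
      rw [← norm_star, star_sub, star_mul, (hu.sa l).star_eq]
      exact hl
    obtain ⟨N, hN⟩ := hloc l
    refine ⟨N, fun n hn => ?_⟩
    rw [dist_eq_norm, ← mul_sub, hdiff N n hn]
    have e : a * (∑ j ∈ Finset.Ico N n, x j)
        = (a - a * u l) * (∑ j ∈ Finset.Ico N n, x j) := by
      rw [sub_mul, mul_assoc a, (hN n hn).2, mul_zero, sub_zero]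
    rw [e]
    calc ‖(a - a * u l) * (∑ j ∈ Finset.Ico N n, x j)‖
        ≤ ‖a - a * u l‖ * ‖∑ j ∈ Finset.Ico N n, x j‖ := norm_mul_le _ _
      _ ≤ (ε / (C + 1)) * C :=
          mul_le_mul hl'.le (hx.partial_le _) (norm_nonneg _) hε'.le
      _ < ε := by
          rw [div_mul_eq_mul_div, div_lt_iff₀ (by positivity)]
          nlinarith
  obtain ⟨s, h1, h2⟩ := hK.strict _ C hb hc1 hc2
  have hs : IsSum K x s := ⟨h1, h2⟩
  exact ⟨s, hs, hs.norm_le hK hC hb⟩

theorem OFam.norm_le (hK : MultPair K) (hx : OFam K u x C) (h : IsSum K x s) : ‖s‖ ≤ C := by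
  exact IsSum.norm_le hK h hx.C_nonneg fun N => hx.partial_le _

end MUP
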