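import Pool.Agent.MUP.FUN

/-!
MUP / MOD.  A modulus for commutators with `rmp c g`.

Given `c, ε > 0`, `R ≥ 0` there is `δ > 0` such that for all `0 ≤ g`, `‖g‖ ≤ R`, and all `E` with
`‖E‖ ≤ 1` and `‖E g - g E‖ ≤ δ` one has `‖E f(g) - f(g) E‖ ≤ ε`, `f(t) = min (t/c) 1`.

Proof.  Weierstrass: a real polynomial `p` with `|p - f| ≤ ε/4` on `[0, R]`.  Then
`‖f(g) - p(g)‖ ≤ ε/4`, so `‖[E, f(g)]‖ ≤ ‖[E, p(g)]‖ + ε/2`.  And
`[E, g^k] = ∑_{i<k} g^i [E, g] g^{k-1-i}`, so `‖[E, g^k]‖ ≤ k R'^{k-1} δ` with `R' = max R 1`,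
whence `‖[E, p(g)]‖ ≤ δ ∑_k |p_k| k R'^{k-1}`.  Choose `δ` so that this is `≤ ε/2`.
-/

open Filter Topology

namespace MUP

variable (M : Type*) [CStarAlgebra M] [PartialOrder M] [StarOrderedRing M]

omit [PartialOrder M] [StarOrderedRing M] in
private theorem MOD_poly {R : ℝ} (hR : 0 ≤ R) (p : Polynomial ℝ) :
    ∃ N L : ℝ, 0 ≤ N ∧ 0 ≤ L ∧ ∀ g E : M, ‖g‖ ≤ R → ‖Polynomial.aeval g p‖ ≤ N ∧
      ‖E * Polynomial.aeval g p - Polynomial.aeval g p * E‖ ≤ L * ‖E * g - g * E‖ := by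
  induction p using Polynomial.induction_on with
  | C a =>
    refine ⟨‖algebraMap ℝ M a‖, 0, norm_nonneg _, le_rfl, fun g E _ => ?_⟩
    rw [Polynomial.aeval_C, Algebra.commutes, sub_self, norm_zero, zero_mul]
    exact ⟨le_rfl, le_rfl⟩
  | add p q hp hq =>
    obtain ⟨N, L, hN, hL, h⟩ := hp
    obtain ⟨N', L', hN', hL', h'⟩ := hq
    refine ⟨N + N', L + L', add_nonneg hN hN', add_nonneg hL hL', fun g E hg => ?_⟩
    obtain ⟨h1, h2⟩ := h g E hg
    obtain ⟨h3, h4⟩ := h' g E hg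
    rw [map_add]
    refine ⟨(norm_add_le _ _).trans (add_le_add h1 h3), ?_⟩
    have e : E * (Polynomial.aeval g p + Polynomial.aeval g q) -
        (Polynomial.aeval g p + Polynomial.aeval g q) * E =
        (E * Polynomial.aeval g p - Polynomial.aeval g p * E) +
        (E * Polynomial.aeval g q - Polynomial.aeval g q * E) := by noncomm_ring
    rw [e, add_mul]
    exact (norm_add_le _ _).trans (add_le_add h2 h4)
  | monomial n a ih =>
    obtain ⟨N, L, hN, hL, h⟩ := ih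
    refine ⟨N * R, L * R + N, mul_nonneg hN hR, by positivity, fun g E hg => ?_⟩
    obtain ⟨h1, h2⟩ := h g E hg
    have e0 : (Polynomial.C a * Polynomial.X ^ (n + 1) : Polynomial ℝ) =
        Polynomial.C a * Polynomial.X ^ n * Polynomial.X := by rw [pow_succ, mul_assoc]
    rw [e0, map_mul (Polynomial.aeval g) (Polynomial.C a * Polynomial.X ^ n) Polynomial.X,
      Polynomial.aeval_X]
    generalize Polynomial.aeval g (Polynomial.C a * Polynomial.X ^ n) = z at h1 h2 ⊢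
    refine ⟨(norm_mul_le _ _).trans (mul_le_mul h1 hg (norm_nonneg _) hN), ?_⟩
    have e : E * (z * g) - z * g * E = (E * z - z * E) * g + z * (E * g - g * E) := by
      noncomm_ring
    rw [e]
    calc _ ≤ ‖(E * z - z * E) * g‖ + ‖z * (E * g - g * E)‖ := norm_add_le _ _
      _ ≤ L * ‖E * g - g * E‖ * R + N * ‖E * g - g * E‖ := by
          refine add_le_add ((norm_mul_le _ _).trans ?_) ((norm_mul_le _ _).trans ?_)
          · exact mul_le_mul h2 hg (norm_nonneg _) (by positivity)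
          · exact mul_le_mul_of_nonneg_right h1 (norm_nonneg _)
      _ = (L * R + N) * ‖E * g - g * E‖ := by ring

theorem comm_modulus {c ε R : ℝ} (hc : 0 < c) (hε : 0 < ε) (hR : 0 ≤ R) :
    ∃ δ : ℝ, 0 < δ ∧ ∀ g E : M, 0 ≤ g → ‖g‖ ≤ R → ‖E‖ ≤ 1 → ‖E * g - g * E‖ ≤ δ →
      ‖E * rmp c g - rmp c g * E‖ ≤ ε := by
  have hcont : Continuous fun s : ℝ => min (s / c) 1 :=
    (continuous_id.div_const c).min continuous_const
  obtain ⟨p, hp⟩ := exists_polynomial_near_of_continuousOn 0 R (fun s : ℝ => min (s / c) 1)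
    hcont.continuousOn (ε / 4) (by positivity)
  obtain ⟨N, L, _, hL, h⟩ := MOD_poly M hR p
  refine ⟨ε / 2 / (L + 1), by positivity, fun g E hg hgR hE hδ => ?_⟩
  have hgsa : IsSelfAdjoint g := hg.isSelfAdjoint
  have h1 : ‖rmp c g - Polynomial.aeval g p‖ ≤ ε / 4 := by
    have e1 : rmp c g - Polynomial.aeval g p = cfc (fun s : ℝ => min (s / c) 1 - p.eval s) g := by
      have e2 : cfc (fun s : ℝ => min (s / c) 1 - p.eval s) g =
          cfc (fun s : ℝ => min (s / c) 1) g - cfc (fun s : ℝ => p.eval s) g :=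
        cfc_sub (fun s : ℝ => min (s / c) 1) (fun s : ℝ => p.eval s) g hcont.continuousOn
          p.continuous.continuousOn
      have e3 : cfc (fun s : ℝ => p.eval s) g = Polynomial.aeval g p := cfc_polynomial p g
      unfold rmp
      rw [e2, e3]
    rw [e1]
    refine norm_cfc_le (by positivity) fun t ht => ?_
    have ht0 : 0 ≤ t := spectrum_nonneg_of_nonneg hg ht
    have ht1 : t ≤ R := by
      have h2 : ‖t‖ ≤ ‖g‖ * ‖(1 : M)‖ := spectrum.norm_le_norm_mul_of_mem ht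
      have h3 : ‖(1 : M)‖ ≤ 1 := by
        rcases subsingleton_or_nontrivial M with hs | hn
        · rw [Subsingleton.elim (1 : M) 0, norm_zero]
          exact zero_le_one
        · rw [norm_one]
      rw [Real.norm_eq_abs, abs_of_nonneg ht0] at h2
      calc t ≤ ‖g‖ * ‖(1 : M)‖ := h2
        _ ≤ R * 1 := mul_le_mul hgR h3 (norm_nonneg _) hR
        _ = R := mul_one R
    have h4 := hp t ⟨ht0, ht1⟩
    rw [Real.norm_eq_abs, abs_sub_comm]
    exact h4.le
  obtain ⟨_, h2⟩ := h g E hgR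
  have e : E * rmp c g - rmp c g * E =
      (E * (rmp c g - Polynomial.aeval g p) - (rmp c g - Polynomial.aeval g p) * E) +
      (E * Polynomial.aeval g p - Polynomial.aeval g p * E) := by noncomm_ring
  rw [e]
  have h3 : ‖E * (rmp c g - Polynomial.aeval g p) - (rmp c g - Polynomial.aeval g p) * E‖ ≤
      ε / 4 + ε / 4 := by
    refine (norm_sub_le _ _).trans (add_le_add ((norm_mul_le _ _).trans ?_)
      ((norm_mul_le _ _).trans ?_))
    · calc _ ≤ 1 * (ε / 4) := mul_le_mul hE h1 (norm_nonneg _) zero_le_one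
        _ = ε / 4 := one_mul _
    · calc _ ≤ (ε / 4) * 1 := mul_le_mul h1 hE (norm_nonneg _) (by positivity)
        _ = ε / 4 := mul_one _
  have h4 : L * ‖E * g - g * E‖ ≤ ε / 2 := by
    calc L * ‖E * g - g * E‖ ≤ L * (ε / 2 / (L + 1)) := mul_le_mul_of_nonneg_left hδ hL
      _ ≤ (L + 1) * (ε / 2 / (L + 1)) := by
          refine mul_le_mul_of_nonneg_right (by linarith) (by positivity)
      _ = ε / 2 := by field_simp
  calc _ ≤ _ := norm_add_le _ _
    _ ≤ (ε / 4 + ε / 4) + ε / 2 := add_le_add h3 (h2.trans h4)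
    _ = ε := by ring

end MUP
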