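import Pool.Agent.MUP.ISB
import Pool.Agent.MUP.BLB

/-!
MUP / POA.  The relation `P + F1 + Fe = 1` and the product relations, separately.

* `sum_of_products`: if `x, y` are block sequences with strict sums `s, t` and
  `x i * y j = if i = j then z i else 0`, and `z` has strict sum `r`, then `s * t = r`
  (`IsSum.mul`, partial sums bounded by `1` by `OFam.of_bseq`, `OFam.partial_le`;
  `IsSum.unique`).
* `sum_of_products_zero`: if `x i * y j = 0` for all `i, j` then `s * t = 0`.
* `partition`: by `IsSum.pair` for `F1` and `IsSum.add`, `P + F1 + Fe` is the strict sum of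
  `j ↦ P_j + (F1_{2j} + F1_{2j+1}) + Fe_j`, whose partial sums are `u (40 N - 2)`
  (`sum_blocks`), and `u (40 N - 2) a → a`, `a u (40 N - 2) = (u (40 N - 2) a^*)^* → a`
  (`Frame.conv`, `MultPair.star_mem`); so `1` is a strict sum of the same family;
  `IsSum.unique`.
* `kill_u`: for a block sequence all of whose blocks start after `1`, the strict sum `s`
  satisfies `s * u 1 = 0` (`blk_mul_u`, `IsSum.mul_right`, `IsSum.unique`).
-/

open Filter Topology

namespace MUP

variable {M : Type*} [CStarAlgebra M] {K : Set M} {u x y z : ℕ → M} {s t r : M}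

private lemma POA_zero (K : Set M) : IsSum K (fun _ : ℕ => (0 : M)) 0 := by
  have h := IsSum.of_eventually_zero (K := K) (x := fun _ : ℕ => (0 : M)) (n := 0)
    (fun _ _ => rfl)
  simpa using h

theorem sum_of_products (hK : MultPair K) (hu : Frame K u) (hx : BSeq u x) (hy : BSeq u y)
    (hs : IsSum K x s) (ht : IsSum K y t) (hr : IsSum K z r)
    (h : ∀ i j, x i * y j = if i = j then z i else 0) : s * t = r := by
  have h1 : IsSum K (fun j => x j * y j) (s * t) :=
    hs.mul hK ht (fun N => (OFam.of_bseq hK hu hx).partial_le (Finset.range N))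
      (fun N => (OFam.of_bseq hK hu hy).partial_le (Finset.range N))
      (fun i j hij => by rw [h, if_neg hij])
  have h2 : IsSum K z (s * t) := h1.congr fun j => by rw [h, if_pos rfl]
  exact h2.unique hK hr

theorem sum_of_products_zero (hK : MultPair K) (hu : Frame K u) (hx : BSeq u x)
    (hy : BSeq u y) (hs : IsSum K x s) (ht : IsSum K y t)
    (h : ∀ i j, x i * y j = 0) : s * t = 0 := by
  have h1 : IsSum K (fun j => x j * y j) (s * t) :=
    hs.mul hK ht (fun N => (OFam.of_bseq hK hu hx).partial_le (Finset.range N))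
      (fun N => (OFam.of_bseq hK hu hy).partial_le (Finset.range N))
      (fun i j _ => h i j)
  have h2 : IsSum K (fun _ : ℕ => (0 : M)) (s * t) := h1.congr fun j => h j j
  exact h2.unique hK (POA_zero K)

theorem partition (hK : MultPair K) (hu : Frame K u) {P F1 Fe : M} (hP : IsSum K (Pb u) P)
    (hF1 : IsSum K (F1b u) F1) (hFe : IsSum K (Feb u) Fe) : P + F1 + Fe = 1 := by
  have h1 := (hP.add hF1.pair).add hFe
  refine h1.unique hK ?_
  have hN : Tendsto (fun N : ℕ => 40 * N - 2) atTop atTop := by
    refine tendsto_atTop.2 fun b => ?_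
    filter_upwards [eventually_ge_atTop (b + 1)] with N hN
    omega
  have hl : ∀ a ∈ K, Tendsto (fun N : ℕ => u (40 * N - 2) * a) atTop (𝓝 a) := by
    intro a ha
    exact (hu.conv a ha).comp hN
  refine ⟨?_, ?_⟩
  · intro a ha
    simp only [sum_blocks hu, one_mul]
    exact hl a ha
  · intro a ha
    simp only [sum_blocks hu, mul_one]
    have h3 := (hl (star a) (hK.star_mem a ha)).star
    rw [star_star] at h3
    refine h3.congr fun N => ?_
    rw [star_mul, star_star, (hu.sa (40 * N - 2)).star_eq]

theorem kill_u (hK : MultPair K) (hu : Frame K u) {p q : ℕ → ℕ} (hp : ∀ j, 1 < p j)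
    (hpq : ∀ j, p j ≤ q j) (hs : IsSum K (fun j => blk u (p j) (q j)) s) : s * u 1 = 0 := by
  have h1 := hs.mul_right hK (u 1)
  have h2 : IsSum K (fun _ : ℕ => (0 : M)) (s * u 1) :=
    h1.congr fun j => blk_mul_u hu (hp j) (hpq j)
  exact h2.unique hK (POA_zero K)

end MUP
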