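import Pool.Agent.MUP.POA

/-!
MUP / POS.  The seven position elements.

For each of the block sequences `Nb, FAb, Feb, vb, Pb, Gb, F1b` let `n, FA, Fe, v, P, G, F1` be
the strict sum (`OFam.of_bseq`, `OFam.exists_sum`); selfadjoint by `IsSum.sa`, norm `≤ 1`.
The product relations follow from `sum_of_products` and `sum_of_products_zero` (`Nb_vb`,
`Nb_Pb`, `vb_Pb`, `FAb_Nb`, `F1b_Gb`, `Feb_FAb`), `P + F1 + Fe = 1` is `partition`.
-/

open Filter Topology

namespace MUP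

variable {M : Type*} [CStarAlgebra M] {K : Set M} {u : ℕ → M}

theorem exists_positions (hK : MultPair K) (hu : Frame K u) :
    ∃ n FA Fe v P G F1 : M, PosRel n FA Fe v P G F1 ∧
      IsSum K (Nb u) n ∧ IsSum K (FAb u) FA ∧ IsSum K (Feb u) Fe ∧ IsSum K (vb u) v ∧
      IsSum K (Pb u) P ∧ IsSum K (Gb u) G ∧ IsSum K (F1b u) F1 := by
  obtain ⟨n, hn, hn1⟩ := OFam.exists_sum hK hu (OFam.of_bseq hK hu (bseq_Nb (u := u)))
  obtain ⟨FA, hFA, hFA1⟩ := OFam.exists_sum hK hu (OFam.of_bseq hK hu (bseq_FAb (u := u)))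
  obtain ⟨Fe, hFe, hFe1⟩ := OFam.exists_sum hK hu (OFam.of_bseq hK hu (bseq_Feb (u := u)))
  obtain ⟨v, hv, hv1⟩ := OFam.exists_sum hK hu (OFam.of_bseq hK hu (bseq_vb (u := u)))
  obtain ⟨P, hP, hP1⟩ := OFam.exists_sum hK hu (OFam.of_bseq hK hu (bseq_Pb (u := u)))
  obtain ⟨G, hG, hG1⟩ := OFam.exists_sum hK hu (OFam.of_bseq hK hu (bseq_Gb (u := u)))
  obtain ⟨F1, hF1, hF11⟩ := OFam.exists_sum hK hu (OFam.of_bseq hK hu (bseq_F1b (u := u)))
  refine ⟨n, FA, Fe, v, P, G, F1, ?_, hn, hFA, hFe, hv, hP, hG, hF1⟩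
  exact
    { sa_n := IsSum.sa hK hn fun j => BSeq.sa hu bseq_Nb j
      sa_FA := IsSum.sa hK hFA fun j => BSeq.sa hu bseq_FAb j
      sa_Fe := IsSum.sa hK hFe fun j => BSeq.sa hu bseq_Feb j
      sa_v := IsSum.sa hK hv fun j => BSeq.sa hu bseq_vb j
      sa_P := IsSum.sa hK hP fun j => BSeq.sa hu bseq_Pb j
      sa_G := IsSum.sa hK hG fun j => BSeq.sa hu bseq_Gb j
      sa_F1 := IsSum.sa hK hF1 fun j => BSeq.sa hu bseq_F1b j
      nm_n := hn1
      nm_FA := hFA1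
      nm_Fe := hFe1
      nm_v := hv1
      nm_P := hP1
      nm_G := hG1
      nm_F1 := hF11
      n_v := sum_of_products_zero hK hu bseq_Nb bseq_vb hn hv (Nb_vb hu)
      n_P := sum_of_products_zero hK hu bseq_Nb bseq_Pb hn hP (Nb_Pb hu)
      v_P := sum_of_products hK hu bseq_vb bseq_Pb hv hP hP
        fun i j => by rw [vb_Pb hu i j]; split_ifs with h <;> simp [h]
      FA_n := sum_of_products hK hu bseq_FAb bseq_Nb hFA hn hFA (FAb_Nb hu)
      F1_G := sum_of_products hK hu bseq_F1b bseq_Gb hF1 hG hF1 (F1b_Gb hu)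
      Fe_FA := sum_of_products hK hu bseq_Feb bseq_FAb hFe hFA hFe (Feb_FAb hu)
      sum := partition hK hu hP hF1 hFe }

end MUP
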