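import Pool.Agent.MUP.ORT

/-!
MUP / QCA.  The averaging lemma (quasi-central approximate units with explicit constants).

Let `e_0 = 0`, `e_k` selfadjoint, `‖e_k‖ ≤ 1`, `‖1 - e_k‖ ≤ 1`, `e_{k+1} e_k = e_k` (hence
`e_m e_k = e_k = e_k e_m` for `k < m`, and all `e_k` commute), and for all `k`
`‖(1 - e_{k+1}) x e_k‖ ≤ δ`, `‖e_k x (1 - e_{k+1})‖ ≤ δ`.  Let `F = (1/N) ∑_{k=1}^N e_k`.  Then
`‖F x - x F‖ ≤ 8 R / N + 4 δ` if `‖x‖ ≤ R`.

Proof.  Let `d_k = e_{k+1} - e_k` (`‖d_k‖ = ‖e_{k+1} (1 - e_k)‖ ≤ 1`).  For `k ≥ 1`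
`e_k x - x e_k = e_k x (1 - e_{k+1}) - (1 - e_{k+1}) x e_k + (e_k x d_k - d_k x e_k)`.
With truncated subtraction, `d_k = (1 - e_{k-1}) d_k`, so
`‖e_{k-2} x d_k‖ = ‖e_{k-2} x (1 - e_{k-1}) d_k‖ ≤ δ` for `k ≥ 2`, and for `k = 1`
`e_{k-2} = e_0 = 0`.  Put `T_k = (e_k - e_{k-2}) x d_k`; `‖e_k x d_k - T_k‖ ≤ δ`.  The family
`T_k` restricted to `k ≡ r mod 4` is orthogonal: for `l ≥ k + 3`,
`(e_k - e_{k-2}) (e_l - e_{l-2}) = 0` and `d_k d_l = 0`, so `T_k^* T_l = 0 = T_k T_l^*`; and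
`‖T_k‖ ≤ R` (`‖e_k - e_{k-2}‖ ≤ 1`).  By `norm_sum_orth` (apply it to the family which is `T_k`
for `k ≡ r mod 4`, `1 ≤ k ≤ N`, and `0` otherwise) `‖∑_{k=1}^N T_k‖ ≤ 4 R`.  The same for
`d_k x (e_k - e_{k-2})` (apply the statement to `x^*` and take adjoints).  Adding up,
`N ‖F x - x F‖ ≤ N (2 δ + 2 δ) + 8 R`.
-/

open Filter Topology

namespace MUP

variable {M : Type*} [CStarAlgebra M]

section aux

variable {e : ℕ → M}

private theorem QCA_lt (hs : ∀ k, e (k + 1) * e k = e k) {m n : ℕ} (h : m < n) :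
    e n * e m = e m := by
  induction n, h using Nat.le_induction with
  | base => exact hs m
  | succ n hn ih =>
    calc e (n + 1) * e m = e (n + 1) * (e n * e m) := by rw [ih]
      _ = (e (n + 1) * e n) * e m := by rw [mul_assoc]
      _ = e m := by rw [hs n, ih]

private theorem QCA_lt' (hsa : ∀ k, IsSelfAdjoint (e k)) (hs : ∀ k, e (k + 1) * e k = e k)
    {m n : ℕ} (h : m < n) : e m * e n = e m := by
  have h1 := congrArg star (QCA_lt hs h)
  rwa [star_mul, (hsa n).star_eq, (hsa m).star_eq] at h1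

private theorem QCA_dn (hn : ∀ k, ‖e k‖ ≤ 1) (hn1 : ∀ k, ‖1 - e k‖ ≤ 1)
    (hs : ∀ k, e (k + 1) * e k = e k) {m n : ℕ} (h : m < n) : ‖e n - e m‖ ≤ 1 := by
  have e1 : e n - e m = e n * (1 - e m) := by rw [mul_sub, mul_one, QCA_lt hs h]
  rw [e1]
  calc ‖e n * (1 - e m)‖ ≤ ‖e n‖ * ‖1 - e m‖ := norm_mul_le _ _
    _ ≤ 1 * 1 := mul_le_mul (hn n) (hn1 m) (norm_nonneg _) zero_le_one
    _ = 1 := one_mul 1

/-- differences are orthogonal -/
private theorem QCA_or (hsa : ∀ k, IsSelfAdjoint (e k)) (hs : ∀ k, e (k + 1) * e k = e k)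
    {p q p' q' : ℕ} (h1 : q < p') (h2 : p < q) (h3 : p' < q') :
    (e q - e p) * (e q' - e p') = 0 ∧ (e q' - e p') * (e q - e p) = 0 := by
  have a1 := QCA_lt' hsa hs h1
  have a2 := QCA_lt' hsa hs (h1.trans h3)
  have a3 := QCA_lt' hsa hs (h2.trans h1)
  have a4 := QCA_lt' hsa hs (h2.trans (h1.trans h3))
  have b1 := QCA_lt hs h1
  have b2 := QCA_lt hs (h1.trans h3)
  have b3 := QCA_lt hs (h2.trans h1)
  have b4 := QCA_lt hs (h2.trans (h1.trans h3))
  constructor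
  · rw [sub_mul, mul_sub, mul_sub, a1, a2, a3, a4]
    abel
  · rw [sub_mul, mul_sub, mul_sub, b1, b2, b3, b4]
    abel

private theorem QCA_sum {x : M} {R : ℝ} (hR : 0 ≤ R) (hx : ‖x‖ ≤ R) (N : ℕ)
    (hsa : ∀ k, IsSelfAdjoint (e k)) (hn : ∀ k, ‖e k‖ ≤ 1)
    (hn1 : ∀ k, ‖1 - e k‖ ≤ 1) (hs : ∀ k, e (k + 1) * e k = e k) :
    ‖∑ k ∈ Finset.range N, (e (k + 1) - e (k + 1 - 2)) * x * (e (k + 2) - e (k + 1))‖ ≤ 4 * R := by
  set T : ℕ → M := fun k => (e (k + 1) - e (k + 1 - 2)) * x * (e (k + 2) - e (k + 1)) with hT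
  have hTn : ∀ k, ‖T k‖ ≤ R := by
    intro k
    have h1 : ‖e (k + 1) - e (k + 1 - 2)‖ ≤ 1 := QCA_dn hn hn1 hs (by omega)
    have h2 : ‖e (k + 2) - e (k + 1)‖ ≤ 1 := QCA_dn hn hn1 hs (by omega)
    calc ‖T k‖ ≤ ‖(e (k + 1) - e (k + 1 - 2)) * x‖ * ‖e (k + 2) - e (k + 1)‖ := norm_mul_le _ _
      _ ≤ (‖e (k + 1) - e (k + 1 - 2)‖ * ‖x‖) * 1 :=
          mul_le_mul (norm_mul_le _ _) h2 (norm_nonneg _) (by positivity)
      _ ≤ (1 * R) * 1 := by gcongr
      _ = R := by ring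
  have hlt : ∀ k l, k + 4 ≤ l → star (T k) * T l = 0 ∧ star (T l) * T k = 0 ∧
      T k * star (T l) = 0 ∧ T l * star (T k) = 0 := by
    intro k l hkl
    have sa1 : ∀ m n, star (e m - e n) = e m - e n := by
      intro m n
      rw [star_sub, (hsa m).star_eq, (hsa n).star_eq]
    obtain ⟨o1, o2⟩ := QCA_or hsa hs (p := k + 1 - 2) (q := k + 1) (p' := l + 1 - 2) (q' := l + 1)
      (by omega) (by omega) (by omega)
    obtain ⟨o3, o4⟩ := QCA_or hsa hs (p := k + 1) (q := k + 2) (p' := l + 1) (q' := l + 2)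
      (by omega) (by omega) (by omega)
    simp only [hT, star_mul, sa1]
    refine ⟨?_, ?_, ?_, ?_⟩
    · calc (e (k + 2) - e (k + 1)) * (star x * (e (k + 1) - e (k + 1 - 2))) *
          ((e (l + 1) - e (l + 1 - 2)) * x * (e (l + 2) - e (l + 1)))
          = (e (k + 2) - e (k + 1)) * star x * ((e (k + 1) - e (k + 1 - 2)) *
            (e (l + 1) - e (l + 1 - 2))) * x * (e (l + 2) - e (l + 1)) := by
            simp only [mul_assoc]
        _ = 0 := by rw [o1]; simp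
    · calc (e (l + 2) - e (l + 1)) * (star x * (e (l + 1) - e (l + 1 - 2))) *
          ((e (k + 1) - e (k + 1 - 2)) * x * (e (k + 2) - e (k + 1)))
          = (e (l + 2) - e (l + 1)) * star x * ((e (l + 1) - e (l + 1 - 2)) *
            (e (k + 1) - e (k + 1 - 2))) * x * (e (k + 2) - e (k + 1)) := by
            simp only [mul_assoc]
        _ = 0 := by rw [o2]; simp
    · calc (e (k + 1) - e (k + 1 - 2)) * x * (e (k + 2) - e (k + 1)) *
          ((e (l + 2) - e (l + 1)) * (star x * (e (l + 1) - e (l + 1 - 2))))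
          = (e (k + 1) - e (k + 1 - 2)) * x * ((e (k + 2) - e (k + 1)) *
            (e (l + 2) - e (l + 1))) * star x * (e (l + 1) - e (l + 1 - 2)) := by
            simp only [mul_assoc]
        _ = 0 := by rw [o3]; simp
    · calc (e (l + 1) - e (l + 1 - 2)) * x * (e (l + 2) - e (l + 1)) *
          ((e (k + 2) - e (k + 1)) * (star x * (e (k + 1) - e (k + 1 - 2))))
          = (e (l + 1) - e (l + 1 - 2)) * x * ((e (l + 2) - e (l + 1)) *
            (e (k + 2) - e (k + 1))) * star x * (e (k + 1) - e (k + 1 - 2)) := by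
            simp only [mul_assoc]
        _ = 0 := by rw [o4]; simp
  have hr : ∀ r : ℕ, ‖∑ k ∈ Finset.range N, (if k % 4 = r then T k else 0)‖ ≤ R := by
    intro r
    refine norm_sum_orth hR ?_ ?_ ?_ _
    · intro j
      split_ifs
      · exact hTn j
      · rw [norm_zero]; exact hR
    · intro i j hij
      split_ifs with h1 h2
      · rcases lt_or_gt_of_ne hij with h | h
        · exact (hlt i j (by omega)).1
        · exact (hlt j i (by omega)).2.1
      · rw [mul_zero]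
      · rw [star_zero, zero_mul]
      · rw [star_zero, zero_mul]
    · intro i j hij
      split_ifs with h1 h2
      · rcases lt_or_gt_of_ne hij with h | h
        · exact (hlt i j (by omega)).2.2.1
        · exact (hlt j i (by omega)).2.2.2
      · rw [star_zero, mul_zero]
      · rw [zero_mul]
      · rw [zero_mul]
  have hsplit : ∑ k ∈ Finset.range N, T k
      = (∑ k ∈ Finset.range N, (if k % 4 = 0 then T k else 0))
        + (∑ k ∈ Finset.range N, (if k % 4 = 1 then T k else 0))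
        + (∑ k ∈ Finset.range N, (if k % 4 = 2 then T k else 0))
        + (∑ k ∈ Finset.range N, (if k % 4 = 3 then T k else 0)) := by
    rw [← Finset.sum_add_distrib, ← Finset.sum_add_distrib, ← Finset.sum_add_distrib]
    refine Finset.sum_congr rfl fun k _ => ?_
    have h4 : k % 4 < 4 := Nat.mod_lt _ (by norm_num)
    interval_cases h : k % 4 <;> simp
  calc ‖∑ k ∈ Finset.range N, T k‖ ≤ R + R + R + R := by
        rw [hsplit]
        refine (norm_add_le _ _).trans (add_le_add ((norm_add_le _ _).trans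
          (add_le_add ((norm_add_le _ _).trans (add_le_add (hr 0) (hr 1))) (hr 2))) (hr 3))
    _ = 4 * R := by ring

private theorem QCA_half {x : M} {R δ : ℝ} (hR : 0 ≤ R) (hx : ‖x‖ ≤ R) (N : ℕ) (h0 : e 0 = 0)
    (hsa : ∀ k, IsSelfAdjoint (e k)) (hn : ∀ k, ‖e k‖ ≤ 1)
    (hn1 : ∀ k, ‖1 - e k‖ ≤ 1) (hs : ∀ k, e (k + 1) * e k = e k)
    (h2 : ∀ k, ‖e k * x * (1 - e (k + 1))‖ ≤ δ) :
    ‖∑ k ∈ Finset.range N, e (k + 1) * x * (e (k + 2) - e (k + 1))‖ ≤ 4 * R + N * δ := by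
  have hδ : 0 ≤ δ := (norm_nonneg _).trans (h2 0)
  have hterm : ∀ k, ‖e (k + 1 - 2) * x * (e (k + 2) - e (k + 1))‖ ≤ δ := by
    intro k
    rcases Nat.eq_zero_or_pos k with hk | hk
    · subst hk
      have : e (0 + 1 - 2) = 0 := h0
      rw [this]
      simpa using hδ
    · obtain ⟨j, rfl⟩ : ∃ j, k = j + 1 := ⟨k - 1, by omega⟩
      have e0 : j + 1 + 1 - 2 = j := by omega
      rw [e0]
      have hd : (1 - e (j + 1)) * (e (j + 1 + 2) - e (j + 1 + 1)) = e (j + 1 + 2) - e (j + 1 + 1) := by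
        rw [sub_mul, one_mul, mul_sub, QCA_lt' hsa hs (show j + 1 < j + 1 + 2 by omega),
          QCA_lt' hsa hs (show j + 1 < j + 1 + 1 by omega), sub_self, sub_zero]
      calc ‖e j * x * (e (j + 1 + 2) - e (j + 1 + 1))‖
          = ‖(e j * x * (1 - e (j + 1))) * (e (j + 1 + 2) - e (j + 1 + 1))‖ := by
            rw [mul_assoc (e j * x), hd]
        _ ≤ ‖e j * x * (1 - e (j + 1))‖ * ‖e (j + 1 + 2) - e (j + 1 + 1)‖ := norm_mul_le _ _
        _ ≤ δ * 1 := mul_le_mul (h2 j) (QCA_dn hn hn1 hs (by omega)) (norm_nonneg _) hδ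
        _ = δ := mul_one δ
  have hsum : ∑ k ∈ Finset.range N, e (k + 1) * x * (e (k + 2) - e (k + 1))
      = (∑ k ∈ Finset.range N, (e (k + 1) - e (k + 1 - 2)) * x * (e (k + 2) - e (k + 1)))
        + ∑ k ∈ Finset.range N, e (k + 1 - 2) * x * (e (k + 2) - e (k + 1)) := by
    rw [← Finset.sum_add_distrib]
    refine Finset.sum_congr rfl fun k _ => ?_
    rw [← add_mul, ← add_mul, sub_add_cancel]
  rw [hsum]
  refine (norm_add_le _ _).trans (add_le_add (QCA_sum hR hx N hsa hn hn1 hs) ?_)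
  calc ‖∑ k ∈ Finset.range N, e (k + 1 - 2) * x * (e (k + 2) - e (k + 1))‖
      ≤ ∑ k ∈ Finset.range N, ‖e (k + 1 - 2) * x * (e (k + 2) - e (k + 1))‖ := norm_sum_le _ _
    _ ≤ ∑ _k ∈ Finset.range N, δ := Finset.sum_le_sum fun k _ => hterm k
    _ = N * δ := by rw [Finset.sum_const, Finset.card_range, nsmul_eq_mul]

end aux

theorem avg_comm {x : M} {R δ : ℝ} (hx : ‖x‖ ≤ R) {N : ℕ} (hN : 0 < N) {e : ℕ → M}
    (h0 : e 0 = 0) (hsa : ∀ k, IsSelfAdjoint (e k)) (hn : ∀ k, ‖e k‖ ≤ 1)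
    (hn1 : ∀ k, ‖1 - e k‖ ≤ 1) (hs : ∀ k, e (k + 1) * e k = e k)
    (h1 : ∀ k, ‖(1 - e (k + 1)) * x * e k‖ ≤ δ) (h2 : ∀ k, ‖e k * x * (1 - e (k + 1))‖ ≤ δ) :
    ‖((1 / (N : ℂ)) • ∑ k ∈ Finset.range N, e (k + 1)) * x
      - x * ((1 / (N : ℂ)) • ∑ k ∈ Finset.range N, e (k + 1))‖ ≤ 8 * R / N + 4 * δ := by
  have hR : 0 ≤ R := (norm_nonneg _).trans hx
  have sa1 : ∀ m, star (1 - e m) = 1 - e m := by
    intro m
    rw [star_sub, star_one, (hsa m).star_eq]
  have h2' : ∀ k, ‖e k * star x * (1 - e (k + 1))‖ ≤ δ := by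
    intro k
    have : e k * star x * (1 - e (k + 1)) = star ((1 - e (k + 1)) * x * e k) := by
      rw [star_mul, star_mul, sa1, (hsa k).star_eq, mul_assoc]
    rw [this, norm_star]
    exact h1 k
  have g1 := QCA_half hR hx N h0 hsa hn hn1 hs h2
  have g2 := QCA_half hR (by rw [norm_star]; exact hx) N h0 hsa hn hn1 hs h2'
  have g2' : ‖∑ k ∈ Finset.range N, (e (k + 2) - e (k + 1)) * x * e (k + 1)‖ ≤ 4 * R + N * δ := by
    have : ∑ k ∈ Finset.range N, (e (k + 2) - e (k + 1)) * x * e (k + 1)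
        = star (∑ k ∈ Finset.range N, e (k + 1) * star x * (e (k + 2) - e (k + 1))) := by
      rw [star_sum]
      refine Finset.sum_congr rfl fun k _ => ?_
      rw [star_mul, star_mul, star_star, star_sub, (hsa (k + 2)).star_eq, (hsa (k + 1)).star_eq,
        mul_assoc]
    rw [this, norm_star]
    exact g2
  have hN' : (0 : ℝ) < N := by exact_mod_cast hN
  have key : ∑ k ∈ Finset.range N, (e (k + 1) * x - x * e (k + 1))
      = (∑ k ∈ Finset.range N, (e (k + 1) * x * (1 - e (k + 1 + 1))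
          - (1 - e (k + 1 + 1)) * x * e (k + 1)))
        + ((∑ k ∈ Finset.range N, e (k + 1) * x * (e (k + 2) - e (k + 1)))
        - ∑ k ∈ Finset.range N, (e (k + 2) - e (k + 1)) * x * e (k + 1)) := by
    rw [← Finset.sum_sub_distrib, ← Finset.sum_add_distrib]
    refine Finset.sum_congr rfl fun k _ => ?_
    have e2 : k + 1 + 1 = k + 2 := rfl
    rw [e2]
    noncomm_ring
  have hb1 : ‖∑ k ∈ Finset.range N, (e (k + 1) * x * (1 - e (k + 1 + 1))
          - (1 - e (k + 1 + 1)) * x * e (k + 1))‖ ≤ N * (2 * δ) := by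
    calc _ ≤ ∑ k ∈ Finset.range N, ‖e (k + 1) * x * (1 - e (k + 1 + 1))
          - (1 - e (k + 1 + 1)) * x * e (k + 1)‖ := norm_sum_le _ _
      _ ≤ ∑ _k ∈ Finset.range N, (2 * δ) := by
          refine Finset.sum_le_sum fun k _ => ?_
          refine (norm_sub_le _ _).trans ?_
          have a1 := h1 (k + 1)
          have a2 := h2 (k + 1)
          linarith
      _ = N * (2 * δ) := by rw [Finset.sum_const, Finset.card_range, nsmul_eq_mul]
  have htot : ‖∑ k ∈ Finset.range N, (e (k + 1) * x - x * e (k + 1))‖ ≤ 8 * R + N * (4 * δ) := by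
    rw [key]
    refine (norm_add_le _ _).trans ((add_le_add hb1 ((norm_sub_le _ _).trans
      (add_le_add g1 g2'))).trans ?_)
    linarith
  have e3 : ((1 / (N : ℂ)) • ∑ k ∈ Finset.range N, e (k + 1)) * x
      - x * ((1 / (N : ℂ)) • ∑ k ∈ Finset.range N, e (k + 1))
      = (1 / (N : ℂ)) • ∑ k ∈ Finset.range N, (e (k + 1) * x - x * e (k + 1)) := by
    rw [Finset.sum_sub_distrib, smul_sub, smul_mul_assoc, mul_smul_comm, Finset.sum_mul,
      Finset.mul_sum]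
  rw [e3, norm_smul]
  have e4 : ‖(1 / (N : ℂ))‖ = 1 / (N : ℝ) := by
    rw [norm_div, norm_one, Complex.norm_natCast]
  rw [e4]
  calc 1 / (N : ℝ) * ‖∑ k ∈ Finset.range N, (e (k + 1) * x - x * e (k + 1))‖
      ≤ 1 / (N : ℝ) * (8 * R + N * (4 * δ)) := by gcongr
    _ = 8 * R / N + 4 * δ := by field_simp

end MUP
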