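import Pool.Agent.MUP.QCA
import Pool.Agent.MUP.BLA

/-!
MUP / QCB.  One step of the construction of a quasi-central frame.

Let `w` be a frame of `K`, `F` a finite subset of `M`, `l : ℕ`, `δ > 0`.  Then there are `l' > l`
and `U ∈ K` with: `U` selfadjoint, `‖U‖ ≤ 1`, `‖1 - U‖ ≤ 1`, `U w_k = w_k = w_k U` for `k ≤ l`,
`w_{l'} U = U`, `‖U x - x U‖ ≤ δ` for `x ∈ F`, and: for all `a`, `ε`, if
`‖w_k a - a‖ ≤ ε` for all `k > l` then `‖U a - a‖ ≤ ε`.

Proof.  Let `R ≥ 1` bound the norms of the elements of `F`, `δ' = δ/8`, `N ≥ 1` with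
`8 R / N ≤ δ/2`.  Choose recursively `l < n_1 < n_2 < …` such that
`‖(1 - w_{n_{k+1}}) x w_{n_k}‖ ≤ δ'` and `‖w_{n_k} x (1 - w_{n_{k+1}})‖ ≤ δ'` for `x ∈ F`:
possible because `x w_{n_k} ∈ K` and `x^* w_{n_k} ∈ K`, so
`(1 - w_n) x w_{n_k} → 0` and `(1 - w_n) x^* w_{n_k} → 0` as `n → ∞` (`Frame.conv`; take
adjoints).  Let `e_0 = 0`, `e_k = w_{n_k}`.  `U = (1/N) ∑_{k=1}^N e_k`.  Apply `avg_comm`:
`‖[U, x]‖ ≤ δ/2 + δ/2`.  All other properties are averages of properties of the `e_k`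
(`l' = n_N + 1`, `Frame.mul_lt`); e.g. `1 - U = (1/N) ∑ (1 - e_k)`.
-/

open Filter Topology

namespace MUP

variable {M : Type*} [CStarAlgebra M] {K : Set M}

private theorem QCB_const {N : ℕ} (hN : 0 < N) (c : M) :
    (1 / (N : ℂ)) • ∑ _k ∈ Finset.range N, c = c := by
  rw [Finset.sum_const, Finset.card_range, ← Nat.cast_smul_eq_nsmul ℂ N c, smul_smul,
    one_div, inv_mul_cancel₀ (by exact_mod_cast hN.ne'), one_smul]

private theorem QCB_norm {N : ℕ} (hN : 0 < N) {f : ℕ → M} {C : ℝ}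
    (hf : ∀ k, k < N → ‖f k‖ ≤ C) : ‖(1 / (N : ℂ)) • ∑ k ∈ Finset.range N, f k‖ ≤ C := by
  have hN' : (0 : ℝ) < N := by exact_mod_cast hN
  rw [norm_smul, norm_div, norm_one, Complex.norm_natCast]
  calc 1 / (N : ℝ) * ‖∑ k ∈ Finset.range N, f k‖
      ≤ 1 / (N : ℝ) * ∑ k ∈ Finset.range N, ‖f k‖ := by
        gcongr
        exact norm_sum_le _ _
    _ ≤ 1 / (N : ℝ) * ∑ _k ∈ Finset.range N, C := by
        gcongr with k hk
        exact hf k (Finset.mem_range.1 hk)
    _ = C := by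
        rw [Finset.sum_const, Finset.card_range, nsmul_eq_mul]
        field_simp

theorem qc_step (hK : MultPair K) {w : ℕ → M} (hw : Frame K w) (F : Finset M) (l : ℕ) {δ : ℝ}
    (hδ : 0 < δ) : ∃ (l' : ℕ) (U : M), l < l' ∧ U ∈ K ∧ IsSelfAdjoint U ∧ ‖U‖ ≤ 1 ∧
      ‖1 - U‖ ≤ 1 ∧ (∀ k, k ≤ l → U * w k = w k) ∧ w l' * U = U ∧
      (∀ x ∈ F, ‖U * x - x * U‖ ≤ δ) ∧
      ∀ (a : M) (ε : ℝ), (∀ k, l < k → ‖w k * a - a‖ ≤ ε) → ‖U * a - a‖ ≤ ε := by
  classical
  -- a bound for the norms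
  obtain ⟨R, hR1, hR⟩ : ∃ R : ℝ, 0 ≤ R ∧ ∀ x ∈ F, ‖x‖ ≤ R :=
    ⟨∑ x ∈ F, ‖x‖, Finset.sum_nonneg fun x _ => norm_nonneg x,
      fun x hx => Finset.single_le_sum (f := fun x => ‖x‖) (fun y _ => norm_nonneg y) hx⟩
  obtain ⟨N₀, hN₀⟩ := exists_nat_gt (16 * R / δ)
  set N : ℕ := N₀ + 1 with hNdef
  have hN : 0 < N := Nat.succ_pos _
  have hN' : (0 : ℝ) < N := by exact_mod_cast hN
  have hNb : 8 * R / N ≤ δ / 2 := by
    have h1 : 16 * R / δ < N := by
      refine hN₀.trans ?_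
      rw [hNdef]
      push_cast
      linarith
    rw [div_lt_iff₀ hδ] at h1
    rw [div_le_iff₀ hN']
    nlinarith
  have hδ' : 0 < δ / 8 := by positivity
  -- one choice
  have hlim : ∀ (j : ℕ) (y : M), ∀ᶠ m in atTop, ‖(1 - w m) * y * w j‖ ≤ δ / 8 := by
    intro j y
    have hmem : y * w j ∈ K := hK.idl.mul_left _ _ (hw.mem j)
    have h1 := hw.conv _ hmem
    rw [Metric.tendsto_atTop] at h1
    obtain ⟨m0, hm0⟩ := h1 (δ / 8) hδ'
    filter_upwards [eventually_ge_atTop m0] with m hm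
    have h2 := (hm0 m hm).le
    rw [dist_eq_norm] at h2
    have h3 : (1 - w m) * y * w j = -(w m * (y * w j) - y * w j) := by
      rw [mul_assoc, sub_mul, one_mul, neg_sub]
    rw [h3, norm_neg]
    exact h2
  have ex : ∀ j, ∃ j', j < j' ∧ ∀ x ∈ F, ‖(1 - w j') * x * w j‖ ≤ δ / 8 ∧
      ‖w j * x * (1 - w j')‖ ≤ δ / 8 := by
    intro j
    have h1 : ∀ᶠ m in atTop, ∀ x ∈ F, ‖(1 - w m) * x * w j‖ ≤ δ / 8 ∧
        ‖w j * x * (1 - w m)‖ ≤ δ / 8 := by
      rw [Filter.eventually_all_finset]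
      intro x _
      filter_upwards [hlim j x, hlim j (star x)] with m h2 h3
      refine ⟨h2, ?_⟩
      have h4 : w j * x * (1 - w m) = star ((1 - w m) * star x * w j) := by
        rw [star_mul, star_mul, star_star, star_sub, star_one, (hw.sa m).star_eq,
          (hw.sa j).star_eq, mul_assoc]
      rw [h4, norm_star]
      exact h3
    obtain ⟨m, hm1, hm2⟩ := (h1.and (eventually_gt_atTop j)).exists
    exact ⟨m, hm2, hm1⟩
  choose nx hnx1 hnx2 using ex
  set n : ℕ → ℕ := fun k => Nat.rec l (fun _ m => nx m) k with hn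
  have hn0 : n 0 = l := rfl
  have hns : ∀ k, n (k + 1) = nx (n k) := fun k => rfl
  have hmono : StrictMono n := strictMono_nat_of_lt_succ fun k => by
    rw [hns]; exact hnx1 _
  set e : ℕ → M := fun k => if k = 0 then 0 else w (n k) with he
  have he0 : e 0 = 0 := if_pos rfl
  have hes : ∀ k, e (k + 1) = w (n (k + 1)) := fun k => if_neg (Nat.succ_ne_zero k)
  have hgt : ∀ k, l < n (k + 1) := fun k => by
    rw [← hn0]; exact hmono (Nat.succ_pos k)
  set U : M := (1 / (N : ℂ)) • ∑ k ∈ Finset.range N, w (n (k + 1)) with hU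
  have hUe : U = (1 / (N : ℂ)) • ∑ k ∈ Finset.range N, e (k + 1) := by
    rw [hU]
    congr 1
  refine ⟨n N + 1, U, ?_, ?_, ?_, ?_, ?_, ?_, ?_, ?_, ?_⟩
  · have := hmono.monotone (Nat.zero_le N)
    rw [hn0] at this
    omega
  · have h1 : ∀ s : Finset ℕ, ∑ k ∈ s, w (n (k + 1)) ∈ K := by
      intro s
      induction s using Finset.induction_on with
      | empty => rw [Finset.sum_empty]; exact hK.idl.zero_mem
      | insert a s ha ih =>
        rw [Finset.sum_insert ha]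
        exact hK.idl.add_mem _ (hw.mem _) _ ih
    have h2 : U = ((1 / (N : ℂ)) • (1 : M)) * ∑ k ∈ Finset.range N, w (n (k + 1)) := by
      rw [smul_mul_assoc, one_mul]
    rw [h2]
    exact hK.idl.mul_left _ _ (h1 _)
  · rw [isSelfAdjoint_iff, hU, star_smul, star_sum]
    congr 1
    · simp
    · exact Finset.sum_congr rfl fun k _ => (hw.sa _).star_eq
  · exact QCB_norm hN fun k _ => hw.nm _
  · have h1 : 1 - U = (1 / (N : ℂ)) • ∑ k ∈ Finset.range N, (1 - w (n (k + 1))) := by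
      rw [Finset.sum_sub_distrib, smul_sub, QCB_const hN]
    rw [h1]
    exact QCB_norm hN fun k _ => hw.nm1 _
  · intro k hk
    have h1 : U * w k = (1 / (N : ℂ)) • ∑ _j ∈ Finset.range N, w k := by
      rw [hU, smul_mul_assoc, Finset.sum_mul]
      congr 1
      exact Finset.sum_congr rfl fun j _ => hw.mul_lt (lt_of_le_of_lt hk (hgt j))
    rw [h1, QCB_const hN]
  · rw [hU, mul_smul_comm, Finset.mul_sum]
    congr 1
    refine Finset.sum_congr rfl fun j hj => hw.mul_lt ?_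
    have : n (j + 1) ≤ n N := hmono.monotone (Finset.mem_range.1 hj)
    omega
  · intro x hx
    have hsa : ∀ k, IsSelfAdjoint (e k) := by
      intro k
      rcases k with _ | k
      · rw [he0]; exact IsSelfAdjoint.zero M
      · rw [hes]; exact hw.sa _
    have hnm : ∀ k, ‖e k‖ ≤ 1 := by
      intro k
      rcases k with _ | k
      · rw [he0, norm_zero]; exact zero_le_one
      · rw [hes]; exact hw.nm _
    have hnm1 : ∀ k, ‖1 - e k‖ ≤ 1 := by
      intro k
      rcases k with _ | k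
      · rw [he0, sub_zero]
        have h0 := hw.nm1 0
        rwa [hw.zero, sub_zero] at h0
      · rw [hes]; exact hw.nm1 _
    have hst : ∀ k, e (k + 1) * e k = e k := by
      intro k
      rcases k with _ | k
      · rw [he0, mul_zero]
      · rw [hes, hes]
        exact hw.mul_lt (hmono (show k + 1 < k + 1 + 1 by omega))
    have h1 : ∀ k, ‖(1 - e (k + 1)) * x * e k‖ ≤ δ / 8 := by
      intro k
      rcases k with _ | k
      · rw [he0, mul_zero, norm_zero]; exact hδ'.le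
      · rw [hes, hes, hns (k + 1)]
        exact (hnx2 _ x hx).1
    have h2 : ∀ k, ‖e k * x * (1 - e (k + 1))‖ ≤ δ / 8 := by
      intro k
      rcases k with _ | k
      · rw [he0, zero_mul, zero_mul, norm_zero]; exact hδ'.le
      · rw [hes, hes, hns (k + 1)]
        exact (hnx2 _ x hx).2
    have h3 := avg_comm (hR x hx) hN he0 hsa hnm hnm1 hst h1 h2
    rw [← hUe] at h3
    linarith
  · intro a ε ha
    have h1 : U * a - a = (1 / (N : ℂ)) • ∑ k ∈ Finset.range N, (w (n (k + 1)) * a - a) := by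
      rw [Finset.sum_sub_distrib, smul_sub, QCB_const hN, hU, smul_mul_assoc, Finset.sum_mul]
    rw [h1]
    exact QCB_norm hN fun k _ => ha _ (hgt k)

end MUP
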