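import Pool.Agent.MUP.QCB

/-!
MUP / QCC.  Quasi-central frames with prescribed commutators.

Given also a finite set `A' ⊆ K` and `τ > 0` we want `‖u_1 a - a‖ ≤ τ` for `a ∈ A'`.
Starting from any frame `w`, define recursively `(l_m, U_m)`: `U_0 = 0`, `l_0` so large that
`‖w_k a - a‖ ≤ τ` for all `k > l_0` and `a ∈ A'` (`Frame.conv`), and
`(l_{m+1}, U_{m+1})` is given by `qc_step` for `l = l_m` and `δ = δ (m+1)`.  The invariant is
`w_{l_m} U_m = U_m` (for `m = 0`: `U_0 = 0`).  Then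
`U_{m+1} U_m = U_{m+1} w_{l_m} U_m = w_{l_m} U_m = U_m`.
`l_m ≥ m`, so for `a ∈ K`, given `ε` and `L` with `‖w_k a - a‖ ≤ ε` for `k > L` we get
`‖U_{m+1} a - a‖ ≤ ε` for `m ≥ L`: `Frame.conv`.
The commutator bound for `m = 0` is trivial since `U_0 = 0`.  The last property of `qc_step` for
`l = l_0` gives `‖U_1 a - a‖ ≤ τ`.
-/

open Filter Topology

namespace MUP

variable {M : Type*} [CStarAlgebra M] {K : Set M}

theorem exists_qc_frame (hK : MultPair K) {w : ℕ → M} (hw : Frame K w) (F A' : Finset M)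
    (hA : ∀ a ∈ A', a ∈ K) {τ : ℝ} (hτ : 0 < τ) {δ : ℕ → ℝ} (hδ : ∀ m, 0 < δ m) :
    ∃ u : ℕ → M, Frame K u ∧ (∀ m, ∀ x ∈ F, ‖u m * x - x * u m‖ ≤ δ m) ∧
      ∀ a ∈ A', ‖u 1 * a - a‖ ≤ τ := by
  classical
  have h0 : ∀ᶠ m in atTop, ∀ a ∈ A', ‖w m * a - a‖ ≤ τ := by
    rw [Filter.eventually_all_finset]
    intro a ha
    have h1 := hw.conv a (hA a ha)
    rw [Metric.tendsto_atTop] at h1
    obtain ⟨m0, hm0⟩ := h1 τ hτ
    filter_upwards [eventually_ge_atTop m0] with m hm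
    have h2 := (hm0 m hm).le
    rwa [dist_eq_norm] at h2
  obtain ⟨l₀, hl₀⟩ := eventually_atTop.1 h0
  choose L U hL hUK hUsa hUn hUn1 hUw hLU hUx hUa using
    fun (l : ℕ) (m : ℕ) => qc_step hK hw F l (hδ m)
  set l : ℕ → ℕ := fun m => Nat.rec l₀ (fun m r => L r (m + 1)) m with hl
  have hl0 : l 0 = l₀ := rfl
  have hls : ∀ m, l (m + 1) = L (l m) (m + 1) := fun m => rfl
  have hmono : StrictMono l := strictMono_nat_of_lt_succ fun m => by
    rw [hls]; exact hL _ _
  set u : ℕ → M := fun m => if m = 0 then 0 else U (l (m - 1)) m with hu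
  have hu0 : u 0 = 0 := if_pos rfl
  have hus : ∀ m, u (m + 1) = U (l m) (m + 1) := fun m => if_neg (Nat.succ_ne_zero m)
  have hinv : ∀ m, w (l m) * u m = u m := by
    intro m
    rcases m with _ | m
    · rw [hu0, mul_zero]
    · rw [hus, hls]
      exact hLU _ _
  refine ⟨u, ⟨?_, ?_, ?_, ?_, hu0, ?_, ?_⟩, ?_, ?_⟩
  · intro m
    rcases m with _ | m
    · rw [hu0]; exact hK.idl.zero_mem
    · rw [hus]; exact hUK _ _
  · intro m
    rcases m with _ | m
    · rw [hu0]; exact IsSelfAdjoint.zero M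
    · rw [hus]; exact hUsa _ _
  · intro m
    rcases m with _ | m
    · rw [hu0, norm_zero]; exact zero_le_one
    · rw [hus]; exact hUn _ _
  · intro m
    rcases m with _ | m
    · rw [hu0, sub_zero]
      have h0 := hw.nm1 0
      rwa [hw.zero, sub_zero] at h0
    · rw [hus]; exact hUn1 _ _
  · intro m
    rw [← hinv m, ← mul_assoc, hus m, hUw (l m) (m + 1) (l m) le_rfl]
  · intro a ha
    rw [Metric.tendsto_atTop]
    intro ε hε
    have h1 := hw.conv a ha
    rw [Metric.tendsto_atTop] at h1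
    obtain ⟨m0, hm0⟩ := h1 (ε / 2) (by positivity)
    refine ⟨m0 + 1, fun m hm => ?_⟩
    obtain ⟨j, rfl⟩ : ∃ j, m = j + 1 := ⟨m - 1, by omega⟩
    have hj : m0 ≤ l j := by
      have := hmono.le_apply (x := j)
      omega
    have h2 : ‖u (j + 1) * a - a‖ ≤ ε / 2 := by
      rw [hus]
      refine hUa _ _ a (ε / 2) fun k hk => ?_
      have h3 := (hm0 k (by omega)).le
      rwa [dist_eq_norm] at h3
    rw [dist_eq_norm]
    linarith
  · intro m x hx
    rcases m with _ | m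
    · rw [hu0, zero_mul, mul_zero, sub_zero, norm_zero]; exact (hδ 0).le
    · rw [hus]; exact hUx _ _ x hx
  · intro a ha
    have e1 : u 1 = U (l 0) 1 := hus 0
    rw [e1, hl0]
    exact hUa l₀ 1 a τ fun k hk => hl₀ k hk.le a ha

end MUP
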