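import Pool.Agent.MUP.FUN
import Pool.Agent.MUP.ISC
import Pool.Agent.MUP.BLB
import Pool.Agent.MUP.CPL

/-!
MUP / WAL.  The walls.

Let `0 ≤ y`, `‖y‖ ≤ 1`, `γ_k = G_k y G_k ∈ K` (`G_k = Gb u k`), a family supported by the block
sequence `Gb u`, with norms `≤ 1`, and `γ` its strict sum.  For every `k` apply `local_copies` to
`c = γ_k ≥ 0`, `η = θ = 1/40`, two copies (`pp γ_k (1/40) ∈ K` is positive by `cfc_mem`), and get
`z1_k, z2_k` with
`‖z_i^* z_j - δ_ij pp γ_k (1/40)‖ ≤ 1/40`, `rmp (1/40) γ_k z_i = z_i`, `z_i = γ_k s = t γ_k`.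
Hence `z_{i,k} = G_k s' = t' G_k`, `‖z_{i,k}‖^2 ≤ 1 + 1/40`, and the strict sums `Z1, Z2` exist
(`OFam.of_supp`, `OFam.exists_sum`).  `star Zi * Zj - δ_ij γ` is the strict sum of the family
`z_{i,k}^* z_{j,k} - δ_ij γ_k` supported by `Gb u`, of norms at most
`1/40 + ‖pp γ_k (1/40) - γ_k‖ ≤ 1/20` (`IsSum.mul`, `IsSum.star`, `IsSum.sub`, `OFam.norm_le`).
`rmp (1/40) γ` is the strict sum of the `rmp (1/40) γ_k` (`IsSum.rmp`), so
`rmp (1/40) γ * Zi = Zi` by `IsSum.mul` and `IsSum.unique` (for `k ≠ l`,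
`rmp (1/40) γ_k * z_{i,l} = 0` because `γ_k γ_l = 0`, `rmp_mul_eq_zero`).
-/

open Filter Topology

namespace MUP

variable {M : Type*} [CStarAlgebra M] [PartialOrder M] [StarOrderedRing M]
  {K : Set M} {u : ℕ → M}

theorem exists_walls (hK : MultPair K) (hu : Frame K u)
    (hPI : ∀ c ∈ K, 0 ≤ c → ∀ n, Cop n c c) {y : M} (hy : 0 ≤ y) (hy1 : ‖y‖ ≤ 1) :
    ∃ (z1 : ℕ → M) (Z1 Z2 γ : M), IsSum K (fun k => Gb u k * y * Gb u k) γ ∧
      IsSum K z1 Z1 ∧ (∀ k, ‖z1 k‖ ≤ 2) ∧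
      (∀ k, ∃ s, z1 k = Gb u k * s) ∧ (∀ k, ∃ t, z1 k = t * Gb u k) ∧
      IsSelfAdjoint γ ∧ ‖γ‖ ≤ 1 ∧
      ‖star Z1 * Z1 - γ‖ ≤ 1 / 20 ∧ ‖star Z2 * Z2 - γ‖ ≤ 1 / 20 ∧ ‖star Z1 * Z2‖ ≤ 1 / 20 ∧
      rmp (1 / 40) γ * Z1 = Z1 ∧ rmp (1 / 40) γ * Z2 = Z2 := by
  have hG : ∀ k, IsSelfAdjoint (Gb u k) := fun k => BSeq.sa hu bseq_Gb k
  have hGn : ∀ k, ‖Gb u k‖ ≤ 1 := fun k => BSeq.nm hu bseq_Gb k
  set g : ℕ → M := fun k => Gb u k * y * Gb u k with hg
  have gpos : ∀ k, 0 ≤ g k := by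
    intro k
    have := star_left_conjugate_nonneg hy (Gb u k)
    rwa [(hG k).star_eq] at this
  have gsa : ∀ k, IsSelfAdjoint (g k) := fun k => IsSelfAdjoint.of_nonneg (gpos k)
  have gnm : ∀ k, ‖g k‖ ≤ 1 := by
    intro k
    calc ‖Gb u k * y * Gb u k‖ ≤ ‖Gb u k‖ * ‖y‖ * ‖Gb u k‖ :=
          (norm_mul_le _ _).trans (mul_le_mul_of_nonneg_right (norm_mul_le _ _) (norm_nonneg _))
      _ ≤ 1 * 1 * 1 := by
          apply mul_le_mul _ (hGn k) (norm_nonneg _) (by norm_num)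
          exact mul_le_mul (hGn k) hy1 (norm_nonneg _) (by norm_num)
      _ = 1 := by norm_num
  have gL : ∀ k, ∃ s, g k = Gb u k * s := fun k => ⟨y * Gb u k, by simp only [hg, mul_assoc]⟩
  have gR : ∀ k, ∃ t, g k = t * Gb u k := fun k => ⟨Gb u k * y, rfl⟩
  have gO : OFam K u g 1 := OFam.of_supp hK hu bseq_Gb gnm gL gR
  obtain ⟨γ, hγs, hγn⟩ := gO.exists_sum hK hu
  have hγsa : IsSelfAdjoint γ := hγs.sa hK gsa
  have ppmem : ∀ k, pp (g k) (1 / 40) ∈ K := by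
    intro k
    refine cfc_mem hK.idl (gsa k) (gO.mem k) (by fun_prop) ?_
    norm_num
  have hloc : ∀ k, ∃ X : Fin 2 → M,
      (∀ i j, ‖star (X i) * X j - (if i = j then pp (g k) (1 / 40) else 0)‖ ≤ 1 / 40) ∧
      (∀ i, rmp (1 / 40) (g k) * X i = X i) ∧ (∀ i, ∃ s, X i = g k * s) ∧
      ∀ i, ∃ t, X i = t * g k := fun k =>
    local_copies (gpos k) (by norm_num) (by norm_num) (hPI _ (ppmem k) (pp_nonneg _ _) 2)
  choose X hX1 hX2 hX3 hX4 using hloc
  -- supports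
  have XL : ∀ i k, ∃ s, X k i = Gb u k * s := by
    intro i k
    obtain ⟨s, hs⟩ := hX3 k i
    refine ⟨y * Gb u k * s, ?_⟩
    rw [hs]
    simp only [hg, mul_assoc]
  have XR : ∀ i k, ∃ t, X k i = t * Gb u k := by
    intro i k
    obtain ⟨t, ht⟩ := hX4 k i
    refine ⟨t * (Gb u k * y), ?_⟩
    rw [ht]
    simp only [hg, mul_assoc]
  have Xn : ∀ i k, ‖X k i‖ ≤ 2 := by
    intro i k
    have h1 := hX1 k i i
    rw [if_pos rfl] at h1
    have h2 : ‖pp (g k) (1 / 40)‖ ≤ 1 := (pp_nm (gpos k) (by norm_num)).trans (gnm k)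
    have h3 : ‖X k i‖ * ‖X k i‖ = ‖star (X k i) * X k i‖ := (CStarRing.norm_star_mul_self).symm
    have h4 : ‖star (X k i) * X k i‖ ≤ 1 / 40 + 1 := by
      calc ‖star (X k i) * X k i‖
          = ‖(star (X k i) * X k i - pp (g k) (1 / 40)) + pp (g k) (1 / 40)‖ := by
            rw [sub_add_cancel]
        _ ≤ _ := (norm_add_le _ _).trans (add_le_add h1 h2)
    nlinarith [norm_nonneg (X k i)]
  have XO : ∀ i, OFam K u (fun k => X k i) 2 := fun i =>
    OFam.of_supp hK hu bseq_Gb (Xn i) (XL i) (XR i)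
  have hZ : ∀ i, ∃ Z, IsSum K (fun k => X k i) Z ∧ ‖Z‖ ≤ 2 := fun i => (XO i).exists_sum hK hu
  choose Z hZs hZn using hZ
  -- orthogonality
  have Xorth : ∀ i j k l, k ≠ l → star (X k i) * X l j = 0 := by
    intro i j k l hkl
    obtain ⟨s, hs⟩ := XL i k
    obtain ⟨t, ht⟩ := XL j l
    rw [hs, ht, star_mul, (hG k).star_eq]
    have h0 : Gb u k * Gb u l = 0 := BSeq.orth hu bseq_Gb hkl
    calc star s * Gb u k * (Gb u l * t) = star s * (Gb u k * Gb u l) * t := by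
          simp only [mul_assoc]
      _ = 0 := by rw [h0]; simp
  have hpX : ∀ i N, ‖∑ k ∈ Finset.range N, X k i‖ ≤ 2 := fun i N => (XO i).partial_le _
  have hpX' : ∀ i N, ‖∑ k ∈ Finset.range N, star (X k i)‖ ≤ 2 := by
    intro i N
    rw [← star_sum, norm_star]
    exact hpX i N
  have hprod : ∀ i j, IsSum K (fun k => star (X k i) * X k j) (star (Z i) * Z j) := fun i j =>
    IsSum.mul hK (IsSum.star hK (hZs i)) (hZs j) (hpX' i) (hpX j) (fun k l hkl => Xorth i j k l hkl)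
  have prL : ∀ i j k, ∃ s, star (X k i) * X k j = Gb u k * s := by
    intro i j k
    obtain ⟨t, ht⟩ := XR i k
    refine ⟨star t * X k j, ?_⟩
    have : star (X k i) = Gb u k * star t := by rw [ht, star_mul, (hG k).star_eq]
    rw [this, mul_assoc]
  have prR : ∀ i j k, ∃ t, star (X k i) * X k j = t * Gb u k := by
    intro i j k
    obtain ⟨t, ht⟩ := XR j k
    refine ⟨star (X k i) * t, ?_⟩
    rw [mul_assoc, ← ht]
  have hdiag : ∀ i, ‖star (Z i) * Z i - γ‖ ≤ 1 / 20 := by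
    intro i
    have hs := (hprod i i).sub hγs
    have hO : OFam K u (fun k => star (X k i) * X k i - g k) (1 / 20) := by
      refine OFam.of_supp hK hu bseq_Gb ?_ ?_ ?_
      · intro k
        have h1 := hX1 k i i
        rw [if_pos rfl] at h1
        have h2 : ‖pp (g k) (1 / 40) - g k‖ ≤ 1 / 40 := pp_sub (gpos k) (by norm_num)
        calc ‖star (X k i) * X k i - g k‖
            = ‖(star (X k i) * X k i - pp (g k) (1 / 40)) + (pp (g k) (1 / 40) - g k)‖ := by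
              rw [sub_add_sub_cancel]
          _ ≤ 1 / 40 + 1 / 40 := (norm_add_le _ _).trans (add_le_add h1 h2)
          _ = 1 / 20 := by norm_num
      · intro k
        obtain ⟨s, hs⟩ := prL i i k
        obtain ⟨t, ht⟩ := gL k
        exact ⟨s - t, by rw [hs, ht, mul_sub]⟩
      · intro k
        obtain ⟨s, hs⟩ := prR i i k
        obtain ⟨t, ht⟩ := gR k
        exact ⟨s - t, by rw [hs, ht, sub_mul]⟩
    exact hO.norm_le hK hs
  have hoff : ‖star (Z 0) * Z 1‖ ≤ 1 / 20 := by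
    have hO : OFam K u (fun k => star (X k 0) * X k 1) (1 / 20) := by
      refine OFam.of_supp hK hu bseq_Gb ?_ (prL 0 1) (prR 0 1)
      intro k
      have h1 := hX1 k 0 1
      rw [if_neg (by decide), sub_zero] at h1
      linarith
    exact hO.norm_le hK (hprod 0 1)
  -- the plateau
  have hrs : IsSum K (fun k => rmp (1 / 40) (g k)) (rmp (1 / 40) γ) :=
    IsSum.rmp hK hu gO gsa hγs (by norm_num)
  have hrO : OFam K u (fun k => rmp (1 / 40) (g k)) 1 := by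
    refine OFam.of_supp hK hu bseq_Gb (fun k => rmp_nm (gpos k) (by norm_num)) ?_ ?_
    · intro k
      obtain ⟨κ, -, -, hκ, -⟩ := rmp_factor (gpos k) (c := 1 / 40) (by norm_num)
      obtain ⟨s, hs⟩ := gL k
      refine ⟨s * κ, ?_⟩
      rw [hκ, hs, mul_assoc]
    · intro k
      obtain ⟨κ, -, hc, hκ, -⟩ := rmp_factor (gpos k) (c := 1 / 40) (by norm_num)
      obtain ⟨t, ht⟩ := gR k
      refine ⟨κ * t, ?_⟩
      rw [hκ, ← hc, mul_assoc, ← ht]
  have hfix : ∀ i, rmp (1 / 40) γ * Z i = Z i := by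
    intro i
    have hm : IsSum K (fun k => rmp (1 / 40) (g k) * X k i) (rmp (1 / 40) γ * Z i) := by
      refine IsSum.mul hK hrs (hZs i) (fun N => hrO.partial_le _) (hpX i) ?_
      intro k l hkl
      refine rmp_mul_eq_zero (gpos k) (by norm_num) ?_
      obtain ⟨s, hs⟩ := XL i l
      have h0 : Gb u k * Gb u l = 0 := BSeq.orth hu bseq_Gb hkl
      calc g k * X l i = Gb u k * y * (Gb u k * Gb u l) * s := by
            rw [hs]; simp only [hg, mul_assoc]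
        _ = 0 := by rw [h0]; simp
    exact (hm.congr (fun k => hX2 k i)).unique hK (hZs i)
  exact ⟨fun k => X k 0, Z 0, Z 1, γ, hγs, hZs 0, Xn 0, XL 0, XR 0, hγsa, hγn, hdiag 0, hdiag 1,
    hoff, hfix 0, hfix 1⟩

end MUP
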