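import Pool.Agent.MUP.QCC
import Pool.Agent.MUP.FR0
import Pool.Agent.MUP.DEL
import Pool.Agent.MUP.POS
import Pool.Agent.MUP.COM
import Pool.Agent.MUP.WAL
import Pool.Agent.MUP.MOD
import Pool.Agent.MUP.GSB
import Pool.Agent.MUP.ECM
import Pool.Agent.MUP.ESM

/-!
MUP / STG.  Existence of stages.

Let `F` be a finite subset of `M`, `A'` a finite subset of `K` and `τ > 0`.
1. For `j ∈ ℕ` let `δ' j > 0` be the number of `comm_modulus` for `c = 1/4`,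
   `ε = τ (1/2)^(j+2)`, `R = 2`.
2. `exists_delta M (τ, δ')` gives `δ`; let `u` be a quasi-central frame for the finite set
   `insert y F` and `δ`, with `‖u 1 * a - a‖ ≤ τ` for `a ∈ A'` (`exists_qc_frame`).
3. `exists_positions`; `comm_sum_le` with `δ_j = τ (1/2)^(j+1)` (sum `τ`) gives the field `comm`.
   `kill`: `FA * u 1 = 0` and `F1 * u 1 = 0` (they are strict sums of blocks `blk u p q` with
   `p > 1`, `blk_mul_u`, `IsSum.mul_right`, `IsSum.unique`), so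
   `‖FA a‖ = ‖FA (a - u 1 a)‖ ≤ τ` for `a ∈ A'`, and the same for `F1`.
4. `sandwich_sum` for `Nb, vb` gives `α, β` and `hα, hβ`; `exists_walls` gives `z1, Z1, Z2, γ`,
   and `sandwich_sum` for `Gb` together with `IsSum.unique` gives `hγ`.
5. `‖Z1^* Z1‖ ≤ 1 + 1/20`, so `g_sum`: `0 ≤ g = gel α Z1`, `‖g‖ ≤ 2`; `a_sum` and `bcop_sum`
   (with `D = Rb u`) give `copa`.
6. `comm_E_g`: `‖E_j g - g E_j‖ ≤ 2 ‖E_j y - y E_j‖ ≤ δ' j`, so with `f = rmp (1/4) g`,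
   `‖E_j f - f E_j‖ ≤ τ (1/2)^(j+2)` (`comm_modulus`; `‖E_j‖ ≤ 1`); `exists_b` gives `b`,
   `copb`, and `hb` since `2 ∑' τ (1/2)^(j+2) = τ`.
-/

open Filter Topology

namespace MUP

variable {M : Type*} [CStarAlgebra M] [PartialOrder M] [StarOrderedRing M] {K : Set M}

private lemma STG_kill {u : ℕ → M} {a D : M} (hD : ‖D‖ ≤ 1) (hDu : D * u 1 = 0) {τ : ℝ}
    (h : ‖u 1 * a - a‖ ≤ τ) : ‖D * a‖ ≤ τ := by
  have h1 : D * a = -(D * (u 1 * a - a)) := by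
    rw [mul_sub, ← mul_assoc, hDu, zero_mul, zero_sub, neg_neg]
  rw [h1, norm_neg]
  calc ‖D * (u 1 * a - a)‖ ≤ ‖D‖ * ‖u 1 * a - a‖ := norm_mul_le _ _
    _ ≤ 1 * τ := mul_le_mul hD h (norm_nonneg _) zero_le_one
    _ = τ := one_mul _

private lemma STG_geom (τ : ℝ) : Summable (fun j : ℕ => τ * (1 / 2 : ℝ) ^ (j + 1)) ∧
    ∑' j : ℕ, τ * (1 / 2 : ℝ) ^ (j + 1) = τ := by
  have h1 : Summable (fun j : ℕ => (1 / 2 : ℝ) ^ (j + 1)) := by
    simp only [pow_succ]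
    exact summable_geometric_two.mul_right _
  refine ⟨h1.mul_left _, ?_⟩
  rw [tsum_mul_left]
  simp only [pow_succ]
  rw [tsum_mul_right, tsum_geometric_two]
  ring

theorem exists_stage (hK : MultPair K) {w : ℕ → M} (hw : Frame K w)
    (hPI : ∀ c ∈ K, 0 ≤ c → ∀ n, Cop n c c) {y : M} (hy : 0 ≤ y) (hy1 : ‖y‖ ≤ 1)
    (F A' : Finset M) (hA : ∀ a ∈ A', a ∈ K) {τ : ℝ} (hτ : 0 < τ) :
    Nonempty (Stage y (↑F : Set M) (↑A' : Set M) τ) := by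
  classical
  -- 1. the moduli
  have hmod : ∀ j : ℕ, ∃ δ : ℝ, 0 < δ ∧ ∀ g E : M, 0 ≤ g → ‖g‖ ≤ 2 → ‖E‖ ≤ 1 →
      ‖E * g - g * E‖ ≤ δ → ‖E * rmp (1 / 4) g - rmp (1 / 4) g * E‖
        ≤ τ / 2 * (1 / 2) ^ (j + 1) := fun j =>
    comm_modulus M (c := 1 / 4) (ε := τ / 2 * (1 / 2) ^ (j + 1)) (R := 2) (by norm_num)
      (by positivity) (by norm_num)
  choose δ' hδ'pos hδ' using hmod
  -- 2. the frame
  obtain ⟨δ, hδpos, hδ⟩ := exists_delta M hτ hδ'pos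
  obtain ⟨u, hu, hcomm, hkill⟩ := exists_qc_frame hK hw (insert y F) A' hA hτ hδpos
  have hblk : ∀ x ∈ insert y F,
      (∀ D ∈ ({Nb u, FAb u, Feb u, vb u, Pb u, Gb u, F1b u} : Set (ℕ → M)),
        ∀ j, ‖D j * x - x * D j‖ ≤ τ * (1 / 2) ^ (j + 1)) ∧
      ∀ j, 2 * ‖Eb u j * x - x * Eb u j‖ ≤ δ' j := fun x hx =>
    hδ u x fun m => hcomm m x hx
  have hyF : y ∈ insert y F := Finset.mem_insert_self _ _
  obtain ⟨hsum1, hsum2⟩ := STG_geom τ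
  -- 3. positions
  obtain ⟨n, FA, Fe, v, P, G, F1, hrel, hn, hFA, hFe, hv, hP, hG, hF1⟩ :=
    exists_positions hK hu
  -- 4. α, β, γ and the walls
  obtain ⟨α, hαs, hαsa, hαn, hαy⟩ := sandwich_sum hK hu bseq_Nb hn hy.isSelfAdjoint hy1 hsum1
    ((hblk y hyF).1 (Nb u) (by simp))
  obtain ⟨β, hβs, hβsa, hβn, hβy⟩ := sandwich_sum hK hu bseq_vb hv hy.isSelfAdjoint hy1 hsum1
    ((hblk y hyF).1 (vb u) (by simp))
  obtain ⟨γ', hγ's, hγ'sa, hγ'n, hγ'y⟩ := sandwich_sum hK hu bseq_Gb hG hy.isSelfAdjoint hy1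
    hsum1 ((hblk y hyF).1 (Gb u) (by simp))
  obtain ⟨z1, Z1, Z2, γ, hγs, hZs, hzn, hz1, hz2, hγsa, hγn, hZ11, hZ22, hZ12, hqZ1, hqZ2⟩ :=
    exists_walls hK hu hPI hy hy1
  have hγγ' : γ' = γ := hγ's.unique hK hγs
  -- 5. g
  have hZn : ‖star Z1 * Z1‖ ≤ 21 / 20 := by
    calc ‖star Z1 * Z1‖ = ‖(star Z1 * Z1 - γ) + γ‖ := by rw [sub_add_cancel]
      _ ≤ ‖star Z1 * Z1 - γ‖ + ‖γ‖ := norm_add_le _ _
      _ ≤ 1 / 20 + 1 := add_le_add hZ11 hγn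
      _ = 21 / 20 := by norm_num
  obtain ⟨hg0, hgn, -⟩ := g_sum hK hu hy hy1 hαs hZs hzn hZn hz1 hz2
  obtain ⟨aj, haj, haj0, hajn, haj1, haj2⟩ := a_sum hK hu hy hy1 hαs hZs hzn hZn hz1 hz2
  have hcopa : BCop (pp (gel α Z1) (1 / 4)) :=
    bcop_sum hK hu bseq_Rb hPI haj hajn haj0 haj1 haj2
  -- 6. b
  have hEn : ∀ j, ‖Eb u j‖ ≤ 1 := fun j => (bseq_Eb (u := u)).nm hu j
  have hEf : ∀ j, ‖Eb u j * rmp (1 / 4) (gel α Z1) - rmp (1 / 4) (gel α Z1) * Eb u j‖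
      ≤ τ / 2 * (1 / 2) ^ (j + 1) := by
    intro j
    refine hδ' j _ _ hg0 hgn (hEn j) ?_
    exact (comm_E_g hK hu hαs hZs hzn hz1 hz2 j).trans ((hblk y hyF).2 j)
  obtain ⟨hsum3, hsum4⟩ := STG_geom (τ / 2)
  obtain ⟨b, hbsa, hbn, hbcop, hb⟩ := exists_b hK hu hPI hy hy1 (rmp_sa (1 / 4) (gel α Z1))
    (rmp_nm1 hg0 (by norm_num)) hβs hsum3 hEf
  rw [hsum4] at hb
  -- assemble
  have hcommle : ∀ m ∈ F, ∀ (D : M) (Db : ℕ → M), IsSum K Db D →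
      (∀ j, ‖Db j * m - m * Db j‖ ≤ τ * (1 / 2) ^ (j + 1)) → ‖D * m - m * D‖ ≤ τ := by
    intro m _ D Db hD hDb
    have := comm_sum_le hK hD m hsum1 hDb
    rwa [hsum2] at this
  refine ⟨{ n := n, FA := FA, Fe := Fe, v := v, P := P, G := G, F1 := F1, α := α, β := β, γ := γ,
            Z1 := Z1, Z2 := Z2, b := b, rel := hrel, comm := ?_, kill := ?_, sa_α := hαsa,
            sa_β := hβsa, sa_γ := hγsa, nm_α := hαn, nm_β := hβn, nm_γ := hγn,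
            hα := hsum2 ▸ hαy, hβ := hsum2 ▸ hβy, hγ := ?_, Z11 := hZ11, Z22 := hZ22,
            Z12 := hZ12, qZ1 := hqZ1, qZ2 := hqZ2, sa_b := hbsa, nm_b := hbn, hb := ?_,
            copa := hcopa, copb := hbcop }⟩
  · intro m hm D hD
    have hmF : m ∈ F := hm
    have hb := (hblk m (Finset.mem_insert_of_mem hmF)).1
    simp only [Set.mem_insert_iff, Set.mem_singleton_iff] at hD
    rcases hD with rfl | rfl | rfl | rfl | rfl | rfl | rfl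
    · exact hcommle m hmF _ _ hn (hb _ (by simp))
    · exact hcommle m hmF _ _ hFA (hb _ (by simp))
    · exact hcommle m hmF _ _ hFe (hb _ (by simp))
    · exact hcommle m hmF _ _ hv (hb _ (by simp))
    · exact hcommle m hmF _ _ hP (hb _ (by simp))
    · exact hcommle m hmF _ _ hG (hb _ (by simp))
    · exact hcommle m hmF _ _ hF1 (hb _ (by simp))
  · intro a ha
    have h1 := hkill a ha
    refine ⟨STG_kill hrel.nm_FA ?_ h1, STG_kill hrel.nm_F1 ?_ h1⟩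
    · exact kill_u hK hu (p := fun j => 40 * j + 12) (q := fun j => 40 * j + 29)
        (fun j => by omega) (fun j => by omega) hFA
    · exact kill_u hK hu (p := fun k => 20 * k + 3) (q := fun k => 20 * k + 18)
        (fun j => by omega) (fun j => by omega) hF1
  · rw [← hγγ']; rw [hsum2] at hγ'y; exact hγ'y
  · refine hb.trans (le_of_eq ?_)
    ring

end MUP
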